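import Pool.Agent.N550.KH.Stm

/-!
# Project KH: compactly supported diffeomorphisms act on manifolds
-/

set_option autoImplicit false

open Set Filter Topology Metric Function
open scoped Manifold ContDiff

noncomputable section

namespace Pool.Agent.N550.KH.Supp

open Pool.Agent.Y522 Pool.Agent.N550.KH

open Classical in
/-- the action of `κ` on `N` through the parametrization `h` -/
def act {X N : Type} (h : X → N) (κ : X → X) (x : N) : N :=
  if hx : x ∈ range h then h (κ hx.choose) else x

theorem act_range {X N : Type} {h : X → N} (hi : Injective h) (κ : X → X) (z : X) :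
    act h κ (h z) = h (κ z) := by
  have hx : h z ∈ range h := mem_range_self z
  have h1 : hx.choose = z := hi hx.choose_spec
  unfold act
  rw [dif_pos hx, h1]

theorem act_off {X N : Type} {h : X → N} (κ : X → X) {x : N} (hx : x ∉ range h) :
    act h κ x = x := by
  unfold act
  rw [dif_neg hx]

theorem main : S_SUPP := by
  intro n N _ _ _ h hi hh κ hκ hR
  obtain ⟨R, hR⟩ := hR
  obtain ⟨⟨κi, κs⟩, κld⟩ := hκ
  refine ⟨act h κ, ⟨⟨?_, ?_⟩, ?_⟩, act_range hi κ, fun x hx => act_off κ hx⟩
  · -- injective
    intro x y hxy
    by_cases hx : x ∈ range h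
    · obtain ⟨z, rfl⟩ := hx
      rw [act_range hi] at hxy
      by_cases hy : y ∈ range h
      · obtain ⟨w, rfl⟩ := hy
        rw [act_range hi] at hxy
        rw [κi (hi hxy)]
      · rw [act_off κ hy] at hxy
        exact absurd ⟨κ z, hxy⟩ hy
    · rw [act_off κ hx] at hxy
      by_cases hy : y ∈ range h
      · obtain ⟨w, rfl⟩ := hy
        rw [act_range hi] at hxy
        exact absurd ⟨κ w, hxy.symm⟩ hx
      · rw [act_off κ hy] at hxy
        exact hxy
  · -- surjective
    intro y
    by_cases hy : y ∈ range h
    · obtain ⟨w, rfl⟩ := hy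
      obtain ⟨z, rfl⟩ := κs w
      exact ⟨h z, act_range hi κ z⟩
    · exact ⟨y, act_off κ hy⟩
  · intro x
    by_cases hx : x ∈ range h
    · obtain ⟨z, rfl⟩ := hx
      have hg : ∀ w, invFun h (h w) = w := leftInverse_invFun hi
      have hopen : IsOpen (range h) := by
        rw [← image_univ]
        exact isOpen_image_of_LD isOpen_univ fun x _ => hh x
      have h1 : LD n (invFun h) (h z) :=
        LD.inverse isOpen_univ (fun x _ => hh x) (fun x _ => hg x) (mem_univ z)
      have h2 : LD n (fun y => κ (invFun h y)) (h z) := LD.comp_fun (κld _) h1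
      have h3 : LD n (fun y => h (κ (invFun h y))) (h z) := LD.comp_fun (hh _) h2
      refine h3.congr ?_
      filter_upwards [hopen.mem_nhds (mem_range_self z)] with y hy
      obtain ⟨w, rfl⟩ := hy
      rw [act_range hi, hg]
    · have hcont : Continuous h := continuous_iff_continuousAt.2 fun z => (hh z).continuousAt
      have hC : IsClosed (h '' closedBall 0 (max R 0)) :=
        ((isCompact_closedBall 0 (max R 0)).image hcont).isClosed
      have hxC : x ∈ (h '' closedBall 0 (max R 0))ᶜ := by
        rintro ⟨z, _, rfl⟩
        exact hx (mem_range_self z)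
      refine (LD.id x).congr ?_
      filter_upwards [hC.isOpen_compl.mem_nhds hxC] with y hy
      by_cases hyr : y ∈ range h
      · obtain ⟨w, rfl⟩ := hyr
        rw [act_range hi, hR w]
        by_contra hw
        push Not at hw
        apply hy
        refine ⟨w, ?_, rfl⟩
        rw [mem_closedBall_zero_iff]
        exact hw.le.trans (le_max_left _ _)
      · exact act_off κ hyr

end Pool.Agent.N550.KH.Supp
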