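import Pool.Agent.N550.KH.Stm
import Pool.Agent.N550.SH.Cross
import Pool.Agent.N550.SH.Moeb

/-!
# Project KH: extension of an end, with one exceptional point
-/

set_option autoImplicit false

open Set Filter Topology Metric Function MeasureTheory
open scoped Manifold ContDiff ENNReal NNReal

noncomputable section

namespace Pool.Agent.N550.KH.End

open Pool.Agent.Y522 Pool.Agent.N550.KH Pool.Agent.N550.SH.Moeb

variable {n : ℕ}

theorem Iv_zero : Iv (0 : E n) = 0 := by simp [Iv]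

theorem Iv_Iv' (z : E n) : Iv (Iv z) = z := by
  by_cases h : z = 0
  · rw [h, Iv_zero, Iv_zero]
  · exact Iv_Iv h

theorem norm_Iv (z : E n) : ‖Iv z‖ = ‖z‖⁻¹ := by
  by_cases h : z = 0
  · rw [h, Iv_zero]; simp
  · have h0 := norm_pos_iff.2 h
    rw [Iv, norm_smul, norm_inv, norm_pow, norm_norm]
    field_simp

theorem tendsto_Iv_cobounded : Tendsto (Iv : E n → E n) (Bornology.cobounded (E n)) (𝓝 0) := by
  rw [tendsto_zero_iff_norm_tendsto_zero]
  simp only [norm_Iv]
  exact tendsto_inv_atTop_zero.comp tendsto_norm_cobounded_atTop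

theorem tendsto_Iv_zero : Tendsto (Iv : E n → E n) (𝓝[≠] 0) (Bornology.cobounded (E n)) := by
  rw [← tendsto_norm_atTop_iff_cobounded]
  simp only [norm_Iv]
  refine tendsto_inv_nhdsGT_zero.comp ?_
  refine tendsto_nhdsWithin_of_tendsto_nhds_of_eventually_within _ ?_ ?_
  · have := (continuous_norm (E := E n)).tendsto 0
    rw [norm_zero] at this
    exact this.mono_left nhdsWithin_le_nhds
  · filter_upwards [self_mem_nhdsWithin] with z hz
    exact norm_pos_iff.2 hz

/-- conjugation by the inversion -/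
theorem conj_cont (F : E n ≃ₜ E n) (h0 : F 0 = 0) : Continuous fun z => Iv (F (Iv z)) := by
  rw [continuous_iff_continuousAt]
  intro z
  by_cases hz : z = 0
  · subst hz
    rw [continuousAt_iff_punctured_nhds, Iv_zero, h0, Iv_zero]
    have h1 : Tendsto F (Bornology.cobounded (E n)) (Bornology.cobounded (E n)) := by
      rw [Metric.cobounded_eq_cocompact]
      exact F.isClosedEmbedding.tendsto_cocompact
    exact tendsto_Iv_cobounded.comp (h1.comp tendsto_Iv_zero)
  · have h1 : ContinuousAt (Iv : E n → E n) z := (contDiffAt_Iv hz).continuousAt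
    have h2 : F (Iv z) ≠ 0 := by
      intro h
      rw [← h0] at h
      exact Iv_ne hz (F.injective h)
    have h3 : ContinuousAt (Iv : E n → E n) (F (Iv z)) := (contDiffAt_Iv h2).continuousAt
    exact ContinuousAt.comp (g := Iv) (f := fun z => F (Iv z)) h3
      (ContinuousAt.comp (g := F) (f := Iv) F.continuous.continuousAt h1)

/-- the conjugate of a homeomorphism by the inversion -/
def conjH (F : E n ≃ₜ E n) (h0 : F 0 = 0) : E n ≃ₜ E n where
  toFun z := Iv (F (Iv z))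
  invFun z := Iv (F.symm (Iv z))
  left_inv z := by simp [Iv_Iv']
  right_inv z := by simp [Iv_Iv']
  continuous_toFun := conj_cont F h0
  continuous_invFun := conj_cont F.symm (by
    have h := F.symm_apply_apply 0
    rwa [h0] at h)

/-- a bijective local diffeomorphism as a homeomorphism -/
def homeoOf (G : E n → E n) (hb : Bijective G) (hd : ∀ x, LD n G x) : E n ≃ₜ E n where
  toEquiv := Equiv.ofBijective G hb
  continuous_toFun := continuous_iff_continuousAt.2 fun x => (hd x).continuousAt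
  continuous_invFun := continuous_iff_continuousAt.2 fun y =>
    (LD.inverse_bij hb hd (g := (Equiv.ofBijective G hb).symm)
      (fun x => (Equiv.ofBijective G hb).symm_apply_apply x) y).continuousAt

theorem homeoOf_apply (G : E n → E n) (hb : Bijective G) (hd : ∀ x, LD n G x) (x : E n) :
    homeoOf G hb hd x = G x := rfl

theorem homeoOf_symm_LD (G : E n → E n) (hb : Bijective G) (hd : ∀ x, LD n G x) (y : E n) :
    LD n (homeoOf G hb hd).symm y :=
  LD.inverse_bij hb hd (fun x => (Equiv.ofBijective G hb).symm_apply_apply x) y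

/-- the diffeomorphism of `E n` onto the ball of radius `ρ` -/
def jb (ρ : ℝ) (z : E n) : E n := ρ • (OpenPartialHomeomorph.univUnitBall z : E n)

theorem jb_zero (ρ : ℝ) : jb ρ (0 : E n) = 0 := by
  unfold jb
  rw [OpenPartialHomeomorph.univUnitBall_apply_zero, smul_zero]

theorem jb_left (ρ : ℝ) (hρ : 0 < ρ) (z : E n) :
    (OpenPartialHomeomorph.univUnitBall (E := E n)).symm (ρ⁻¹ • jb ρ z) = z := by
  unfold jb
  rw [smul_smul, inv_mul_cancel₀ hρ.ne', one_smul]
  exact OpenPartialHomeomorph.univUnitBall.left_inv (mem_univ z)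

theorem jb_inj (ρ : ℝ) (hρ : 0 < ρ) : Injective (jb ρ : E n → E n) := fun x y h => by
  rw [← jb_left ρ hρ x, h, jb_left ρ hρ y]

theorem jb_norm (ρ : ℝ) (hρ : 0 < ρ) (z : E n) : ‖jb ρ z‖ < ρ := by
  unfold jb
  have h : (OpenPartialHomeomorph.univUnitBall z : E n) ∈ ball (0 : E n) 1 :=
    OpenPartialHomeomorph.univUnitBall.map_source (mem_univ z)
  rw [mem_ball_zero_iff] at h
  rw [norm_smul, Real.norm_of_nonneg hρ.le]
  exact mul_lt_of_lt_one_right hρ h

theorem jb_surj (ρ : ℝ) (hρ : 0 < ρ) (w : E n) (hw : ‖w‖ < ρ) : ∃ z, jb ρ z = w := by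
  have h1 : ρ⁻¹ • w ∈ (OpenPartialHomeomorph.univUnitBall (E := E n)).target := by
    show ρ⁻¹ • w ∈ ball (0 : E n) 1
    rw [mem_ball_zero_iff, norm_smul, norm_inv, Real.norm_of_nonneg hρ.le, inv_mul_lt_iff₀ hρ]
    simpa using hw
  refine ⟨(OpenPartialHomeomorph.univUnitBall (E := E n)).symm (ρ⁻¹ • w), ?_⟩
  unfold jb
  rw [OpenPartialHomeomorph.univUnitBall.right_inv h1, smul_smul, mul_inv_cancel₀ hρ.ne', one_smul]

theorem jb_LD (ρ : ℝ) (hρ : 0 < ρ) (z : E n) : LD n (jb ρ) z := by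
  refine LD_of_left (g := fun w => (OpenPartialHomeomorph.univUnitBall (E := E n)).symm (ρ⁻¹ • w))
    ?_ ?_ ?_
  · refine Eventually.of_forall fun y => ?_
    exact (OpenPartialHomeomorph.contDiff_univUnitBall.contDiffAt).const_smul ρ
  · have h1 : ρ⁻¹ • jb ρ z ∈ ball (0 : E n) 1 := by
      rw [mem_ball_zero_iff, norm_smul, norm_inv, Real.norm_of_nonneg hρ.le, inv_mul_lt_iff₀ hρ]
      simpa using jb_norm ρ hρ z
    have h2 : ContDiffAt ℝ 1 (OpenPartialHomeomorph.univUnitBall (E := E n)).symm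
        (ρ⁻¹ • jb ρ z) :=
      (OpenPartialHomeomorph.contDiffOn_univUnitBall_symm (n := 1)).contDiffAt
        (isOpen_ball.mem_nhds h1)
    have h3 := (h2.differentiableAt (by simp))
    exact h3.comp _ (differentiableAt_id.const_smul ρ⁻¹)
  · exact Eventually.of_forall fun y => jb_left ρ hρ y

/-- a homeomorphism of the Euclidean space onto an open subset, smooth off one point, can be
replaced by a diffeomorphism -/
theorem open_one (f : E n → E n) (hf : IsOpenEmbedding f) (hd : ∀ z, z ≠ 0 → LD n f z) :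
    ∃ (ψ : E n → E n) (F₀ : E n ≃ₜ E n), Injective ψ ∧ (∀ z, LD n ψ z) ∧
      (∀ z, ψ (F₀ z) = f z) ∧ ∀ z, z ≠ 0 → LD n F₀ z := by
  set U : TopologicalSpace.Opens (E n) := ⟨range f, hf.isOpen_range⟩ with hU
  set H : U ≃ₜ E n := hf.isEmbedding.toHomeomorph.symm with hH
  have hHf : ∀ u : U, f (H u) = u.1 := by
    intro u
    have h1 : hf.isEmbedding.toHomeomorph (H u) = u := Homeomorph.apply_symm_apply _ u
    exact congrArg Subtype.val h1
  obtain ⟨g, hg⟩ : ∃ g : E n → E n, ∀ x, g (f x) = x :=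
    ⟨invFun f, fun x => leftInverse_invFun hf.injective x⟩
  have hgd : ∀ x, x ≠ 0 → LD n g (f x) := fun x hx =>
    LD.inverse isOpen_ne (fun y hy => hd y hy) (fun y _ => hg y) hx
  have hHg : ∀ u : U, H u = g u.1 := fun u => by rw [← hHf u, hg]
  have hbad : {u : U | ¬ ∀ᶠ y in 𝓝 u, ContMDiffAt (𝓡 n) (𝓡 n) ∞ H y} ⊆ {H.symm 0} := by
    intro u hu
    by_contra hne
    apply hu
    have h1 : ∀ᶠ y in 𝓝 u, y ≠ H.symm 0 := isOpen_ne.mem_nhds hne
    filter_upwards [h1] with y hy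
    have h2 : H y ≠ 0 := fun h => hy (by rw [← h]; simp)
    have h3 : LD n g y.1 := by
      have := hgd _ h2
      rwa [hHf] at this
    have h4 : LD n (fun u : U => g u.1) y :=
      LD.comp_fun (g := g) (f := (Subtype.val : U → E n)) h3 (Pool.Agent.N550.SH.ld_opens U y)
    have h5 : (H : U → E n) = fun u : U => g u.1 := funext hHg
    rw [h5]
    exact h4.contMDiffAt
  have hB : Measure.hausdorffMeasure 1
      (H '' {u : U | ¬ ∀ᶠ y in 𝓝 u, ContMDiffAt (𝓡 n) (𝓡 n) ∞ H y}) = 0 := by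
    have h1 : H '' {u : U | ¬ ∀ᶠ y in 𝓝 u, ContMDiffAt (𝓡 n) (𝓡 n) ∞ H y} ⊆ {(0 : E n)} := by
      rintro _ ⟨u, hu, rfl⟩
      have := hbad hu
      rw [mem_singleton_iff] at this
      rw [this]; simp
    have : NullSingletonClass (Measure.hausdorffMeasure 1 : Measure (E n)) :=
      Measure.nullSingletonClass_hausdorff (E n) one_pos
    exact measure_mono_null h1 (measure_singleton _)
  obtain ⟨Ψ⟩ := Pool.Agent.N550.SH.open_version n U H hB
  refine ⟨fun y => (Ψ.symm y : E n), H.symm.trans Ψ.toHomeomorph,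
    Subtype.val_injective.comp Ψ.symm.injective, fun z => ?_, fun z => ?_, fun z hz => ?_⟩
  · exact LD.comp_fun (Pool.Agent.N550.SH.ld_opens U (Ψ.symm z)) (Ψ.symm.isLocalDiffeomorph z)
  · show ((Ψ.symm (Ψ (H.symm z)) : U) : E n) = f z
    rw [Ψ.symm_apply_apply]
    rw [← hHf, Homeomorph.apply_symm_apply]
  · have h1 : LD n Ψ (H.symm z) := Ψ.isLocalDiffeomorph _
    -- `H.symm` is a local diffeomorphism
    have h2 : LD n (H.symm : E n → U) z := by
      have h3 : LD n (H : U → E n) (H.symm z) := by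
        have h4 : (H : U → E n) = fun u : U => g u.1 := funext hHg
        rw [h4]
        refine LD.comp_fun (g := g) (f := (Subtype.val : U → E n)) ?_
          (Pool.Agent.N550.SH.ld_opens U _)
        have h5 := hgd z hz
        have h6 : f z = (H.symm z).1 := by rw [← hHf, Homeomorph.apply_symm_apply]
        rwa [h6] at h5
      obtain ⟨q, hq1, hq2, hq3, hq4⟩ := h3.exists_inverse
      rw [Homeomorph.apply_symm_apply] at hq1 hq2 hq4
      refine hq1.congr ?_
      filter_upwards [hq4] with w hw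
      rw [← hw, Homeomorph.symm_apply_apply, hw]
    exact LD.comp_fun (g := (Ψ : U → E n)) (f := (H.symm : E n → U)) h1 h2

theorem main : S_END := by
  intro n e R hn hinj hld hprop hsurj
  -- a large radius
  obtain ⟨R₀, hR₀R, hR₀1, hR₀e⟩ : ∃ R₀ : ℝ, R ≤ R₀ ∧ 1 ≤ R₀ ∧ ∀ y, R₀ < ‖y‖ → 1 < ‖e y‖ := by
    have h1 : Tendsto (fun y => ‖e y‖) (Bornology.cobounded (E n)) atTop := by
      refine tendsto_norm_cobounded_atTop.comp ?_
      rw [Metric.cobounded_eq_cocompact]
      exact hprop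
    have h2 : ∀ᶠ y in Bornology.cobounded (E n), 1 < ‖e y‖ := h1.eventually (eventually_gt_atTop 1)
    obtain ⟨r, -, hr⟩ := (Metric.hasBasis_cobounded_compl_closedBall (0 : E n)).eventually_iff.1 h2
    refine ⟨max (max R 1) r, (le_max_left _ _).trans (le_max_left _ _),
      (le_max_right _ _).trans (le_max_left _ _), fun y hy => hr ?_⟩
    have : r < ‖y‖ := lt_of_le_of_lt (le_max_right _ _) hy
    simpa using this
  have hR₀ : 0 < R₀ := by linarith
  set ρ := R₀⁻¹ with hρd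
  have hρ : 0 < ρ := inv_pos.2 hR₀
  have hbig : ∀ z : E n, z ≠ 0 → ‖z‖ < ρ → R₀ < ‖Iv z‖ := by
    intro z hz h
    have h0 := norm_pos_iff.2 hz
    rw [norm_Iv, ← inv_inv R₀]
    exact inv_strictAnti₀ h0 h
  set e' : E n → E n := fun z => if z = 0 then 0 else Iv (e (Iv z)) with he'
  have he'0 : e' 0 = 0 := by simp [he']
  have he'z : ∀ z, z ≠ 0 → e' z = Iv (e (Iv z)) := fun z hz => by simp [he', hz]
  have hene : ∀ z : E n, z ≠ 0 → ‖z‖ < ρ → e (Iv z) ≠ 0 := by
    intro z hz h h0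
    have := hR₀e _ (hbig z hz h)
    rw [h0, norm_zero] at this
    linarith
  have he'ne : ∀ z : E n, z ≠ 0 → ‖z‖ < ρ → e' z ≠ 0 := fun z hz h => by
    rw [he'z z hz]; exact Iv_ne (hene z hz h)
  have he'inj : InjOn e' (ball 0 ρ) := by
    intro x hx y hy hxy
    rw [mem_ball_zero_iff] at hx hy
    by_cases hx0 : x = 0
    · by_cases hy0 : y = 0
      · rw [hx0, hy0]
      · rw [hx0, he'0] at hxy
        exact absurd hxy.symm (he'ne y hy0 hy)
    · by_cases hy0 : y = 0
      · rw [hy0, he'0] at hxy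
        exact absurd hxy (he'ne x hx0 hx)
      · rw [he'z x hx0, he'z y hy0] at hxy
        have h1 : e (Iv x) = e (Iv y) := by
          rw [← Iv_Iv' (e (Iv x)), hxy, Iv_Iv']
        have h2 : Iv x = Iv y := hinj (lt_of_le_of_lt hR₀R (hbig x hx0 hx))
          (lt_of_le_of_lt hR₀R (hbig y hy0 hy)) h1
        rw [← Iv_Iv' x, h2, Iv_Iv']
  have he'ld : ∀ z : E n, z ≠ 0 → ‖z‖ < ρ → LD n e' z := by
    intro z hz h
    have h1 : LD n (fun z => Iv (e (Iv z))) z :=
      LD.comp_fun (g := Iv) (f := fun z => e (Iv z)) (LD_Iv (hene z hz h))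
        (LD.comp_fun (g := e) (f := Iv) (hld _ (lt_of_le_of_lt hR₀R (hbig z hz h))) (LD_Iv hz))
    refine h1.congr ?_
    filter_upwards [isOpen_ne.mem_nhds hz] with y hy
    exact he'z y hy
  have he'c0 : ContinuousAt e' 0 := by
    rw [continuousAt_iff_punctured_nhds, he'0]
    have h1 : Tendsto (fun z => Iv (e (Iv z))) (𝓝[≠] (0 : E n)) (𝓝 0) := by
      refine tendsto_Iv_cobounded.comp (Tendsto.comp ?_ tendsto_Iv_zero)
      rw [Metric.cobounded_eq_cocompact]
      exact hprop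
    refine h1.congr' ?_
    filter_upwards [self_mem_nhdsWithin] with z hz
    exact (he'z z hz).symm
  have he'open : ∀ r : ℝ, 0 < r → ∃ δ : ℝ, 0 < δ ∧ ball 0 δ ⊆ e' '' ball 0 r := by
    intro r hr
    obtain ⟨A, hA⟩ := hsurj r⁻¹
    refine ⟨(max A 1)⁻¹, inv_pos.2 (lt_of_lt_of_le one_pos (le_max_right _ _)), fun w hw => ?_⟩
    rw [mem_ball_zero_iff] at hw
    by_cases hw0 : w = 0
    · exact ⟨0, mem_ball_self hr, by rw [he'0, hw0]⟩
    · have h0 := norm_pos_iff.2 hw0
      have h1 : A < ‖Iv w‖ := by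
        rw [norm_Iv]
        refine lt_of_le_of_lt (le_max_left A 1) ?_
        rw [← inv_inv (max A 1)]
        exact inv_strictAnti₀ h0 hw
      obtain ⟨y, hy, hyw⟩ := hA _ h1
      have hy0 : y ≠ 0 := by
        intro h
        rw [h, norm_zero] at hy
        exact absurd hy (not_lt.2 (inv_nonneg.2 hr.le))
      refine ⟨Iv y, ?_, ?_⟩
      · rw [mem_ball_zero_iff, norm_Iv]
        have := inv_strictAnti₀ (inv_pos.2 hr) hy
        rwa [inv_inv] at this
      · rw [he'z _ (Iv_ne hy0), Iv_Iv', hyw, Iv_Iv']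
  -- the open embedding
  set f : E n → E n := fun z => e' (jb ρ z) with hf
  have hjne : ∀ z : E n, z ≠ 0 → jb ρ z ≠ 0 := fun z hz h => hz (jb_inj ρ hρ (by
    rw [h, jb_zero]))
  have hfld : ∀ z, z ≠ 0 → LD n f z := fun z hz =>
    LD.comp_fun (g := e') (f := jb ρ) (he'ld _ (hjne z hz) (jb_norm ρ hρ z)) (jb_LD ρ hρ z)
  have hfinj : Injective f := fun x y h => jb_inj ρ hρ
    (he'inj (mem_ball_zero_iff.2 (jb_norm ρ hρ x)) (mem_ball_zero_iff.2 (jb_norm ρ hρ y)) h)
  have hfc : Continuous f := by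
    rw [continuous_iff_continuousAt]
    intro z
    by_cases hz : z = 0
    · subst hz
      refine ContinuousAt.comp (g := e') (f := jb ρ) ?_ (jb_LD ρ hρ 0).continuousAt
      rw [jb_zero]
      exact he'c0
    · exact (hfld z hz).continuousAt
  have hfo : IsOpenMap f := by
    rw [isOpenMap_iff_nhds_le]
    intro z s hs
    rw [mem_map] at hs
    by_cases hz : z = 0
    · subst hz
      -- a ball in the preimage
      have h1 : jb ρ '' (f ⁻¹' s) ∈ 𝓝 (jb ρ (0 : E n)) := (jb_LD ρ hρ 0).image_mem_nhds hs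
      rw [jb_zero] at h1
      obtain ⟨r, hr, hrs⟩ := Metric.mem_nhds_iff.1 h1
      obtain ⟨δ, hδ, hδs⟩ := he'open r hr
      have hf0 : f 0 = 0 := by show e' (jb ρ 0) = 0; rw [jb_zero, he'0]
      rw [hf0]
      refine mem_of_superset (ball_mem_nhds 0 hδ) ?_
      intro w hw
      obtain ⟨y, hy, rfl⟩ := hδs hw
      obtain ⟨x, hx, hxy⟩ := hrs hy
      have : f x = e' y := by rw [← hxy]
      rw [← this]
      exact hx
    · refine mem_of_superset ((hfld z hz).image_mem_nhds hs) ?_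
      exact image_preimage_subset f s
  have hfe : IsOpenEmbedding f := IsOpenEmbedding.of_continuous_injective_isOpenMap hfc hfinj hfo
  obtain ⟨ψ, F₀, hψi, hψd, hψF, hF₀⟩ := open_one f hfe hfld
  have hExt : StExt := Pool.Agent.Y784.SH.ext Pool.Agent.Y248.SH.germ
  obtain ⟨G₁, hG₁b, hG₁d, hG₁⟩ := hExt n ψ hψi hψd (‖F₀ 0‖ + 1)
  obtain ⟨G₂, hG₂b, hG₂d, hG₂⟩ := hExt n (jb ρ) (jb_inj ρ hρ) (jb_LD ρ hρ) 1
  set g₁ := homeoOf G₁ hG₁b hG₁d with hg₁
  set g₂ := homeoOf G₂ hG₂b hG₂d with hg₂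
  set F : E n ≃ₜ E n := g₂.symm.trans (F₀.trans g₁) with hF
  have hg₂0 : g₂ 0 = 0 := by
    show G₂ 0 = 0
    rw [hG₂ 0 (by simp), jb_zero]
  have hg₂s : g₂.symm 0 = 0 := by
    rw [← hg₂0, Homeomorph.symm_apply_apply, hg₂0]
  have hFeq : ∀ᶠ z in 𝓝 (0 : E n), F z = e' z := by
    have h1 : ∀ᶠ w in 𝓝 (0 : E n), ‖w‖ ≤ 1 ∧ ‖F₀ w‖ ≤ ‖F₀ 0‖ + 1 := by
      refine Filter.Eventually.and ?_ ?_
      · filter_upwards [ball_mem_nhds (0 : E n) one_pos] with w hw
        exact (mem_ball_zero_iff.1 hw).le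
      · have h2 : ContinuousAt (fun w => ‖F₀ w‖) 0 := (F₀.continuous.norm).continuousAt
        filter_upwards [h2.eventually (gt_mem_nhds (show ‖F₀ 0‖ < ‖F₀ 0‖ + 1 by linarith))] with w hw
        exact hw.le
    have h3 : Tendsto g₂.symm (𝓝 0) (𝓝 0) := by
      have := g₂.symm.continuous.tendsto 0
      rwa [hg₂s] at this
    filter_upwards [h3.eventually h1] with z hz
    show G₁ (F₀ (g₂.symm z)) = e' z
    rw [hG₁ _ hz.2, hψF]
    show e' (jb ρ (g₂.symm z)) = e' z
    rw [← hG₂ _ hz.1]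
    congr 1
    exact g₂.apply_symm_apply z
  have hF0 : F 0 = 0 := by rw [hFeq.self_of_nhds, he'0]
  have hFld : ∀ z, z ≠ 0 → LD n F z := by
    intro z hz
    have h1 : g₂.symm z ≠ 0 := by
      intro h
      apply hz
      rw [← g₂.apply_symm_apply z, h, hg₂0]
    have h2 : LD n (fun z => F₀ (g₂.symm z)) z :=
      LD.comp_fun (g := F₀) (f := g₂.symm) (hF₀ _ h1) (homeoOf_symm_LD G₂ hG₂b hG₂d z)
    exact LD.comp_fun (g := G₁) (f := fun z => F₀ (g₂.symm z)) (hG₁d _) h2
  refine ⟨conjH F hF0, fun z hz => ?_, ?_⟩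
  · have h1 : F (Iv z) ≠ 0 := by
      intro h
      rw [← hF0] at h
      exact Iv_ne hz (F.injective h)
    exact LD.comp_fun (g := Iv) (f := fun z => F (Iv z)) (LD_Iv h1)
      (LD.comp_fun (g := F) (f := Iv) (hFld _ (Iv_ne hz)) (LD_Iv hz))
  · have h1 : ∀ᶠ z in Bornology.cobounded (E n), F (Iv z) = e' (Iv z) :=
      tendsto_Iv_cobounded.eventually hFeq
    obtain ⟨r, -, hr⟩ := (Metric.hasBasis_cobounded_compl_closedBall (0 : E n)).eventually_iff.1 h1
    refine ⟨max r 0, fun z hz => ?_⟩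
    have h2 : r < ‖z‖ := lt_of_le_of_lt (le_max_left _ _) hz
    have h3 : 0 < ‖z‖ := lt_of_le_of_lt (le_max_right _ _) hz
    have h4 := hr (show z ∈ (closedBall (0 : E n) r)ᶜ by simpa using h2)
    show Iv (F (Iv z)) = e z
    rw [h4, he'z _ (Iv_ne (norm_pos_iff.1 h3)), Iv_Iv', Iv_Iv']

end Pool.Agent.N550.KH.End
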