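import Pool.Agent.N550.KH.Stm

/-!
# Project KH: assembly over the complementary cells (helper273)
-/

set_option autoImplicit false

open Set Filter Topology Metric Function
open scoped Manifold ContDiff

noncomputable section

namespace Pool.Agent.N550.KH.Asm

open Pool.Agent.Y522 Pool.Agent.N550.KH

section cell

variable {n : ℕ} {N : Type} [TopologicalSpace N] [ChartedSpace (E n) N] {c : E n → N}

theorem cont (hc : ∀ z, LD n c z) : Continuous c :=
  continuous_iff_continuousAt.2 fun z => (hc z).continuousAt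

theorem isOpenEmb (hi : Injective c) (hc : ∀ z, LD n c z) : IsOpenEmbedding c :=
  IsOpenEmbedding.of_continuous_injective_isOpenMap (cont hc) hi fun s hs =>
    isOpen_image_of_LD hs fun x _ => hc x

/-- neighbourhoods of the complement of a cell contain the far part of the cell -/
theorem far [CompactSpace N] (hi : Injective c) (hc : ∀ z, LD n c z) {W : Set N} (hW : IsOpen W)
    (hX : (range c)ᶜ ⊆ W) : ∃ R : ℝ, 0 < R ∧ ∀ z, R < ‖z‖ → c z ∈ W := by
  have h1 : IsCompact Wᶜ := hW.isClosed_compl.isCompact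
  have h2 : Wᶜ ⊆ range c := by
    rw [compl_subset_comm]; exact hX
  have h3 : IsCompact (c ⁻¹' Wᶜ) := ((isOpenEmb hi hc).isInducing.isCompact_preimage_iff h2).2 h1
  obtain ⟨R, hR⟩ := h3.isBounded.subset_closedBall (0 : E n)
  refine ⟨max R 1, lt_max_of_lt_right one_pos, fun z hz => ?_⟩
  by_contra h
  have h4 := hR (show z ∈ c ⁻¹' Wᶜ from h)
  rw [mem_closedBall_zero_iff] at h4
  exact absurd (h4.trans (le_max_left _ _)) (not_le.2 hz)

theorem cell_far_open [T2Space N] (hi : Injective c) (hc : ∀ z, LD n c z) (R : ℝ) :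
    IsOpen ((range c)ᶜ ∪ c '' {z | R < ‖z‖}) := by
  have h1 : (range c)ᶜ ∪ c '' {z | R < ‖z‖} = (c '' closedBall 0 R)ᶜ := by
    ext x
    constructor
    · rintro (hx | ⟨z, hz, rfl⟩)
      · rintro ⟨z, -, rfl⟩
        exact hx ⟨z, rfl⟩
      · rintro ⟨w, hw, hwz⟩
        rw [hi hwz, mem_closedBall_zero_iff] at hw
        exact absurd hw (not_le.2 hz)
    · intro hx
      by_cases h : x ∈ range c
      · obtain ⟨z, rfl⟩ := h
        right
        refine ⟨z, ?_, rfl⟩
        show R < ‖z‖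
        by_contra h
        exact hx ⟨z, by rw [mem_closedBall_zero_iff]; exact not_lt.1 h, rfl⟩
      · exact Or.inl h
  rw [h1]
  exact ((isCompact_closedBall _ _).image (cont hc)).isClosed.isOpen_compl

end cell

theorem main : S_END → S_ASM := by
  intro hEND n M N _ _ _ _ _ _ _ _ X' X c' c g hn hne hi' hc' hr' hi hc hr hg hgi hgX
  classical
  have hXc : (range c)ᶜ = X := by rw [hr, compl_compl]
  have hXc' : (range c')ᶜ = X' := by rw [hr', compl_compl]
  have hX'cl : IsClosed X' := by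
    rw [← hXc']
    exact (isOpenEmb hi' hc').isOpen_range.isClosed_compl
  have hX'cp : IsCompact X' := hX'cl.isCompact
  -- (1)
  obtain ⟨t, ht, hti⟩ := hgi.exists_mem_nhdsSet hX'cp (fun x hx => (hg x hx).continuousAt)
    (fun x hx => (hg x hx).eventually_injOn)
  have hLDo : IsOpen {x | LD n g x} := isOpen_iff_mem_nhds.2 fun x hx => LD.eventually hx
  set U : Set M := interior t ∩ {x | LD n g x} with hU
  have hUo : IsOpen U := isOpen_interior.inter hLDo
  have hX'U : X' ⊆ U := fun x hx => ⟨(subset_interior_iff_mem_nhdsSet.2 ht) hx, hg x hx⟩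
  have hUi : InjOn g U := hti.mono (inter_subset_left.trans interior_subset)
  have hUd : ∀ x ∈ U, LD n g x := fun x hx => hx.2
  have hUc : ContinuousOn g U := fun x hx => (hUd x hx).continuousAt.continuousWithinAt
  -- (2)
  obtain ⟨R, hR, hRU⟩ := far hi' hc' hUo (hXc'.subset.trans hX'U)
  have hnX : ∀ z, c' z ∉ X' := fun z h => by
    rw [← hXc'] at h
    exact h ⟨z, rfl⟩
  have hnX2 : ∀ w, c w ∉ X := fun z h => by
    rw [← hXc] at h
    exact h ⟨z, rfl⟩
  have hrange : ∀ z, R < ‖z‖ → g (c' z) ∈ range c := by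
    intro z hz
    by_contra h
    have h1 : g (c' z) ∈ X := by rw [← hXc]; exact h
    rw [← hgX] at h1
    obtain ⟨x, hx, hxz⟩ := h1
    exact hnX z ((hUi (hX'U hx) (hRU z hz) hxz) ▸ hx)
  -- the inverses of the cells
  set p : N → E n := invFun c with hp
  have hpc : ∀ w, p (c w) = w := leftInverse_invFun hi
  set p' : M → E n := invFun c' with hp'
  have hpc' : ∀ w, p' (c' w) = w := leftInverse_invFun hi'
  set e : E n → E n := fun z => p (g (c' z)) with he
  have hce : ∀ z, R < ‖z‖ → c (e z) = g (c' z) := by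
    intro z hz
    obtain ⟨w, hw⟩ := hrange z hz
    rw [he]
    simp only
    rw [← hw, hpc]
  have hei : InjOn e {z | R < ‖z‖} := by
    intro z hz w hw hzw
    have h1 : g (c' z) = g (c' w) := by rw [← hce z hz, ← hce w hw, hzw]
    exact hi' (hUi (hRU z hz) (hRU w hw) h1)
  have hpd : ∀ w, LD n p (c w) := fun w =>
    LD.inverse isOpen_univ (fun x _ => hc x) (fun x _ => hpc x) (mem_univ w)
  have hpd' : ∀ w, LD n p' (c' w) := fun w =>
    LD.inverse isOpen_univ (fun x _ => hc' x) (fun x _ => hpc' x) (mem_univ w)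
  have hed : ∀ z, R < ‖z‖ → LD n e z := by
    intro z hz
    have h1 : LD n (fun z => g (c' z)) z := LD.comp_fun (hUd _ (hRU z hz)) (hc' z)
    refine LD.comp_fun (g := p) ?_ h1
    rw [← hce z hz]
    exact hpd _
  -- (3)
  have het : Tendsto e (cocompact (E n)) (cocompact (E n)) := by
    rw [← Metric.cobounded_eq_cocompact, ← tendsto_norm_atTop_iff_cobounded, Filter.tendsto_atTop]
    intro r
    have hcl : IsClosed (c '' closedBall 0 r) :=
      ((isCompact_closedBall (0 : E n) r).image (cont hc)).isClosed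
    have hWo : IsOpen (U ∩ g ⁻¹' (c '' closedBall 0 r)ᶜ) :=
      hUc.isOpen_inter_preimage hUo hcl.isOpen_compl
    have hXW : (range c')ᶜ ⊆ U ∩ g ⁻¹' (c '' closedBall 0 r)ᶜ := by
      rw [hXc']
      intro x hx
      refine ⟨hX'U hx, ?_⟩
      rintro ⟨w, -, hw⟩
      apply hnX2 w
      rw [hw, ← hgX]
      exact ⟨x, hx, rfl⟩
    obtain ⟨R', -, hR'⟩ := far hi' hc' hWo hXW
    filter_upwards [tendsto_norm_cobounded_atTop.eventually_gt_atTop (max R R')] with z hz
    by_contra h
    have h1 := (hR' z ((le_max_right _ _).trans_lt hz)).2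
    apply h1
    refine ⟨e z, ?_, hce z ((le_max_left _ _).trans_lt hz)⟩
    rw [mem_closedBall_zero_iff]
    exact (not_le.1 h).le
  -- (4)
  have hes : ∀ R₁ : ℝ, ∃ A : ℝ, ∀ w : E n, A < ‖w‖ → ∃ z, R₁ < ‖z‖ ∧ e z = w := by
    intro R₁
    set U1 : Set M := (range c')ᶜ ∪ c' '' {z | max R R₁ < ‖z‖} with hU1
    have hU1o : IsOpen U1 := cell_far_open hi' hc' _
    have hU1U : U1 ⊆ U := by
      rintro x (hx | ⟨z, hz, rfl⟩)
      · exact hX'U (hXc' ▸ hx)
      · exact hRU z ((le_max_left _ _).trans_lt hz)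
    have hgU1 : IsOpen (g '' U1) := isOpen_image_of_LD hU1o fun x hx => hUd x (hU1U hx)
    have hXg : (range c)ᶜ ⊆ g '' U1 := by
      rw [hXc, ← hgX]
      exact image_mono (fun x hx => Or.inl (hXc'.symm ▸ hx))
    obtain ⟨A, -, hA⟩ := far hi hc hgU1 hXg
    refine ⟨A, fun w hw => ?_⟩
    obtain ⟨x, hx, hxw⟩ := hA w hw
    rcases hx with hx | ⟨z, hz, rfl⟩
    · exfalso
      rw [hXc'] at hx
      apply hnX2 w
      rw [← hxw, ← hgX]
      exact ⟨x, hx, rfl⟩
    · refine ⟨z, (le_max_right _ _).trans_lt hz, ?_⟩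
      show p (g (c' z)) = w
      rw [hxw, hpc]
  -- (5)
  obtain ⟨G0, hG0d, A, hA⟩ := hEND n e R hn hei hed het hes
  set G : M → N := fun x => if x ∈ X' then g x else c (G0 (p' x)) with hG
  have hGX : ∀ x ∈ X', G x = g x := fun x hx => if_pos hx
  have hGc : ∀ z, G (c' z) = c (G0 z) := fun z => by
    rw [hG]
    simp only
    rw [if_neg (hnX z), hpc']
  have hcov : ∀ x, x ∈ X' ∨ ∃ z, x = c' z := by
    intro x
    by_cases h : x ∈ X'
    · exact Or.inl h
    · right
      have : x ∈ range c' := by rw [hr']; exact h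
      obtain ⟨z, rfl⟩ := this
      exact ⟨z, rfl⟩
  have hGd1 : ∀ x ∈ X', LD n G x := by
    intro x hx
    refine (hg x hx).congr ?_
    have h1 : (range c')ᶜ ∪ c' '' {z | max A R < ‖z‖} ∈ 𝓝 x :=
      (cell_far_open hi' hc' _).mem_nhds (Or.inl (hXc'.symm ▸ hx))
    filter_upwards [h1] with y hy
    rcases hy with hy | ⟨z, hz, rfl⟩
    · rw [hXc'] at hy
      exact hGX y hy
    · rw [hGc, hA z ((le_max_left _ _).trans_lt hz), hce z ((le_max_right _ _).trans_lt hz)]
  have hopen : IsOpen X'ᶜ := hX'cl.isOpen_compl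
  have hGev : ∀ z, G =ᶠ[𝓝 (c' z)] fun x => c (G0 (p' x)) := by
    intro z
    filter_upwards [hopen.mem_nhds (hnX z)] with y hy
    exact if_neg hy
  have hGd2 : ∀ z, z ≠ 0 → LD n G (c' z) := by
    intro z hz
    have h1 : LD n (fun x => G0 (p' x)) (c' z) := by
      refine LD.comp_fun (g := G0) ?_ (hpd' z)
      rw [hpc']
      exact hG0d z hz
    have h2 : LD n (fun x => c (G0 (p' x))) (c' z) := LD.comp_fun (hc _) h1
    exact h2.congr (hGev z)
  have hGcont : Continuous G := by
    rw [continuous_iff_continuousAt]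
    intro x
    rcases hcov x with hx | ⟨z, rfl⟩
    · exact (hGd1 x hx).continuousAt
    · have h1 : ContinuousAt (fun x => c (G0 (p' x))) (c' z) :=
        (cont hc).continuousAt.comp (G0.continuous.continuousAt.comp (hpd' z).continuousAt)
      exact h1.congr (hGev z).symm
  have hGinj : Injective G := by
    intro x y hxy
    rcases hcov x with hx | ⟨z, rfl⟩
    · rcases hcov y with hy | ⟨w, rfl⟩
      · rw [hGX x hx, hGX y hy] at hxy
        exact hgi hx hy hxy
      · rw [hGX x hx, hGc] at hxy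
        exact absurd (show c (G0 w) ∈ X by rw [← hxy, ← hgX]; exact ⟨x, hx, rfl⟩) (hnX2 _)
    · rcases hcov y with hy | ⟨w, rfl⟩
      · rw [hGX y hy, hGc] at hxy
        exact absurd (show c (G0 z) ∈ X by rw [hxy, ← hgX]; exact ⟨y, hy, rfl⟩) (hnX2 _)
      · rw [hGc, hGc] at hxy
        rw [G0.injective (hi hxy)]
  have hGsurj : Surjective G := by
    intro y
    by_cases hy : y ∈ X
    · rw [← hgX] at hy
      obtain ⟨x, hx, rfl⟩ := hy
      exact ⟨x, hGX x hx⟩
    · have h1 : y ∈ range c := by rw [hr]; exact hy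
      obtain ⟨w, rfl⟩ := h1
      obtain ⟨z, rfl⟩ := G0.surjective w
      exact ⟨c' z, hGc z⟩
  refine ⟨Continuous.homeoOfEquivCompactToT2 (f := Equiv.ofBijective G ⟨hGinj, hGsurj⟩) hGcont,
    c' 0, fun x hx => ?_⟩
  show LD n G x
  rcases hcov x with hx' | ⟨z, rfl⟩
  · exact hGd1 x hx'
  · exact hGd2 z fun h => hx (by rw [h])

end Pool.Agent.N550.KH.Asm
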