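import Pool.Agent.N550.KH.Stm
import Pool.Agent.N550.SH.Cross

/-!
# Project KH: preimages of open cells
-/

set_option autoImplicit false

open Set Filter Topology Metric Function MeasureTheory
open scoped Manifold ContDiff

noncomputable section

namespace Pool.Agent.N550.KH.Cell

open Pool.Agent.Y522 Pool.Agent.N550.KH

theorem main : S_CELL := by
  intro n M N _ _ _ _ _ _ _ f c hnull hci hcl
  have hcont : Continuous c := continuous_iff_continuousAt.2 fun z => (hcl z).continuousAt
  have hopen : IsOpenMap c := fun s hs => isOpen_image_of_LD (n := n) hs fun z _ => hcl z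
  have hemb : IsOpenEmbedding c := IsOpenEmbedding.of_continuous_injective_isOpenMap hcont hci hopen
  let U : TopologicalSpace.Opens M := ⟨f ⁻¹' range c, hemb.isOpen_range.preimage f.continuous⟩
  have hU : ∀ x : U, f x ∈ range c := fun x => x.2
  -- the homeomorphism
  obtain ⟨ci, hci'⟩ : ∃ ci : N → E n, ∀ z, ci (c z) = z :=
    ⟨invFun c, leftInverse_invFun hci⟩
  have hcc : ∀ y ∈ range c, c (ci y) = y := by
    rintro _ ⟨z, rfl⟩; rw [hci']
  have hcild : ∀ z, LD n ci (c z) := fun z =>
    LD.inverse (n := n) isOpen_univ (fun x _ => hcl x) (fun x _ => hci' x) (mem_univ z)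
  have hmem : ∀ z, f.symm (c z) ∈ U := fun z => by
    show f (f.symm (c z)) ∈ range c
    rw [f.apply_symm_apply]; exact ⟨z, rfl⟩
  let H : U ≃ₜ E n :=
    { toFun := fun x => ci (f x)
      invFun := fun z => ⟨f.symm (c z), hmem z⟩
      left_inv := fun x => by
        apply Subtype.ext
        show f.symm (c (ci (f x))) = x
        rw [hcc _ (hU x), f.symm_apply_apply]
      right_inv := fun z => by
        show ci (f (f.symm (c z))) = z
        rw [f.apply_symm_apply, hci']
      continuous_toFun := by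
        rw [continuous_iff_continuousAt]
        intro x
        obtain ⟨z, hz⟩ := hU x
        have h1 : ContinuousAt ci (f x) := by rw [← hz]; exact (hcild z).continuousAt
        exact ContinuousAt.comp (f := fun x : U => f x) h1
          ((f.continuous.comp continuous_subtype_val).continuousAt)
      continuous_invFun := Continuous.subtype_mk (f.symm.continuous.comp hcont) hmem }
  have hH : ∀ x : U, H x = ci (f x) := fun _ => rfl
  have hgood : ∀ x : U, (∀ᶠ y in 𝓝 (x : M), ContMDiffAt (𝓡 n) (𝓡 n) ∞ f y) →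
      ∀ᶠ y in 𝓝 x, ContMDiffAt (𝓡 n) (𝓡 n) ∞ H y := by
    intro x hx
    have h0 := (continuous_subtype_val (p := fun x => x ∈ (U : Set M))).continuousAt.eventually hx
    filter_upwards [h0] with y hy
    have h2 : ContMDiffAt (𝓡 n) (𝓡 n) ∞ (fun x : U => f x) y :=
      ContMDiffAt.comp (g := f) y hy (Pool.Agent.N550.SH.ld_opens U y).contMDiffAt
    obtain ⟨z, hz⟩ := hU y
    have h3 : ContMDiffAt (𝓡 n) (𝓡 n) ∞ ci (f y) := by rw [← hz]; exact (hcild z).contMDiffAt
    exact ContMDiffAt.comp (g := ci) y h3 h2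
  have hB : Measure.hausdorffMeasure 1 (H '' {x | ¬ ∀ᶠ y in 𝓝 x,
      ContMDiffAt (𝓡 n) (𝓡 n) ∞ H y}) = 0 := by
    refine measure_mono_null ?_ (hnull c hci hcl)
    rintro _ ⟨x, hx, rfl⟩
    show c (H x) ∈ f '' Bad n f
    rw [hH, hcc _ (hU x)]
    exact ⟨x, fun hcon => hx (hgood x hcon), rfl⟩
  obtain ⟨Φ⟩ := Pool.Agent.N550.SH.open_version n U H hB
  refine ⟨fun z => (Φ.symm z : M), Subtype.val_injective.comp Φ.symm.injective, fun z => ?_, ?_⟩
  · exact LD.comp_fun (g := (Subtype.val : U → M)) (Pool.Agent.N550.SH.ld_opens U (Φ.symm z))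
      (Φ.symm.isLocalDiffeomorph z)
  · ext x
    constructor
    · rintro ⟨z, rfl⟩
      exact hU (Φ.symm z)
    · intro hx
      exact ⟨Φ ⟨x, hx⟩, by simp⟩

end Pool.Agent.N550.KH.Cell
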