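import Pool.Agent.N550.KH.Stm

/-!
# Project KH: small perturbations of the identity, vertical shifts, expansion of balls (helper521)
-/

set_option autoImplicit false

open Set Filter Topology Metric Function MeasureTheory
open scoped Manifold ContDiff NNReal

noncomputable section

namespace Pool.Agent.N550.KH.Shift

open Pool.Agent.Y522 Pool.Agent.N550.KH

theorem pert {n : ℕ} {g : E n → E n} {q : ℝ} (hg : ContDiff ℝ ∞ g) (hq : q < 1)
    (h : ∀ z, ‖fderiv ℝ g z‖ ≤ q) : IsDf n (fun z => z + g z) := by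
  have hq0 : 0 ≤ q := (norm_nonneg _).trans (h 0)
  have hn : (∞ : WithTop ℕ∞) ≠ 0 := by simp
  have hd : ∀ z, DifferentiableAt ℝ g z := fun z => (hg.differentiable hn) z
  have hlip : ∀ x y, ‖g y - g x‖ ≤ q * ‖y - x‖ := by
    intro x y
    exact convex_univ.norm_image_sub_le_of_norm_fderiv_le (fun z _ => hd z) (fun z _ => h z)
      (mem_univ x) (mem_univ y)
  refine ⟨⟨?_, ?_⟩, ?_⟩
  · intro x y hxy
    have hxy' : x + g x = y + g y := hxy
    have h1 : y - x = -(g y - g x) := by
      have h2 : y - x - (-(g y - g x)) = (y + g y) - (x + g x) := by abel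
      rw [← sub_eq_zero, h2, hxy', sub_self]
    have h2 : ‖y - x‖ ≤ q * ‖y - x‖ := by
      calc ‖y - x‖ = ‖g y - g x‖ := by rw [h1, norm_neg, ← norm_neg (g y - g x), ← h1, h1, norm_neg]
        _ ≤ q * ‖y - x‖ := hlip x y
    have h3 : ‖y - x‖ = 0 := by
      have := norm_nonneg (y - x)
      nlinarith
    exact (sub_eq_zero.1 (norm_eq_zero.1 h3)).symm
  · intro y
    obtain ⟨K, hK⟩ : ∃ K : ℝ≥0, (K : ℝ) = q := ⟨⟨q, hq0⟩, rfl⟩
    have hc : ContractingWith K (fun z => y - g z) := by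
      refine ⟨?_, ?_⟩
      · have : (K : ℝ) < 1 := by rw [hK]; exact hq
        exact_mod_cast this
      · refine LipschitzWith.of_dist_le_mul fun a b => ?_
        rw [dist_eq_norm, dist_eq_norm, hK]
        have h1 : y - g a - (y - g b) = -(g a - g b) := by abel
        rw [h1, norm_neg]
        exact hlip b a
    obtain ⟨x, hx⟩ : ∃ x, y - g x = x := ⟨hc.fixedPoint _, hc.fixedPoint_isFixedPt⟩
    refine ⟨x, ?_⟩
    show x + g x = y
    exact (sub_eq_iff_eq_add.1 hx).symm
  · intro z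
    have hder : HasFDerivAt (fun z => z + g z) (ContinuousLinearMap.id ℝ (E n) + fderiv ℝ g z) z :=
      (hasFDerivAt_id z).add (hd z).hasFDerivAt
    have hinj : Injective ((ContinuousLinearMap.id ℝ (E n) + fderiv ℝ g z : E n →L[ℝ] E n) :
        E n →ₗ[ℝ] E n) := by
      rw [← LinearMap.ker_eq_bot, LinearMap.ker_eq_bot']
      intro v hv
      have hv' : v + fderiv ℝ g z v = 0 := hv
      have h1 : v = -(fderiv ℝ g z v) := eq_neg_of_add_eq_zero_left hv'
      have h2 : ‖v‖ ≤ q * ‖v‖ := by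
        calc ‖v‖ = ‖fderiv ℝ g z v‖ := by
              conv_lhs => rw [h1]
              rw [norm_neg]
          _ ≤ ‖fderiv ℝ g z‖ * ‖v‖ := ContinuousLinearMap.le_opNorm _ _
          _ ≤ q * ‖v‖ := mul_le_mul_of_nonneg_right (h z) (norm_nonneg _)
      have h3 : ‖v‖ = 0 := by
        have := norm_nonneg v
        nlinarith
      exact norm_eq_zero.1 h3
    refine LD_of_contDiffAt (Eventually.of_forall fun y => (contDiff_id.add hg).contDiffAt)
      (LinearEquiv.ofInjectiveEndo _ hinj).toContinuousLinearEquiv ?_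
    convert hder using 1
    ext v
    rfl

theorem isDf_comp {n : ℕ} {f g : E n → E n} (hf : IsDf n f) (hg : IsDf n g) : IsDf n (f ∘ g) :=
  ⟨hf.1.comp hg.1, fun x => LD.comp' (hf.2 _) (hg.2 x)⟩

theorem isDf_iter {n : ℕ} {f : E n → E n} (hf : IsDf n f) (j : ℕ) : IsDf n (f^[j]) := by
  induction j with
  | zero => exact ⟨bijective_id, fun x => LD.id x⟩
  | succ j ih =>
    rw [Function.iterate_succ']
    exact isDf_comp hf ih

theorem s_pert : S_PERT := by
  intro n χ w q hχ hq h
  refine pert (g := fun z => χ z • w) (q := q) (hχ.smul contDiff_const) hq ?_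
  intro z
  have hn : (∞ : WithTop ℕ∞) ≠ 0 := by simp
  have h1 : HasFDerivAt (fun z => χ z • w) ((fderiv ℝ χ z).smulRight w) z :=
    ((hχ.differentiable hn) z).hasFDerivAt.smul_const w
  rw [h1.fderiv]
  rw [ContinuousLinearMap.norm_smulRight_apply]
  exact h z

theorem norm_sq_up_vp (m k : ℕ) (z : E (m + k)) : ‖z‖ ^ 2 = ‖up m k z‖ ^ 2 + ‖vp m k z‖ ^ 2 := by
  rw [EuclideanSpace.norm_sq_eq, EuclideanSpace.norm_sq_eq, EuclideanSpace.norm_sq_eq,
    Fin.sum_univ_add]
  rfl

theorem s_vs : S_VS := by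
  intro m k
  let f : ContDiffBump (0 : E (m + k)) := ⟨3, 4, by norm_num, by norm_num⟩
  have hf : ContDiff ℝ ∞ f := f.contDiff
  obtain ⟨B, hB⟩ := (hf.continuous_fderiv (by simp)).bounded_above_of_compact_support
    (f.hasCompactSupport.fderiv (𝕜 := ℝ))
  have hB0 : 0 ≤ B := (norm_nonneg _).trans (hB 0)
  refine ⟨1 / (2 * (B + 1)), by positivity, ?_⟩
  intro y hy
  have hny : ‖jn m k 0 y‖ = ‖y‖ := by
    have h1 := norm_sq_up_vp m k (jn m k 0 y)
    rw [up_jn, vp_jn, norm_zero] at h1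
    have h2 : ‖jn m k 0 y‖ ^ 2 = ‖y‖ ^ 2 := by linarith
    exact (pow_left_inj₀ (norm_nonneg _) (norm_nonneg _) (by norm_num)).1 h2
  refine ⟨fun z => z + f z • jn m k 0 y, s_pert (m + k) f (jn m k 0 y) (1 / 2) hf (by norm_num) ?_,
    ⟨4, ?_⟩, ?_, ?_⟩
  · intro z
    rw [hny]
    have h1 : ‖fderiv ℝ f z‖ * ‖y‖ ≤ B * (1 / (2 * (B + 1))) :=
      mul_le_mul (hB z) hy.le (norm_nonneg _) hB0
    refine h1.trans ?_
    rw [mul_one_div, div_le_div_iff₀ (by positivity) (by norm_num)]
    linarith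
  · intro z hz
    have h1 : f z = 0 := f.zero_of_le_dist (by rw [dist_zero_right]; exact hz)
    simp only [h1, zero_smul, add_zero]
  · intro z
    rw [map_add, map_smul, up_jn, smul_zero, add_zero]
  · intro z h1 h2
    have h3 := norm_sq_up_vp m k z
    have h4 : ‖z‖ ≤ 3 := by
      have h5 : ‖z‖ ^ 2 ≤ 3 ^ 2 := by
        have := norm_nonneg (up m k z)
        have := norm_nonneg (vp m k z)
        nlinarith
      exact le_of_sq_le_sq h5 (by norm_num)
    have h6 : f z = 1 := f.one_of_mem_closedBall (by rw [mem_closedBall_zero_iff]; exact h4)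
    rw [map_add, map_smul, vp_jn, h6, one_smul]

theorem s_bs : S_BS := by
  intro n z₀ ε R hε
  let f : ContDiffBump (0 : E n) := ⟨1, 2, by norm_num, by norm_num⟩
  have hn : (∞ : WithTop ℕ∞) ≠ 0 := by simp
  have hf : ContDiff ℝ ∞ f := f.contDiff
  have hh : ContDiff ℝ ∞ (fun x : E n => f x • x) := hf.smul contDiff_id
  have hcs : HasCompactSupport (fun x : E n => f x • x) := f.hasCompactSupport.smul_right
  obtain ⟨B, hB⟩ := (hh.continuous_fderiv hn).bounded_above_of_compact_support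
    (hcs.fderiv (𝕜 := ℝ))
  have hB0 : 0 ≤ B := (norm_nonneg _).trans (hB 0)
  set t : ℝ := 1 / (2 * (B + 1)) with ht
  have ht0 : 0 < t := by positivity
  have htB : t * B ≤ 1 / 2 := by
    rw [ht, one_div_mul_eq_div, div_le_div_iff₀ (by positivity) (by norm_num)]
    linarith
  set L : ℝ := max (R + ‖z₀‖) 1 with hL
  have hL0 : 0 < L := lt_of_lt_of_le one_pos (le_max_right _ _)
  let g : E n → E n := fun z => (t * L) • (f (L⁻¹ • (z - z₀)) • (L⁻¹ • (z - z₀)))
  have hlin : ∀ z, HasFDerivAt (fun z : E n => L⁻¹ • (z - z₀))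
      (L⁻¹ • ContinuousLinearMap.id ℝ (E n)) z := fun z =>
    ((hasFDerivAt_id z).sub_const z₀).const_smul L⁻¹
  have hgd : ContDiff ℝ ∞ g := by
    have h1 : ContDiff ℝ ∞ (fun z : E n => L⁻¹ • (z - z₀)) :=
      (contDiff_id.sub contDiff_const).const_smul L⁻¹
    exact (hh.comp h1).const_smul (t * L)
  have hgn : ∀ z, ‖fderiv ℝ g z‖ ≤ 1 / 2 := by
    intro z
    have h1 : HasFDerivAt g ((t * L) • ((fderiv ℝ (fun x : E n => f x • x) (L⁻¹ • (z - z₀))).comp
        (L⁻¹ • ContinuousLinearMap.id ℝ (E n)))) z := by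
      have h2 : HasFDerivAt ((fun x : E n => f x • x) ∘ (fun z : E n => L⁻¹ • (z - z₀)))
          ((fderiv ℝ (fun x : E n => f x • x) (L⁻¹ • (z - z₀))).comp
            (L⁻¹ • ContinuousLinearMap.id ℝ (E n))) z :=
        HasFDerivAt.comp z ((hh.differentiable hn) (L⁻¹ • (z - z₀))).hasFDerivAt (hlin z)
      exact h2.const_smul (t * L)
    rw [h1.fderiv, norm_smul]
    have h3 : ‖(fderiv ℝ (fun x : E n => f x • x) (L⁻¹ • (z - z₀))).comp
        (L⁻¹ • ContinuousLinearMap.id ℝ (E n))‖ ≤ B * L⁻¹ := by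
      refine (ContinuousLinearMap.opNorm_comp_le _ _).trans ?_
      refine mul_le_mul (hB _) ?_ (norm_nonneg _) hB0
      rw [norm_smul, Real.norm_of_nonneg (by positivity)]
      have := ContinuousLinearMap.norm_id_le (𝕜 := ℝ) (E := E n)
      have h5 : 0 ≤ L⁻¹ := by positivity
      nlinarith
    rw [Real.norm_of_nonneg (by positivity)]
    have h4 : t * L * (B * L⁻¹) = t * B := by
      field_simp
    calc t * L * ‖_‖ ≤ t * L * (B * L⁻¹) := mul_le_mul_of_nonneg_left h3 (by positivity)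
      _ = t * B := h4
      _ ≤ 1 / 2 := htB
  let D : E n → E n := fun z => z + g z
  have hD : IsDf n D := pert hgd (by norm_num) hgn
  have hD1 : ∀ z, ‖z - z₀‖ ≤ L → D z = z + t • (z - z₀) := by
    intro z hz
    have h1 : f (L⁻¹ • (z - z₀)) = 1 := by
      refine f.one_of_mem_closedBall ?_
      rw [mem_closedBall_zero_iff, norm_smul, Real.norm_of_nonneg (by positivity)]
      show L⁻¹ * ‖z - z₀‖ ≤ 1
      rw [inv_mul_le_iff₀ hL0, mul_one]
      exact hz
    simp only [D, g]
    rw [h1, one_smul, smul_smul, mul_assoc, mul_inv_cancel₀ hL0.ne', mul_one]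
  have hD2 : ∀ z, 2 * L ≤ ‖z - z₀‖ → D z = z := by
    intro z hz
    have h1 : f (L⁻¹ • (z - z₀)) = 0 := by
      refine f.zero_of_le_dist ?_
      rw [dist_zero_right, norm_smul, Real.norm_of_nonneg (by positivity)]
      show 2 ≤ L⁻¹ * ‖z - z₀‖
      rw [le_inv_mul_iff₀ hL0]
      linarith
    simp only [D, g]
    rw [h1, zero_smul, smul_zero, add_zero]
  have hstep : ∀ j : ℕ, closedBall z₀ (min L ((1 + t) ^ j * (ε / 2))) ⊆ (D^[j]) '' ball z₀ ε := by
    intro j
    induction j with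
    | zero =>
      intro z hz
      refine ⟨z, ?_, rfl⟩
      rw [mem_closedBall] at hz
      rw [mem_ball]
      refine lt_of_le_of_lt (hz.trans (min_le_right _ _)) ?_
      rw [pow_zero, one_mul]
      linarith
    | succ j ih =>
      intro z hz
      rw [mem_closedBall, dist_eq_norm] at hz
      have h1t : (0 : ℝ) < 1 + t := by linarith
      set w : E n := z₀ + (1 + t)⁻¹ • (z - z₀) with hw
      have hwz : w - z₀ = (1 + t)⁻¹ • (z - z₀) := by rw [hw]; abel
      have hwn : ‖w - z₀‖ = (1 + t)⁻¹ * ‖z - z₀‖ := by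
        rw [hwz, norm_smul, Real.norm_of_nonneg (by positivity)]
      have hw1 : ‖w - z₀‖ ≤ min L ((1 + t) ^ j * (ε / 2)) := by
        rw [hwn, inv_mul_le_iff₀ h1t]
        rcases le_total L ((1 + t) ^ j * (ε / 2)) with h2 | h2
        · rw [min_eq_left h2]
          have := hz.trans (min_le_left _ _)
          nlinarith
        · rw [min_eq_right h2]
          have := hz.trans (min_le_right _ _)
          rw [pow_succ] at this
          linarith
      obtain ⟨x, hx, hxw⟩ := ih (by rw [mem_closedBall, dist_eq_norm]; exact hw1)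
      refine ⟨x, hx, ?_⟩
      rw [Function.iterate_succ', Function.comp_apply, hxw, hD1 w (hw1.trans (min_le_left _ _))]
      have h3 : w + t • (w - z₀) = z₀ + (1 + t) • (w - z₀) := by
        rw [add_smul, one_smul]
        abel
      rw [h3, hwz, smul_smul, mul_inv_cancel₀ h1t.ne', one_smul]
      abel
  obtain ⟨J, hJ⟩ := pow_unbounded_of_one_lt (L / (ε / 2)) (by linarith : (1 : ℝ) < 1 + t)
  have hJ' : L ≤ (1 + t) ^ J * (ε / 2) := by
    rw [div_lt_iff₀ (by positivity)] at hJ
    exact hJ.le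
  refine ⟨D^[J], isDf_iter hD J, ⟨2 * L + ‖z₀‖, ?_⟩, ?_⟩
  · intro z hz
    have h1 : D z = z := by
      apply hD2
      have := norm_sub_norm_le z z₀
      linarith
    exact Function.iterate_fixed h1 J
  · refine Subset.trans ?_ (hstep J)
    intro z hz
    rw [mem_closedBall_zero_iff] at hz
    rw [min_eq_left hJ', mem_closedBall, dist_eq_norm]
    have h1 := norm_sub_le z z₀
    have h2 : R + ‖z₀‖ ≤ L := le_max_left _ _
    linarith

theorem main : S_PERT ∧ S_VS ∧ S_BS := ⟨s_pert, s_vs, s_bs⟩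

end Pool.Agent.N550.KH.Shift
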