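import Pool.Agent.N550.KH.Stm

/-! Project KH (helper550): null sets in charts (`S_NULL`), by helper323. -/

set_option autoImplicit false

open Set Filter Topology Metric Function MeasureTheory
open scoped Manifold ContDiff

noncomputable section

namespace Pool.Agent.N550.KH.Null

open Pool.Agent.Y522 Pool.Agent.N550.KH

/-- images of sets of vanishing one-dimensional Hausdorff measure under maps of class `C¹` -/
theorem null_image {n : ℕ} {S : Set (E n)}
    (hS : Measure.hausdorffMeasure 1 S = 0) (f : E n → E n) (hf : ∀ x ∈ S, ContDiffAt ℝ 1 f x) :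
    Measure.hausdorffMeasure 1 (f '' S) = 0 := by
  have h : ∀ x ∈ S, ∃ V ∈ 𝓝 x, Measure.hausdorffMeasure 1 (f '' (S ∩ V)) = 0 := by
    intro x hx
    obtain ⟨K, t, ht, hK⟩ := (hf x hx).exists_lipschitzOnWith
    refine ⟨t, ht, ?_⟩
    have h1 := (hK.mono (inter_subset_right (s := S))).hausdorffMeasure_image_le (zero_le_one)
    have h2 : Measure.hausdorffMeasure 1 (S ∩ t) = 0 := measure_mono_null inter_subset_left hS
    rw [h2, mul_zero] at h1
    exact le_antisymm h1 bot_le
  choose! V hV hr using h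
  obtain ⟨t, hts, htc, hcov⟩ := TopologicalSpace.countable_cover_nhdsWithin
    (s := S) (f := V) (fun x hx => mem_nhdsWithin_of_mem_nhds (hV x hx))
  have h1 : f '' S ⊆ ⋃ x ∈ t, f '' (S ∩ V x) := by
    rintro _ ⟨y, hy, rfl⟩
    obtain ⟨x, hx, hyx⟩ := mem_iUnion₂.1 (hcov hy)
    exact mem_iUnion₂.2 ⟨x, hx, y, ⟨hy, hyx⟩, rfl⟩
  refine measure_mono_null h1 ?_
  rw [measure_biUnion_null_iff htc]
  exact fun x hx => hr x (hts hx)

/-- the chart as a partial diffeomorphism -/
def chPD {n : ℕ} {X : Type} [TopologicalSpace X] [ChartedSpace (E n) X] [IsManifold (𝓡 n) ∞ X]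
    (x : X) : PartialDiffeomorph (𝓡 n) (𝓡 n) X (E n) ∞ where
  toPartialEquiv := (chartAt (E n) x).toPartialEquiv
  open_source := (chartAt (E n) x).open_source
  open_target := (chartAt (E n) x).open_target
  contMDiffOn_toFun := contMDiffOn_chart
  contMDiffOn_invFun := contMDiffOn_chart_symm

theorem ld_chart_symm {n : ℕ} {X : Type} [TopologicalSpace X] [ChartedSpace (E n) X]
    [IsManifold (𝓡 n) ∞ X] (x₀ : X) (z : E n) (hz : z ∈ (chartAt (E n) x₀).target) :
    LD n (chartAt (E n) x₀).symm z :=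
  ⟨(chPD x₀).symm, hz, fun _ _ => rfl⟩

theorem main : S_NULL := by
  intro n N _ _ _ B hB h hinj hld
  set g : N → E n := invFun h with hg
  have hgl : ∀ y, g (h y) = y := leftInverse_invFun hinj
  have key : ∀ z ∈ h ⁻¹' B, ∃ V ∈ 𝓝 z, Measure.hausdorffMeasure 1 (h ⁻¹' B ∩ V) = 0 := by
    intro z hz
    set e := chartAt (E n) (h z) with he
    refine ⟨h ⁻¹' e.source, (hld z).continuousAt.preimage_mem_nhds
      (e.open_source.mem_nhds (mem_chart_source _ _)), ?_⟩
    have hS : Measure.hausdorffMeasure 1 (e '' (e.source ∩ B ∩ range h) : Set (E n)) = 0 :=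
      measure_mono_null (image_mono inter_subset_left) (hB (h z))
    refine measure_mono_null ?_ (null_image hS (fun w => g (e.symm w)) ?_)
    · intro y hy
      refine ⟨e (h y), ⟨h y, ⟨⟨hy.2, hy.1⟩, y, rfl⟩, rfl⟩, ?_⟩
      change g (e.symm (e (h y))) = y
      rw [e.left_inv hy.2, hgl]
    · rintro _ ⟨_, ⟨⟨hs, -⟩, y, rfl⟩, rfl⟩
      have h1 : LD n e.symm (e (h y)) := ld_chart_symm (h z) _ (e.map_source hs)
      have h2 : LD n g (e.symm (e (h y))) := by
        rw [e.left_inv hs]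
        exact LD.inverse isOpen_univ (fun x _ => hld x) (fun x _ => hgl x) (mem_univ y)
      exact (h2.comp_fun h1).contDiffAt.of_le (by simp)
  choose! V hV hr using key
  obtain ⟨t, hts, htc, hcov⟩ := TopologicalSpace.countable_cover_nhdsWithin
    (s := h ⁻¹' B) (f := V) (fun x hx => mem_nhdsWithin_of_mem_nhds (hV x hx))
  have h1 : h ⁻¹' B ⊆ ⋃ x ∈ t, (h ⁻¹' B ∩ V x) := by
    intro y hy
    obtain ⟨x, hx, hyx⟩ := mem_iUnion₂.1 (hcov hy)
    exact mem_iUnion₂.2 ⟨x, hx, hy, hyx⟩
  refine measure_mono_null h1 ?_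
  rw [measure_biUnion_null_iff htc]
  exact fun x hx => hr x (hts hx)

end Pool.Agent.N550.KH.Null
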