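import Pool.Agent.N550.KH.Stm

/-!
# Project KH: the plane case, transfer to `E 2`

Project KH (helper550); this file by helper692.
-/

set_option autoImplicit false

open Set Filter Topology Metric Function
open scoped Manifold ContDiff

noncomputable section

namespace Pool.Agent.N550.KH.A2

open Pool.Agent.Y522 Pool.Agent.N550.KH

/-- the annulus is connected -/
theorem isPreconnected_ann (a b : ℝ) (ha : 0 < a) :
    IsPreconnected {x : ℂ | a < ‖x‖ ∧ ‖x‖ < b} := by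
  have h1 : IsPreconnected (Ioo a b ×ˢ (univ : Set ℝ)) := isPreconnected_Ioo.prod isPreconnected_univ
  have h2 : {x : ℂ | a < ‖x‖ ∧ ‖x‖ < b} =
      (fun p : ℝ × ℝ => (p.1 : ℂ) * Complex.exp (p.2 * Complex.I)) '' (Ioo a b ×ˢ univ) := by
    ext x
    constructor
    · rintro ⟨hx1, hx2⟩
      exact ⟨(‖x‖, x.arg), ⟨⟨hx1, hx2⟩, mem_univ _⟩, Complex.norm_mul_exp_arg_mul_I x⟩
    · rintro ⟨p, ⟨hp, _⟩, rfl⟩
      have hn : ‖(p.1 : ℂ) * Complex.exp (p.2 * Complex.I)‖ = p.1 := by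
        rw [norm_mul, Complex.norm_exp_ofReal_mul_I, mul_one, Complex.norm_real, Real.norm_eq_abs,
          abs_of_pos (ha.trans hp.1)]
      show a < ‖_‖ ∧ ‖_‖ < b
      rw [hn]
      exact hp
  rw [h2]
  refine h1.image _ (Continuous.continuousOn ?_)
  fun_prop

/-- a continuous function without zeros on a preconnected set has constant sign -/
theorem sign_const {s : Set ℂ} (hs : IsPreconnected s) {f : ℂ → ℝ} (hf : ContinuousOn f s)
    (h0 : ∀ x ∈ s, f x ≠ 0) : (∀ x ∈ s, 0 < f x) ∨ ∀ x ∈ s, f x < 0 := by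
  by_contra hcon
  push Not at hcon
  obtain ⟨⟨x, hx, hx0⟩, y, hy, hy0⟩ := hcon
  obtain ⟨w, hw, hw0⟩ := hs.intermediate_value hx hy hf ⟨hx0, hy0⟩
  exact h0 w hw hw0

/-- the determinant of the derivative of the complex conjugate -/
theorem det_conj {f : ℂ → ℂ} {x : ℂ} (hf : DifferentiableAt ℝ f x) :
    (fderiv ℝ (fun y => (starRingEnd ℂ) (f y)) x).det = -(fderiv ℝ f x).det := by
  have h1 : fderiv ℝ (fun y => (starRingEnd ℂ) (f y)) x =
      (Complex.conjCLE : ℂ →L[ℝ] ℂ).comp (fderiv ℝ f x) :=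
    (Complex.conjCLE.hasFDerivAt.comp x hf.hasFDerivAt).fderiv
  rw [h1]
  have h2 : LinearMap.det ((Complex.conjCLE : ℂ →L[ℝ] ℂ) : ℂ →ₗ[ℝ] ℂ) = -1 := Complex.det_conjAe
  unfold ContinuousLinearMap.det
  rw [ContinuousLinearMap.toLinearMap_comp, LinearMap.det_comp, h2]
  ring

/-- the plane case for both orientations -/
theorem plane (h : S_A2C) (e : OpenPartialHomeomorph ℂ ℂ) (r₀ r₁ : ℝ) (h0 : 0 < r₀)
    (h01 : r₀ < r₁) (h12 : r₁ < 2) (hs : e.source = ball 0 2) (ht : e.target = univ)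
    (he : ContDiffOn ℝ ∞ e {x | r₀ < ‖x‖ ∧ ‖x‖ < 2})
    (hd : ∀ x, r₀ < ‖x‖ → ‖x‖ < 2 → (fderiv ℝ e x).det ≠ 0) :
    ∃ e' : ℂ → ℂ, BijOn e' (ball 0 2) univ ∧ ContDiffOn ℝ ∞ e' (ball 0 2) ∧
      (∀ x ∈ ball (0 : ℂ) 2, (fderiv ℝ e' x).det ≠ 0) ∧
      ∀ x, r₁ ≤ ‖x‖ → ‖x‖ < 2 → e' x = e x := by
  have hopen : IsOpen {x : ℂ | r₀ < ‖x‖ ∧ ‖x‖ < 2} :=
    (isOpen_lt continuous_const continuous_norm).inter (isOpen_lt continuous_norm continuous_const)
  have hcont : ContinuousOn (fun x => (fderiv ℝ e x).det) {x : ℂ | r₀ < ‖x‖ ∧ ‖x‖ < 2} := by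
    have h1 : ContinuousOn (fderiv ℝ e) {x : ℂ | r₀ < ‖x‖ ∧ ‖x‖ < 2} :=
      he.continuousOn_fderiv_of_isOpen hopen (by simp)
    exact ContinuousLinearMap.continuous_det.comp_continuousOn h1
  rcases sign_const (isPreconnected_ann r₀ 2 h0) hcont (fun x hx => hd x hx.1 hx.2) with h1 | h1
  · obtain ⟨e', a, b, c, d⟩ := h e r₀ r₁ h0 h01 h12 hs ht he fun x hx hx' => h1 x ⟨hx, hx'⟩
    exact ⟨e', a, b, fun x hx => (c x hx).ne', d⟩
  · have hconj : ContDiff ℝ ∞ (fun y : ℂ => (starRingEnd ℂ) y) := Complex.conjCLE.contDiff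
    obtain ⟨e', a, b, c, d⟩ := h (e.transHomeomorph Complex.conjCLE.toHomeomorph) r₀ r₁ h0 h01 h12
      hs (by
        show (Complex.conjCLE.toHomeomorph.symm) ⁻¹' e.target = univ
        rw [ht, preimage_univ]) (hconj.comp_contDiffOn he) (fun x hx hx' => by
        have h2 : DifferentiableAt ℝ e x :=
          (he.contDiffAt (hopen.mem_nhds ⟨hx, hx'⟩)).differentiableAt (by simp)
        have h3 := det_conj h2
        have h4 := h1 x ⟨hx, hx'⟩
        show 0 < (fderiv ℝ (fun y => (starRingEnd ℂ) (e y)) x).det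
        rw [h3]
        linarith)
    refine ⟨fun x => (starRingEnd ℂ) (e' x), ?_, hconj.comp_contDiffOn b, fun x hx => ?_,
      fun x hx hx' => ?_⟩
    · refine ⟨fun x _ => mem_univ _, fun x hx y hy hxy => a.2.1 hx hy ?_, fun y _ => ?_⟩
      · exact (starRingEnd ℂ).injective hxy
      · obtain ⟨x, hx, hxy⟩ := a.2.2 (mem_univ ((starRingEnd ℂ) y))
        refine ⟨x, hx, ?_⟩
        show (starRingEnd ℂ) (e' x) = y
        rw [hxy]
        exact Complex.conj_conj y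
    · have h2 : DifferentiableAt ℝ e' x :=
        (b.contDiffAt (isOpen_ball.mem_nhds hx)).differentiableAt (by simp)
      rw [det_conj h2]
      have := c x hx
      linarith
    · show (starRingEnd ℂ) (e' x) = e x
      rw [d x hx hx']
      exact Complex.conj_conj (e x)

/-- the isometry -/
theorem ex_iso : ∃ J : E 2 ≃L[ℝ] ℂ, ∀ x, ‖J x‖ = ‖x‖ :=
  ⟨Complex.orthonormalBasisOneI.repr.symm.toContinuousLinearEquiv,
    fun x => Complex.orthonormalBasisOneI.repr.symm.norm_map x⟩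

theorem main : S_A2C → S_A2 := by
  intro h H r₀ r₁ h0 h01 h12 hH hr hld
  -- the open embedding of the complex plane
  obtain ⟨J, hn⟩ := ex_iso
  have hJ : ∀ x : E 2, J.symm (J x) = x := fun x => J.symm_apply_apply x
  have hJ' : ∀ x : ℂ, J (J.symm x) = x := fun x => J.apply_symm_apply x
  have hn' : ∀ x : ℂ, ‖J.symm x‖ = ‖x‖ := fun x => by rw [← hn, hJ']
  have hF : IsOpenEmbedding (fun w : ℂ => J (H (J.symm w))) :=
    (J.toHomeomorph.isOpenEmbedding.comp hH).comp J.symm.toHomeomorph.isOpenEmbedding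
  have hFr : range (fun w : ℂ => J (H (J.symm w))) = ball 0 2 := by
    ext x
    constructor
    · rintro ⟨w, rfl⟩
      have h1 : H (J.symm w) ∈ ball (0 : E 2) 2 := by
        rw [← hr]
        exact mem_range_self _
      rw [mem_ball_zero_iff] at h1 ⊢
      rw [hn]
      exact h1
    · intro hx
      have h1 : J.symm x ∈ range H := by
        rw [hr, mem_ball_zero_iff, hn']
        exact mem_ball_zero_iff.1 hx
      obtain ⟨z, hz⟩ := h1
      refine ⟨J z, ?_⟩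
      show J (H (J.symm (J z))) = x
      rw [hJ, hz, hJ']
  obtain ⟨e, hes, het, heF⟩ : ∃ e : OpenPartialHomeomorph ℂ ℂ, e.source = ball 0 2 ∧
      e.target = univ ∧ ∀ w, e (J (H (J.symm w))) = w := by
    refine ⟨(hF.toOpenPartialHomeomorph _).symm, ?_, ?_, fun w => ?_⟩
    · rw [OpenPartialHomeomorph.symm_source, IsOpenEmbedding.toOpenPartialHomeomorph_target, hFr]
    · rw [OpenPartialHomeomorph.symm_target, IsOpenEmbedding.toOpenPartialHomeomorph_source]
    · exact hF.toOpenPartialHomeomorph_left_inv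
  have heH : ∀ z, e (J (H z)) = J z := fun z => by
    have := heF (J z)
    rwa [hJ] at this
  -- the local inverse
  obtain ⟨g, hg⟩ : ∃ g : E 2 → E 2, ∀ x, g x = J.symm (e (J x)) := ⟨_, fun _ => rfl⟩
  have hgH : ∀ z, g (H z) = z := fun z => by rw [hg, heH, hJ]
  have hU : IsOpen {z | r₀ < ‖H z‖} := isOpen_lt continuous_const hH.continuous.norm
  have hgl : ∀ z, r₀ < ‖H z‖ → LD 2 g (H z) := fun z hz =>
    LD.inverse hU (fun x hx => hld x hx) (fun x _ => hgH x) hz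
  have hgl' : ∀ x : ℂ, r₀ < ‖x‖ → ‖x‖ < 2 → LD 2 g (J.symm x) := by
    intro x hx hx'
    have h1 : J.symm x ∈ range H := by
      rw [hr, mem_ball_zero_iff, hn']
      exact hx'
    obtain ⟨z, hz⟩ := h1
    rw [← hz]
    apply hgl
    rw [hz, hn']
    exact hx
  have heg : (e : ℂ → ℂ) = fun x => J (g (J.symm x)) := by
    funext x
    rw [hg, hJ', hJ']
  have hd1 : ContDiffOn ℝ ∞ e {x | r₀ < ‖x‖ ∧ ‖x‖ < 2} := by
    intro x hx
    apply ContDiffAt.contDiffWithinAt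
    rw [heg]
    exact J.contDiff.contDiffAt.comp x ((hgl' x hx.1 hx.2).contDiffAt.comp x
      J.symm.contDiff.contDiffAt)
  have hd2 : ∀ x, r₀ < ‖x‖ → ‖x‖ < 2 → (fderiv ℝ e x).det ≠ 0 := by
    intro x hx hx'
    obtain ⟨A, hA⟩ := (hgl' x hx hx').exists_equiv
    have h1 : HasFDerivAt e ((J.symm.trans (A.trans J) : ℂ ≃L[ℝ] ℂ) : ℂ →L[ℝ] ℂ) x := by
      rw [heg]
      exact J.hasFDerivAt.comp x (hA.comp x J.symm.hasFDerivAt)
    rw [h1.fderiv]
    exact (LinearEquiv.isUnit_det' (J.symm.trans (A.trans J)).toLinearEquiv).ne_zero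
  obtain ⟨e', a, b, c, d⟩ := plane h e r₀ r₁ h0 h01 h12 hes het hd1 hd2
  -- back to `E 2`
  obtain ⟨k, hk⟩ : ∃ k : E 2 → E 2, ∀ x, k x = J.symm (e' (J x)) := ⟨_, fun _ => rfl⟩
  have hJb : ∀ x : E 2, x ∈ ball (0 : E 2) 2 ↔ J x ∈ ball (0 : ℂ) 2 := fun x => by
    rw [mem_ball_zero_iff, mem_ball_zero_iff, hn]
  have hkl : ∀ x ∈ ball (0 : E 2) 2, LD 2 k x := by
    intro x hx
    have h1 : ∀ y ∈ ball (0 : E 2) 2, ContDiffAt ℝ ∞ k y := by
      intro y hy
      have h2 : k = fun x => J.symm (e' (J x)) := funext hk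
      rw [h2]
      exact J.symm.contDiff.contDiffAt.comp y ((b.contDiffAt (isOpen_ball.mem_nhds
        ((hJb y).1 hy))).comp y J.contDiff.contDiffAt)
    have hdx := c _ ((hJb x).1 hx)
    have h3 : HasFDerivAt e' (fderiv ℝ e' (J x)) (J x) :=
      ((b.contDiffAt (isOpen_ball.mem_nhds ((hJb x).1 hx))).differentiableAt (by simp)).hasFDerivAt
    refine LD_of_contDiffAt (Filter.eventually_of_mem (isOpen_ball.mem_nhds hx) h1)
      (J.trans (((fderiv ℝ e' (J x)).toContinuousLinearEquivOfDetNeZero hdx).trans J.symm)) ?_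
    have h2 : k = fun x => J.symm (e' (J x)) := funext hk
    rw [h2]
    exact J.symm.hasFDerivAt.comp x (h3.comp x J.hasFDerivAt)
  have hkinj : InjOn k (ball 0 2) := by
    intro x hx y hy hxy
    rw [hk, hk] at hxy
    exact J.injective (a.2.1 ((hJb x).1 hx) ((hJb y).1 hy) (J.symm.injective hxy))
  have hksurj : ∀ z : E 2, ∃ x ∈ ball (0 : E 2) 2, k x = z := by
    intro z
    obtain ⟨w, hw, hwz⟩ := a.2.2 (mem_univ (J z))
    refine ⟨J.symm w, ?_, ?_⟩
    · rw [hJb, hJ']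
      exact hw
    · rw [hk, hJ', hwz, hJ]
  choose Θ hΘ1 hΘ2 using hksurj
  have hΘk : ∀ x ∈ ball (0 : E 2) 2, Θ (k x) = x := fun x hx =>
    hkinj (hΘ1 _) hx (hΘ2 _)
  refine ⟨Θ, ?_, ?_, ?_, ?_⟩
  · intro z z' hzz
    rw [← hΘ2 z, ← hΘ2 z', hzz]
  · intro z
    have := LD.inverse isOpen_ball hkl hΘk (hΘ1 z)
    rwa [hΘ2] at this
  · ext x
    constructor
    · rintro ⟨z, rfl⟩
      exact hΘ1 z
    · intro hx
      exact ⟨k x, hΘk x hx⟩
  · intro z hz
    have h1 : H z ∈ ball (0 : E 2) 2 := by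
      rw [← hr]
      exact mem_range_self _
    have h2 : k (H z) = z := by
      rw [hk, d _ (by rwa [hn]) (by rw [hn]; exact mem_ball_zero_iff.1 h1), heH, hJ]
    have h3 := hΘk _ h1
    rwa [h2] at h3

end Pool.Agent.N550.KH.A2
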