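import Pool.Agent.N550.KH.Stm
import Pool.Agent.Helper202.Riemann

/-!
# KH/A2C: smooth Schoenflies in the plane with boundary values
-/

set_option autoImplicit false

open Set Filter Topology Metric Function
open scoped Manifold ContDiff

noncomputable section

namespace Pool.Agent.N550.KH.A2C

open Pool.Agent.N550.KH

theorem det_comp' (f g : ℂ →L[ℝ] ℂ) : (f.comp g).det = f.det * g.det :=
  LinearMap.det_comp _ _

theorem det_hol {g : ℂ → ℂ} {z : ℂ} (hg : DifferentiableAt ℂ g z) (h : deriv g z ≠ 0) :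
    0 < (fderiv ℝ g z).det := by
  have h1 : HasFDerivAt g ((ContinuousLinearMap.toSpanSingleton ℂ (deriv g z)).restrictScalars ℝ) z :=
    (hg.hasDerivAt.hasFDerivAt).restrictScalars ℝ
  rw [h1.fderiv]
  have h2 : ((ContinuousLinearMap.toSpanSingleton ℂ (deriv g z)).restrictScalars ℝ).det =
      (deriv g z).re ^ 2 + (deriv g z).im ^ 2 := by
    change LinearMap.det _ = _
    rw [← LinearMap.det_toMatrix Complex.basisOneI, Matrix.det_fin_two]
    simp [LinearMap.toMatrix_apply, Complex.basisOneI]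
    ring
  rw [h2]
  have h3 : (deriv g z).re ≠ 0 ∨ (deriv g z).im ≠ 0 := by
    by_contra hc
    push Not at hc
    exact h (Complex.ext hc.1 hc.2)
  rcases h3 with h3 | h3
  · have := sq_nonneg (deriv g z).im
    positivity
  · have := sq_nonneg (deriv g z).re
    positivity

theorem homeo {Φ : ℂ → ℂ} (hb : Bijective Φ) (hc : ContDiff ℝ ∞ Φ)
    (hd : ∀ x, 0 < (fderiv ℝ Φ x).det) : ∃ h : ℂ ≃ₜ ℂ, ∀ x, h x = Φ x := by
  have hopen : IsOpenMap Φ := by
    refine isOpenMap_of_hasStrictFDerivAt_equiv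
      (f' := fun x => (fderiv ℝ Φ x).toContinuousLinearEquivOfDetNeZero (hd x).ne') fun x => ?_
    rw [ContinuousLinearMap.coe_toContinuousLinearEquivOfDetNeZero]
    exact hc.contDiffAt.hasStrictFDerivAt (by simp)
  exact ⟨(Equiv.ofBijective Φ hb).toHomeomorphOfContinuousOpen hc.continuous hopen, fun x => rfl⟩

theorem main (hol : S_HOL) (refl : S_REFL) (disc : S_DISC) : S_A2C := by
  intro e r₀ r₁ hr₀ hr₁ hr₂ hes het hsm hdet
  obtain ⟨s, hs⟩ : ∃ s, s = (r₀ + r₁) / 2 := ⟨_, rfl⟩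
  obtain ⟨η, hη⟩ : ∃ η, η = (r₁ - r₀) / 2 := ⟨_, rfl⟩
  have hη0 : 0 < η := by linarith
  have hηs : η < s := by linarith
  have hs0 : 0 < s := by linarith
  have hs2 : s < 2 := by linarith
  have hsub : An s η ⊆ {x | r₀ < ‖x‖ ∧ ‖x‖ < 2} := by
    intro x hx
    have h1 := hx.1
    have h2 := hx.2
    exact ⟨by linarith, by linarith⟩
  have hRo : IsOpen {x : ℂ | r₀ < ‖x‖ ∧ ‖x‖ < 2} :=
    (isOpen_lt continuous_const continuous_norm).inter (isOpen_lt continuous_norm continuous_const)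
  have hRb : {x : ℂ | r₀ < ‖x‖ ∧ ‖x‖ < 2} ⊆ ball 0 2 := by
    intro x hx
    rw [mem_ball_zero_iff]
    exact hx.2
  have einj : InjOn e (ball 0 2) := by rw [← hes]; exact e.injOn
  obtain ⟨Φ, Φb, Φc, Φd, Φid, ρ, hρ0, hρη, hhol⟩ := hol e s η hη0 hηs (hsm.mono hsub)
    (einj.mono (hsub.trans hRb)) (fun x hx => hdet x (hsub hx).1 (hsub hx).2)
  obtain ⟨Φh, hΦh⟩ := homeo Φb Φc Φd
  -- `Φ` preserves the annulus
  have Φan : ∀ x, Φ x ∈ An s η ↔ x ∈ An s η := by
    intro x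
    constructor
    · intro h
      by_contra hx
      rw [Φid x hx] at h
      exact hx h
    · intro h
      by_contra hx
      have h1 := Φid _ hx
      rw [Φb.1 h1] at hx
      exact hx h
  have ΦR : ∀ x, r₀ < ‖x‖ → ‖x‖ < 2 → r₀ < ‖Φ x‖ ∧ ‖Φ x‖ < 2 := by
    intro x h1 h2
    by_cases hx : x ∈ An s η
    · exact hsub ((Φan x).2 hx)
    · rw [Φid x hx]; exact ⟨h1, h2⟩
  have Φ2 : ∀ x, ‖Φ x‖ < 2 ↔ ‖x‖ < 2 := by
    intro x
    by_cases hx : x ∈ An s η
    · have h1 := (hsub hx).2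
      have h2 := (hsub ((Φan x).2 hx)).2
      exact ⟨fun _ => h1, fun _ => h2⟩
    · rw [Φid x hx]
  -- the homeomorphism `e₁`
  obtain ⟨E, hE⟩ : ∃ E : OpenPartialHomeomorph ℂ ℂ, E = Φh.toOpenPartialHomeomorph.trans e :=
    ⟨_, rfl⟩
  have hEa : ∀ x, E x = e (Φ x) := by
    intro x
    rw [hE, ← hΦh]
    rfl
  have hEs : E.source = ball 0 2 := by
    rw [hE, OpenPartialHomeomorph.trans_source, hes]
    ext x
    simp only [Homeomorph.toOpenPartialHomeomorph_source, univ_inter, mem_preimage,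
      mem_ball_zero_iff]
    rw [← Φ2 x, ← hΦh]
    rfl
  have hEt : E.target = univ := by
    rw [hE, OpenPartialHomeomorph.trans_target, het]
    simp
  have Einj : InjOn E (ball 0 2) := by rw [← hEs]; exact E.injOn
  have hball : ball (0 : ℂ) s ⊆ ball 0 2 := ball_subset_ball hs2.le
  have hballE : ball (0 : ℂ) s ⊆ E.source := by rw [hEs]; exact hball
  have Esm : ∀ x, r₀ < ‖x‖ → ‖x‖ < 2 → ContDiffAt ℝ ∞ E x := by
    intro x h1 h2
    have h3 : ContDiffAt ℝ ∞ e (Φ x) := hsm.contDiffAt (hRo.mem_nhds (ΦR x h1 h2))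
    have h4 : ContDiffAt ℝ ∞ (e ∘ Φ) x := h3.comp x Φc.contDiffAt
    have h5 : (E : ℂ → ℂ) = e ∘ Φ := funext hEa
    rw [h5]
    exact h4
  have Edet : ∀ x, r₀ < ‖x‖ → ‖x‖ < 2 → 0 < (fderiv ℝ E x).det := by
    intro x h1 h2
    have h3 : ContDiffAt ℝ ∞ e (Φ x) := hsm.contDiffAt (hRo.mem_nhds (ΦR x h1 h2))
    have h5 : (E : ℂ → ℂ) = e ∘ Φ := funext hEa
    rw [h5, fderiv_comp x (h3.differentiableAt (by simp))
      (Φc.contDiffAt.differentiableAt (by simp)), det_comp']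
    exact mul_pos (hdet _ (ΦR x h1 h2).1 (ΦR x h1 h2).2) (Φd x)
  -- the domain `D`
  obtain ⟨D, hD⟩ : ∃ D, D = E '' ball 0 s := ⟨_, rfl⟩
  have hDo : IsOpen D := by
    rw [hD]
    exact E.isOpen_image_of_subset_source isOpen_ball hballE
  have hDsc : IsSimplyConnected D := by
    have h1 : ContractibleSpace (ball (0 : ℂ) s) :=
      (convex_ball 0 s).contractibleSpace ⟨0, mem_ball_self hs0⟩
    have h2 : SimplyConnectedSpace (ball (0 : ℂ) s) := inferInstance
    have h3 : (ball (0 : ℂ) s) ≃ₜ D := E.homeomorphOfImageSubsetSource hballE hD.symm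
    exact h3.symm.toHomotopyEquiv.simplyConnectedSpace
  have hsmem : ((s : ℝ) : ℂ) ∈ ball (0 : ℂ) 2 := by
    rw [mem_ball_zero_iff, Complex.norm_real, Real.norm_eq_abs, abs_of_pos hs0]
    exact hs2
  have hDD : ∀ x ∈ ball (0 : ℂ) 2, E x ∈ D → ‖x‖ < s := by
    intro x hx h
    rw [hD] at h
    obtain ⟨y, hy, hyx⟩ := h
    rw [← Einj (hball hy) hx hyx]
    rwa [mem_ball_zero_iff] at hy
  have hDne : D ≠ univ := by
    intro h
    have h1 : E ((s : ℝ) : ℂ) ∈ D := by rw [h]; trivial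
    have h2 := hDD _ hsmem h1
    rw [Complex.norm_real, Real.norm_eq_abs, abs_of_pos hs0] at h2
    exact lt_irrefl _ h2
  have h0D : E 0 ∈ D := by rw [hD]; exact ⟨0, mem_ball_self hs0, rfl⟩
  obtain ⟨g, φ, gd, gb, gne, -, φd, φm, gφ, φg⟩ :=
    Pool.Agent.Helper202.Riemann.riemann_inv hDo hDsc hDne h0D
  have ED : ∀ x, ‖x‖ < s → E x ∈ D := fun x hx => by
    rw [hD]; exact ⟨x, by rwa [mem_ball_zero_iff], rfl⟩
  -- Schwarz reflection
  obtain ⟨F, ρ₂, hρ₂, hρ₂ρ, Fd, Fi, Fa, F1⟩ := refl (fun x => φ (E x)) s ρ hρ0 (hρη.trans hηs)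
    (by
      have h1 : DifferentiableOn ℂ E {x | s - ρ < ‖x‖ ∧ ‖x‖ < s} := by
        have h2 : (E : ℂ → ℂ) = fun x => e (Φ x) := funext hEa
        rw [h2]
        exact hhol.mono fun x hx => ⟨hx.1, by linarith [hx.2]⟩
      exact φd.comp h1 fun x hx => ED x hx.2)
    (by
      intro x hx y hy hxy
      have h1 : g (φ (E x)) = g (φ (E y)) := congrArg g hxy
      rw [gφ _ (ED x hx.2), gφ _ (ED y hy.2)] at h1
      exact Einj (hball (by rw [mem_ball_zero_iff]; exact hx.2))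
        (hball (by rw [mem_ball_zero_iff]; exact hy.2)) h1)
    (by
      intro x _ hx
      have := φm (ED x hx)
      rwa [mem_ball_zero_iff] at this)
    (by
      intro ε hε
      -- the compact set
      have hK : IsCompact (E.symm '' (g '' closedBall 0 (1 - ε))) := by
        have h1 : closedBall (0 : ℂ) (1 - ε) ⊆ ball 0 1 := closedBall_subset_ball (by linarith)
        have h2 : IsCompact (g '' closedBall 0 (1 - ε)) :=
          (isCompact_closedBall 0 (1 - ε)).image_of_continuousOn (gd.continuousOn.mono h1)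
        refine h2.image_of_continuousOn (E.continuousOn_symm.mono ?_)
        rw [hEt]
        exact subset_univ _
      have hKs : ∀ x ∈ E.symm '' (g '' closedBall 0 (1 - ε)), ‖x‖ < s := by
        rintro _ ⟨_, ⟨w, hw, rfl⟩, rfl⟩
        have h1 : w ∈ ball (0 : ℂ) 1 := closedBall_subset_ball (by linarith) hw
        have h2 := gb.mapsTo h1
        rw [hD] at h2
        obtain ⟨y, hy, hyx⟩ := h2
        rw [← hyx, E.left_inv (hballE hy)]
        rwa [mem_ball_zero_iff] at hy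
      have hin : ∀ x, ‖x‖ < s → ‖φ (E x)‖ ≤ 1 - ε →
          x ∈ E.symm '' (g '' closedBall 0 (1 - ε)) := by
        intro x hx h
        refine ⟨E x, ⟨φ (E x), by rwa [mem_closedBall_zero_iff], gφ _ (ED x hx)⟩, ?_⟩
        exact E.left_inv (hballE (by rwa [mem_ball_zero_iff]))
      rcases (E.symm '' (g '' closedBall 0 (1 - ε))).eq_empty_or_nonempty with h0 | h0
      · refine ⟨1, one_pos, fun x _ hx => ?_⟩
        by_contra hc
        push Not at hc
        have := hin x hx hc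
        rw [h0] at this
        exact this
      · obtain ⟨x₀, hx₀, hmax⟩ := hK.exists_isMaxOn h0 continuous_norm.continuousOn
        refine ⟨s - ‖x₀‖, by linarith [hKs x₀ hx₀], fun x hx1 hx2 => ?_⟩
        by_contra hc
        push Not at hc
        have h1 : ‖x‖ ≤ ‖x₀‖ := hmax (hin x hx2 hc)
        linarith)
  obtain ⟨A, ρ₃, hρ₃, hρ₃ρ, Ab, Ac, Ad, AF⟩ := disc F s ρ₂ hρ₂ (by linarith) Fd Fi F1
    (by
      intro x h1 h2
      rw [Fa x h1 h2]
      have := φm (ED x h2)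
      rwa [mem_ball_zero_iff] at this)
  -- the map
  have glue : ∀ x, s - ρ₃ < ‖x‖ → ‖x‖ < s → g (A x) = E x := by
    intro x h1 h2
    rw [AF x h1 h2, Fa x (by linarith) h2]
    exact gφ _ (ED x h2)
  have Amem : ∀ x, ‖x‖ < s → A x ∈ ball (0 : ℂ) 1 := fun x hx =>
    Ab.mapsTo (by rwa [mem_ball_zero_iff])
  obtain ⟨f, hf⟩ : ∃ f : ℂ → ℂ, f = fun x => if ‖x‖ < s then g (A x) else E x := ⟨_, rfl⟩
  have f1 : ∀ x, ‖x‖ < s → f x = g (A x) := fun x hx => by rw [hf]; exact if_pos hx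
  have f2 : ∀ x, s - ρ₃ < ‖x‖ → f x = E x := by
    intro x hx
    by_cases h : ‖x‖ < s
    · rw [f1 x h, glue x hx h]
    · rw [hf]; exact if_neg h
  have n1 : ∀ x, ‖x‖ < s → f =ᶠ[𝓝 x] fun y => g (A y) := by
    intro x hx
    filter_upwards [(isOpen_lt continuous_norm continuous_const).mem_nhds hx] with y hy
    exact f1 y hy
  have n2 : ∀ x, s - ρ₃ < ‖x‖ → f =ᶠ[𝓝 x] E := by
    intro x hx
    filter_upwards [(isOpen_lt continuous_const continuous_norm).mem_nhds hx] with y hy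
    exact f2 y hy
  have gsm : ∀ z ∈ ball (0 : ℂ) 1, ContDiffAt ℝ ∞ g z := by
    intro z hz
    have h1 : ContDiffAt ℂ ∞ g z := (gd.contDiffOn isOpen_ball).contDiffAt (isOpen_ball.mem_nhds hz)
    exact h1.restrict_scalars ℝ
  have Asm : ∀ x, ‖x‖ < s → ContDiffAt ℝ ∞ A x := fun x hx =>
    Ac.contDiffAt (isOpen_ball.mem_nhds (by rwa [mem_ball_zero_iff]))
  refine ⟨f, ⟨fun _ _ => trivial, ?_, ?_⟩, ?_, ?_, ?_⟩
  · -- injective
    have key : ∀ x ∈ ball (0 : ℂ) 2, ∀ y ∈ ball (0 : ℂ) 2, f x = f y → ‖x‖ < s → x = y := by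
      intro x hx y hy hxy h1
      by_cases h2 : ‖y‖ < s
      · rw [f1 x h1, f1 y h2] at hxy
        exact Ab.injOn (by rwa [mem_ball_zero_iff]) (by rwa [mem_ball_zero_iff])
          (gb.injOn (Amem x h1) (Amem y h2) hxy)
      · rw [f1 x h1, f2 y (by linarith [not_lt.1 h2])] at hxy
        have h3 : E y ∈ D := by rw [← hxy]; exact gb.mapsTo (Amem x h1)
        exact absurd (hDD y hy h3) h2
    intro x hx y hy hxy
    by_cases h1 : ‖x‖ < s
    · exact key x hx y hy hxy h1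
    · by_cases h2 : ‖y‖ < s
      · exact (key y hy x hx hxy.symm h2).symm
      · rw [f2 x (by linarith [not_lt.1 h1]), f2 y (by linarith [not_lt.1 h2])] at hxy
        exact Einj hx hy hxy
  · -- surjective
    intro z _
    have h1 : z ∈ E.target := by rw [hEt]; trivial
    obtain ⟨x, hx⟩ : ∃ x, x = E.symm z := ⟨_, rfl⟩
    have h2 : x ∈ ball (0 : ℂ) 2 := by rw [← hEs, hx]; exact E.map_target h1
    have h3 : E x = z := by rw [hx]; exact E.right_inv h1
    by_cases h4 : ‖x‖ < s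
    · have h5 : z ∈ D := by rw [← h3]; exact ED x h4
      obtain ⟨w, hw, hwz⟩ := gb.surjOn h5
      obtain ⟨y, hy, hyw⟩ := Ab.surjOn hw
      refine ⟨y, hball hy, ?_⟩
      rw [f1 y (by rwa [mem_ball_zero_iff] at hy), hyw, hwz]
    · exact ⟨x, h2, by rw [f2 x (by linarith [not_lt.1 h4]), h3]⟩
  · -- smooth
    intro x hx
    rw [mem_ball_zero_iff] at hx
    apply ContDiffAt.contDiffWithinAt
    by_cases h1 : ‖x‖ < s
    · exact ((gsm _ (Amem x h1)).comp x (Asm x h1)).congr_of_eventuallyEq (n1 x h1)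
    · exact (Esm x (by linarith [not_lt.1 h1]) hx).congr_of_eventuallyEq
        (n2 x (by linarith [not_lt.1 h1]))
  · intro x hx
    rw [mem_ball_zero_iff] at hx
    by_cases h1 : ‖x‖ < s
    · rw [(n1 x h1).fderiv_eq]
      have h2 : (fun y => g (A y)) = g ∘ A := rfl
      rw [h2, fderiv_comp x ((gsm _ (Amem x h1)).differentiableAt (by simp))
        ((Asm x h1).differentiableAt (by simp)), det_comp']
      refine mul_pos (det_hol ?_ (gne _ (Amem x h1))) (Ad x (by rwa [mem_ball_zero_iff]))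
      exact (gd _ (Amem x h1)).differentiableAt (isOpen_ball.mem_nhds (Amem x h1))
    · rw [(n2 x (by linarith [not_lt.1 h1])).fderiv_eq]
      exact Edet x (by linarith [not_lt.1 h1]) hx
  · intro x h1 h2
    rw [f2 x (by linarith), hEa, Φid x]
    intro h3
    have := h3.2
    linarith

end Pool.Agent.N550.KH.A2C
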