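import Pool.Agent.N550.KH.Stm
import Pool.Agent.Y522.Tools

/-!
# Project KH: the core arcs of the 1-handles
-/

set_option autoImplicit false

open Set Filter Topology Metric Function
open scoped Manifold ContDiff

noncomputable section

namespace Pool.Agent.N550.KH.Arc

open Pool.Agent.Y522 Pool.Agent.N550.KH

section lin

variable {k : ℕ}

/-- the first coordinate -/
def hd (k : ℕ) : E (1 + k) →L[ℝ] ℝ := EuclideanSpace.proj (Fin.castAdd k (0 : Fin 1))

/-- the first unit vector -/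
def e1 (k : ℕ) : E (1 + k) := jn 1 k (WithLp.toLp 2 (fun _ => (1 : ℝ))) 0

/-- the inclusion of the last coordinates -/
def iv (k : ℕ) : E k →L[ℝ] E (1 + k) :=
  LinearMap.toContinuousLinearMap
    { toFun := fun v => jn 1 k 0 v
      map_add' := fun x y => by
        ext i
        refine Fin.addCases (fun i => ?_) (fun i => ?_) i <;> simp [jn]
      map_smul' := fun c x => by
        ext i
        refine Fin.addCases (fun i => ?_) (fun i => ?_) i <;> simp [jn] }

/-- the point with first coordinate `t` and last coordinates `v` -/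
def pt (k : ℕ) (t : ℝ) (v : E k) : E (1 + k) := t • e1 k + iv k v

theorem hd_apply (z : E (1 + k)) : hd k z = z (Fin.castAdd k (0 : Fin 1)) := rfl

@[simp] theorem hd_e1 : hd k (e1 k) = 1 := by simp [hd_apply, e1, jn]

@[simp] theorem vp_e1 : vp 1 k (e1 k) = 0 := by
  unfold e1
  rw [vp_jn]

theorem iv_apply (v : E k) : iv k v = jn 1 k 0 v := rfl

@[simp] theorem hd_iv (v : E k) : hd k (iv k v) = 0 := by simp [hd_apply, iv_apply, jn]

@[simp] theorem vp_iv (v : E k) : vp 1 k (iv k v) = v := by rw [iv_apply, vp_jn]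

@[simp] theorem hd_pt (t : ℝ) (v : E k) : hd k (pt k t v) = t := by simp [pt]

@[simp] theorem vp_pt (t : ℝ) (v : E k) : vp 1 k (pt k t v) = v := by simp [pt]

theorem ext_hv {z w : E (1 + k)} (h1 : hd k z = hd k w) (h2 : vp 1 k z = vp 1 k w) : z = w := by
  ext i
  refine Fin.addCases (fun i => ?_) (fun i => ?_) i
  · have : i = 0 := Subsingleton.elim _ _
    subst this
    exact h1
  · have := congrArg (fun y : E k => y i) h2
    simpa using this

@[simp] theorem pt_eta (z : E (1 + k)) : pt k (hd k z) (vp 1 k z) = z :=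
  ext_hv (by simp) (by simp)

theorem continuous_pt : Continuous (fun p : ℝ × E k => pt k p.1 p.2) := by
  unfold pt
  fun_prop

theorem norm_E1 (u : E 1) : ‖u‖ = |u 0| := by
  rw [EuclideanSpace.norm_eq]
  simp [Real.sqrt_sq_eq_abs]

theorem norm_up (z : E (1 + k)) : ‖up 1 k z‖ = |hd k z| := by
  rw [norm_E1]
  rfl

theorem hd_jn (u : E 1) (v : E k) : hd k (jn 1 k u v) = u 0 := by simp [hd_apply, jn]

theorem jn_eq (u : E 1) (v : E k) : jn 1 k u v = pt k (u 0) v :=
  ext_hv (by rw [hd_pt, hd_jn]) (by simp)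

end lin

/-- a shear is a homeomorphism -/
theorem shear {k : ℕ} (g : E (1 + k) → ℝ) (hg : Continuous g) (ε : ℝ)
    (h1 : ∀ z, 1 ≤ |hd k z| → g z = 0) (h2 : ∀ z, ε ≤ ‖vp 1 k z‖ → g z = 0)
    (hm : ∀ v, StrictMonoOn (fun t => t + g (pt k t v)) (Icc (-1) 1)) :
    ∃ Θ : E (1 + k) ≃ₜ E (1 + k), ∀ z, Θ z = z + g z • e1 k := by
  have hg1 : ∀ v t, 1 ≤ |t| → g (pt k t v) = 0 := fun v t ht => h1 _ (by simpa using ht)
  have hm' : ∀ v, StrictMono (fun t => t + g (pt k t v)) := by
    intro v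
    have a1 : StrictMonoOn (fun t => t + g (pt k t v)) (Iic (-1)) := by
      intro a ha b hb hab
      have ha' : a ≤ -1 := ha
      have hb' : b ≤ -1 := hb
      simp only
      rw [hg1 v a (by rw [abs_of_nonpos (by linarith)]; linarith),
        hg1 v b (by rw [abs_of_nonpos (by linarith)]; linarith)]
      linarith
    have a2 : StrictMonoOn (fun t => t + g (pt k t v)) (Ici 1) := by
      intro a ha b hb hab
      have ha' : 1 ≤ a := ha
      have hb' : 1 ≤ b := hb
      simp only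
      rw [hg1 v a (by rw [abs_of_nonneg (by linarith)]; linarith),
        hg1 v b (by rw [abs_of_nonneg (by linarith)]; linarith)]
      linarith
    have a3 := a1.union (hm v) (c := (-1 : ℝ)) isGreatest_Iic (isLeast_Icc (by norm_num))
    have e1 : Iic (-1 : ℝ) ∪ Icc (-1) 1 = Iic 1 := Iic_union_Icc_eq_Iic (by norm_num)
    rw [e1] at a3
    have a4 := a3.union a2 (c := (1 : ℝ)) isGreatest_Iic isLeast_Ici
    rw [Iic_union_Ici] at a4
    exact strictMonoOn_univ.1 a4
  have hΘc : Continuous (fun z : E (1 + k) => z + g z • e1 k) := by fun_prop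
  have hhd : ∀ z, hd k (z + g z • e1 k) = hd k z + g z := by intro z; simp
  have hvp : ∀ z, vp 1 k (z + g z • e1 k) = vp 1 k z := by intro z; simp
  have hinj : Injective (fun z : E (1 + k) => z + g z • e1 k) := by
    intro z w h
    simp only at h
    have hv : vp 1 k z = vp 1 k w := by rw [← hvp z, ← hvp w, h]
    refine ext_hv ?_ hv
    have h3 : hd k z + g z = hd k w + g w := by rw [← hhd z, ← hhd w, h]
    apply (hm' (vp 1 k z)).injective
    simp only
    rw [pt_eta, hv, pt_eta]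
    exact h3
  have hsurj : Surjective (fun z : E (1 + k) => z + g z • e1 k) := by
    intro w
    have hex : ∃ t, t + g (pt k t (vp 1 k w)) = hd k w := by
      by_cases hw : 1 ≤ |hd k w|
      · exact ⟨hd k w, by rw [hg1 _ _ hw, add_zero]⟩
      · have hw' : |hd k w| < 1 := not_le.1 hw
        have hc : ContinuousOn (fun t => t + g (pt k t (vp 1 k w))) (Icc (-1) 1) := by
          have : Continuous (fun t : ℝ => pt k t (vp 1 k w)) :=
            continuous_pt.comp (by fun_prop : Continuous fun t : ℝ => (t, vp 1 k w))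
          exact (continuous_id.add (hg.comp this)).continuousOn
        have h5 := intermediate_value_Icc (by norm_num : (-1 : ℝ) ≤ 1) hc
        rw [hg1 _ (-1) (by simp), hg1 _ 1 (by simp), add_zero, add_zero] at h5
        obtain ⟨t, -, ht⟩ := h5 ⟨(abs_lt.1 hw').1.le, (abs_lt.1 hw').2.le⟩
        exact ⟨t, ht⟩
    obtain ⟨t, ht⟩ := hex
    refine ⟨pt k t (vp 1 k w), ext_hv ?_ ?_⟩
    · simp only
      rw [hhd, hd_pt, ht]
    · simp only
      rw [hvp, vp_pt]
  -- the map is closed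
  set K : Set (E (1 + k)) := {z | |hd k z| ≤ 1 ∧ ‖vp 1 k z‖ ≤ ε} with hK
  have hKc : IsCompact K := by
    have : K = (fun p : ℝ × E k => pt k p.1 p.2) '' (Icc (-1) 1 ×ˢ closedBall (0 : E k) ε) := by
      ext z
      constructor
      · rintro ⟨b1, b2⟩
        exact ⟨(hd k z, vp 1 k z), ⟨abs_le.1 b1, by simpa using b2⟩, pt_eta z⟩
      · rintro ⟨p, ⟨b1, b2⟩, rfl⟩
        exact ⟨by simpa using abs_le.2 b1, by simpa using b2⟩
    rw [this]
    exact (isCompact_Icc.prod (isCompact_closedBall _ _)).image continuous_pt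
  have hid : ∀ z ∈ closure Kᶜ, z + g z • e1 k = z := by
    have hcl : IsClosed {z : E (1 + k) | z + g z • e1 k = z} := isClosed_eq hΘc continuous_id
    have hsub : Kᶜ ⊆ {z : E (1 + k) | z + g z • e1 k = z} := by
      intro z hz
      have : g z = 0 := by
        by_cases hz1 : |hd k z| ≤ 1
        · refine h2 z ?_
          by_contra hc
          exact hz ⟨hz1, (not_le.1 hc).le⟩
        · exact h1 z (not_le.1 hz1).le
      simp [this]
    exact fun z hz => closure_minimal hsub hcl hz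
  have hclosed : IsClosedMap (fun z : E (1 + k) => z + g z • e1 k) := by
    intro S hS
    have h6 : (fun z : E (1 + k) => z + g z • e1 k) '' S =
        (fun z : E (1 + k) => z + g z • e1 k) '' (S ∩ K) ∪ (S ∩ closure Kᶜ) := by
      ext w
      constructor
      · rintro ⟨z, hz, rfl⟩
        by_cases hzK : z ∈ K
        · exact Or.inl ⟨z, ⟨hz, hzK⟩, rfl⟩
        · right
          have h7 := subset_closure (show z ∈ Kᶜ from hzK)
          simp only
          rw [hid z h7]
          exact ⟨hz, h7⟩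
      · rintro (⟨z, hz, rfl⟩ | hw)
        · exact ⟨z, hz.1, rfl⟩
        · exact ⟨w, hw.1, hid w hw.2⟩
    rw [h6]
    exact ((hKc.inter_left hS).image hΘc).isClosed.union (hS.inter isClosed_closure)
  refine ⟨(Equiv.ofBijective _ ⟨hinj, hsurj⟩).toHomeomorphOfContinuousClosed hΘc hclosed,
    fun z => rfl⟩

/-! ### Criteria for local diffeomorphisms -/

section ld

variable {k : ℕ} {M : Type} [TopologicalSpace M] [ChartedSpace (E (1 + k)) M]

theorem ld_key (F' Ψ : M → E (1 + k)) (x : M) (hΨ : LD (1 + k) Ψ x) (hF' : Sm (1 + k) F' x)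
    (hv : ∀ᶠ y in 𝓝 x, vp 1 k (F' y) = vp 1 k (Ψ y))
    (hc : ∀ p : E (1 + k) → M, LD (1 + k) p (Ψ x) → p (Ψ x) = x →
      (∀ᶠ z in 𝓝 (Ψ x), Ψ (p z) = z) →
      ∃ c : ℝ, c ≠ 0 ∧ HasDerivAt (fun s : ℝ => hd k (F' (p (Ψ x + s • e1 k)))) c 0) :
    LD (1 + k) F' x := by
  obtain ⟨p, hp, hpx, hpΨ, hΨp⟩ := hΨ.exists_inverse
  obtain ⟨c, hc0, hc⟩ := hc p hp hpx hΨp
  obtain ⟨z0, hz0⟩ : ∃ z0, z0 = Ψ x := ⟨_, rfl⟩
  rw [← hz0] at hp hpx hΨp hc
  have hpc : Tendsto p (𝓝 z0) (𝓝 x) := by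
    have := hp.continuousAt
    rw [ContinuousAt, hpx] at this
    exact this
  have hG : ∀ᶠ z in 𝓝 z0, ContDiffAt ℝ ∞ (fun z => F' (p z)) z := by
    filter_upwards [hp.eventually, hpc.eventually hF'] with z h1 h2
    exact contMDiffAt_iff_contDiffAt.1 (h2.comp z h1.contMDiffAt)
  have hD : HasFDerivAt (fun z => F' (p z)) (fderiv ℝ (fun z => F' (p z)) z0) z0 :=
    (hG.self_of_nhds.differentiableAt (by simp)).hasFDerivAt
  obtain ⟨D, hDeq⟩ : ∃ D, D = fderiv ℝ (fun z => F' (p z)) z0 := ⟨_, rfl⟩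
  rw [← hDeq] at hD
  have hvG : ∀ᶠ z in 𝓝 z0, vp 1 k (F' (p z)) = vp 1 k z := by
    filter_upwards [hpc.eventually hv, hΨp] with z h1 h2
    rw [h1, h2]
  have vpD : ∀ w, vp 1 k (D w) = vp 1 k w := by
    have a1 : HasFDerivAt (fun z => vp 1 k (F' (p z))) ((vp 1 k).comp D) z0 :=
      (vp 1 k).hasFDerivAt.comp z0 hD
    have a2 : HasFDerivAt (fun z => vp 1 k (F' (p z))) (vp 1 k) z0 :=
      (vp 1 k).hasFDerivAt.congr_of_eventuallyEq hvG
    intro w
    have := a1.unique a2
    exact congrArg (fun L => L w) this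
  have hdD : hd k (D (e1 k)) = c := by
    have a1 : HasDerivAt (fun s : ℝ => z0 + s • e1 k) (e1 k) 0 := by
      have := ((hasDerivAt_id (0 : ℝ)).smul_const (e1 k)).const_add z0
      simpa using this
    have a2 : HasFDerivAt (fun z => F' (p z)) D (z0 + (0 : ℝ) • e1 k) := by simpa using hD
    have a3 := (hd k).hasFDerivAt.comp_hasDerivAt (0 : ℝ) (a2.comp_hasDerivAt (0 : ℝ) a1)
    exact a3.unique hc
  have hinj : Injective D := by
    rw [injective_iff_map_eq_zero]
    intro w hw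
    have b1 : vp 1 k w = 0 := by rw [← vpD w, hw, map_zero]
    have b2 : w = hd k w • e1 k := ext_hv (by simp) (by simp [b1])
    have b3 : hd k w * c = 0 := by
      have : hd k (D w) = 0 := by rw [hw, map_zero]
      rw [b2, map_smul, map_smul, hdD, smul_eq_mul] at this
      exact this
    have b4 : hd k w = 0 := (mul_eq_zero.1 b3).resolve_right hc0
    rw [b2, b4, zero_smul]
  obtain ⟨A, hA⟩ : ∃ A : E (1 + k) ≃L[ℝ] E (1 + k), (A : E (1 + k) →L[ℝ] E (1 + k)) = D := by
    refine ⟨(LinearEquiv.ofInjectiveEndo (D : E (1 + k) →ₗ[ℝ] E (1 + k)) hinj).toContinuousLinearEquiv,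
      ?_⟩
    ext w : 1
    rfl
  have hLD : LD (1 + k) (fun z => F' (p z)) z0 := LD_of_contDiffAt hG A (by rw [hA]; exact hD)
  have h3 : LD (1 + k) (fun y => F' (p (Ψ y))) x := LD.comp_fun (g := fun z => F' (p z)) (by
    rw [← hz0]; exact hLD) hΨ
  refine h3.congr ?_
  filter_upwards [hpΨ] with y hy
  rw [hy]

theorem ld_conv (F : M → E (1 + k)) (p : E (1 + k) → M) (z0 : E (1 + k))
    (hF : LD (1 + k) F (p z0)) (hp : LD (1 + k) p z0)
    (hv : ∀ᶠ z in 𝓝 z0, vp 1 k (F (p z)) = vp 1 k z) {c : ℝ}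
    (hc : HasDerivAt (fun s : ℝ => hd k (F (p (z0 + s • e1 k)))) c 0) : c ≠ 0 := by
  have hLD : LD (1 + k) (fun z => F (p z)) z0 := LD.comp_fun hF hp
  obtain ⟨A, hA⟩ := hLD.exists_equiv
  have vpD : ∀ w, vp 1 k (A w) = vp 1 k w := by
    have a1 : HasFDerivAt (fun z => vp 1 k (F (p z))) ((vp 1 k).comp (A : E (1 + k) →L[ℝ] E (1 + k)))
      z0 := (vp 1 k).hasFDerivAt.comp z0 hA
    have a2 : HasFDerivAt (fun z => vp 1 k (F (p z))) (vp 1 k) z0 :=
      (vp 1 k).hasFDerivAt.congr_of_eventuallyEq hv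
    intro w
    have := a1.unique a2
    exact congrArg (fun L => L w) this
  have hdD : hd k (A (e1 k)) = c := by
    have a1 : HasDerivAt (fun s : ℝ => z0 + s • e1 k) (e1 k) 0 := by
      have := ((hasDerivAt_id (0 : ℝ)).smul_const (e1 k)).const_add z0
      simpa using this
    have a2 : HasFDerivAt (fun z => F (p z)) (A : E (1 + k) →L[ℝ] E (1 + k))
      (z0 + (0 : ℝ) • e1 k) := by simpa using hA
    have a3 := (hd k).hasFDerivAt.comp_hasDerivAt (0 : ℝ) (a2.comp_hasDerivAt (0 : ℝ) a1)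
    exact a3.unique hc
  intro hc0
  have h1 : A (e1 k) = 0 := ext_hv (by rw [hdD, hc0, map_zero]) (by rw [vpD, vp_e1, map_zero])
  have h2 : e1 k = 0 := by simpa using h1
  have h3 : hd k (e1 k) = 0 := by rw [h2, map_zero]
  rw [hd_e1] at h3
  exact one_ne_zero h3

end ld

/-- the derivative of the modified function along the arcs -/
theorem deriv_pos {f : ℝ → ℝ} {f' a b L B : ℝ} {z : ℝ → ℝ} (hf : HasDerivAt f f' 0) (hf' : 0 ≤ f')
    (hz : Differentiable ℝ z) (hL : ∀ t, |deriv z t| ≤ L) (ha : 0 ≤ a) (hb : |b| ≤ B)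
    (haL : a * L * B ≤ 1 / 2) :
    ∃ c, 1 / 2 * f' + a * z (f 0) ≤ c ∧
      HasDerivAt (fun s => f s + a * z (f s) * (b + s)) c 0 := by
  have h1 : HasDerivAt (fun s => a * z (f s)) (a * (deriv z (f 0) * f')) 0 :=
    ((hz (f 0)).hasDerivAt.comp (0 : ℝ) hf).const_mul a
  have h2 : HasDerivAt (fun s : ℝ => b + s) 1 0 := (hasDerivAt_id (0 : ℝ)).const_add b
  have h3 := hf.add (h1.mul h2)
  refine ⟨_, ?_, h3⟩
  have h4 : |a * deriv z (f 0) * b| ≤ 1 / 2 := by
    rw [abs_mul, abs_mul, abs_of_nonneg ha]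
    have hL0 : 0 ≤ L := (abs_nonneg _).trans (hL 0)
    calc a * |deriv z (f 0)| * |b| ≤ a * L * B := by
          refine mul_le_mul (mul_le_mul_of_nonneg_left (hL _) ha) hb (abs_nonneg _) ?_
          positivity
      _ ≤ 1 / 2 := haL
  have h5 := (abs_le.1 h4).1
  have h6 : 0 ≤ f' * (a * deriv z (f 0) * b + 1 / 2) := mul_nonneg hf' (by linarith)
  simp only [add_zero, mul_one]
  nlinarith

/-- monotone functions have nonnegative derivatives -/
theorem deriv_nonneg' {f : ℝ → ℝ} {f' : ℝ} (hf : HasDerivAt f f' 0)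
    (h : ∀ᶠ s in 𝓝[>] (0 : ℝ), f 0 ≤ f s) : 0 ≤ f' := by
  have h1 := hf.tendsto_slope
  have h2 : Tendsto (slope f 0) (𝓝[>] 0) (𝓝 f') :=
    h1.mono_left (nhdsWithin_mono _ fun s hs => ne_of_gt hs)
  refine ge_of_tendsto h2 ?_
  filter_upwards [h, self_mem_nhdsWithin] with s hs hs'
  rw [slope_def_field, sub_zero]
  exact div_nonneg (by linarith) (le_of_lt hs')

/-! ### The function on the neighbourhood of the arc -/

section core

variable {k : ℕ} {M : Type} [TopologicalSpace M] [CompactSpace M] [T2Space M]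
    [ChartedSpace (E (1 + k)) M] [IsManifold (𝓡 (1 + k)) ∞ M]

theorem E1_ext {a b : E 1} (h : a 0 = b 0) : a = b := by
  ext i
  rw [Subsingleton.elim i 0]
  exact h

omit [CompactSpace M] [T2Space M] [ChartedSpace (E (1 + k)) M] [IsManifold (𝓡 (1 + k)) ∞ M] in
theorem symm_cont (F : OpenPartialHomeomorph M (E (1 + k))) (hF : F.target = univ) :
    Continuous F.symm := by
  have := F.continuousOn_symm
  rw [hF] at this
  exact continuousOn_univ.1 this

theorem core_facts (hC : S_CORE) (hE : S_EXT) (hJ : S_JN)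
    (F : OpenPartialHomeomorph M (E (1 + k))) (hF : F.target = univ)
    (h1 : ∀ x ∈ F.source, vp 1 k (F x) = 0 → ‖up 1 k (F x)‖ < 2 → Sm (1 + k) F x ∧
      Surjective (mfderiv (𝓡 (1 + k)) (𝓡 k) (fun y => vp 1 k (F y)) x)) :
    ∃ (σ : M → E 1) (ε : ℝ), 0 < ε ∧ ContMDiff (𝓡 (1 + k)) (𝓡 1) ∞ σ ∧
      (∀ t v, |t| ≤ 3 / 2 → ‖v‖ ≤ ε → Sm (1 + k) F (F.symm (pt k t v)) ∧
        LD (1 + k) (fun x => jn 1 k (σ x) (vp 1 k (F x))) (F.symm (pt k t v))) ∧
      ∀ v, ‖v‖ ≤ ε → StrictMonoOn (fun t => σ (F.symm (pt k t v)) 0) (Icc (-(3 / 2)) (3 / 2)) := by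
  obtain ⟨j, hj, hjs, hji, hjr⟩ := hC 1 k M F hF h1
  have hsrc : ∀ z, F.symm z ∈ F.source := fun z => F.map_target (by rw [hF]; exact mem_univ z)
  have hFs : ∀ z, F (F.symm z) = z := fun z => F.right_inv (by rw [hF]; exact mem_univ z)
  have hPc : Continuous (fun p : ℝ × E k => F.symm (pt k p.1 p.2)) :=
    (symm_cont F hF).comp continuous_pt
  have hPt : ∀ v, Continuous (fun t : ℝ => F.symm (pt k t v)) := fun v =>
    hPc.comp (by fun_prop : Continuous fun t : ℝ => (t, v))
  have hPv : ∀ t, Continuous (fun v : E k => F.symm (pt k t v)) := fun t =>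
    hPc.comp (by fun_prop : Continuous fun v : E k => (t, v))
  obtain ⟨A, hA⟩ : ∃ A : Set M, A = (fun t => F.symm (pt k t 0)) '' Icc (-(3 / 2)) (3 / 2) :=
    ⟨_, rfl⟩
  have hAc : IsCompact A := by
    rw [hA]
    exact isCompact_Icc.image (hPt 0)
  have hS : ∀ t : ℝ, |t| < 2 → F.symm (pt k t 0) ∈ range j := by
    intro t ht
    rw [hjr]
    refine ⟨hsrc _, ?_, ?_⟩
    · rw [hFs, vp_pt]
    · rw [hFs, norm_up, hd_pt]
      exact ht
  have hAr : A ⊆ range j := by
    rw [hA]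
    rintro _ ⟨t, ht, rfl⟩
    exact hS t (abs_lt.2 ⟨by linarith [ht.1], by linarith [ht.2]⟩)
  have hcp : IsCompact (j ⁻¹' A) := (hj.isInducing.isCompact_preimage_iff hAr).2 hAc
  obtain ⟨R, hR⟩ := hcp.isBounded.subset_ball 0
  obtain ⟨sm, hsm⟩ := hS (-(3 / 2)) (by rw [abs_neg, abs_of_pos] <;> norm_num)
  obtain ⟨sp, hsp⟩ := hS (3 / 2) (by rw [abs_of_pos] <;> norm_num)
  have hne : sm ≠ sp := by
    intro h
    rw [h, hsp] at hsm
    have h2 := congrArg (fun x => hd k (F x)) hsm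
    simp only [hFs, hd_pt] at h2
    norm_num at h2
  have hne0 : sm 0 ≠ sp 0 := fun h => hne (E1_ext h)
  obtain ⟨θ, hθ⟩ : ∃ θ : E 1 ≃L[ℝ] E 1, θ sm 0 < θ sp 0 := by
    rcases lt_or_gt_of_ne hne0 with h | h
    · exact ⟨ContinuousLinearEquiv.refl ℝ (E 1), h⟩
    · exact ⟨ContinuousLinearEquiv.neg ℝ, by simpa using h⟩
  obtain ⟨σ, hσ, hσj⟩ := hE 1 k M j hj.injective hjs hji θ θ.contDiff R
  have hmemA : ∀ x ∈ A, ∃ s, j s = x ∧ ‖s‖ < R := by
    intro x hx
    obtain ⟨s, rfl⟩ := hAr hx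
    exact ⟨s, rfl, by simpa using hR hx⟩
  have hjx : ∀ s, j s ∈ F.source ∧ vp 1 k (F (j s)) = 0 ∧ ‖up 1 k (F (j s))‖ < 2 := by
    intro s
    have : j s ∈ range j := ⟨s, rfl⟩
    rw [hjr] at this
    exact this
  have hLD : ∀ x ∈ A, LD (1 + k) (fun x => jn 1 k (σ x) (vp 1 k (F x))) x := by
    intro x hx
    obtain ⟨s, rfl, hs⟩ := hmemA x hx
    obtain ⟨b1, b2, b3⟩ := hjx s
    obtain ⟨b4, b5⟩ := h1 _ b1 b2 b3
    refine hJ 1 k M j s σ (fun y => vp 1 k (F y)) θ hjs.contMDiffAt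
      (Eventually.of_forall fun x => hσ.contMDiffAt) ?_ b5
      (Eventually.of_forall fun t => (hjx t).2.1) ?_ (LD_linear θ s)
    · filter_upwards [b4] with y hy
      exact (vp 1 k).contMDiff.contMDiffAt.comp y hy
    · have : ball (0 : E 1) R ∈ 𝓝 s := isOpen_ball.mem_nhds (by simpa using hs)
      filter_upwards [this] with t ht
      exact hσj t (le_of_lt (by simpa using ht))
  have hinjA : InjOn (fun x => jn 1 k (σ x) (vp 1 k (F x))) A := by
    intro x hx y hy hxy
    obtain ⟨s, rfl, hs⟩ := hmemA x hx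
    obtain ⟨s', rfl, hs'⟩ := hmemA y hy
    have h3 := congrArg (up 1 k) hxy
    simp only [up_jn] at h3
    rw [hσj s hs.le, hσj s' hs'.le] at h3
    rw [θ.injective h3]
  obtain ⟨T, hT, hTinj⟩ := hinjA.exists_mem_nhdsSet hAc
    (fun x hx => (hLD x hx).continuousAt) (fun x hx => (hLD x hx).eventually_injOn)
  have hW : {x | Sm (1 + k) F x} ∩ {x | LD (1 + k) (fun x => jn 1 k (σ x) (vp 1 k (F x))) x} ∩ T
      ∈ 𝓝ˢ A := by
    rw [mem_nhdsSet_iff_forall]
    intro x hx
    obtain ⟨s, rfl, hs⟩ := hmemA x hx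
    obtain ⟨b1, b2, b3⟩ := hjx s
    obtain ⟨b4, b5⟩ := h1 _ b1 b2 b3
    refine inter_mem (inter_mem ?_ (hLD _ hx).eventually) (mem_nhdsSet_iff_forall.1 hT _ hx)
    exact eventually_eventually_nhds.2 b4
  obtain ⟨O, hO, hAO, hOW⟩ := mem_nhdsSet_iff_exists.1 hW
  have hn : IsOpen {p : ℝ × E k | F.symm (pt k p.1 p.2) ∈ O} := hO.preimage hPc
  obtain ⟨u, w, hu, hw, hsu, htw, huw⟩ := generalized_tube_lemma
    (isCompact_Icc (a := (-(3 / 2) : ℝ)) (b := 3 / 2)) (isCompact_singleton (x := (0 : E k))) hn (by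
      rintro ⟨t, v⟩ ⟨ht, hv⟩
      have hv' : v = 0 := hv
      subst hv'
      apply hAO
      rw [hA]
      exact ⟨t, ht, rfl⟩)
  have hw0 : w ∈ 𝓝 (0 : E k) := hw.mem_nhds (htw rfl)
  have hσc : Continuous fun x => σ x 0 := by
    have : Continuous σ := hσ.continuous
    fun_prop
  have hw1 : {v : E k | σ (F.symm (pt k (-(3 / 2)) v)) 0 < σ (F.symm (pt k (3 / 2) v)) 0} ∈
      𝓝 (0 : E k) := by
    refine (isOpen_lt (hσc.comp (hPv _)) (hσc.comp (hPv _))).mem_nhds ?_
    show σ (F.symm (pt k (-(3 / 2)) 0)) 0 < σ (F.symm (pt k (3 / 2) 0)) 0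
    have e1 : ‖sm‖ < R := by
      have : sm ∈ j ⁻¹' A := by
        rw [mem_preimage, hsm, hA]
        exact ⟨_, ⟨le_refl _, by norm_num⟩, rfl⟩
      simpa using hR this
    have e2 : ‖sp‖ < R := by
      have : sp ∈ j ⁻¹' A := by
        rw [mem_preimage, hsp, hA]
        exact ⟨_, ⟨by norm_num, le_refl _⟩, rfl⟩
      simpa using hR this
    rw [← hsm, ← hsp, hσj _ e1.le, hσj _ e2.le]
    exact hθ
  obtain ⟨ε, hε, hεw⟩ := Metric.nhds_basis_closedBall.mem_iff.1 (inter_mem hw0 hw1)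
  have hO' : ∀ t v, |t| ≤ 3 / 2 → ‖v‖ ≤ ε → F.symm (pt k t v) ∈ O := by
    intro t v ht hv
    have h5 := hεw (by simpa using hv : v ∈ closedBall (0 : E k) ε)
    exact huw (show (t, v) ∈ u ×ˢ w from ⟨hsu (abs_le.1 ht), h5.1⟩)
  refine ⟨σ, ε, hε, hσ, fun t v ht hv => ?_, fun v hv => ?_⟩
  · have h6 := hOW (hO' t v ht hv)
    exact ⟨h6.1.1, h6.1.2⟩
  · have h5 := hεw (by simpa using hv : v ∈ closedBall (0 : E k) ε)
    refine ContinuousOn.strictMonoOn_of_injOn_Icc (by norm_num) (le_of_lt h5.2)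
      (hσc.comp (hPt v)).continuousOn ?_
    intro t ht t' ht' htt
    have m1 := (hOW (hO' t v (abs_le.2 ht) hv)).2
    have m2 := (hOW (hO' t' v (abs_le.2 ht') hv)).2
    have h7 := hTinj m1 m2 (by
      simp only [hFs, vp_pt]
      rw [E1_ext htt])
    have h8 := congrArg (fun x => hd k (F x)) h7
    simpa only [hFs, hd_pt] using h8

end core

/-! ### The modification -/

/-- the modified map -/
def mkF {k : ℕ} {M : Type} [TopologicalSpace M] (F : OpenPartialHomeomorph M (E (1 + k)))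
    (hF : F.target = univ) (Θ : E (1 + k) ≃ₜ E (1 + k)) (F' : M → E (1 + k))
    (hF' : ∀ x ∈ F.source, F' x = Θ (F x)) : OpenPartialHomeomorph M (E (1 + k)) where
  toFun := F'
  invFun := fun z => F.symm (Θ.symm z)
  source := F.source
  target := univ
  map_source' := fun _ _ => mem_univ _
  map_target' := fun z _ => F.map_target (by rw [hF]; exact mem_univ _)
  left_inv' := fun x hx => by
    rw [hF' x hx, Θ.symm_apply_apply]
    exact F.left_inv hx
  right_inv' := fun z _ => by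
    have h1 : Θ.symm z ∈ F.target := by rw [hF]; exact mem_univ _
    rw [hF' _ (F.map_target h1), F.right_inv h1, Θ.apply_symm_apply]
  open_source := F.open_source
  open_target := isOpen_univ
  continuousOn_toFun := by
    have h1 : ContinuousOn (fun x => Θ (F x)) F.source := Θ.continuous.comp_continuousOn F.continuousOn
    exact h1.congr hF'
  continuousOn_invFun := by
    have h1 : Continuous F.symm := by
      have := F.continuousOn_symm
      rw [hF] at this
      exact continuousOn_univ.1 this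
    exact (h1.comp Θ.symm.continuous).continuousOn

theorem main : S_CORE → S_EXT → S_JN → S_ARC := by
  intro hC hE hJ k M _ _ _ _ _ F hF h1 h2
  classical
  obtain ⟨σ, ε, hε, hσ, hO, hmono⟩ := core_facts hC hE hJ F hF h1
  have hsrc : ∀ z, F.symm z ∈ F.source := fun z => F.map_target (by rw [hF]; exact mem_univ z)
  have hFs : ∀ z, F (F.symm z) = z := fun z => F.right_inv (by rw [hF]; exact mem_univ z)
  have hFl : ∀ x ∈ F.source, F.symm (F x) = x := fun x hx => F.left_inv hx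
  have hsc : Continuous F.symm := symm_cont F hF
  have hσc : Continuous fun x => σ x 0 := by
    have : Continuous σ := hσ.continuous
    fun_prop
  obtain ⟨z1, hz1⟩ : ∃ z1 : ContDiffBump (0 : ℝ), z1.rOut = 1 :=
    ⟨⟨1 / 2, 1, by norm_num, by norm_num⟩, rfl⟩
  obtain ⟨z2, hz2⟩ : ∃ z2 : ContDiffBump (0 : E k), z2.rOut = ε / 2 :=
    ⟨⟨ε / 4, ε / 2, by positivity, by linarith⟩, rfl⟩
  have hz1c : ContDiff ℝ ∞ z1 := z1.contDiff
  have hz2c : ContDiff ℝ ∞ z2 := z2.contDiff
  have hz1z : ∀ t : ℝ, 1 ≤ |t| → z1 t = 0 := by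
    intro t ht
    apply z1.zero_of_le_dist
    rw [hz1, dist_zero_right]
    exact ht
  have hz1p : ∀ t : ℝ, |t| < 1 → 0 < z1 t := by
    intro t ht
    apply z1.pos_of_mem_ball
    rw [hz1, mem_ball_zero_iff]
    exact ht
  have hz2z : ∀ v : E k, ε / 2 ≤ ‖v‖ → z2 v = 0 := by
    intro v hv
    apply z2.zero_of_le_dist
    rw [hz2, dist_zero_right]
    exact hv
  have hz2p : 0 < z2 0 := by
    apply z2.pos_of_mem_ball
    rw [hz2, mem_ball_zero_iff, norm_zero]
    positivity
  obtain ⟨L, hL⟩ := z1.contDiff.lipschitzWith_of_hasCompactSupport (n := 1) z1.hasCompactSupport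
    (by simp)
  obtain ⟨B, hB0, hB⟩ : ∃ B : ℝ, 0 ≤ B ∧ ∀ x, |σ x 0| ≤ B := by
    obtain ⟨B, hB⟩ := isCompact_univ.exists_bound_of_continuousOn hσc.continuousOn
    exact ⟨max B 0, le_max_right _ _, fun x => (hB x (mem_univ x)).trans (le_max_left _ _)⟩
  obtain ⟨η, hη, hηL⟩ : ∃ η : ℝ, 0 < η ∧ η * L * B ≤ 1 / 2 := by
    have hLB : 0 ≤ (L : ℝ) * B := by positivity
    refine ⟨1 / (2 * (L * B + 1)), by positivity, ?_⟩
    rw [mul_assoc, one_div, inv_mul_le_iff₀ (by positivity)]
    linarith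
  obtain ⟨g, hg⟩ : ∃ g : E (1 + k) → ℝ,
    g = fun z => η * z2 (vp 1 k z) * z1 (hd k z) * σ (F.symm z) 0 := ⟨_, rfl⟩
  have hgc : Continuous g := by
    rw [hg]
    have := z1.continuous
    have := z2.continuous
    have := hσc.comp hsc
    have e : (fun z => σ (F.symm z) 0) = (fun x => σ x 0) ∘ F.symm := rfl
    refine ((continuous_const.mul (z2.continuous.comp (vp 1 k).continuous)).mul
      (z1.continuous.comp (hd k).continuous)).mul (hσc.comp hsc)
  have hg1 : ∀ z, 1 ≤ |hd k z| → g z = 0 := by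
    intro z hz
    rw [hg]
    simp only
    rw [hz1z _ hz]
    ring
  have hg2 : ∀ z, ε / 2 ≤ ‖vp 1 k z‖ → g z = 0 := by
    intro z hz
    rw [hg]
    simp only
    rw [hz2z _ hz]
    ring
  obtain ⟨Θ, hΘ⟩ := shear g hgc (ε / 2) hg1 hg2 (by
    intro v
    intro t ht t1 ht1 htt
    by_cases hv : ε / 2 ≤ ‖v‖
    · simp only
      rw [hg2 _ (by rw [vp_pt]; exact hv), hg2 _ (by rw [vp_pt]; exact hv)]
      linarith
    · have hv' : ‖v‖ ≤ ε := by linarith [not_le.1 hv]
      have hs := hmono v hv' (show t ∈ Icc (-(3 / 2)) (3 / 2) from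
        ⟨by linarith [ht.1], by linarith [ht.2]⟩) (show t1 ∈ Icc (-(3 / 2)) (3 / 2) from
        ⟨by linarith [ht1.1], by linarith [ht1.2]⟩) htt
      simp only at hs ⊢
      rw [hg]
      simp only [vp_pt, hd_pt]
      generalize hs0 : σ (F.symm (pt k t v)) 0 = s at hs
      generalize hs1 : σ (F.symm (pt k t1 v)) 0 = s1 at hs
      have hsB : |s| ≤ B := hs0 ▸ hB _
      have hz1L : |z1 t1 - z1 t| ≤ L * (t1 - t) := by
        have := hL.dist_le_mul t1 t
        rw [Real.dist_eq, Real.dist_eq, abs_of_pos (sub_pos.2 htt)] at this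
        exact this
      have a0 : 0 ≤ η * z2 v := mul_nonneg hη.le z2.nonneg
      have a1 : η * z2 v ≤ η := mul_le_of_le_one_right hη.le z2.le_one
      have a2 : |(z1 t1 - z1 t) * s| ≤ L * (t1 - t) * B := by
        rw [abs_mul]
        exact mul_le_mul hz1L hsB (abs_nonneg _) (by
          have : 0 < t1 - t := sub_pos.2 htt
          positivity)
      have a3 : 0 ≤ η * z2 v * (z1 t1 * (s1 - s)) :=
        mul_nonneg a0 (mul_nonneg z1.nonneg (sub_nonneg.2 hs.le))
      have a4 : -(η * z2 v * (L * (t1 - t) * B)) ≤ η * z2 v * ((z1 t1 - z1 t) * s) := by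
        have := mul_le_mul_of_nonneg_left (neg_le_of_abs_le a2) a0
        linarith
      have a5 : η * z2 v * (L * (t1 - t) * B) ≤ 1 / 2 * (t1 - t) := by
        have b1 : η * z2 v * (L * (t1 - t) * B) ≤ η * (L * (t1 - t) * B) :=
          mul_le_mul_of_nonneg_right a1 (by
            have : 0 < t1 - t := sub_pos.2 htt
            positivity)
        have b2 : η * (L * (t1 - t) * B) = η * L * B * (t1 - t) := by ring
        have b3 := mul_le_mul_of_nonneg_right hηL (sub_pos.2 htt).le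
        linarith
      have a6 : t1 + η * z2 v * z1 t1 * s1 - (t + η * z2 v * z1 t * s) = (t1 - t) +
        η * z2 v * (z1 t1 * (s1 - s)) + η * z2 v * ((z1 t1 - z1 t) * s) := by ring
      have a7 : 0 < t1 - t := sub_pos.2 htt
      linarith)
  -- the compact set
  obtain ⟨K, hK⟩ : ∃ K : Set (E (1 + k)), K = {z | |hd k z| ≤ 1 ∧ ‖vp 1 k z‖ ≤ ε / 2} := ⟨_, rfl⟩
  have hKc : IsCompact K := by
    have : K = (fun p : ℝ × E k => pt k p.1 p.2) '' (Icc (-1) 1 ×ˢ closedBall (0 : E k) (ε / 2)) := by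
      rw [hK]
      ext z
      constructor
      · rintro ⟨b1, b2⟩
        exact ⟨(hd k z, vp 1 k z), ⟨abs_le.1 b1, by simpa using b2⟩, pt_eta z⟩
      · rintro ⟨p, ⟨b1, b2⟩, rfl⟩
        exact ⟨by simpa using abs_le.2 b1, by simpa using b2⟩
    rw [this]
    exact (isCompact_Icc.prod (isCompact_closedBall _ _)).image continuous_pt
  have hgK : ∀ z, z ∉ K → g z = 0 := by
    intro z hz
    by_cases hz1' : |hd k z| ≤ 1
    · refine hg2 z ?_
      by_contra hc
      exact hz (by rw [hK]; exact ⟨hz1', (not_le.1 hc).le⟩)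
    · exact hg1 z (not_le.1 hz1').le
  obtain ⟨C, hCK⟩ : ∃ C : Set M, C = F.symm '' K := ⟨_, rfl⟩
  have hCc : IsCompact C := by
    rw [hCK]
    exact hKc.image hsc
  have hCs : C ⊆ F.source := by
    rw [hCK]
    rintro _ ⟨z, -, rfl⟩
    exact hsrc z
  have hmemC : ∀ x ∈ F.source, (x ∈ C ↔ F x ∈ K) := by
    intro x hx
    rw [hCK]
    constructor
    · rintro ⟨z, hz, rfl⟩
      rwa [hFs]
    · intro h
      exact ⟨F x, h, hFl x hx⟩
  obtain ⟨F0, hF0⟩ : ∃ F0 : M → E (1 + k), F0 = fun x => if x ∈ C then Θ (F x) else F x := ⟨_, rfl⟩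
  have hF0' : ∀ x ∈ F.source, F0 x = Θ (F x) := by
    intro x hx
    rw [hF0]
    simp only
    by_cases hxC : x ∈ C
    · rw [if_pos hxC]
    · rw [if_neg hxC, hΘ, hgK (F x) (fun h => hxC ((hmemC x hx).2 h)), zero_smul, add_zero]
  have hF0g : ∀ x ∈ F.source, F0 x =
      F x + (η * z2 (vp 1 k (F x)) * z1 (hd k (F x)) * σ x 0) • e1 k := by
    intro x hx
    rw [hF0' x hx, hΘ, hg]
    simp only
    rw [hFl x hx]
  have hvp0 : ∀ x ∈ F.source, vp 1 k (F0 x) = vp 1 k (F x) := by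
    intro x hx
    rw [hF0g x hx, map_add, map_smul, vp_e1, smul_zero, add_zero]
  -- smoothness
  have hGs : ContDiff ℝ ∞ (fun q : E (1 + k) × E 1 =>
      q.1 + (η * z2 (vp 1 k q.1) * z1 (hd k q.1) * q.2 0) • e1 k) := by
    have c1 : ContDiff ℝ ∞ (fun q : E (1 + k) × E 1 => z2 (vp 1 k q.1)) :=
      hz2c.comp ((vp 1 k).contDiff.comp contDiff_fst)
    have c2 : ContDiff ℝ ∞ (fun q : E (1 + k) × E 1 => z1 (hd k q.1)) :=
      hz1c.comp ((hd k).contDiff.comp contDiff_fst)
    have c3 : ContDiff ℝ ∞ (fun q : E (1 + k) × E 1 => q.2 0) := by fun_prop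
    exact contDiff_fst.add ((((contDiff_const.mul c1).mul c2).mul c3).smul contDiff_const)
  have hSm : ∀ x ∈ F.source, Sm (1 + k) F x → Sm (1 + k) F0 x := by
    intro x hx hS
    have h3 : ∀ᶠ y in 𝓝 x, y ∈ F.source := F.open_source.mem_nhds hx
    have h4 : ∀ᶠ y in 𝓝 x, ContMDiffAt (𝓡 (1 + k)) (𝓡 (1 + k)) ∞ F y := hS
    filter_upwards [h3, h4] with y hy1 hy2
    have h5 : ContMDiffAt (𝓡 (1 + k)) 𝓘(ℝ, E (1 + k) × E 1) ∞ (fun w => (F w, σ w)) y :=
      hy2.prodMk_space hσ.contMDiffAt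
    have h6 := hGs.contMDiff.contMDiffAt.comp y h5
    refine h6.congr_of_eventuallyEq ?_
    filter_upwards [F.open_source.mem_nhds hy1] with w hw
    rw [hF0g w hw]
    rfl
  -- the key statement
  have key : ∀ x ∈ F.source, F x ∈ K → (LD (1 + k) F x ∨ 0 < z2 (vp 1 k (F x)) * z1 (hd k (F x))) →
      LD (1 + k) F0 x := by
    intro x hx hxK hor
    have hxK' : |hd k (F x)| ≤ 1 ∧ ‖vp 1 k (F x)‖ ≤ ε / 2 := by rw [hK] at hxK; exact hxK
    have hxe : F.symm (pt k (hd k (F x)) (vp 1 k (F x))) = x := by rw [pt_eta, hFl x hx]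
    obtain ⟨hSx, hLx⟩ := hO (hd k (F x)) (vp 1 k (F x)) (by linarith [hxK'.1]) (by linarith [hxK'.2])
    rw [hxe] at hSx hLx
    refine ld_key F0 _ x hLx (hSm x hx hSx) ?_ ?_
    · filter_upwards [F.open_source.mem_nhds hx] with y hy
      rw [hvp0 y hy, vp_jn]
    · intro p hp hpx hΨp
      obtain ⟨z0, hz0⟩ : ∃ z0, z0 = jn 1 k (σ x) (vp 1 k (F x)) := ⟨_, rfl⟩
      rw [← hz0] at hp hpx hΨp ⊢
      have hz0v : vp 1 k z0 = vp 1 k (F x) := by rw [hz0, vp_jn]
      have hz0h : hd k z0 = σ x 0 := by rw [hz0, hd_jn]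
      have hpc : Tendsto p (𝓝 z0) (𝓝 x) := by
        have := hp.continuousAt
        rw [ContinuousAt, hpx] at this
        exact this
      have hlin : Tendsto (fun s : ℝ => z0 + s • e1 k) (𝓝 0) (𝓝 z0) := by
        have : Continuous (fun s : ℝ => z0 + s • e1 k) := by fun_prop
        simpa using this.tendsto 0
      have hqt : Tendsto (fun s : ℝ => p (z0 + s • e1 k)) (𝓝 0) (𝓝 x) := hpc.comp hlin
      have hx0 : hd k (F (p (z0 + (0 : ℝ) • e1 k))) = hd k (F x) := by
        rw [zero_smul, add_zero, hpx]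
      -- the function along the arc
      obtain ⟨f, hf⟩ : ∃ f : ℝ → ℝ, f = fun s => hd k (F (p (z0 + s • e1 k))) := ⟨_, rfl⟩
      have hf0 : f 0 = hd k (F x) := by rw [hf]; exact hx0
      have hFp : DifferentiableAt ℝ (fun z => F (p z)) z0 := by
        have d1 : ContMDiffAt (𝓡 (1 + k)) (𝓡 (1 + k)) ∞ F (p z0) := by
          rw [hpx]
          exact hSx.self_of_nhds
        have d2 := d1.comp z0 hp.contMDiffAt
        exact (contMDiffAt_iff_contDiffAt.1 d2).differentiableAt (by simp)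
      have hfd : DifferentiableAt ℝ f 0 := by
        rw [hf]
        have d1 : DifferentiableAt ℝ (fun z => F (p z)) (z0 + (0 : ℝ) • e1 k) := by
          simpa using hFp
        have d2 : DifferentiableAt ℝ (fun s : ℝ => z0 + s • e1 k) 0 := by fun_prop
        have d3 : DifferentiableAt ℝ (fun s : ℝ => F (p (z0 + s • e1 k))) 0 :=
          DifferentiableAt.comp (g := fun z => F (p z)) (0 : ℝ) d1 d2
        exact (hd k).differentiableAt.comp (0 : ℝ) d3
      have hfder := hfd.hasDerivAt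
      -- the neighbouring points of the arc
      have hev : ∀ᶠ s : ℝ in 𝓝 0, p (z0 + s • e1 k) ∈ F.source ∧ |f s| ≤ 3 / 2 ∧
          vp 1 k (F (p (z0 + s • e1 k))) = vp 1 k (F x) ∧
          σ (p (z0 + s • e1 k)) 0 = σ x 0 + s := by
        have v1 : ∀ᶠ s : ℝ in 𝓝 0, p (z0 + s • e1 k) ∈ F.source :=
          hqt.eventually (F.open_source.mem_nhds hx)
        have v2 : ∀ᶠ s : ℝ in 𝓝 0, |f s| < 3 / 2 := by
          have : Tendsto (fun s => |f s|) (𝓝 0) (𝓝 |f 0|) := hfd.continuousAt.abs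
          refine this.eventually (gt_mem_nhds ?_)
          rw [hf0]
          linarith [hxK'.1]
        have v3 : ∀ᶠ s : ℝ in 𝓝 0, jn 1 k (σ (p (z0 + s • e1 k)))
            (vp 1 k (F (p (z0 + s • e1 k)))) = z0 + s • e1 k := hlin.eventually hΨp
        filter_upwards [v1, v2, v3] with s w1 w2 w3
        refine ⟨w1, w2.le, ?_, ?_⟩
        · have := congrArg (vp 1 k) w3
          rw [vp_jn, map_add, map_smul, vp_e1, smul_zero, add_zero, hz0v] at this
          exact this
        · have := congrArg (hd k) w3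
          rw [hd_jn, map_add, map_smul, hd_e1, hz0h] at this
          simpa using this
      have hfmono : 0 ≤ deriv f 0 := by
        refine deriv_nonneg' hfder ?_
        filter_upwards [hev.filter_mono nhdsWithin_le_nhds, self_mem_nhdsWithin] with s hs hs0
        obtain ⟨w1, w2, w3, w4⟩ := hs
        by_contra hlt
        have hlt' : f s < f 0 := not_le.1 hlt
        have m := hmono (vp 1 k (F x)) (by linarith [hxK'.2]) (abs_le.1 w2)
          (show f 0 ∈ Icc (-(3 / 2)) (3 / 2) by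
            rw [hf0]
            have := abs_le.1 hxK'.1
            exact ⟨by linarith [this.1], by linarith [this.2]⟩) hlt'
        simp only at m
        have e1' : F.symm (pt k (f 0) (vp 1 k (F x))) = x := by rw [hf0]; exact hxe
        have e2' : F.symm (pt k (f s) (vp 1 k (F x))) = p (z0 + s • e1 k) := by
          rw [← w3, hf]
          simp only
          rw [pt_eta, hFl _ w1]
        rw [e1', e2', w4] at m
        have : 0 < s := hs0
        linarith
      obtain ⟨c, hc1, hc2⟩ := deriv_pos (a := η * z2 (vp 1 k (F x))) (b := σ x 0) (L := L) (B := B)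
        hfder hfmono (hz1c.differentiable (by simp))
        (fun t => norm_deriv_le_of_lipschitz hL) (mul_nonneg hη.le z2.nonneg) (hB x) (by
          have b1 : η * z2 (vp 1 k (F x)) ≤ η := mul_le_of_le_one_right hη.le z2.le_one
          have b2 : η * z2 (vp 1 k (F x)) * (L * B) ≤ η * (L * B) :=
            mul_le_mul_of_nonneg_right b1 (by positivity)
          linarith [mul_assoc (η * z2 (vp 1 k (F x))) (L : ℝ) B, mul_assoc η (L : ℝ) B])
      refine ⟨c, ?_, hc2.congr_of_eventuallyEq ?_⟩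
      · have hpos : 0 < 1 / 2 * deriv f 0 + η * z2 (vp 1 k (F x)) * z1 (f 0) := by
          rcases hor with hLD | hp0
          · have hne : deriv f 0 ≠ 0 := by
              refine ld_conv F p z0 (by rw [hpx]; exact hLD) hp ?_ (by rw [← hf]; exact hfder)
              filter_upwards [hΨp] with z hz
              have := congrArg (vp 1 k) hz
              rw [vp_jn] at this
              exact this
            have h7 : 0 < deriv f 0 := lt_of_le_of_ne hfmono hne.symm
            have h8 : 0 ≤ η * z2 (vp 1 k (F x)) * z1 (f 0) :=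
              mul_nonneg (mul_nonneg hη.le z2.nonneg) z1.nonneg
            linarith
          · rw [hf0]
            have h8 : 0 < η * (z2 (vp 1 k (F x)) * z1 (hd k (F x))) := mul_pos hη hp0
            linarith [mul_assoc η (z2 (vp 1 k (F x))) (z1 (hd k (F x)))]
        exact (lt_of_lt_of_le hpos hc1).ne'
      · filter_upwards [hev] with s hs
        obtain ⟨w1, w2, w3, w4⟩ := hs
        rw [hF0g _ w1, map_add, map_smul, hd_e1, w3, w4, hf]
        simp
  have hLD : ∀ x ∈ F.source, LD (1 + k) F x → LD (1 + k) F0 x := by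
    intro x hx hL1
    by_cases hxK : F x ∈ K
    · exact key x hx hxK (Or.inl hL1)
    · refine hL1.congr ?_
      have hKo : Kᶜ ∈ 𝓝 (F x) := hKc.isClosed.isOpen_compl.mem_nhds hxK
      filter_upwards [F.open_source.mem_nhds hx, (F.continuousAt hx).preimage_mem_nhds hKo]
        with y hy1 hy2
      rw [hF0' y hy1, hΘ, hgK (F y) hy2, zero_smul, add_zero]
  refine ⟨mkF F hF Θ F0 hF0', C, rfl, rfl, hCc, hCs, ?_, ?_, ?_, hSm, hLD, ?_⟩
  · intro x hx
    have hxs := hCs hx
    have hxK := (hmemC x hxs).1 hx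
    rw [hK] at hxK
    have := (hO (hd k (F x)) (vp 1 k (F x)) (by linarith [hxK.1]) (by linarith [hxK.2])).1
    rwa [pt_eta, hFl x hxs] at this
  · intro x hx
    show F0 x = F x
    rw [hF0]
    simp only
    rw [if_neg hx]
  · intro x hx h3
    show F0 x = F x
    rw [hF0' x hx, hΘ, hg1 (F x) (by rw [← norm_up]; exact h3), zero_smul, add_zero]
  · intro x hx h3 h4
    have h5 : vp 1 k (F x) = 0 := by
      rw [← hvp0 x hx]
      exact h3
    show LD (1 + k) F0 x
    by_cases h6 : 1 ≤ ‖up 1 k (F x)‖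
    · exact hLD x hx (h2 x hx h5 h6)
    · have h7 : |hd k (F x)| < 1 := by rw [← norm_up]; exact not_le.1 h6
      refine key x hx ?_ (Or.inr ?_)
      · rw [hK]
        exact ⟨h7.le, by rw [h5, norm_zero]; positivity⟩
      · rw [h5]
        exact mul_pos hz2p (hz1p _ h7)

end Pool.Agent.N550.KH.Arc
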