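import Pool.Agent.N550.KH.Stm
import Pool.Agent.N550.SH.Fin
import Pool.Agent.N550.SH.Cross
import Pool.Agent.Y522.Tools

/-!
# Project KH: the preimage of the core disc is an embedded open disc (helper901)
-/

set_option autoImplicit false

open Set Filter Topology Metric Function MeasureTheory
open scoped Manifold ContDiff

noncomputable section

namespace Pool.Agent.N550.KH.Core

open Pool.Agent.Y522 Pool.Agent.N550.KH

/-- linear algebra -/
theorem lin {a b : ℕ} (ι : E a →L[ℝ] E (a + 1)) (A : E (a + 1) →L[ℝ] E (b + 1))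
    (hι : Injective ι) (hA : Surjective A) (h : ∀ x, (A (ι x)) 0 = 0) :
    Surjective (fun x => (tl (A (ι x)) : E b)) := by
  let φ : E (a + 1) →ₗ[ℝ] ℝ := ((EuclideanSpace.proj (0 : Fin (b + 1)) :
    E (b + 1) →L[ℝ] ℝ).comp A).toLinearMap
  have hφ : ∀ z, φ z = (A z) 0 := fun z => rfl
  have h1 : LinearMap.range φ = ⊤ := by
    rw [LinearMap.range_eq_top]
    intro r
    obtain ⟨z, hz⟩ := hA (cn r 0)
    exact ⟨z, by rw [hφ, hz]; rfl⟩
  have h2 := LinearMap.finrank_range_add_finrank_ker φ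
  rw [h1, finrank_top, Module.finrank_self, finrank_euclideanSpace_fin] at h2
  have h3 : LinearMap.range ι.toLinearMap ≤ LinearMap.ker φ := by
    rintro _ ⟨x, rfl⟩
    rw [LinearMap.mem_ker, hφ]
    exact h x
  have h4 : Module.finrank ℝ (LinearMap.range ι.toLinearMap) = a := by
    rw [LinearMap.finrank_range_of_inj hι, finrank_euclideanSpace_fin]
  have h5 : LinearMap.range ι.toLinearMap = LinearMap.ker φ :=
    Submodule.eq_of_le_of_finrank_eq h3 (by omega)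
  intro w
  obtain ⟨z, hz⟩ := hA (cn 0 w)
  have h6 : z ∈ LinearMap.range ι.toLinearMap := by
    rw [h5, LinearMap.mem_ker, hφ, hz]
    rfl
  obtain ⟨x, hx⟩ := h6
  refine ⟨x, ?_⟩
  have hx' : ι x = z := hx
  show tl (A (ι x)) = w
  rw [hx', hz, tl_cn]

/-- `Z` is locally the zero set of `v`, and `0` is a regular value -/
structure Hyp (n k : ℕ) {X : Type} [TopologicalSpace X] [ChartedSpace (E n) X]
    (v : X → E k) (Z : Set X) : Prop where
  smooth : ∀ x ∈ Z, ∀ᶠ y in 𝓝 x, ContMDiffAt (𝓡 n) (𝓡 k) ∞ v y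
  surj : ∀ x ∈ Z, Surjective (mfderiv (𝓡 n) (𝓡 k) v x)
  loc : ∀ x ∈ Z, ∀ᶠ y in 𝓝 x, (y ∈ Z ↔ v y = 0)

/-- one step: a hypersurface which contains `Z` -/
theorem step {n k : ℕ} {X : Type} [TopologicalSpace X] [ChartedSpace (E (n + 1)) X]
    [IsManifold (𝓡 (n + 1)) ∞ X] (v : X → E (k + 1)) (Z : Set X) (h : Hyp (n + 1) (k + 1) v Z) :
    ∃ (S : Set X) (_ : ChartedSpace (E n) S), IsManifold (𝓡 n) ∞ S ∧
      ContMDiff (𝓡 n) (𝓡 (n + 1)) ∞ (Subtype.val : S → X) ∧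
      (∀ s : S, Injective (mfderiv (𝓡 n) (𝓡 (n + 1)) (Subtype.val : S → X) s)) ∧ Z ⊆ S ∧
      Hyp n k (fun s : S => (tl (v s) : E k)) ((Subtype.val : S → X) ⁻¹' Z) := by
  let pr : E (k + 1) →L[ℝ] ℝ := EuclideanSpace.proj (0 : Fin (k + 1))
  have hprs : ContMDiff (𝓡 (k + 1)) 𝓘(ℝ, ℝ) ∞ pr := pr.contMDiff
  set φ : X → ℝ := fun y => (v y) 0 with hφ
  have hφs : ∀ x ∈ Z, ∀ᶠ y in 𝓝 x, ContMDiffAt (𝓡 (n + 1)) 𝓘(ℝ, ℝ) ∞ φ y := by
    intro x hx
    filter_upwards [h.smooth x hx] with y hy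
    exact ContMDiffAt.comp (g := pr) y (hprs _) hy
  have hφd : ∀ x ∈ Z, ∀ a, mfderiv (𝓡 (n + 1)) 𝓘(ℝ, ℝ) φ x a =
      pr (mfderiv (𝓡 (n + 1)) (𝓡 (k + 1)) v x a) := by
    intro x hx a
    have h1 : mfderiv (𝓡 (n + 1)) 𝓘(ℝ, ℝ) φ x = (mfderiv (𝓡 (k + 1)) 𝓘(ℝ, ℝ) pr (v x)).comp
        (mfderiv (𝓡 (n + 1)) (𝓡 (k + 1)) v x) :=
      mfderiv_comp x (hprs.mdifferentiableAt (by simp))
        ((h.smooth x hx).self_of_nhds.mdifferentiableAt (by simp))
    rw [h1, mfderiv_eq_fderiv, pr.fderiv]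
    rfl
  set O : Set X := {x | ∃ e : X → E (n + 1), LD (n + 1) e x ∧ ∀ᶠ y in 𝓝 x, (e y) 0 = φ y} with hO
  have hOo : ∀ x ∈ O, ∀ᶠ y in 𝓝 x, y ∈ O := by
    rintro x ⟨e, he, he'⟩
    filter_upwards [he.eventually, eventually_eventually_nhds.2 he'] with y h1 h2
    exact ⟨e, h1, h2⟩
  set S : Set X := {x | x ∈ O ∧ φ x = 0} with hS
  have hflat : LocFlat n S := by
    rintro x ⟨hxO, hx0⟩
    obtain ⟨e, he, he'⟩ := hxO
    refine ⟨e, he, ?_⟩
    filter_upwards [he', hOo x ⟨e, he, he'⟩] with y h1 h2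
    rw [h1]
    exact ⟨fun h3 => h3.2, fun h3 => ⟨h2, h3⟩⟩
  have hZv : ∀ x ∈ Z, v x = 0 := fun x hx => (h.loc x hx).self_of_nhds.1 hx
  have hZS : Z ⊆ S := by
    intro x hx
    have h0 : φ x = 0 := by
      show (v x) 0 = 0
      rw [hZv x hx]; rfl
    refine ⟨?_, h0⟩
    obtain ⟨e, he, -, he2⟩ := Pool.Agent.Y641.SH.stAdapt n X φ x (hφs x hx) (by
      intro hcon
      obtain ⟨a, ha⟩ := h.surj x hx (cn 1 0)
      have h1 := hφd x hx a
      rw [hcon, ha] at h1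
      have h2 : pr (cn 1 0 : E (k + 1)) = 1 := rfl
      have h3 : (0 : ℝ) = pr (cn 1 0 : E (k + 1)) := h1
      rw [h2] at h3
      norm_num at h3)
    refine ⟨e, he, ?_⟩
    filter_upwards [he2] with y hy
    rw [hy, h0, sub_zero]
  obtain ⟨cs, hmf, hv1, hv2⟩ := Pool.Agent.Y641.SH.stLevel n X S hflat
  refine ⟨S, cs, hmf, hv1, hv2, hZS, ?_, ?_, ?_⟩
  · intro s hs
    filter_upwards [continuous_subtype_val.continuousAt.eventually (h.smooth s hs)] with y hy
    exact ContMDiffAt.comp (g := (tl : E (k + 1) → E k)) y tl.contMDiff.contMDiffAt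
      (ContMDiffAt.comp (g := v) y hy (hv1 y))
  · intro s hs
    have hvd : MDifferentiableAt (𝓡 (n + 1)) (𝓡 (k + 1)) v s :=
      (h.smooth s hs).self_of_nhds.mdifferentiableAt (by simp)
    have hιd : MDifferentiableAt (𝓡 n) (𝓡 (n + 1)) (Subtype.val : S → X) s :=
      hv1.mdifferentiableAt (by simp)
    have e1 : mfderiv (𝓡 n) (𝓡 (k + 1)) (fun y : S => v y) s =
        (mfderiv (𝓡 (n + 1)) (𝓡 (k + 1)) v s).comp
          (mfderiv (𝓡 n) (𝓡 (n + 1)) (Subtype.val : S → X) s) := mfderiv_comp s hvd hιd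
    have hvd' : MDifferentiableAt (𝓡 n) (𝓡 (k + 1)) (fun y : S => v y) s := hvd.comp s hιd
    have htl : MDifferentiableAt (𝓡 (k + 1)) (𝓡 k) (tl : E (k + 1) → E k) (v s) :=
      tl.differentiableAt.mdifferentiableAt
    have e2 : mfderiv (𝓡 n) (𝓡 k) (fun y : S => (tl (v y) : E k)) s =
        (mfderiv (𝓡 (k + 1)) (𝓡 k) (tl : E (k + 1) → E k) (v s)).comp
          (mfderiv (𝓡 n) (𝓡 (k + 1)) (fun y : S => v y) s) :=
      mfderiv_comp s htl hvd'
    have e3 : mfderiv (𝓡 (k + 1)) (𝓡 k) (tl : E (k + 1) → E k) (v s) = tl := by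
      rw [mfderiv_eq_fderiv, tl.fderiv]
    rw [e2, e3, e1]
    refine lin (mfderiv (𝓡 n) (𝓡 (n + 1)) (Subtype.val : S → X) s)
      (mfderiv (𝓡 (n + 1)) (𝓡 (k + 1)) v s) (hv2 s) (h.surj s hs) ?_
    intro x
    have h1 : (fun y : S => φ y) = fun _ => (0 : ℝ) := by
      funext y
      exact y.2.2
    have h2 : mfderiv (𝓡 n) 𝓘(ℝ, ℝ) (fun y : S => φ y) s = 0 := by
      rw [h1]
      exact mfderiv_const
    have h3 : mfderiv (𝓡 n) 𝓘(ℝ, ℝ) (fun y : S => φ y) s =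
        (mfderiv (𝓡 (n + 1)) 𝓘(ℝ, ℝ) φ s).comp
          (mfderiv (𝓡 n) (𝓡 (n + 1)) (Subtype.val : S → X) s) :=
      mfderiv_comp s ((hφs s hs).self_of_nhds.mdifferentiableAt (by simp)) hιd
    rw [h2] at h3
    have h4 := congrArg (fun L => L x) h3
    have h5 : (0 : ℝ) = mfderiv (𝓡 (n + 1)) 𝓘(ℝ, ℝ) φ s
      (mfderiv (𝓡 n) (𝓡 (n + 1)) (Subtype.val : S → X) s x) := h4
    rw [hφd s hs] at h5
    exact h5.symm
  · intro s hs
    filter_upwards [continuous_subtype_val.continuousAt.eventually (h.loc s hs)] with y hy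
    have h0 : (v y) 0 = 0 := y.2.2
    show (y : X) ∈ Z ↔ tl (v y) = 0
    rw [hy]
    constructor
    · intro h1; rw [h1, map_zero]
    · intro h1
      rw [← cn_tl (v y), h0, h1]
      exact (inc : E k →L[ℝ] E (k + 1)).map_zero

/-- codimension zero -/
theorem base {m : ℕ} {X : Type} [TopologicalSpace X] [ChartedSpace (E m) X]
    [IsManifold (𝓡 m) ∞ X] (Z : Set X) (hZ : IsOpen Z) (t : X → E m)
    (ht : ∀ x ∈ Z, ContMDiffAt (𝓡 m) (𝓡 m) ∞ t x) (ψ : E m → X) (hψ : Continuous ψ)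
    (hψZ : ∀ y, ψ y ∈ Z) (h1 : ∀ y, t (ψ y) = y) (h2 : ∀ x ∈ Z, ψ (t x) = x) :
    ∃ j : E m → X, IsEmbedding j ∧ ContMDiff (𝓡 m) (𝓡 m) ∞ j ∧
      (∀ s, Injective (mfderiv (𝓡 m) (𝓡 m) j s)) ∧ range j = Z := by
  let U : TopologicalSpace.Opens X := ⟨Z, hZ⟩
  have hval : ∀ u : U, LD m (Subtype.val : U → X) u := fun u => Pool.Agent.N550.SH.ld_opens U u
  let H : U ≃ₜ E m :=
    { toFun := fun s => t s
      invFun := fun y => ⟨ψ y, hψZ y⟩
      left_inv := fun s => Subtype.ext (h2 s s.2)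
      right_inv := fun y => h1 y
      continuous_toFun := by
        rw [continuous_iff_continuousAt]
        intro s
        exact (ht s s.2).continuousAt.comp continuous_subtype_val.continuousAt
      continuous_invFun := hψ.subtype_mk _ }
  have hH : ContMDiff (𝓡 m) (𝓡 m) ∞ H := by
    intro s
    exact ContMDiffAt.comp (g := t) s (ht s s.2) (hval s).contMDiffAt
  obtain ⟨Φ⟩ := Pool.Agent.N550.SH.open_version m U H (by
    have : {x | ¬ ∀ᶠ y in 𝓝 x, ContMDiffAt (𝓡 m) (𝓡 m) ∞ H y} = ∅ := by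
      ext x
      simp only [mem_ofPred_eq, mem_empty_iff_false, iff_false, not_not]
      exact Eventually.of_forall fun y => hH y
    rw [this, image_empty, measure_empty])
  have hj : ∀ y, LD m (fun y => (Φ.symm y : X)) y := fun y =>
    LD.comp_fun (hval (Φ.symm y)) (Φ.symm.isLocalDiffeomorph y)
  refine ⟨fun y => (Φ.symm y : X), IsEmbedding.subtypeVal.comp Φ.symm.toHomeomorph.isEmbedding,
    fun y => (hj y).contMDiffAt, fun y => (hj y).mfderiv_injective, ?_⟩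
  have e1 : (fun y => ((Φ.symm y : U) : X)) = Subtype.val ∘ Φ.symm := rfl
  have e2 : range (Φ.symm : E m → U) = univ :=
    Set.eq_univ_of_forall fun y => ⟨Φ y, Φ.symm_apply_apply y⟩
  rw [e1, range_comp, e2, image_univ, Subtype.range_val]
  rfl

/-- the induction -/
theorem lemA (m : ℕ) : ∀ (k n : ℕ), n = m + k → ∀ (X : Type) [TopologicalSpace X]
    [ChartedSpace (E n) X] [IsManifold (𝓡 n) ∞ X] (v : X → E k) (Z : Set X), Hyp n k v Z →
    ∀ (t : X → E m), (∀ x ∈ Z, ContMDiffAt (𝓡 n) (𝓡 m) ∞ t x) → ∀ (ψ : E m → X),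
    Continuous ψ → (∀ y, ψ y ∈ Z) → (∀ y, t (ψ y) = y) → (∀ x ∈ Z, ψ (t x) = x) →
    ∃ j : E m → X, IsEmbedding j ∧ ContMDiff (𝓡 m) (𝓡 n) ∞ j ∧
      (∀ s, Injective (mfderiv (𝓡 m) (𝓡 n) j s)) ∧ range j = Z := by
  intro k
  induction k with
  | zero =>
    intro n hn X _ _ _ v Z h t ht ψ hψ hψZ h1 h2
    obtain rfl : n = m := hn
    have hZ : IsOpen Z := by
      rw [isOpen_iff_mem_nhds]
      intro x hx
      filter_upwards [h.loc x hx] with y hy
      exact hy.2 (Subsingleton.elim _ _)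
    exact base Z hZ t ht ψ hψ hψZ h1 h2
  | succ k ih =>
    intro n hn X _ _ _ v Z h t ht ψ hψ hψZ h1 h2
    obtain rfl : n = (m + k) + 1 := hn
    obtain ⟨S, cs, hmf, hv1, hv2, hZS, h'⟩ := step v Z h
    obtain ⟨j, hj1, hj2, hj3, hj4⟩ := ih (m + k) rfl S (fun s : S => (tl (v s) : E k))
      ((Subtype.val : S → X) ⁻¹' Z) h' (fun s => t s) (fun s hs =>
        ContMDiffAt.comp (g := t) s (ht s hs) (hv1 s)) (fun y => ⟨ψ y, hZS (hψZ y)⟩)
      (hψ.subtype_mk _) (fun y => hψZ y) (fun y => h1 y) (fun s hs => Subtype.ext (h2 s hs))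
    refine ⟨fun y => (j y : X), IsEmbedding.subtypeVal.comp hj1, hv1.comp hj2, ?_, ?_⟩
    · intro s
      have h3 : mfderiv (𝓡 m) (𝓡 (m + k + 1)) (fun y => (j y : X)) s =
          (mfderiv (𝓡 (m + k)) (𝓡 (m + k + 1)) (Subtype.val : S → X) (j s)).comp
            (mfderiv (𝓡 m) (𝓡 (m + k)) j s) :=
        mfderiv_comp s (hv1.mdifferentiableAt (by simp)) (hj2.mdifferentiableAt (by simp))
      rw [h3]
      exact (hv2 (j s)).comp (hj3 s)
    · have e1 : (fun y => ((j y : S) : X)) = Subtype.val ∘ j := rfl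
      rw [e1, range_comp, hj4, Subtype.image_preimage_coe, inter_eq_self_of_subset_right hZS]

theorem continuous_jn (m k : ℕ) : Continuous (fun u : E m => jn m k u (0 : E k)) := by
  unfold jn
  refine (PiLp.continuous_toLp 2 _).comp (continuous_pi fun i => ?_)
  refine Fin.addCases (fun i => ?_) (fun i => ?_) i
  · simp only [Fin.append_left]
    fun_prop
  · simp only [Fin.append_right]
    exact continuous_const

theorem main : S_CORE := by
  intro m k M _ _ _ _ F hF h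
  set Z : Set M := {x | x ∈ F.source ∧ vp m k (F x) = 0 ∧ ‖up m k (F x)‖ < 2} with hZdef
  have hvs : ∀ x ∈ Z, ∀ᶠ y in 𝓝 x, ContMDiffAt (𝓡 (m + k)) (𝓡 k) ∞ (fun y => vp m k (F y)) y := by
    intro x hx
    have h1 : Sm (m + k) F x := (h x hx.1 hx.2.1 hx.2.2).1
    filter_upwards [h1] with y hy
    exact ContMDiffAt.comp (g := (vp m k : E (m + k) → E k)) y
      (vp m k).contMDiff.contMDiffAt hy
  have hhyp : Hyp (m + k) k (fun y => vp m k (F y)) Z := by
    refine ⟨hvs, fun x hx => (h x hx.1 hx.2.1 hx.2.2).2, fun x hx => ?_⟩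
    have hc : ContinuousAt F x := F.continuousAt hx.1
    have h1 : ∀ᶠ y in 𝓝 x, ‖up m k (F y)‖ < 2 := by
      have hc' : ContinuousAt (fun y => ‖up m k (F y)‖) x :=
        ((up m k).continuous.continuousAt.comp hc).norm
      exact hc'.eventually (gt_mem_nhds hx.2.2)
    filter_upwards [h1, F.open_source.mem_nhds hx.1] with y h2 h3
    exact ⟨fun h4 => h4.2.1, fun h4 => ⟨h3, h4, h2⟩⟩
  set B : OpenPartialHomeomorph (E m) (E m) := OpenPartialHomeomorph.univUnitBall with hB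
  have hBs : B.source = univ := OpenPartialHomeomorph.univUnitBall_source
  have hBt : B.target = ball 0 1 := OpenPartialHomeomorph.univUnitBall_target
  have hBlt : ∀ y, ‖B y‖ < 1 := by
    intro y
    have := B.map_source (x := y) (by rw [hBs]; exact mem_univ _)
    rw [hBt, mem_ball_zero_iff] at this
    exact this
  have hhalf : ∀ x ∈ Z, (1 / 2 : ℝ) • up m k (F x) ∈ ball (0 : E m) 1 := by
    intro x hx
    rw [mem_ball_zero_iff, norm_smul]
    have := hx.2.2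
    norm_num
    linarith
  have hFs : ∀ z, F (F.symm z) = z := fun z => F.right_inv (by rw [hF]; exact mem_univ _)
  refine lemA m k (m + k) rfl M (fun y => vp m k (F y)) Z hhyp
    (fun x => B.symm ((1 / 2 : ℝ) • up m k (F x))) ?_
    (fun y => F.symm (jn m k ((2 : ℝ) • B y) 0)) ?_ ?_ ?_ ?_
  · intro x hx
    have h1 : ContMDiffAt (𝓡 (m + k)) (𝓡 (m + k)) ∞ F x :=
      (h x hx.1 hx.2.1 hx.2.2).1.self_of_nhds
    have h2 : ContMDiffAt (𝓡 (m + k)) (𝓡 m) ∞ (fun x => (1 / 2 : ℝ) • up m k (F x)) x :=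
      ContMDiffAt.comp (g := (((1 / 2 : ℝ) • up m k : E (m + k) →L[ℝ] E m) : E (m + k) → E m)) x
        (ContinuousLinearMap.contMDiff _).contMDiffAt h1
    have h3 : ContMDiffAt (𝓡 m) (𝓡 m) ∞ (B.symm : E m → E m) ((1 / 2 : ℝ) • up m k (F x)) :=
      ((OpenPartialHomeomorph.contDiffOn_univUnitBall_symm (n := ⊤)).contDiffAt
        (isOpen_ball.mem_nhds (hhalf x hx))).contMDiffAt
    exact ContMDiffAt.comp (g := (B.symm : E m → E m)) x h3 h2
  · have h1 : Continuous B := OpenPartialHomeomorph.contDiff_univUnitBall (n := 0).continuous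
    have h2 : Continuous F.symm := by
      rw [← continuousOn_univ, ← hF]
      exact F.continuousOn_symm
    exact h2.comp ((continuous_jn m k).comp (h1.const_smul (2 : ℝ)))
  · intro y
    refine ⟨F.map_target (by rw [hF]; exact mem_univ _), ?_, ?_⟩
    · rw [hFs, vp_jn]
    · rw [hFs, up_jn, norm_smul]
      have := hBlt y
      norm_num
      linarith
  · intro y
    show B.symm ((1 / 2 : ℝ) • up m k (F (F.symm (jn m k ((2 : ℝ) • B y) 0)))) = y
    rw [hFs, up_jn, smul_smul]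
    norm_num
    exact B.left_inv (by rw [hBs]; exact mem_univ _)
  · intro x hx
    show F.symm (jn m k ((2 : ℝ) • B (B.symm ((1 / 2 : ℝ) • up m k (F x)))) 0) = x
    rw [B.right_inv (by rw [hBt]; exact hhalf x hx), smul_smul]
    norm_num
    have h1 : jn m k (up m k (F x)) 0 = F x := by
      rw [← hx.2.1, jn_up_vp]
    rw [h1]
    exact F.left_inv hx.1

end Pool.Agent.N550.KH.Core
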