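import Pool.Agent.N550.KH.Stm

/-!
# Project KH: logarithmic cutoff functions
-/

set_option autoImplicit false

open Set Filter Topology Metric Function MeasureTheory
open scoped Manifold ContDiff

noncomputable section

namespace Pool.Agent.N550.KH.Cut

open Pool.Agent.N550.KH

/-- a bound for the derivative of the smooth transition function -/
theorem exists_bound : ∃ B : ℝ, 0 < B ∧ ∀ x, |deriv Real.smoothTransition x| ≤ B := by
  have hc : Continuous (deriv Real.smoothTransition) :=
    (Real.smoothTransition.contDiff (n := 1)).continuous_deriv le_rfl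
  obtain ⟨C, hC⟩ := (isCompact_Icc (a := (-1 : ℝ)) (b := 2)).exists_bound_of_continuousOn
    hc.continuousOn
  refine ⟨max C 1, lt_max_of_lt_right one_pos, fun x => ?_⟩
  by_cases h1 : x < 0
  · have : Real.smoothTransition =ᶠ[𝓝 x] fun _ => 0 := by
      filter_upwards [Iio_mem_nhds h1] with y hy
      exact Real.smoothTransition.zero_of_nonpos (le_of_lt hy)
    rw [this.deriv_eq]
    simp
  by_cases h2 : 1 < x
  · have : Real.smoothTransition =ᶠ[𝓝 x] fun _ => 1 := by
      filter_upwards [Ioi_mem_nhds h2] with y hy
      exact Real.smoothTransition.one_of_one_le (le_of_lt hy)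
    rw [this.deriv_eq]
    simp
  push Not at h1 h2
  exact (hC x ⟨by linarith, by linarith⟩).trans (le_max_left _ _)

theorem main : S_CUT := by
  intro ε δ hε hδ
  obtain ⟨B, hB, hBd⟩ := exists_bound
  set κ : ℝ := ε / B with hκ
  have hκ0 : 0 < κ := div_pos hε hB
  set χ : ℝ → ℝ := fun t => if t = 0 then 1 else
    Real.smoothTransition (κ * (Real.log δ - Real.log t)) with hχ
  set ρ : ℝ := δ * Real.exp (-1 / κ) with hρ
  have hρ0 : 0 < ρ := mul_pos hδ (Real.exp_pos _)
  have hρδ : ρ < δ := by
    have : Real.exp (-1 / κ) < 1 := by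
      rw [Real.exp_lt_one_iff]
      exact div_neg_of_neg_of_pos (by norm_num) hκ0
    calc ρ = δ * Real.exp (-1 / κ) := rfl
      _ < δ * 1 := mul_lt_mul_of_pos_left this hδ
      _ = δ := mul_one _
  have h1 : ∀ t, |t| ≤ ρ → χ t = 1 := by
    intro t ht
    by_cases h0 : t = 0
    · simp [hχ, h0]
    · simp only [hχ, h0, if_false]
      apply Real.smoothTransition.one_of_one_le
      have hl : Real.log t ≤ Real.log δ + (-1 / κ) := by
        rw [← Real.log_abs t]
        calc Real.log |t| ≤ Real.log ρ := Real.log_le_log (abs_pos.2 h0) ht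
          _ = Real.log δ + (-1 / κ) := by
            rw [hρ, Real.log_mul hδ.ne' (Real.exp_pos _).ne', Real.log_exp]
      have : κ * (Real.log δ - Real.log t) ≥ κ * (1 / κ) := by
        apply mul_le_mul_of_nonneg_left _ hκ0.le
        have : (-1 : ℝ) / κ = - (1 / κ) := by ring
        linarith
      rw [mul_one_div_cancel hκ0.ne'] at this
      exact this
  have h2 : ∀ t, δ ≤ |t| → χ t = 0 := by
    intro t ht
    have h0 : t ≠ 0 := by
      rintro rfl
      simp at ht
      linarith
    simp only [hχ, h0, if_false]
    apply Real.smoothTransition.zero_of_nonpos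
    have hl : Real.log δ ≤ Real.log t := by
      rw [← Real.log_abs t]
      exact Real.log_le_log hδ ht
    nlinarith
  have h3 : ∀ t, 0 ≤ χ t ∧ χ t ≤ 1 := by
    intro t
    by_cases h0 : t = 0
    · simp [hχ, h0]
    · simp only [hχ, h0, if_false]
      exact ⟨Real.smoothTransition.nonneg _, Real.smoothTransition.le_one _⟩
  have hev : ∀ t : ℝ, t ≠ 0 → χ =ᶠ[𝓝 t] fun t =>
      Real.smoothTransition (κ * (Real.log δ - Real.log t)) := by
    intro t ht
    filter_upwards [isOpen_ne.mem_nhds ht] with y hy
    simp only [hχ]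
    rw [if_neg hy]
  have hev0 : χ =ᶠ[𝓝 0] fun _ => 1 := by
    filter_upwards [Metric.ball_mem_nhds (0 : ℝ) hρ0] with y hy
    apply h1
    rw [Metric.mem_ball, dist_zero_right, Real.norm_eq_abs] at hy
    exact hy.le
  refine ⟨χ, ρ, ?_, hρ0, hρδ, h1, h2, h3, ?_⟩
  · rw [contDiff_iff_contDiffAt]
    intro t
    by_cases h0 : t = 0
    · subst h0
      exact (contDiffAt_const (c := (1 : ℝ))).congr_of_eventuallyEq hev0
    · refine ContDiffAt.congr_of_eventuallyEq ?_ (hev t h0)
      have : ContDiffAt ℝ ∞ (fun t => κ * (Real.log δ - Real.log t)) t :=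
        contDiffAt_const.mul (contDiffAt_const.sub (contDiffAt_id.log h0))
      exact ContDiffAt.comp t (Real.smoothTransition.contDiffAt) this
  · intro t
    by_cases h0 : t = 0
    · subst h0
      simp
      exact hε.le
    · rw [(hev t h0).deriv_eq]
      have hd : HasDerivAt (fun t => κ * (Real.log δ - Real.log t)) (κ * (0 - t⁻¹)) t :=
        ((hasDerivAt_const t (Real.log δ)).sub (Real.hasDerivAt_log h0)).const_mul κ
      have hS : HasDerivAt Real.smoothTransition
          (deriv Real.smoothTransition (κ * (Real.log δ - Real.log t)))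
          (κ * (Real.log δ - Real.log t)) :=
        ((Real.smoothTransition.contDiff (n := 1)).differentiable (by simp)).differentiableAt.hasDerivAt
      have := (hS.comp t hd).deriv
      have h' : deriv (fun t => Real.smoothTransition (κ * (Real.log δ - Real.log t))) t =
          deriv Real.smoothTransition (κ * (Real.log δ - Real.log t)) * (κ * (0 - t⁻¹)) := this
      rw [h', abs_mul, abs_mul, zero_sub, abs_neg, abs_inv, abs_of_pos hκ0]
      have ht : 0 < |t| := abs_pos.2 h0
      calc |t| * (|deriv Real.smoothTransition (κ * (Real.log δ - Real.log t))| * (κ * |t|⁻¹))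
          = |deriv Real.smoothTransition (κ * (Real.log δ - Real.log t))| * κ := by
            field_simp
        _ ≤ B * κ := mul_le_mul_of_nonneg_right (hBd _) hκ0.le
        _ = ε := by rw [hκ]; field_simp

end Pool.Agent.N550.KH.Cut
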