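import Pool.Agent.N550.KH.Stm

/-!
# KH/DISC: a holomorphic germ along a circle extends to a diffeomorphism of discs (helper362)
-/

set_option autoImplicit false

open Set Filter Topology Metric Function
open scoped Manifold ContDiff

noncomputable section

namespace Pool.Agent.N550.KH.Disc

open Pool.Agent.N550.KH

/-! ### Part A: general lemmas -/

/-- An injective holomorphic function has non-zero derivative (proof as in `H535R3.inj_deriv`). -/
theorem inj_deriv {f : ℂ → ℂ} {ρ : ℝ} (hρ : 0 < ρ) (hf : DifferentiableOn ℂ f (ball 0 ρ))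
    (hinj : InjOn f (ball 0 ρ)) : deriv f 0 ≠ 0 := by
  intro hd0
  have hb : ball (0:ℂ) ρ ∈ 𝓝 0 := ball_mem_nhds _ hρ
  have hfa : AnalyticAt ℂ f 0 := hf.analyticAt hb
  have hFa : AnalyticAt ℂ (fun z => f z - f 0) 0 := hfa.sub analyticAt_const
  have hne : ¬ ∀ᶠ z in 𝓝 (0:ℂ), f z - f 0 = 0 := by
    intro h
    have h1 : ∀ᶠ z in 𝓝[≠] (0:ℂ), z ∈ ball (0:ℂ) ρ ∧ f z - f 0 = 0 ∧ z ≠ 0 := by
      have h2 : ∀ᶠ z in 𝓝[≠] (0:ℂ), z ∈ ball (0:ℂ) ρ ∧ f z - f 0 = 0 :=
        (((show ∀ᶠ z in 𝓝 (0:ℂ), z ∈ ball (0:ℂ) ρ from hb).and h)).filter_mono nhdsWithin_le_nhds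
      filter_upwards [h2, self_mem_nhdsWithin] with z hz hz2
      exact ⟨hz.1, hz.2, hz2⟩
    obtain ⟨z, hz1, hz2, hz3⟩ := h1.exists
    exact hz3 (hinj hz1 (mem_ball_self hρ) (sub_eq_zero.1 hz2))
  obtain ⟨k, g, hg, hg0, hFg⟩ := (hFa.exists_eventuallyEq_pow_smul_nonzero_iff).2 hne
  simp only [sub_zero, smul_eq_mul] at hFg
  have hk0 : k ≠ 0 := by
    rintro rfl
    have := hFg.self_of_nhds
    simp only [sub_self, pow_zero, one_mul] at this
    exact hg0 this.symm
  have hk1 : k ≠ 1 := by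
    rintro rfl
    have h1 : HasDerivAt (fun z : ℂ => z ^ 1 * g z) (g 0) 0 := by
      have h2 : HasDerivAt (fun z : ℂ => z * g z) (1 * g 0 + 0 * deriv g 0) 0 :=
        (hasDerivAt_id' (0:ℂ)).mul hg.differentiableAt.hasDerivAt
      rw [one_mul, zero_mul, add_zero] at h2
      simpa only [pow_one] using h2
    have h2 : HasDerivAt (fun z => f z - f 0) (g 0) 0 := h1.congr_of_eventuallyEq hFg
    have h3 : HasDerivAt (fun z => f z - f 0) (deriv f 0) 0 :=
      (hfa.differentiableAt.hasDerivAt).sub_const _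
    rw [hd0] at h3
    exact hg0 (h2.unique h3)
  obtain ⟨c, hc⟩ := IsAlgClosed.exists_pow_nat_eq (g 0) (Nat.pos_of_ne_zero hk0)
  have hc0 : c ≠ 0 := by
    rintro rfl
    rw [zero_pow hk0] at hc
    exact hg0 hc.symm
  set h : ℂ → ℂ := fun z => c * Complex.exp (Complex.log (g z / g 0) / k) with hh
  have hgd : AnalyticAt ℂ (fun z => g z / g 0) 0 := hg.div analyticAt_const hg0
  have hha : AnalyticAt ℂ h 0 := by
    have h1 : AnalyticAt ℂ (fun z => Complex.log (g z / g 0)) 0 :=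
      hgd.clog (by simp only [div_self hg0]; exact Complex.one_mem_slitPlane)
    have h2 : AnalyticAt ℂ (fun z => Complex.log (g z / g 0) / (k:ℂ)) 0 :=
      h1.div analyticAt_const (by exact_mod_cast hk0)
    exact analyticAt_const.mul h2.cexp
  have hh0 : h 0 = c := by simp [hh, div_self hg0]
  have hhk : ∀ᶠ z in 𝓝 (0:ℂ), h z ^ k = g z := by
    filter_upwards [hg.continuousAt.eventually_ne hg0] with z hz
    simp only [hh]
    rw [mul_pow, hc, ← Complex.exp_nat_mul]
    have hk' : (k:ℂ) ≠ 0 := by exact_mod_cast hk0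
    rw [mul_div_cancel₀ _ hk', Complex.exp_log (div_ne_zero hz hg0)]
    field_simp
  set ψ : ℂ → ℂ := fun z => z * h z with hψ
  have hψa : AnalyticAt ℂ ψ 0 := analyticAt_id.mul hha
  have hψd : HasDerivAt ψ c 0 := by
    have h2 := (hasDerivAt_id (0:ℂ)).mul hha.differentiableAt.hasDerivAt
    simp only [id, one_mul, zero_mul, add_zero] at h2
    rw [hh0] at h2
    exact h2
  have hψs : HasStrictDerivAt ψ c 0 := by
    have := hψa.hasStrictDerivAt
    rwa [hψd.deriv] at this
  have hmap := hψs.map_nhds_eq hc0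
  have hψ0 : ψ 0 = 0 := by simp [hψ]
  rw [hψ0] at hmap
  set V : Set ℂ := {z | z ∈ ball (0:ℂ) ρ ∧ f z - f 0 = ψ z ^ k} with hV
  have hVn : V ∈ 𝓝 (0:ℂ) := by
    filter_upwards [hb, hFg, hhk] with z h1 h2 h3
    refine ⟨h1, ?_⟩
    simp only [hψ]
    rw [h2, mul_pow, h3]
  have hS : ψ '' V ∈ 𝓝 (0:ℂ) := by rw [← hmap]; exact image_mem_map hVn
  have hζ := Complex.isPrimitiveRoot_exp k hk0
  set ζ := Complex.exp (2 * Real.pi * Complex.I / k) with hζd
  have hζ1 : ζ ≠ 1 := hζ.ne_one (by omega)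
  have hS2 : ∀ᶠ w in 𝓝 (0:ℂ), ζ * w ∈ ψ '' V := by
    have hcm : Tendsto (fun w : ℂ => ζ * w) (𝓝 0) (𝓝 0) := by
      have : Continuous fun w : ℂ => ζ * w := by fun_prop
      have := this.tendsto 0
      rwa [mul_zero] at this
    exact hcm.eventually hS
  have hex : ∀ᶠ w in 𝓝[≠] (0:ℂ), (w ∈ ψ '' V ∧ ζ * w ∈ ψ '' V) ∧ w ≠ 0 := by
    have h2 : ∀ᶠ w in 𝓝[≠] (0:ℂ), w ∈ ψ '' V ∧ ζ * w ∈ ψ '' V :=
      ((show ∀ᶠ w in 𝓝 (0:ℂ), w ∈ ψ '' V from hS).and hS2).filter_mono nhdsWithin_le_nhds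
    filter_upwards [h2, self_mem_nhdsWithin] with z hz hz2
    exact ⟨hz, hz2⟩
  obtain ⟨w, ⟨⟨z1, hz1, e1⟩, ⟨z2, hz2, e2⟩⟩, hw⟩ := hex.exists
  have h3 : f z1 = f z2 := by
    have a1 := hz1.2
    have a2 := hz2.2
    rw [e1] at a1
    rw [e2, mul_pow, hζ.pow_eq_one, one_mul] at a2
    rw [← a2] at a1
    exact sub_left_injective a1
  have h4 := hinj hz1.1 hz2.1 h3
  rw [h4, e2] at e1
  have h5 : (ζ - 1) * w = 0 := by linear_combination e1
  rcases mul_eq_zero.1 h5 with h6 | h6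
  · exact hζ1 (sub_eq_zero.1 h6)
  · exact hw h6

theorem inj_deriv' {f : ℂ → ℂ} {U : Set ℂ} (hU : IsOpen U) (hf : DifferentiableOn ℂ f U)
    (hinj : InjOn f U) {z : ℂ} (hz : z ∈ U) : deriv f z ≠ 0 := by
  obtain ⟨ρ, hρ, hb⟩ := Metric.isOpen_iff.1 hU z hz
  have h1 : ∀ w ∈ ball (0:ℂ) ρ, w + z ∈ U := by
    intro w hw
    apply hb
    rw [mem_ball, dist_eq_norm, add_sub_cancel_right]
    simpa using hw
  have h2 : DifferentiableOn ℂ (fun w => f (w + z)) (ball 0 ρ) := by
    intro w hw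
    have h3 := (hf.differentiableAt (hU.mem_nhds (h1 w hw)))
    exact (h3.comp w (by fun_prop)).differentiableWithinAt
  have h3 := inj_deriv hρ h2 (fun a ha b hb' h => by
    have := hinj (h1 a ha) (h1 b hb') h
    simpa using this)
  rwa [deriv_comp_add_const, zero_add] at h3

theorem det_formula (L : ℂ →L[ℝ] ℂ) :
    L.det = (L 1).re * (L Complex.I).im - (L 1).im * (L Complex.I).re := by
  have h : L.det = LinearMap.det (L : ℂ →ₗ[ℝ] ℂ) := rfl
  rw [h, ← LinearMap.det_toMatrix Complex.basisOneI, Matrix.det_fin_two]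
  simp only [LinearMap.toMatrix_apply, Complex.coe_basisOneI_repr, Complex.coe_basisOneI]
  simp
  ring

theorem det_area (L : ℂ →L[ℝ] ℂ) (x : ℂ) :
    L.det * ‖x‖ ^ 2 = (L x).re * (L (Complex.I * x)).im - (L x).im * (L (Complex.I * x)).re := by
  have h1 : L x = x.re • L 1 + x.im • L Complex.I := by
    conv_lhs => rw [show x = x.re • (1:ℂ) + x.im • Complex.I by
      apply Complex.ext <;> simp]
    rw [map_add, map_smul, map_smul]
  have h2 : L (Complex.I * x) = (-x.im) • L 1 + x.re • L Complex.I := by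
    conv_lhs => rw [show Complex.I * x = (-x.im) • (1:ℂ) + x.re • Complex.I by
      apply Complex.ext <;> simp]
    rw [map_add, map_smul, map_smul]
  rw [h1, h2, det_formula, ← Complex.normSq_eq_norm_sq, Complex.normSq_apply]
  simp only [Complex.add_re, Complex.add_im, Complex.real_smul, Complex.mul_re, Complex.mul_im,
    Complex.ofReal_re, Complex.ofReal_im]
  ring

/-- tube lemma for the circle -/
theorem tube {s : ℝ} (hs : 0 < s) {U : Set ℂ} (hU : IsOpen U) (hc : ∀ x : ℂ, ‖x‖ = s → x ∈ U)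
    {η : ℝ} (hη : 0 < η) : ∃ δ, 0 < δ ∧ δ < η ∧ δ < s ∧ An s δ ⊆ U := by
  have hK : IsCompact (sphere (0:ℂ) s) := isCompact_sphere _ _
  obtain ⟨δ, hδ, hsub⟩ := hK.exists_thickening_subset_open hU (fun x hx => hc x (by simpa using hx))
  refine ⟨min (δ / 2) (min (η / 2) (s / 2)), by positivity, ?_, ?_, ?_⟩
  · calc min (δ / 2) (min (η / 2) (s / 2)) ≤ min (η / 2) (s / 2) := min_le_right _ _
      _ ≤ η / 2 := min_le_left _ _
      _ < η := by linarith
  · calc min (δ / 2) (min (η / 2) (s / 2)) ≤ min (η / 2) (s / 2) := min_le_right _ _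
      _ ≤ s / 2 := min_le_right _ _
      _ < s := by linarith
  · intro x hx
    have h1 : min (δ / 2) (min (η / 2) (s / 2)) ≤ δ / 2 := min_le_left _ _
    have h2 : min (δ / 2) (min (η / 2) (s / 2)) ≤ s / 2 :=
      (min_le_right _ _).trans (min_le_right _ _)
    obtain ⟨h3, h4⟩ := hx
    have h5 : 0 < ‖x‖ := by linarith
    apply hsub
    rw [mem_thickening_iff]
    refine ⟨((s / ‖x‖ : ℝ) : ℂ) * x, ?_, ?_⟩
    · rw [mem_sphere, dist_zero_right, norm_mul, Complex.norm_real, Real.norm_eq_abs,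
        abs_of_pos (by positivity), div_mul_cancel₀ _ h5.ne']
    · rw [dist_eq_norm]
      have : x - ((s / ‖x‖ : ℝ) : ℂ) * x = ((1 - s / ‖x‖ : ℝ) : ℂ) * x := by push_cast; ring
      rw [this, norm_mul, Complex.norm_real, Real.norm_eq_abs]
      have h6 : |1 - s / ‖x‖| * ‖x‖ = |‖x‖ - s| := by
        rw [← abs_of_pos h5, ← abs_mul, abs_of_pos h5]
        congr 1
        field_simp
      rw [h6, abs_lt]
      constructor <;> linarith

theorem isOpen_An (s η : ℝ) : IsOpen (An s η) :=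
  (isOpen_lt continuous_const continuous_norm).inter (isOpen_lt continuous_norm continuous_const)

/-! ### Part B: functions of the angle -/

/-- the function of the angle -/
def PP (p : ℝ → ℝ) (x : ℂ) : ℝ := p (Complex.arg x)

theorem per_int {p : ℝ → ℝ} (hper : ∀ θ, p (θ + 2 * Real.pi) = p θ) (θ : ℝ) (n : ℤ) :
    p (θ + n * (2 * Real.pi)) = p θ := by
  have h : Function.Periodic p (2 * Real.pi) := hper
  exact h.int_mul n θ

theorem per_exp {p : ℝ → ℝ} (hper : ∀ θ, p (θ + 2 * Real.pi) = p θ) {a b : ℝ}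
    (h : Complex.exp (a * Complex.I) = Complex.exp (b * Complex.I)) : p a = p b := by
  obtain ⟨n, hn⟩ := Complex.exp_eq_exp_iff_exists_int.1 h
  have h1 : (a : ℂ) = ((b + n * (2 * Real.pi) : ℝ) : ℂ) := by
    have h2 : ((a : ℂ) - b - n * (2 * Real.pi)) * Complex.I = 0 := by linear_combination hn
    rcases mul_eq_zero.1 h2 with h3 | h3
    · push_cast
      linear_combination h3
    · exact absurd h3 Complex.I_ne_zero
  rw [Complex.ofReal_inj] at h1
  rw [h1, per_int hper]

theorem PP_polar {p : ℝ → ℝ} (hper : ∀ θ, p (θ + 2 * Real.pi) = p θ) {r : ℝ} (hr : 0 < r)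
    (θ : ℝ) : PP p (r * Complex.exp (θ * Complex.I)) = p θ := by
  apply per_exp hper
  have h1 := Complex.norm_mul_exp_arg_mul_I ((r : ℂ) * Complex.exp (θ * Complex.I))
  rw [norm_mul, Complex.norm_real, Complex.norm_exp_ofReal_mul_I, mul_one, Real.norm_eq_abs,
    abs_of_pos hr] at h1
  have hr' : (r : ℂ) ≠ 0 := by exact_mod_cast hr.ne'
  exact mul_left_cancel₀ hr' h1

/-- every nonzero number is polar -/
theorem polar (x : ℂ) : x = (‖x‖ : ℂ) * Complex.exp (Complex.arg x * Complex.I) :=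
  (Complex.norm_mul_exp_arg_mul_I x).symm

theorem PP_smooth {p : ℝ → ℝ} (hp : ContDiff ℝ ∞ p) (hper : ∀ θ, p (θ + 2 * Real.pi) = p θ)
    {x : ℂ} (hx : x ≠ 0) : ContDiffAt ℝ ∞ (PP p) x := by
  have h1 : ContDiffAt ℝ ∞ (fun y : ℂ => Complex.log (y / x)) x := by
    have h2 : ContDiffAt ℂ ∞ (fun y : ℂ => Complex.log (y / x)) x := by
      have h3 : ContDiffAt ℂ ∞ Complex.log (x / x) := Complex.contDiffAt_log (by
        rw [div_self hx]
        exact Complex.one_mem_slitPlane)
      have h4 : ContDiffAt ℂ ∞ (fun y : ℂ => y / x) x := contDiffAt_id.div_const x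
      exact ContDiffAt.comp (f := fun y : ℂ => y / x) x h3 h4
    exact h2.restrict_scalars ℝ
  have h3 : ContDiffAt ℝ ∞ (fun y : ℂ => p (Complex.arg x + (Complex.log (y / x)).im)) x := by
    apply hp.contDiffAt.comp
    apply contDiffAt_const.add
    exact (Complex.imCLM.contDiff.contDiffAt).comp x h1
  refine h3.congr_of_eventuallyEq ?_
  filter_upwards [isOpen_ne.mem_nhds hx] with y hy
  rw [Complex.log_im]
  have h4 : y = ((‖y‖ : ℝ) : ℂ) * Complex.exp (((Complex.arg x + Complex.arg (y / x) : ℝ) : ℂ)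
      * Complex.I) := by
    have h5 := polar x
    have h6 := polar (y / x)
    have h7 : y = x * (y / x) := by field_simp
    rw [norm_div] at h6
    push_cast
    rw [add_mul, Complex.exp_add]
    have hx' : (‖x‖ : ℂ) ≠ 0 := by exact_mod_cast (norm_ne_zero_iff.2 hx)
    calc y = x * (y / x) := h7
      _ = ((‖x‖ : ℂ) * Complex.exp (Complex.arg x * Complex.I)) *
          (((‖y‖ / ‖x‖ : ℝ) : ℂ) * Complex.exp (Complex.arg (y / x) * Complex.I)) := by
            rw [← h5, ← h6]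
      _ = _ := by
        push_cast
        field_simp
  show PP p y = _
  conv_lhs => rw [h4]
  exact PP_polar hper (norm_pos_iff.2 hy) _

/-! ### Part C: the radial extension -/

/-- the radial cutoff function -/
def bb (s : ℝ) (x : ℂ) : ℝ := Real.smoothTransition (4 * ‖x‖ ^ 2 / s ^ 2 - 1)

/-- the radial extension -/
def A0 (s : ℝ) (p : ℝ → ℝ) (x : ℂ) : ℂ :=
  (x / s) * Complex.exp (((bb s x * PP p x : ℝ) : ℂ) * Complex.I)

theorem bb_smooth (s : ℝ) : ContDiff ℝ ∞ (bb s) := by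
  have h1 : ContDiff ℝ ∞ (fun x : ℂ => 4 * ‖x‖ ^ 2 / s ^ 2 - 1) := by
    have h2 : ContDiff ℝ ∞ (fun x : ℂ => ‖x‖ ^ 2) := contDiff_norm_sq ℝ
    exact ((contDiff_const.mul h2).div_const _).sub contDiff_const
  exact Real.smoothTransition.contDiff.comp h1

theorem bb_zero {s : ℝ} (hs : 0 < s) {x : ℂ} (hx : ‖x‖ < s / 2) : bb s x = 0 := by
  apply Real.smoothTransition.zero_of_nonpos
  have h1 : ‖x‖ ^ 2 ≤ (s / 2) ^ 2 := pow_le_pow_left₀ (norm_nonneg _) hx.le 2
  rw [sub_nonpos, div_le_one (by positivity)]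
  linarith

theorem bb_one {s : ℝ} (hs : 0 < s) {x : ℂ} (hx : 3 / 4 * s < ‖x‖) : bb s x = 1 := by
  apply Real.smoothTransition.one_of_one_le
  have h1 : (3 / 4 * s) ^ 2 ≤ ‖x‖ ^ 2 := pow_le_pow_left₀ (by positivity) hx.le 2
  rw [le_sub_iff_add_le, le_div_iff₀ (by positivity)]
  nlinarith [sq_nonneg s]

theorem norm_A0 {s : ℝ} (hs : 0 < s) (p : ℝ → ℝ) (x : ℂ) : ‖A0 s p x‖ = ‖x‖ / s := by
  unfold A0
  rw [norm_mul, Complex.norm_exp_ofReal_mul_I, mul_one, norm_div, Complex.norm_real,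
    Real.norm_eq_abs, abs_of_pos hs]

theorem A0_near {s : ℝ} (hs : 0 < s) (p : ℝ → ℝ) :
    A0 s p =ᶠ[𝓝 0] fun x => x / s := by
  filter_upwards [ball_mem_nhds (0:ℂ) (show 0 < s / 2 by positivity)] with y hy
  rw [mem_ball_zero_iff] at hy
  simp [A0, bb_zero hs hy]

theorem A0_smooth {s : ℝ} (hs : 0 < s) {p : ℝ → ℝ} (hp : ContDiff ℝ ∞ p)
    (hper : ∀ θ, p (θ + 2 * Real.pi) = p θ) : ContDiff ℝ ∞ (A0 s p) := by
  rw [contDiff_iff_contDiffAt]
  intro x
  by_cases hx : x = 0
  · subst hx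
    have h1 : ContDiffAt ℝ ∞ (fun x : ℂ => x / s) 0 := contDiffAt_id.div_const _
    exact h1.congr_of_eventuallyEq (A0_near hs p)
  · have h1 := (bb_smooth s).contDiffAt (x := x)
    have h2 := PP_smooth hp hper hx
    have h3 : ContDiffAt ℝ ∞ (fun y => ((bb s y * PP p y : ℝ) : ℂ)) x :=
      (Complex.ofRealCLM.contDiff.contDiffAt).comp x (h1.mul h2)
    have h4 : ContDiffAt ℝ ∞ (fun y : ℂ => y / s) x := contDiffAt_id.div_const _
    exact h4.mul ((h3.mul contDiffAt_const).cexp)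

theorem bb_ofReal (s : ℝ) (x : ℂ) : bb s x = Real.smoothTransition (4 * ‖x‖ ^ 2 / s ^ 2 - 1) := rfl

theorem A0_polar {s : ℝ} {p : ℝ → ℝ} (hper : ∀ θ, p (θ + 2 * Real.pi) = p θ) {r : ℝ} (hr : 0 < r)
    (θ : ℝ) : A0 s p (r * Complex.exp (θ * Complex.I)) = ((r / s : ℝ) : ℂ) *
      Complex.exp (((θ + Real.smoothTransition (4 * r ^ 2 / s ^ 2 - 1) * p θ : ℝ) : ℂ)
        * Complex.I) := by
  unfold A0 bb
  rw [PP_polar hper hr, norm_mul, Complex.norm_real, Complex.norm_exp_ofReal_mul_I, mul_one,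
    Real.norm_eq_abs, abs_of_pos hr]
  push_cast
  rw [add_mul, Complex.exp_add]
  ring

section angle

variable {p : ℝ → ℝ} {β : ℝ}

theorem ang_mono (hp : ContDiff ℝ ∞ p) (hd : ∀ θ, -1 < deriv p θ) (h0 : 0 ≤ β) (h1 : β ≤ 1) :
    StrictMono (fun θ => θ + β * p θ) := by
  apply strictMono_of_deriv_pos
  intro θ
  have h2 : HasDerivAt p (deriv p θ) θ :=
    (hp.differentiable (by simp)).differentiableAt.hasDerivAt
  have h3 : HasDerivAt (fun θ => θ + β * p θ) (1 + β * deriv p θ) θ :=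
    (hasDerivAt_id θ).add (h2.const_mul β)
  rw [h3.deriv]
  have h4 := hd θ
  by_cases h5 : 0 ≤ deriv p θ
  · have := mul_nonneg h0 h5
    linarith
  · push Not at h5
    nlinarith

theorem ang_int (hper : ∀ θ, p (θ + 2 * Real.pi) = p θ) (θ : ℝ) (n : ℤ) :
    (θ + n * (2 * Real.pi)) + β * p (θ + n * (2 * Real.pi)) = θ + β * p θ + n * (2 * Real.pi) := by
  rw [per_int hper]
  ring

theorem ang_surj (hp : ContDiff ℝ ∞ p) (hper : ∀ θ, p (θ + 2 * Real.pi) = p θ) (φ : ℝ) :
    ∃ θ, θ + β * p θ = φ := by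
  have hc : Continuous (fun θ => θ + β * p θ) :=
    continuous_id.add (continuous_const.mul hp.continuous)
  have hpi : 0 < 2 * Real.pi := by positivity
  have h1 : ∃ a, (fun θ => θ + β * p θ) a ≤ φ := by
    refine ⟨0 + (⌊(φ - β * p 0) / (2 * Real.pi)⌋ : ℤ) * (2 * Real.pi), ?_⟩
    show _ + β * p _ ≤ φ
    rw [ang_int hper]
    have h2 := Int.floor_le ((φ - β * p 0) / (2 * Real.pi))
    rw [le_div_iff₀ hpi] at h2
    linarith
  have h2 : ∃ a, φ ≤ (fun θ => θ + β * p θ) a := by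
    refine ⟨0 + (⌈(φ - β * p 0) / (2 * Real.pi)⌉ : ℤ) * (2 * Real.pi), ?_⟩
    show φ ≤ _ + β * p _
    rw [ang_int hper]
    have h2 := Int.le_ceil ((φ - β * p 0) / (2 * Real.pi))
    rw [div_le_iff₀ hpi] at h2
    linarith
  exact mem_range_of_exists_le_of_exists_ge hc h1 h2

end angle

theorem A0_bij {s : ℝ} (hs : 0 < s) {p : ℝ → ℝ} (hp : ContDiff ℝ ∞ p)
    (hper : ∀ θ, p (θ + 2 * Real.pi) = p θ) (hd : ∀ θ, -1 < deriv p θ) :
    Bijective (A0 s p) := by
  constructor
  · intro x y hxy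
    have h1 : ‖x‖ = ‖y‖ := by
      have h2 := congrArg norm hxy
      rw [norm_A0 hs, norm_A0 hs] at h2
      field_simp at h2
      exact h2
    by_cases hx : x = 0
    · subst hx
      rw [norm_zero] at h1
      exact (norm_eq_zero.1 h1.symm).symm
    · have hr : 0 < ‖x‖ := norm_pos_iff.2 hx
      have h2 := polar x
      have h3 := polar y
      rw [← h1] at h3
      rw [h2, h3] at hxy
      rw [A0_polar hper hr, A0_polar hper hr] at hxy
      set β := Real.smoothTransition (4 * ‖x‖ ^ 2 / s ^ 2 - 1) with hβ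
      have h4 : ((‖x‖ / s : ℝ) : ℂ) ≠ 0 := by
        have : ‖x‖ / s ≠ 0 := by positivity
        exact_mod_cast this
      have h5 := mul_left_cancel₀ h4 hxy
      obtain ⟨n, hn⟩ := Complex.exp_eq_exp_iff_exists_int.1 h5
      have h6 : (Complex.arg x + β * p (Complex.arg x) : ℝ) =
          Complex.arg y + β * p (Complex.arg y) + n * (2 * Real.pi) := by
        have h7 : (((Complex.arg x + β * p (Complex.arg x) : ℝ) : ℂ) -
            ((Complex.arg y + β * p (Complex.arg y) + n * (2 * Real.pi) : ℝ) : ℂ)) * Complex.I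
            = 0 := by
          push_cast at hn ⊢
          linear_combination hn
        rcases mul_eq_zero.1 h7 with h8 | h8
        · exact_mod_cast sub_eq_zero.1 h8
        · exact absurd h8 Complex.I_ne_zero
      rw [← ang_int hper] at h6
      have h7 := (ang_mono hp hd (Real.smoothTransition.nonneg _)
        (Real.smoothTransition.le_one _)).injective h6
      rw [h2, h3, h7]
      congr 1
      push_cast
      rw [add_mul, Complex.exp_add]
      have h8 : Complex.exp ((n : ℂ) * (2 * (Real.pi : ℂ)) * Complex.I) = 1 := by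
        rw [mul_assoc]
        exact Complex.exp_int_mul_two_pi_mul_I n
      rw [h8, mul_one]
  · intro y
    by_cases hy : y = 0
    · subst hy
      refine ⟨0, ?_⟩
      have := norm_A0 hs p 0
      rw [norm_zero, zero_div] at this
      exact norm_eq_zero.1 this
    · have hr : 0 < s * ‖y‖ := mul_pos hs (norm_pos_iff.2 hy)
      obtain ⟨θ, hθ⟩ := ang_surj (β := Real.smoothTransition (4 * (s * ‖y‖) ^ 2 / s ^ 2 - 1))
        hp hper (Complex.arg y)
      refine ⟨((s * ‖y‖ : ℝ) : ℂ) * Complex.exp (θ * Complex.I), ?_⟩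
      rw [A0_polar hper hr, hθ]
      conv_rhs => rw [polar y]
      congr 2
      field_simp

theorem fderiv_curve {f : ℂ → ℂ} {x v w : ℂ} {c : ℝ → ℂ} (hf : DifferentiableAt ℝ f x)
    (hc0 : c 0 = x) (hc : HasDerivAt c v 0) (hw : HasDerivAt (fun t => f (c t)) w 0) :
    fderiv ℝ f x v = w := by
  have h1 : HasFDerivAt f (fderiv ℝ f x) (c 0) := by rw [hc0]; exact hf.hasFDerivAt
  have h2 := h1.comp_hasDerivAt 0 hc
  exact h2.unique hw

theorem rot_curve (x : ℂ) : HasDerivAt (fun t : ℝ => x * Complex.exp (t * Complex.I))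
    (Complex.I * x) 0 := by
  have h1 : HasDerivAt (fun t : ℝ => (t : ℂ) * Complex.I) Complex.I 0 := by
    have := (Complex.ofRealCLM.hasDerivAt (x := (0:ℝ))).mul_const Complex.I
    simpa using this
  have h2 := (h1.cexp).const_mul x
  simp only [Complex.ofReal_zero, zero_mul, Complex.exp_zero, one_mul] at h2
  rwa [mul_comm x Complex.I] at h2

theorem scale_curve (x : ℂ) : HasDerivAt (fun t : ℝ => (Real.exp t : ℂ) * x) x 0 := by
  have h1 : HasDerivAt (fun t : ℝ => ((Real.exp t : ℝ) : ℂ)) ((1 : ℝ) : ℂ) 0 := by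
    have := (Real.hasDerivAt_exp 0)
    rw [Real.exp_zero] at this
    exact this.ofReal_comp
  have h2 := h1.mul_const x
  simpa using h2

theorem A0_det {s : ℝ} (hs : 0 < s) {p : ℝ → ℝ} (hp : ContDiff ℝ ∞ p)
    (hper : ∀ θ, p (θ + 2 * Real.pi) = p θ) (hd : ∀ θ, -1 < deriv p θ) (x : ℂ) :
    0 < (fderiv ℝ (A0 s p) x).det := by
  have hsm := A0_smooth hs hp hper
  have hdx : DifferentiableAt ℝ (A0 s p) x := (hsm.differentiable (by simp)).differentiableAt
  by_cases hx : x = 0
  · subst hx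
    have h1 : fderiv ℝ (A0 s p) 0 = fderiv ℝ (fun x : ℂ => x / s) 0 :=
      (A0_near hs p).fderiv_eq
    have h2 : HasFDerivAt (fun x : ℂ => x / (s : ℂ)) ((s : ℂ)⁻¹ • ContinuousLinearMap.id ℝ ℂ) 0 := by
      have h3 := (hasFDerivAt_id (𝕜 := ℝ) (0:ℂ)).const_smul ((s : ℂ)⁻¹)
      refine h3.congr_of_eventuallyEq (Eventually.of_forall fun y => ?_)
      simp [div_eq_inv_mul]
    rw [h1, h2.fderiv, det_formula]
    simp
    positivity
  · have hr : 0 < ‖x‖ := norm_pos_iff.2 hx
    set α := Complex.arg x with hα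
    set β := Real.smoothTransition (4 * ‖x‖ ^ 2 / s ^ 2 - 1) with hβ
    -- angular derivative
    have hrot : fderiv ℝ (A0 s p) x (Complex.I * x) =
        ((1 + β * deriv p α : ℝ) : ℂ) * Complex.I * A0 s p x := by
      refine fderiv_curve hdx (by simp) (rot_curve x) ?_
      have h1 : ∀ t : ℝ, A0 s p (x * Complex.exp (t * Complex.I)) = ((‖x‖ / s : ℝ) : ℂ) *
          Complex.exp ((((α + t) + β * p (α + t) : ℝ) : ℂ) * Complex.I) := by
        intro t
        rw [← A0_polar hper hr]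
        congr 1
        conv_lhs => rw [polar x]
        push_cast
        rw [add_mul, Complex.exp_add]
        ring
      have h2 : HasDerivAt p (deriv p α) (α + 0) := by
        rw [add_zero]
        exact (hp.differentiable (by simp)).differentiableAt.hasDerivAt
      have h3 : HasDerivAt (fun t : ℝ => α + t) 1 0 := (hasDerivAt_id (0:ℝ)).const_add α
      have h4 : HasDerivAt (fun t : ℝ => (α + t) + β * p (α + t)) (1 + β * deriv p α) 0 := by
        have h5 := h2.comp (0:ℝ) h3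
        rw [mul_one] at h5
        exact h3.add (h5.const_mul β)
      have h5 : HasDerivAt (fun t : ℝ => ((‖x‖ / s : ℝ) : ℂ) *
          Complex.exp ((((α + t) + β * p (α + t) : ℝ) : ℂ) * Complex.I))
          (((‖x‖ / s : ℝ) : ℂ) * (Complex.exp ((((α + 0) + β * p (α + 0) : ℝ) : ℂ) * Complex.I) *
            (((1 + β * deriv p α : ℝ) : ℂ) * Complex.I))) 0 :=
        ((h4.ofReal_comp.mul_const Complex.I).cexp).const_mul _
      have h6 : HasDerivAt (fun t : ℝ => A0 s p (x * Complex.exp (t * Complex.I)))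
          (((‖x‖ / s : ℝ) : ℂ) * (Complex.exp ((((α + 0) + β * p (α + 0) : ℝ) : ℂ) * Complex.I) *
            (((1 + β * deriv p α : ℝ) : ℂ) * Complex.I))) 0 :=
        h5.congr_of_eventuallyEq (Eventually.of_forall h1)
      convert h6 using 1
      have h7 := h1 0
      simp only [Complex.ofReal_zero, zero_mul, Complex.exp_zero, mul_one] at h7
      rw [h7]
      ring
    -- radial derivative
    have hg : DifferentiableAt ℝ (fun y => bb s y * PP p y) x :=
      ((bb_smooth s).contDiffAt.mul (PP_smooth hp hper hx)).differentiableAt (by simp)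
    set γ : ℝ := fderiv ℝ (fun y => bb s y * PP p y) x x with hγ
    have hrad : fderiv ℝ (A0 s p) x x = (1 + (γ : ℂ) * Complex.I) * A0 s p x := by
      refine fderiv_curve hdx (by simp) (scale_curve x) ?_
      have h1 : HasDerivAt (fun t : ℝ => bb s ((Real.exp t : ℂ) * x) * PP p ((Real.exp t : ℂ) * x))
          γ 0 := by
        have h2 : HasFDerivAt (fun y => bb s y * PP p y) (fderiv ℝ (fun y => bb s y * PP p y) x)
            ((Real.exp (0:ℝ) : ℂ) * x) := by
          simpa using hg.hasFDerivAt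
        exact h2.comp_hasDerivAt (0:ℝ) (scale_curve x)
      have h2 := ((scale_curve x).div_const (s : ℂ)).mul ((h1.ofReal_comp.mul_const Complex.I).cexp)
      have h3 : HasDerivAt (fun t : ℝ => A0 s p ((Real.exp t : ℂ) * x)) _ 0 := h2
      convert h3 using 1
      simp only [Real.exp_zero, Complex.ofReal_one, one_mul]
      unfold A0
      ring
    have h1 := det_area (fderiv ℝ (A0 s p) x) x
    rw [hrot, hrad] at h1
    have h2 : 0 < 1 + β * deriv p α := by
      have h3 : 0 ≤ β := Real.smoothTransition.nonneg _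
      have h4 : β ≤ 1 := Real.smoothTransition.le_one _
      have h5 := hd α
      by_cases h6 : 0 ≤ deriv p α
      · have := mul_nonneg h3 h6
        linarith
      · push Not at h6
        nlinarith
    have h3 : 0 < (fderiv ℝ (A0 s p) x).det * ‖x‖ ^ 2 := by
      rw [h1]
      have h4 : 0 < ‖A0 s p x‖ ^ 2 := by
        rw [norm_A0 hs]
        positivity
      rw [← Complex.normSq_eq_norm_sq, Complex.normSq_apply] at h4
      have h5 := mul_pos h2 h4
      set z := A0 s p x with hz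
      set k := 1 + β * deriv p α with hk
      have h6 : ((1 + (γ : ℂ) * Complex.I) * z).re = z.re - γ * z.im := by simp
      have h7 : ((1 + (γ : ℂ) * Complex.I) * z).im = z.im + γ * z.re := by simp
      have h8 : ((k : ℂ) * Complex.I * z).re = - (k * z.im) := by simp
      have h9 : ((k : ℂ) * Complex.I * z).im = k * z.re := by simp
      rw [h6, h7, h8, h9]
      nlinarith
    have h4 : 0 < ‖x‖ ^ 2 := by positivity
    exact (pos_iff_pos_of_mul_pos h3).2 h4

theorem inv_smooth {A : ℂ → ℂ} (hA : ContDiff ℝ ∞ A) (hb : Bijective A)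
    (hd : ∀ x, 0 < (fderiv ℝ A x).det) :
    ∃ B : ℂ → ℂ, (∀ x, B (A x) = x) ∧ (∀ y, A (B y) = y) ∧ ContDiff ℝ ∞ B := by
  let A' : ℂ → (ℂ ≃L[ℝ] ℂ) := fun x =>
    (fderiv ℝ A x).toContinuousLinearEquivOfDetNeZero (hd x).ne'
  have hA' : ∀ x, ((A' x : ℂ ≃L[ℝ] ℂ) : ℂ →L[ℝ] ℂ) = fderiv ℝ A x := fun x =>
    ContinuousLinearMap.coe_toContinuousLinearEquivOfDetNeZero _ _
  have hst : ∀ x, HasStrictFDerivAt A ((A' x : ℂ ≃L[ℝ] ℂ) : ℂ →L[ℝ] ℂ) x := by
    intro x
    rw [hA']
    exact hA.contDiffAt.hasStrictFDerivAt (by simp)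
  have hop : IsOpenMap A := isOpenMap_of_hasStrictFDerivAt_equiv hst
  let e : ℂ ≃ₜ ℂ := (Equiv.ofBijective A hb).toHomeomorphOfContinuousOpen hA.continuous hop
  refine ⟨e.symm, fun x => e.symm_apply_apply x, fun y => e.apply_symm_apply y, ?_⟩
  rw [contDiff_iff_contDiffAt]
  intro y
  have h1 := e.toOpenPartialHomeomorph.contDiffAt_symm (𝕜 := ℝ) (n := ∞) (a := y)
    (f₀' := A' (e.symm y)) (by simp) (hst _).hasFDerivAt hA.contDiffAt
  exact h1

/-! ### Part D: the lift -/

section lift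

variable {F : ℂ → ℂ} {s η : ℝ}

theorem circ_mem (hη : 0 < η) {x : ℂ} (hx : ‖x‖ = s) : x ∈ An s η := by
  constructor <;> linarith

theorem circ_ne (hs : 0 < s) {x : ℂ} (hx : ‖x‖ = s) : x ≠ 0 := by
  rintro rfl
  rw [norm_zero] at hx
  linarith

theorem F_rot (hη : 0 < η) (hF : DifferentiableOn ℂ F (An s η)) {x : ℂ} (hx : ‖x‖ = s) :
    HasDerivAt (fun t : ℝ => F (x * Complex.exp (t * Complex.I))) (deriv F x * (Complex.I * x)) 0 := by
  have h1 : HasDerivAt F (deriv F x) (x * Complex.exp ((0:ℝ) * Complex.I)) := by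
    simp only [Complex.ofReal_zero, zero_mul, Complex.exp_zero, mul_one]
    exact (hF.differentiableAt ((isOpen_An s η).mem_nhds (circ_mem hη hx))).hasDerivAt
  exact h1.comp (0:ℝ) (rot_curve x)

theorem F_scale (hη : 0 < η) (hF : DifferentiableOn ℂ F (An s η)) {x : ℂ} (hx : ‖x‖ = s) :
    HasDerivAt (fun t : ℝ => F ((Real.exp t : ℂ) * x)) (deriv F x * x) 0 := by
  have h1 : HasDerivAt F (deriv F x) ((Real.exp (0:ℝ) : ℂ) * x) := by
    simp only [Real.exp_zero, Complex.ofReal_one, one_mul]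
    exact (hF.differentiableAt ((isOpen_An s η).mem_nhds (circ_mem hη hx))).hasDerivAt
  exact h1.comp (0:ℝ) (scale_curve x)

theorem Q_conj {x : ℂ} (h : ‖F x‖ = 1) : x * deriv F x / F x
    = (starRingEnd ℂ) (F x) * (deriv F x * x) := by
  have h1 : F x ≠ 0 := by
    intro h2
    rw [h2, norm_zero] at h
    exact one_ne_zero h.symm
  have h2 : (starRingEnd ℂ) (F x) * F x = 1 := by
    rw [mul_comm, Complex.mul_conj, Complex.normSq_eq_norm_sq, h]
    norm_num
  rw [div_eq_iff h1]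
  linear_combination -(x * deriv F x) * h2

theorem Q_im (hη : 0 < η) (hF : DifferentiableOn ℂ F (An s η))
    (hc : ∀ x, ‖x‖ = s → ‖F x‖ = 1) {x : ℂ} (hx : ‖x‖ = s) : (x * deriv F x / F x).im = 0 := by
  have h1 := (F_rot hη hF hx).norm_sq
  have h2 : HasDerivAt (fun t : ℝ => ‖F (x * Complex.exp (t * Complex.I))‖ ^ 2) 0 0 := by
    have h3 : (fun t : ℝ => ‖F (x * Complex.exp (t * Complex.I))‖ ^ 2) = fun _ => 1 := by
      ext t
      rw [hc _ (by rw [norm_mul, Complex.norm_exp_ofReal_mul_I, mul_one, hx]), one_pow]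
    rw [h3]
    exact hasDerivAt_const _ _
  have h3 := h1.unique h2
  simp only [Complex.ofReal_zero, zero_mul, Complex.exp_zero, mul_one] at h3
  rw [Complex.inner] at h3
  rw [Q_conj (hc x hx)]
  have h4 : deriv F x * (Complex.I * x) * (starRingEnd ℂ) (F x) =
    Complex.I * ((starRingEnd ℂ) (F x) * (deriv F x * x)) := by ring
  rw [h4, Complex.I_mul_re] at h3
  linarith

theorem Q_pos (hη : 0 < η) (hηs : η < s) (hF : DifferentiableOn ℂ F (An s η))
    (hinj : InjOn F (An s η)) (hc : ∀ x, ‖x‖ = s → ‖F x‖ = 1)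
    (hin : ∀ x, s - η < ‖x‖ → ‖x‖ < s → ‖F x‖ < 1) {x : ℂ} (hx : ‖x‖ = s) :
    0 < (x * deriv F x / F x).re := by
  have hs : 0 < s := hη.trans hηs
  have hx0 := circ_ne hs hx
  have h0 : 0 ≤ (x * deriv F x / F x).re := by
    have h1 := (F_scale hη hF hx).norm_sq
    simp only [Real.exp_zero, Complex.ofReal_one, one_mul] at h1
    have hcomm : deriv F x * x * (starRingEnd ℂ) (F x) = (starRingEnd ℂ) (F x) * (deriv F x * x) :=
      mul_comm _ _
    rw [Complex.inner, hcomm, ← Q_conj (hc x hx)] at h1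
    set q := (x * deriv F x / F x).re with hq
    have h2 := h1.hasDerivWithinAt (s := Iio (0:ℝ))
    rw [hasDerivWithinAt_iff_tendsto_slope' (by simp)] at h2
    have h3 : ∀ᶠ t in 𝓝[<] (0:ℝ), 0 ≤ slope (fun t : ℝ => ‖F ((Real.exp t : ℂ) * x)‖ ^ 2) 0 t := by
      have h4 : ∀ᶠ t in 𝓝 (0:ℝ), s - η < Real.exp t * s := by
        have h5 : Continuous fun t : ℝ => Real.exp t * s := by fun_prop
        have h6 := h5.tendsto 0
        rw [Real.exp_zero, one_mul] at h6
        exact h6.eventually (lt_mem_nhds (by linarith))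
      filter_upwards [nhdsWithin_le_nhds h4, self_mem_nhdsWithin] with t ht ht0
      rw [slope_def_field]
      have ht0' : t < 0 := ht0
      have h5 : ‖((Real.exp t : ℝ) : ℂ) * x‖ = Real.exp t * s := by
        rw [norm_mul, Complex.norm_real, Real.norm_eq_abs, abs_of_pos (Real.exp_pos t), hx]
      have h6 : Real.exp t < 1 := by
        rw [← Real.exp_zero]
        exact Real.exp_lt_exp.2 ht0'
      have h7 : ‖F (((Real.exp t : ℝ) : ℂ) * x)‖ < 1 := hin _ (by rw [h5]; exact ht)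
        (by rw [h5]; nlinarith)
      have h8 : ‖F (((Real.exp t : ℝ) : ℂ) * x)‖ ^ 2 ≤ 1 := by
        have := norm_nonneg (F (((Real.exp t : ℝ) : ℂ) * x))
        nlinarith
      apply div_nonneg_of_nonpos
      · simp only [Real.exp_zero, Complex.ofReal_one, one_mul]
        rw [hc x hx]
        linarith
      · linarith
    have h4 := ge_of_tendsto h2 h3
    linarith
  have h1 : x * deriv F x / F x ≠ 0 := by
    have h2 := inj_deriv' (isOpen_An s η) hF hinj (circ_mem hη hx)
    have h3 : F x ≠ 0 := by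
      intro h
      have := hc x hx
      rw [h, norm_zero] at this
      exact one_ne_zero this.symm
    exact div_ne_zero (mul_ne_zero hx0 h2) h3
  have h2 := Q_im hη hF hc hx
  rcases h0.lt_or_eq with h3 | h3
  · exact h3
  · exfalso
    exact h1 (Complex.ext h3.symm h2)

theorem Q_cont (hη : 0 < η) (hF : DifferentiableOn ℂ F (An s η))
    (hc : ∀ x, ‖x‖ = s → ‖F x‖ = 1) :
    ContinuousOn (fun x => (x * deriv F x / F x).re) (sphere (0:ℂ) s) := by
  have hsub : sphere (0:ℂ) s ⊆ An s η := fun x hx => circ_mem hη (by simpa using hx)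
  have h1 : ContinuousOn F (sphere (0:ℂ) s) := hF.continuousOn.mono hsub
  have h2 : ContinuousOn (deriv F) (sphere (0:ℂ) s) :=
    (hF.deriv (isOpen_An s η)).continuousOn.mono hsub
  apply Complex.continuous_re.comp_continuousOn
  apply (continuousOn_id.mul h2).div h1
  intro x hx h
  have := hc x (by simpa using hx)
  rw [h, norm_zero] at this
  exact one_ne_zero this.symm

theorem exists_lift (hη : 0 < η) (hηs : η < s) (hF : DifferentiableOn ℂ F (An s η))
    (hinj : InjOn F (An s η)) (hc : ∀ x, ‖x‖ = s → ‖F x‖ = 1)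
    (hin : ∀ x, s - η < ‖x‖ → ‖x‖ < s → ‖F x‖ < 1) :
    ∃ p : ℝ → ℝ, ContDiff ℝ ∞ p ∧ (∀ θ, p (θ + 2 * Real.pi) = p θ) ∧ (∀ θ, -1 < deriv p θ) ∧
      ∀ θ : ℝ, F (s * Complex.exp (θ * Complex.I)) =
        Complex.exp (((θ + p θ : ℝ) : ℂ) * Complex.I) := by
  have hs : 0 < s := hη.trans hηs
  set z : ℝ → ℂ := fun θ => s * Complex.exp (θ * Complex.I) with hz
  have hzn : ∀ θ, ‖z θ‖ = s := by
    intro θ
    simp only [hz]
    rw [norm_mul, Complex.norm_exp_ofReal_mul_I, mul_one, Complex.norm_real, Real.norm_eq_abs,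
      abs_of_pos hs]
  have hzper : ∀ θ, z (θ + 2 * Real.pi) = z θ := by
    intro θ
    simp only [hz]
    congr 1
    push_cast
    rw [add_mul, Complex.exp_add, Complex.exp_two_pi_mul_I, mul_one]
  have hzd : ∀ θ, HasDerivAt z (Complex.I * z θ) θ := by
    intro θ
    have h1 : HasDerivAt (fun t : ℝ => (t : ℂ) * Complex.I) Complex.I θ := by
      have := (Complex.ofRealCLM.hasDerivAt (x := θ)).mul_const Complex.I
      simpa using this
    have h2 := (h1.cexp).const_mul (s : ℂ)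
    have h3 : (s : ℂ) * (Complex.exp (θ * Complex.I) * Complex.I) = Complex.I * z θ := by
      simp only [hz]; ring
    rwa [h3] at h2
  have hzs : ContDiff ℝ ∞ z := by
    simp only [hz]
    have h1 : ContDiff ℝ ∞ (fun t : ℝ => (t : ℂ)) := Complex.ofRealCLM.contDiff
    exact contDiff_const.mul ((h1.mul contDiff_const).cexp)
  set q : ℝ → ℝ := fun θ => (z θ * deriv F (z θ) / F (z θ)).re with hq
  have hqpos : ∀ θ, 0 < q θ := fun θ => Q_pos hη hηs hF hinj hc hin (hzn θ)
  have hqQ : ∀ θ, z θ * deriv F (z θ) / F (z θ) = (q θ : ℂ) := fun θ =>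
    Complex.ext (by simp [hq]) (by rw [Complex.ofReal_im]; exact Q_im hη hF hc (hzn θ))
  have hqper : ∀ θ, q (θ + 2 * Real.pi) = q θ := by
    intro θ
    simp only [hq, hzper]
  have hF0 : ∀ θ, F (z θ) ≠ 0 := by
    intro θ h
    have := hc _ (hzn θ)
    rw [h, norm_zero] at this
    exact one_ne_zero this.symm
  have hqs : ContDiff ℝ ∞ q := by
    rw [contDiff_iff_contDiffAt]
    intro θ
    have hmem := (isOpen_An s η).mem_nhds (circ_mem hη (hzn θ))
    have h1 : ContDiffAt ℝ ∞ F (z θ) :=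
      ((hF.contDiffOn (isOpen_An s η)).contDiffAt hmem).restrict_scalars ℝ
    have h2 : ContDiffAt ℝ ∞ (deriv F) (z θ) :=
      (((hF.deriv (isOpen_An s η)).contDiffOn (isOpen_An s η)).contDiffAt hmem).restrict_scalars ℝ
    have h3 := h1.comp θ hzs.contDiffAt
    have h4 := h2.comp θ hzs.contDiffAt
    have h5 : ContDiffAt ℝ ∞ (fun θ => z θ * deriv F (z θ) / F (z θ)) θ := by
      simp only [div_eq_mul_inv]
      exact (hzs.contDiffAt.mul h4).mul (h3.inv (hF0 θ))
    exact (Complex.reCLM.contDiff.contDiffAt).comp θ h5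
  set ψ : ℝ → ℝ := fun θ => Complex.arg (F (z 0)) + ∫ t in (0:ℝ)..θ, q t with hψ
  have hψd : ∀ θ, HasDerivAt ψ (q θ) θ := by
    intro θ
    exact ((hqs.continuous.integral_hasStrictDerivAt 0 θ).hasDerivAt).const_add _
  have hψder : deriv ψ = q := funext fun θ => (hψd θ).deriv
  have hψs : ContDiff ℝ ∞ ψ := by
    rw [contDiff_infty_iff_deriv]
    refine ⟨fun θ => (hψd θ).differentiableAt, ?_⟩
    rw [hψder]
    exact hqs
  have hψmono : StrictMono ψ := by
    apply strictMono_of_deriv_pos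
    intro θ
    rw [hψder]
    exact hqpos θ
  -- the lift equation
  have hlift : ∀ θ, F (z θ) = Complex.exp ((ψ θ : ℂ) * Complex.I) := by
    have h1 : ∀ θ, HasDerivAt (fun θ => F (z θ) * Complex.exp (-((ψ θ : ℂ) * Complex.I))) 0 θ := by
      intro θ
      have h2 : HasDerivAt F (deriv F (z θ)) (z θ) :=
        (hF.differentiableAt ((isOpen_An s η).mem_nhds (circ_mem hη (hzn θ)))).hasDerivAt
      have h3 := h2.comp θ (hzd θ)
      have h4 := (((hψd θ).ofReal_comp.mul_const Complex.I).neg).cexp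
      have h5 : HasDerivAt (fun θ => F (z θ) * Complex.exp (-((ψ θ : ℂ) * Complex.I)))
          (deriv F (z θ) * (Complex.I * z θ) * Complex.exp (-((ψ θ : ℂ) * Complex.I)) +
            F (z θ) * (Complex.exp (-((ψ θ : ℂ) * Complex.I)) * -((q θ : ℂ) * Complex.I))) θ :=
        h3.mul h4
      have h6 : deriv F (z θ) * (Complex.I * z θ) = Complex.I * (q θ : ℂ) * F (z θ) := by
        rw [← hqQ θ]
        field_simp [hF0 θ]
      refine h5.congr_deriv ?_
      rw [h6]
      ring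
    have h2 : ∀ θ, F (z θ) * Complex.exp (-((ψ θ : ℂ) * Complex.I)) =
        F (z 0) * Complex.exp (-((ψ 0 : ℂ) * Complex.I)) := by
      intro θ
      exact is_const_of_deriv_eq_zero (fun θ => (h1 θ).differentiableAt)
        (fun θ => (h1 θ).deriv) θ 0
    have h3 : ψ 0 = Complex.arg (F (z 0)) := by simp [hψ]
    have h4 : F (z 0) * Complex.exp (-((ψ 0 : ℂ) * Complex.I)) = 1 := by
      rw [h3]
      have h5 := polar (F (z 0))
      rw [hc _ (hzn 0), Complex.ofReal_one, one_mul] at h5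
      rw [Complex.exp_neg]
      nth_rewrite 1 [h5]
      exact mul_inv_cancel₀ (Complex.exp_ne_zero _)
    intro θ
    have h5 := h2 θ
    rw [h4, Complex.exp_neg] at h5
    exact (mul_inv_eq_one₀ (Complex.exp_ne_zero _)).1 h5
  -- the period
  have hper : ∀ θ, ψ (θ + 2 * Real.pi) = ψ θ + 2 * Real.pi := by
    have h1 : ∀ θ, HasDerivAt (fun θ => ψ (θ + 2 * Real.pi) - ψ θ) 0 θ := by
      intro θ
      have h2 : HasDerivAt (fun θ => ψ (θ + 2 * Real.pi)) (q (θ + 2 * Real.pi)) θ :=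
        (hψd (θ + 2 * Real.pi)).comp_add_const θ (2 * Real.pi)
      have h3 := h2.sub (hψd θ)
      rw [hqper, sub_self] at h3
      exact h3
    have h2 : ∀ θ, ψ (θ + 2 * Real.pi) - ψ θ = ψ (0 + 2 * Real.pi) - ψ 0 := fun θ =>
      is_const_of_deriv_eq_zero (f := fun θ => ψ (θ + 2 * Real.pi) - ψ θ)
        (fun θ => (h1 θ).differentiableAt) (fun θ => (h1 θ).deriv) θ 0
    rw [zero_add] at h2
    have hz0 : z (2 * Real.pi) = z 0 := by
      have := hzper 0
      rwa [zero_add] at this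
    have h3 : Complex.exp ((ψ (2 * Real.pi) : ℂ) * Complex.I)
        = Complex.exp ((ψ 0 : ℂ) * Complex.I) := by
      rw [← hlift, ← hlift, hz0]
    obtain ⟨n, hn⟩ := Complex.exp_eq_exp_iff_exists_int.1 h3
    have h4 : ψ (2 * Real.pi) = ψ 0 + n * (2 * Real.pi) := by
      have h7 : ((ψ (2 * Real.pi) : ℂ) - ((ψ 0 + n * (2 * Real.pi) : ℝ) : ℂ)) * Complex.I = 0 := by
        push_cast
        linear_combination hn
      rcases mul_eq_zero.1 h7 with h8 | h8
      · exact_mod_cast sub_eq_zero.1 h8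
      · exact absurd h8 Complex.I_ne_zero
    have hpi : 0 < 2 * Real.pi := by positivity
    have h5 : ψ 0 < ψ (2 * Real.pi) := hψmono hpi
    have h6 : 0 < n := by
      by_contra h
      push Not at h
      have : (n : ℝ) ≤ 0 := by exact_mod_cast h
      nlinarith
    have h7 : n = 1 := by
      by_contra h
      have h8 : (2:ℤ) ≤ n := by omega
      have h8' : (2:ℝ) ≤ n := by exact_mod_cast h8
      have h9 : ψ 0 + 2 * Real.pi ∈ Ioo (ψ 0) (ψ (2 * Real.pi)) := by
        constructor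
        · linarith
        · rw [h4]
          nlinarith
      obtain ⟨t, ht, ht'⟩ := intermediate_value_Ioo hpi.le hψs.continuous.continuousOn h9
      have h10 : F (z t) = F (z 0) := by
        rw [hlift, hlift, ht']
        push_cast
        rw [add_mul, Complex.exp_add, Complex.exp_two_pi_mul_I, mul_one]
      have h11 := hinj (circ_mem hη (hzn t)) (circ_mem hη (hzn 0)) h10
      simp only [hz] at h11
      have hs' : (s : ℂ) ≠ 0 := by exact_mod_cast hs.ne'
      have h12 := mul_left_cancel₀ hs' h11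
      obtain ⟨m, hm⟩ := Complex.exp_eq_exp_iff_exists_int.1 h12
      have h13 : t = m * (2 * Real.pi) := by
        have h7 : ((t : ℂ) - ((m * (2 * Real.pi) : ℝ) : ℂ)) * Complex.I = 0 := by
          push_cast at hm ⊢
          linear_combination hm
        rcases mul_eq_zero.1 h7 with h8 | h8
        · exact_mod_cast sub_eq_zero.1 h8
        · exact absurd h8 Complex.I_ne_zero
      obtain ⟨ht1, ht2⟩ := ht
      rw [h13] at ht1 ht2
      have h14 : (0:ℝ) < m := by
        by_contra h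
        push Not at h
        nlinarith
      have h15 : (m:ℝ) < 1 := by
        by_contra h
        push Not at h
        nlinarith
      have h16 : 0 < m := by exact_mod_cast h14
      have h17 : m < 1 := by exact_mod_cast h15
      omega
    intro θ
    have h8 := h2 θ
    rw [h4, h7] at h8
    push_cast at h8
    linarith
  refine ⟨fun θ => ψ θ - θ, hψs.sub contDiff_id, ?_, ?_, ?_⟩
  · intro θ
    show ψ (θ + 2 * Real.pi) - (θ + 2 * Real.pi) = ψ θ - θ
    rw [hper]
    ring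
  · intro θ
    have h1 : HasDerivAt (fun θ => ψ θ - θ) (q θ - 1) θ := (hψd θ).sub (hasDerivAt_id θ)
    rw [h1.deriv]
    linarith [hqpos θ]
  · intro θ
    have h1 := hlift θ
    rw [show θ + (ψ θ - θ) = ψ θ by ring]
    exact h1

end lift

/-! ### Part E: assembly -/

/-- a diffeomorphism of the plane which fixes a circle pointwise, fixes `0` and the points outside a
large disc maps the disc onto itself -/
theorem disc_bij {Φ : ℂ → ℂ} {s R : ℝ} (hs : 0 < s) (hR : s < R) (hb : Bijective Φ)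
    (hc : Continuous Φ) (h0 : Φ 0 = 0) (hcirc : ∀ x, ‖x‖ = s → Φ x = x)
    (hout : ∀ x, R ≤ ‖x‖ → Φ x = x) : BijOn Φ (ball 0 s) (ball 0 s) := by
  have hne : ∀ x, ‖x‖ ≠ s → ‖Φ x‖ ≠ s := by
    intro x hx h
    have h1 := hcirc (Φ x) h
    have h2 := hb.1 h1
    rw [h2] at h
    exact hx h
  have hray : ∀ (x : ℂ) (a b : ℝ), 0 ≤ a → a ≤ b → (∀ t ∈ Icc a b, t * ‖x‖ ≠ s) →
      s ∉ Icc ‖Φ ((a : ℂ) * x)‖ ‖Φ ((b : ℂ) * x)‖ := by
    intro x a b ha hab hav hmem
    have hcont : ContinuousOn (fun t : ℝ => ‖Φ ((t : ℂ) * x)‖) (Icc a b) := by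
      apply Continuous.continuousOn
      fun_prop
    obtain ⟨t, ht, ht'⟩ := intermediate_value_Icc hab hcont hmem
    have h1 := hav t ht
    refine hne ((t : ℂ) * x) ?_ ht'
    rw [norm_mul, Complex.norm_real, Real.norm_eq_abs, abs_of_nonneg (ha.trans ht.1)]
    exact h1
  have hin : ∀ x, ‖x‖ < s → ‖Φ x‖ < s := by
    intro x hx
    by_contra h
    push Not at h
    have h1 := hray x 0 1 le_rfl zero_le_one (by
      intro t ht
      have h2 : t * ‖x‖ ≤ 1 * ‖x‖ := by
        have := ht.2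
        gcongr
      rw [one_mul] at h2
      exact (h2.trans_lt hx).ne)
    apply h1
    simp only [Complex.ofReal_zero, zero_mul, Complex.ofReal_one, one_mul, h0, norm_zero]
    exact ⟨hs.le, h⟩
  have hex : ∀ x, s < ‖x‖ → s < ‖Φ x‖ := by
    intro x hx
    by_contra h
    push Not at h
    have hx0 : 0 < ‖x‖ := hs.trans hx
    set b := max 1 (R / ‖x‖) with hbdef
    have hb1 : 1 ≤ b := le_max_left _ _
    have hbR : R ≤ b * ‖x‖ := by
      have := le_max_right 1 (R / ‖x‖)
      rw [← hbdef, div_le_iff₀ hx0] at this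
      exact this
    have h1 := hray x 1 b zero_le_one hb1 (by
      intro t ht
      have h2 : 1 * ‖x‖ ≤ t * ‖x‖ := by
        have := ht.1
        gcongr
      rw [one_mul] at h2
      exact (hx.trans_le h2).ne')
    apply h1
    have h3 : ‖((b : ℝ) : ℂ) * x‖ = b * ‖x‖ := by
      rw [norm_mul, Complex.norm_real, Real.norm_eq_abs, abs_of_nonneg (by linarith)]
    rw [hout ((b : ℂ) * x) (by rw [h3]; exact hbR), h3]
    simp only [Complex.ofReal_one, one_mul]
    exact ⟨h, by linarith⟩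
  refine ⟨fun x hx => ?_, hb.1.injOn, fun y hy => ?_⟩
  · rw [mem_ball_zero_iff] at hx ⊢
    exact hin x hx
  · rw [mem_ball_zero_iff] at hy
    obtain ⟨x, rfl⟩ := hb.2 y
    refine ⟨x, ?_, rfl⟩
    rw [mem_ball_zero_iff]
    by_contra h
    push Not at h
    rcases h.lt_or_eq with h1 | h1
    · have := hex x h1
      linarith
    · have h2 := hcirc x h1.symm
      rw [h2] at hy
      linarith

theorem det_comp (L M : ℂ →L[ℝ] ℂ) : (L.comp M).det = L.det * M.det :=
  LinearMap.det_comp (L : ℂ →ₗ[ℝ] ℂ) (M : ℂ →ₗ[ℝ] ℂ)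

theorem main : S_MOD → S_DISC := by
  intro hmod F s η hη hηs hF hinj hc hin
  have hs : 0 < s := hη.trans hηs
  obtain ⟨p, hp, hper, hd, hlift⟩ := exists_lift hη hηs hF hinj hc hin
  have hAs := A0_smooth hs hp hper
  have hAb := A0_bij hs hp hper hd
  have hAd := A0_det hs hp hper hd
  obtain ⟨B, hB1, hB2, hBs⟩ := inv_smooth hAs hAb hAd
  -- `A0 = F` on the circle
  have hAF : ∀ x : ℂ, ‖x‖ = s → A0 s p x = F x := by
    intro x hx
    have h1 := polar x
    rw [hx] at h1
    rw [h1, A0_polar hper hs, hlift]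
    have h2 : Real.smoothTransition (4 * s ^ 2 / s ^ 2 - 1) = 1 := by
      apply Real.smoothTransition.one_of_one_le
      rw [mul_div_assoc, div_self (by positivity)]
      norm_num
    rw [h2, div_self hs.ne', one_mul]
    simp
  set G : ℂ → ℂ := fun x => B (F x) with hG
  have hGc : ∀ x : ℂ, ‖x‖ = s → G x = x := by
    intro x hx
    simp only [hG]
    rw [← hAF x hx, hB1]
  have hGn : ∀ x : ℂ, ‖G x‖ = s * ‖F x‖ := by
    intro x
    have h1 := norm_A0 hs p (G x)
    simp only [hG] at h1 ⊢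
    rw [hB2] at h1
    rw [h1]
    field_simp
  have hAnne : ∀ x ∈ An s η, x ≠ 0 := by
    rintro x hx rfl
    have := hx.1
    rw [norm_zero] at this
    linarith
  have hFs : ContDiffOn ℝ ∞ F (An s η) := (hF.contDiffOn (isOpen_An s η)).restrict_scalars ℝ
  have hGs : ContDiffOn ℝ ∞ G (An s η) := hBs.comp_contDiffOn hFs
  have hGxs : ContDiffOn ℝ ∞ (fun x => G x / x) (An s η) := by
    simp only [div_eq_mul_inv]
    exact hGs.mul (contDiffOn_id.inv hAnne)
  set U : Set ℂ := An s η ∩ (fun x => G x / x) ⁻¹' Complex.slitPlane with hU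
  have hUo : IsOpen U := hGxs.continuousOn.isOpen_inter_preimage (isOpen_An s η)
    Complex.isOpen_slitPlane
  have hUc : ∀ x : ℂ, ‖x‖ = s → x ∈ U := by
    intro x hx
    refine ⟨circ_mem hη hx, ?_⟩
    show G x / x ∈ Complex.slitPlane
    rw [hGc x hx, div_self (circ_ne hs hx)]
    exact Complex.one_mem_slitPlane
  obtain ⟨δ, hδ, hδη, hδs, hδU⟩ := tube hs hUo hUc hη
  set ℓ : ℂ → ℂ := fun x => Complex.log (G x / x) with hℓ
  have hℓs : ContDiffOn ℝ ∞ ℓ (An s δ) := by
    intro x hx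
    have hxU := hδU hx
    have h1 : ContDiffAt ℝ ∞ (fun x => G x / x) x :=
      hGxs.contDiffAt ((isOpen_An s η).mem_nhds hxU.1)
    have h2 : ContDiffAt ℝ ∞ Complex.log (G x / x) :=
      (Complex.contDiffAt_log hxU.2).restrict_scalars ℝ
    exact (ContDiffAt.comp (f := fun x : ℂ => G x / x) x h2 h1).contDiffWithinAt
  have hℓd : ∀ x : ℂ, ‖x‖ = s → DifferentiableAt ℝ ℓ x := by
    intro x hx
    exact (hℓs.contDiffAt ((isOpen_An s δ).mem_nhds (circ_mem hδ hx))).differentiableAt (by simp)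
  have hℓ0 : ∀ x : ℂ, ‖x‖ = s → ℓ x = 0 := by
    intro x hx
    simp only [hℓ]
    rw [hGc x hx, div_self (circ_ne hs hx), Complex.log_one]
  have hℓrot : ∀ x : ℂ, ‖x‖ = s → fderiv ℝ ℓ x (Complex.I * x) = 0 := by
    intro x hx
    refine fderiv_curve (hℓd x hx) (by simp) (rot_curve x) ?_
    have h1 : (fun t : ℝ => ℓ (x * Complex.exp (t * Complex.I))) = fun _ => 0 := by
      ext t
      exact hℓ0 _ (by rw [norm_mul, Complex.norm_exp_ofReal_mul_I, mul_one, hx])
    rw [h1]
    exact hasDerivAt_const _ _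
  have hℓrad : ∀ x : ℂ, ‖x‖ = s → 1 + (fderiv ℝ ℓ x x).re = (x * deriv F x / F x).re := by
    intro x hx
    have h1 : HasDerivAt (fun t : ℝ => (ℓ ((Real.exp t : ℂ) * x)).re) (fderiv ℝ ℓ x x).re 0 := by
      have h2 : HasFDerivAt ℓ (fderiv ℝ ℓ x) ((Real.exp (0:ℝ) : ℂ) * x) := by
        simpa using (hℓd x hx).hasFDerivAt
      have h3 := h2.comp_hasDerivAt (0:ℝ) (scale_curve x)
      exact (Complex.reCLM.hasFDerivAt.comp_hasDerivAt (0:ℝ) h3)
    have h2 : HasDerivAt (fun t : ℝ => Real.log (‖F ((Real.exp t : ℂ) * x)‖ ^ 2) / 2 - t)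
        ((x * deriv F x / F x).re - 1) 0 := by
      have h3 := (F_scale hη hF hx).norm_sq
      simp only [Real.exp_zero, Complex.ofReal_one, one_mul] at h3
      have hcomm : deriv F x * x * (starRingEnd ℂ) (F x)
          = (starRingEnd ℂ) (F x) * (deriv F x * x) := mul_comm _ _
      rw [Complex.inner, hcomm, ← Q_conj (hc x hx)] at h3
      have h4 : ‖F ((Real.exp (0:ℝ) : ℂ) * x)‖ ^ 2 ≠ 0 := by
        simp only [Real.exp_zero, Complex.ofReal_one, one_mul]
        rw [hc x hx]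
        norm_num
      have h5 := ((h3.log h4).div_const 2).sub (hasDerivAt_id (0:ℝ))
      refine h5.congr_deriv ?_
      simp only [Real.exp_zero, Complex.ofReal_one, one_mul]
      rw [hc x hx]
      ring
    have h3 : (fun t : ℝ => (ℓ ((Real.exp t : ℂ) * x)).re) =ᶠ[𝓝 0]
        fun t : ℝ => Real.log (‖F ((Real.exp t : ℂ) * x)‖ ^ 2) / 2 - t := by
      have h4 : ∀ᶠ t in 𝓝 (0:ℝ), ((Real.exp t : ℂ) * x) ∈ U := by
        have h5 : Continuous fun t : ℝ => ((Real.exp t : ℝ) : ℂ) * x := by fun_prop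
        have h6 := h5.tendsto 0
        rw [Real.exp_zero, Complex.ofReal_one, one_mul] at h6
        exact h6.eventually (hUo.mem_nhds (hUc x hx))
      filter_upwards [h4] with t ht
      set y := ((Real.exp t : ℝ) : ℂ) * x with hy
      have hyn : ‖y‖ = Real.exp t * s := by
        rw [hy, norm_mul, Complex.norm_real, Real.norm_eq_abs, abs_of_pos (Real.exp_pos t), hx]
      have hy0 : G y / y ≠ 0 := Complex.slitPlane_ne_zero ht.2
      have hFy : ‖F y‖ ≠ 0 := by
        intro h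
        apply hy0
        have h7 := hGn y
        rw [h, mul_zero, norm_eq_zero] at h7
        rw [h7, zero_div]
      simp only [hℓ]
      rw [Complex.log_re, norm_div, hGn, hyn, Real.log_pow, Real.log_div (by positivity)
        (by positivity), Real.log_mul hs.ne' hFy, Real.log_mul (Real.exp_pos t).ne' hs.ne',
        Real.log_exp]
      push_cast
      ring
    have h4 := (h2.congr_of_eventuallyEq h3).unique h1
    linarith
  -- compactness of the circle
  have hK : IsCompact (sphere (0:ℂ) s) := isCompact_sphere _ _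
  have hKne : (sphere (0:ℂ) s).Nonempty := ⟨(s : ℂ), by
    rw [mem_sphere_zero_iff_norm, Complex.norm_real, Real.norm_eq_abs, abs_of_pos hs]⟩
  obtain ⟨x₀, hx₀, hmin⟩ := hK.exists_isMinOn hKne (Q_cont hη hF hc)
  set c := (x₀ * deriv F x₀ / F x₀).re with hcdef
  have hcpos : 0 < c := Q_pos hη hηs hF hinj hc hin (by simpa using hx₀)
  have hKsub : sphere (0:ℂ) s ⊆ An s δ := fun x hx => circ_mem hδ (by simpa using hx)
  obtain ⟨C, hC⟩ := hK.exists_bound_of_continuousOn (f := fun x => fderiv ℝ ℓ x x)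
    (((hℓs.continuousOn_fderiv_of_isOpen (isOpen_An s δ) (by simp)).mono hKsub).clm_apply
      continuousOn_id)
  obtain ⟨ε, hε, hmod'⟩ := hmod s c C δ hs hcpos hδ hδs
  obtain ⟨Φ, hΦb, hΦs, hΦd, hΦo, ρ, hρ, hρδ, hΦℓ⟩ := hmod' ℓ δ hδ hℓs (by
    intro x hx
    refine ⟨?_, ?_, hC x (by simpa using hx), ?_⟩
    · rw [hℓ0 x hx, norm_zero]; exact hε.le
    · rw [hℓrot x hx, norm_zero]; exact hε.le
    · rw [hℓrad x hx]
      exact hmin (by simpa using hx : x ∈ sphere (0:ℂ) s))
  have hΦ0 : Φ 0 = 0 := by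
    apply hΦo
    intro h
    have := h.1
    rw [norm_zero] at this
    linarith
  have hΦc : ∀ x, ‖x‖ = s → Φ x = x := by
    intro x hx
    rw [hΦℓ x (circ_mem hρ hx), hℓ0 x hx, Complex.exp_zero, mul_one]
  have hΦout : ∀ x, s + δ ≤ ‖x‖ → Φ x = x := by
    intro x hx
    apply hΦo
    intro h
    have := h.2
    linarith
  have hdisc := disc_bij hs (show s < s + δ by linarith) hΦb hΦs.continuous hΦ0 hΦc hΦout
  refine ⟨fun x => A0 s p (Φ x), ρ, hρ, hρδ.trans hδη, ?_, ?_, ?_, ?_⟩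
  · have h1 : BijOn (A0 s p) (ball 0 s) (ball 0 1) := by
      refine ⟨fun x hx => ?_, hAb.1.injOn, fun y hy => ?_⟩
      · rw [mem_ball_zero_iff] at hx ⊢
        rw [norm_A0 hs, div_lt_one hs]
        exact hx
      · rw [mem_ball_zero_iff] at hy
        obtain ⟨x, rfl⟩ := hAb.2 y
        refine ⟨x, ?_, rfl⟩
        rw [norm_A0 hs, div_lt_one hs] at hy
        rwa [mem_ball_zero_iff]
    exact h1.comp hdisc
  · exact (hAs.comp hΦs).contDiffOn
  · intro x _
    have h1 : HasFDerivAt (fun x => A0 s p (Φ x))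
        ((fderiv ℝ (A0 s p) (Φ x)).comp (fderiv ℝ Φ x)) x :=
      ((hAs.differentiable (by simp)).differentiableAt.hasFDerivAt).comp x
        ((hΦs.differentiable (by simp)).differentiableAt.hasFDerivAt)
    rw [h1.fderiv, det_comp]
    exact mul_pos (hAd _) (hΦd _)
  · intro x hx1 hx2
    have hxρ : x ∈ An s ρ := ⟨hx1, by linarith⟩
    have hxδ : x ∈ An s δ := ⟨by linarith, by linarith⟩
    have hxU := hδU hxδ
    show A0 s p (Φ x) = F x
    have hx0 : x ≠ 0 := hAnne x hxU.1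
    have h1 : Φ x = G x := by
      rw [hΦℓ x hxρ]
      simp only [hℓ]
      rw [Complex.exp_log (Complex.slitPlane_ne_zero hxU.2)]
      field_simp
    rw [h1]
    exact hB2 _

end Pool.Agent.N550.KH.Disc
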