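import Pool.Agent.N550.KH.Stm

/-!
# KH/EXT: smooth extension of functions from compact pieces of embedded discs
-/

set_option autoImplicit false

open Set Filter Topology Metric Function MeasureTheory
open scoped Manifold ContDiff

noncomputable section

namespace Pool.Agent.N550.KH.Ext

open Pool.Agent.Y522

/-- a smooth left inverse near a point of an immersed disc -/
theorem local_inv {m k : ℕ} {M : Type} [TopologicalSpace M] [ChartedSpace (E (m + k)) M]
    [IsManifold (𝓡 (m + k)) ∞ M] (j : E m → M) (hj : ContMDiff (𝓡 m) (𝓡 (m + k)) ∞ j) (s₀ : E m)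
    (hd : Injective (mfderiv (𝓡 m) (𝓡 (m + k)) j s₀)) :
    ∃ (π : M → E m) (U : Set M) (W : Set (E m)), U ∈ 𝓝 (j s₀) ∧ W ∈ 𝓝 s₀ ∧
      ContMDiffOn (𝓡 (m + k)) (𝓡 m) ∞ π U ∧ ∀ s ∈ W, π (j s) = s := by
  set φ := extChartAt (𝓡 (m + k)) (j s₀) with hφ
  have hmd : MDifferentiableAt (𝓡 m) (𝓡 (m + k)) j s₀ := (hj s₀).mdifferentiableAt (by simp)
  have h1 := hmd.hasMFDerivAt
  set D : E m →L[ℝ] E (m + k) := mfderiv (𝓡 m) (𝓡 (m + k)) j s₀ with hD
  have hF : HasFDerivAt (fun s => φ (j s)) D s₀ := by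
    have h2 : HasFDerivWithinAt (writtenInExtChartAt (𝓡 m) (𝓡 (m + k)) s₀ j) D
        (range (𝓡 m)) (extChartAt (𝓡 m) s₀ s₀) := h1.2
    have he : range (𝓡 m) = univ := by simp
    rw [he, hasFDerivWithinAt_univ, writtenInExtChartAt, extChartAt_model_space_eq_id] at h2
    exact h2
  have hker : LinearMap.ker (D : E m →ₗ[ℝ] E (m + k)) = ⊥ := LinearMap.ker_eq_bot.2 hd
  obtain ⟨L₀, hL₀⟩ := LinearMap.exists_leftInverse_of_injective (D : E m →ₗ[ℝ] E (m + k)) hker
  set L : E (m + k) →L[ℝ] E m := LinearMap.toContinuousLinearMap L₀ with hL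
  have hLD : L.comp D = ((ContinuousLinearEquiv.refl ℝ (E m) : E m ≃L[ℝ] E m) :
      E m →L[ℝ] E m) := by
    refine ContinuousLinearMap.ext fun v => ?_
    exact LinearMap.congr_fun hL₀ v
  have hG : HasFDerivAt (fun s => L (φ (j s)))
      ((ContinuousLinearEquiv.refl ℝ (E m) : E m ≃L[ℝ] E m) : E m →L[ℝ] E m) s₀ := by
    have h3 := L.hasFDerivAt.comp s₀ hF
    rw [hLD] at h3
    exact h3
  have hopen : IsOpen (j ⁻¹' φ.source) :=
    (isOpen_extChartAt_source (j s₀)).preimage hj.continuous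
  have hsm : ∀ᶠ s in 𝓝 s₀, ContDiffAt ℝ ∞ (fun s => L (φ (j s))) s := by
    filter_upwards [hopen.mem_nhds (mem_extChartAt_source (j s₀))] with s hs
    have h3 : ContMDiffAt (𝓡 (m + k)) 𝓘(ℝ, E (m + k)) ∞ φ (j s) :=
      contMDiffAt_extChartAt' (by simpa [hφ] using hs)
    have h4 := h3.comp s (hj s)
    exact L.contDiff.contDiffAt.comp s (contMDiffAt_iff_contDiffAt.1 h4)
  obtain ⟨Φ, hx, heq⟩ := LD_of_contDiffAt hsm _ hG
  have hcL : ContinuousOn (fun x => L (φ x)) φ.source :=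
    L.continuous.comp_continuousOn (continuousOn_extChartAt (j s₀))
  refine ⟨fun x => Φ.symm (L (φ x)), φ.source ∩ (fun x => L (φ x)) ⁻¹' Φ.target, Φ.source,
    ?_, Φ.open_source.mem_nhds hx, ?_, ?_⟩
  · have ho : IsOpen (φ.source ∩ (fun x => L (φ x)) ⁻¹' Φ.target) :=
      hcL.isOpen_inter_preimage (isOpen_extChartAt_source (j s₀)) Φ.open_target
    refine ho.mem_nhds ⟨mem_extChartAt_source (j s₀), ?_⟩
    have h5 : L (φ (j s₀)) = Φ.toPartialEquiv s₀ := heq hx
    change L (φ (j s₀)) ∈ Φ.target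
    rw [h5]
    exact Φ.map_source hx
  · have h6 : ContMDiffOn (𝓡 (m + k)) 𝓘(ℝ, E (m + k)) ∞ φ φ.source := by
      intro x hx'
      exact (contMDiffAt_extChartAt' (by simpa [hφ] using hx')).contMDiffWithinAt
    have h7 : ContMDiffOn (𝓡 (m + k)) 𝓘(ℝ, E m) ∞ (fun x => L (φ x)) φ.source :=
      L.contMDiff.comp_contMDiffOn h6
    have h8 : ContMDiffOn (𝓡 m) (𝓡 m) ∞ Φ.symm Φ.target := Φ.contMDiffOn_invFun
    exact h8.comp (h7.mono inter_subset_left) (fun x hx' => hx'.2)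
  · intro s hs
    have h5 : L (φ (j s)) = Φ.toPartialEquiv s := heq hs
    change Φ.symm (L (φ (j s))) = s
    rw [h5]
    exact Φ.left_inv hs

theorem main : S_EXT := by
  intro m k M _ _ _ _ _ j hji hj hd θ hθ R
  have hcpt : IsCompact (j '' closedBall 0 R) := (isCompact_closedBall 0 R).image hj.continuous
  let t : M → Set (E m) := fun x => ⋂ (s : E m), ⋂ (_ : ‖s‖ ≤ R), ⋂ (_ : j s = x), {θ s}
  have ht : ∀ x y, y ∈ t x ↔ ∀ s : E m, ‖s‖ ≤ R → j s = x → y = θ s := by
    intro x y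
    simp [t]
  obtain ⟨g, hg⟩ := exists_contMDiffMap_forall_mem_convex_of_local (𝓡 (m + k)) (n := ⊤) (t := t)
    (fun x => convex_iInter fun s => convex_iInter fun _ => convex_iInter fun _ =>
      convex_singleton _) (by
    intro x
    by_cases hx : x ∈ j '' closedBall 0 R
    · obtain ⟨s₀, hs₀, rfl⟩ := hx
      obtain ⟨π, U, W, hU, hW, hπ, hπj⟩ := local_inv j hj s₀ (hd s₀)
      have hc2 : IsCompact (j '' (closedBall 0 R \ interior W)) :=
        ((isCompact_closedBall 0 R).diff isOpen_interior).image hj.continuous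
      have hn : (j '' (closedBall 0 R \ interior W))ᶜ ∈ 𝓝 (j s₀) := by
        refine hc2.isClosed.isOpen_compl.mem_nhds ?_
        rintro ⟨s, hs, hss⟩
        rw [hji hss] at hs
        exact hs.2 (mem_interior_iff_mem_nhds.2 hW)
      refine ⟨U ∩ (j '' (closedBall 0 R \ interior W))ᶜ, inter_mem hU hn,
        fun y => θ (π y), ?_, ?_⟩
      · exact hθ.contMDiff.comp_contMDiffOn (hπ.mono inter_subset_left)
      · intro y hy
        rw [ht]
        intro s hs hsy
        have hsW : s ∈ W := by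
          by_contra hn'
          exact hy.2 ⟨s, ⟨by simpa using hs, fun h => hn' (interior_subset h)⟩, hsy⟩
        change θ (π y) = θ s
        rw [← hsy, hπj s hsW]
    · refine ⟨(j '' closedBall 0 R)ᶜ, hcpt.isClosed.isOpen_compl.mem_nhds hx, fun _ => 0,
        contMDiffOn_const, fun y hy => ?_⟩
      rw [ht]
      intro s hs hsy
      exact absurd ⟨s, by simpa using hs, hsy⟩ hy)
  refine ⟨g, g.contMDiff, fun s hs => ?_⟩
  exact (ht _ _).1 (hg (j s)) s hs rfl

end Pool.Agent.N550.KH.Ext
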