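import Pool.Agent.N550.KH.Stm
import Pool.Agent.Y522.Tools

/-!
# Project KH (helper550), part HND: the core disc of a 2-handle (helper216)
-/

set_option autoImplicit false

open Set Filter Topology Metric Function MeasureTheory
open scoped Manifold ContDiff

noncomputable section

namespace Pool.Agent.N550.KH.Hnd

open Pool.Agent.Y522 Pool.Agent.N550.KH

/-- the inclusion of the first coordinates -/
def jl (m k : ℕ) : E m →L[ℝ] E (m + k) :=
  LinearMap.toContinuousLinearMap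
    { toFun := fun u => jn m k u 0
      map_add' := fun x y => by
        ext i
        refine Fin.addCases (fun i => ?_) (fun i => ?_) i <;> simp [jn]
      map_smul' := fun c x => by
        ext i
        refine Fin.addCases (fun i => ?_) (fun i => ?_) i <;> simp [jn] }

theorem jl_apply (m k : ℕ) (u : E m) : jl m k u = jn m k u 0 := rfl

theorem eq_zero_of {m k : ℕ} {z : E (m + k)} (hu : up m k z = 0) (hv : vp m k z = 0) : z = 0 := by
  ext i
  refine Fin.addCases (fun i => ?_) (fun i => ?_) i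
  · have := congrArg (fun w : E m => w i) hu
    simpa using this
  · have := congrArg (fun w : E k => w i) hv
    simpa using this

theorem norm_sq (m k : ℕ) (z : E (m + k)) : ‖z‖ ^ 2 = ‖up m k z‖ ^ 2 + ‖vp m k z‖ ^ 2 := by
  rw [EuclideanSpace.norm_sq_eq, EuclideanSpace.norm_sq_eq, EuclideanSpace.norm_sq_eq,
    Fin.sum_univ_add]
  simp

theorem isCompact_Q (m k : ℕ) (a b : ℝ) :
    IsCompact {z : E (m + k) | ‖up m k z‖ ≤ a ∧ ‖vp m k z‖ ≤ b} := by
  refine Metric.isCompact_of_isClosed_isBounded ?_ ?_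
  · exact (isClosed_le (up m k).continuous.norm continuous_const).inter
      (isClosed_le (vp m k).continuous.norm continuous_const)
  · refine (Metric.isBounded_closedBall (x := (0 : E (m + k))) (r := |a| + |b|)).subset ?_
    rintro z ⟨h1, h2⟩
    rw [mem_closedBall_zero_iff]
    have h3 := norm_sq m k z
    have h4 : ‖up m k z‖ ≤ |a| := h1.trans (le_abs_self a)
    have h5 : ‖vp m k z‖ ≤ |b| := h2.trans (le_abs_self b)
    have h6 := norm_nonneg (up m k z)
    have h7 := norm_nonneg (vp m k z)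
    refine abs_le_of_sq_le_sq' ?_ (by positivity) |>.2
    rw [h3]
    nlinarith

theorem ld_H {m k : ℕ} {M : Type} [TopologicalSpace M] [ChartedSpace (E (m + k)) M]
    [IsManifold (𝓡 (m + k)) ∞ M] (f : M → E (m + k)) (j : E m → M) (z : E m)
    (hj : ContMDiff (𝓡 m) (𝓡 (m + k)) ∞ j)
    (hd : Injective (mfderiv (𝓡 m) (𝓡 (m + k)) j z)) (hf : LD (m + k) f (j z))
    (hv : ∀ t, vp m k (f (j t)) = 0) : LD m (fun t => up m k (f (j t))) z := by
  have hg : ∀ᶠ y in 𝓝 z, ContDiffAt ℝ ∞ (f ∘ j) y := by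
    filter_upwards [hj.continuous.continuousAt.eventually hf.eventually] with y hy
    exact contMDiffAt_iff_contDiffAt.1 (hy.contMDiffAt.comp y hj.contMDiffAt)
  have hgz := hg.self_of_nhds
  have hgd : HasFDerivAt (f ∘ j) (fderiv ℝ (f ∘ j) z) z :=
    (hgz.differentiableAt (by simp)).hasFDerivAt
  have hinj : Injective (fderiv ℝ (f ∘ j) z) := by
    have h1 : fderiv ℝ (f ∘ j) z = mfderiv (𝓡 m) (𝓡 (m + k)) (f ∘ j) z :=
      mfderiv_eq_fderiv.symm
    have h2 : mfderiv (𝓡 m) (𝓡 (m + k)) (f ∘ j) z =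
        (mfderiv (𝓡 (m + k)) (𝓡 (m + k)) f (j z)).comp (mfderiv (𝓡 m) (𝓡 (m + k)) j z) :=
      mfderiv_comp z hf.mdifferentiableAt (hj.mdifferentiableAt (by simp))
    intro a b hab
    rw [h1, h2] at hab
    exact hd (hf.mfderiv_injective hab)
  have hH : HasFDerivAt (fun t => up m k (f (j t))) ((up m k).comp (fderiv ℝ (f ∘ j) z)) z :=
    (up m k).hasFDerivAt.comp z hgd
  have hV : (vp m k).comp (fderiv ℝ (f ∘ j) z) = 0 := by
    have h1 : HasFDerivAt (fun t => vp m k (f (j t))) ((vp m k).comp (fderiv ℝ (f ∘ j) z)) z :=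
      (vp m k).hasFDerivAt.comp z hgd
    have h2 : HasFDerivAt (fun t => vp m k (f (j t))) (0 : E m →L[ℝ] E k) z := by
      simp only [hv]
      exact hasFDerivAt_const _ _
    exact h1.unique h2
  have hAinj : Injective ((up m k).comp (fderiv ℝ (f ∘ j) z)) := by
    rw [injective_iff_map_eq_zero]
    intro a ha
    have h1 : fderiv ℝ (f ∘ j) z a = 0 := by
      refine eq_zero_of ?_ ?_
      · exact ha
      · exact congrArg (fun L => L a) hV
    exact (injective_iff_map_eq_zero _).1 hinj a h1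
  have hAsurj : Surjective ((up m k).comp (fderiv ℝ (f ∘ j) z)) :=
    (LinearMap.injective_iff_surjective (f := (((up m k).comp (fderiv ℝ (f ∘ j) z) :
      E m →L[ℝ] E m) : E m →ₗ[ℝ] E m))).1 hAinj
  set A : E m ≃L[ℝ] E m := ContinuousLinearEquiv.ofBijective
    ((up m k).comp (fderiv ℝ (f ∘ j) z)) (LinearMap.ker_eq_bot.2 hAinj)
    (LinearMap.range_eq_top.2 hAsurj) with hA
  refine LD_of_contDiffAt ?_ A ?_
  · filter_upwards [hg] with y hy
    exact (up m k).contDiff.contDiffAt.comp y hy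
  · rw [hA, ContinuousLinearEquiv.coe_ofBijective]
    exact hH

section main

variable {k : ℕ} {M : Type} [TopologicalSpace M] [CompactSpace M] [T2Space M]
  [ChartedSpace (E (2 + k)) M] [IsManifold (𝓡 (2 + k)) ∞ M]
  {F : OpenPartialHomeomorph M (E (2 + k))}

omit [CompactSpace M] [T2Space M] [IsManifold (𝓡 (2 + k)) ∞ M] in
theorem exists_r0 (hT : F.target = univ)
    (h2 : ∀ x ∈ F.source, vp 2 k (F x) = 0 → 1 ≤ ‖up 2 k (F x)‖ → LD (2 + k) F x) :
    ∃ r₀ : ℝ, 0 < r₀ ∧ r₀ < 1 ∧ ∀ x ∈ F.source, vp 2 k (F x) = 0 → r₀ < ‖up 2 k (F x)‖ →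
      LD (2 + k) F x := by
  have hsc : Continuous F.symm := by
    rw [← continuousOn_univ, ← hT]
    exact F.continuousOn_symm
  have hgc : Continuous fun w : E 2 => F.symm (jl 2 k w) := hsc.comp (jl 2 k).continuous
  have hmem : ∀ w : E 2, F.symm (jl 2 k w) ∈ F.source := fun w =>
    F.map_target (by rw [hT]; trivial)
  have hF : ∀ w : E 2, F (F.symm (jl 2 k w)) = jl 2 k w := fun w =>
    F.right_inv (by rw [hT]; trivial)
  have hopen : IsOpen {w : E 2 | LD (2 + k) F (F.symm (jl 2 k w))} := by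
    rw [isOpen_iff_mem_nhds]
    intro w hw
    exact hgc.continuousAt.eventually (LD.eventually hw)
  have hcpt : IsCompact (closedBall (0 : E 2) 1 \ {w : E 2 | LD (2 + k) F (F.symm (jl 2 k w))}) :=
    (isCompact_closedBall _ _).diff hopen
  have hlt : ∀ w ∈ closedBall (0 : E 2) 1 \ {w : E 2 | LD (2 + k) F (F.symm (jl 2 k w))},
      ‖w‖ < 1 := by
    rintro w ⟨hw1, hw2⟩
    rw [mem_closedBall_zero_iff] at hw1
    refine lt_of_le_of_ne hw1 fun h => hw2 ?_
    refine h2 _ (hmem w) ?_ ?_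
    · rw [hF, jl_apply, vp_jn]
    · rw [hF, jl_apply, up_jn, h]
  obtain ⟨r, hr0, hr1, hr⟩ : ∃ r : ℝ, 0 < r ∧ r < 1 ∧
      ∀ w ∈ closedBall (0 : E 2) 1 \ {w : E 2 | LD (2 + k) F (F.symm (jl 2 k w))}, ‖w‖ ≤ r := by
    rcases (closedBall (0 : E 2) 1 \ {w : E 2 | LD (2 + k) F (F.symm (jl 2 k w))}).eq_empty_or_nonempty
      with he | hne
    · rw [he]
      exact ⟨1 / 2, by norm_num, by norm_num, fun w hw => absurd hw (notMem_empty w)⟩
    · obtain ⟨w₀, hw₀, hmax⟩ := hcpt.exists_isMaxOn hne continuous_norm.continuousOn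
      refine ⟨max ‖w₀‖ (1 / 2), ?_, ?_, fun w hw => (hmax hw).trans (le_max_left _ _)⟩
      · exact lt_of_lt_of_le (by norm_num) (le_max_right _ _)
      · exact max_lt (hlt w₀ hw₀) (by norm_num)
  refine ⟨r, hr0, hr1, fun x hx hv hu => ?_⟩
  by_cases h1 : 1 ≤ ‖up 2 k (F x)‖
  · exact h2 x hx hv h1
  · by_contra hcon
    push Not at h1
    have hx' : F.symm (jl 2 k (up 2 k (F x))) = x := by
      rw [jl_apply, ← hv, jn_up_vp]
      exact F.left_inv hx
    have := hr (up 2 k (F x)) ⟨by rw [mem_closedBall_zero_iff]; exact h1.le, by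
      change ¬ LD (2 + k) F _
      rw [hx']
      exact hcon⟩
    linarith

end main

theorem main : S_CORE → S_A2 → S_EXT → S_JN → S_HND := by
  classical
  intro hCORE hA2 hEXT hJN k M _ _ _ _ _ F hT h1 h2
  obtain ⟨j, hje, hjc, hjd, hjr⟩ := hCORE 2 k M F hT h1
  obtain ⟨r₀, hr0, hr01, hr⟩ := exists_r0 hT h2
  have hjs : ∀ s, j s ∈ F.source ∧ vp 2 k (F (j s)) = 0 ∧ ‖up 2 k (F (j s))‖ < 2 := fun s => by
    have : j s ∈ range j := ⟨s, rfl⟩
    rw [hjr] at this
    exact this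
  have hsc : Continuous F.symm := by
    rw [← continuousOn_univ, ← hT]
    exact F.continuousOn_symm
  have hFj : Continuous fun s => F (j s) :=
    F.continuousOn.comp_continuous hje.continuous fun s => (hjs s).1
  -- the map `H`
  set H : E 2 → E 2 := fun s => up 2 k (F (j s)) with hH
  have hHc : Continuous H := (up 2 k).continuous.comp hFj
  have hFH : ∀ s, F (j s) = jn 2 k (H s) 0 := fun s => by
    rw [← (hjs s).2.1, hH, jn_up_vp]
  have hHj : ∀ s, F.symm (jl 2 k (H s)) = j s := fun s => by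
    rw [jl_apply, ← hFH]
    exact F.left_inv (hjs s).1
  have hHe : IsEmbedding H := by
    refine IsEmbedding.of_comp hHc (hsc.comp (jl 2 k).continuous) ?_
    have : (F.symm ∘ (jl 2 k)) ∘ H = j := by
      funext s
      exact hHj s
    rw [this]
    exact hje
  have hHr : range H = ball 0 2 := by
    ext w
    rw [mem_ball_zero_iff]
    constructor
    · rintro ⟨s, rfl⟩
      exact (hjs s).2.2
    · intro hw
      have h3 : F (F.symm (jn 2 k w 0)) = jn 2 k w 0 := F.right_inv (by rw [hT]; trivial)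
      have h4 : F.symm (jn 2 k w 0) ∈ range j := by
        rw [hjr]
        refine ⟨F.map_target (by rw [hT]; trivial), ?_, ?_⟩
        · rw [h3, vp_jn]
        · rw [h3, up_jn]
          exact hw
      obtain ⟨s, hs⟩ := h4
      refine ⟨s, ?_⟩
      rw [hH]
      simp only
      rw [hs, h3, up_jn]
  have hHo : IsOpenEmbedding H := ⟨hHe, by rw [hHr]; exact isOpen_ball⟩
  have hHld : ∀ z, r₀ < ‖H z‖ → LD 2 H z := fun z hz =>
    ld_H F j z hjc (hjd z) (hr _ (hjs z).1 (hjs z).2.1 hz) fun t => (hjs t).2.1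
  -- the diffeomorphism `Θ`
  set r₁ : ℝ := (r₀ + 1) / 2 with hr₁
  have hr₁1 : r₁ < 1 := by rw [hr₁]; linarith
  have hr₀₁ : r₀ < r₁ := by rw [hr₁]; linarith
  obtain ⟨Θ, hΘi, hΘd, hΘr, hΘH⟩ := hA2 H r₀ r₁ hr0 hr₀₁ (by linarith) hHo hHr hHld
  have hΘc : ContDiff ℝ ∞ Θ := contDiff_iff_contDiffAt.2 fun z => (hΘd z).contDiffAt
  have hiff : ∀ s, ‖H s‖ ≤ 1 ↔ ‖Θ s‖ ≤ 1 := by
    intro s
    constructor
    · intro h
      by_contra hcon
      push Not at hcon
      have h3 : Θ s ∈ range H := by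
        rw [hHr, ← hΘr]
        exact ⟨s, rfl⟩
      obtain ⟨s', hs'⟩ := h3
      have h4 : Θ s' = H s' := hΘH s' (by rw [hs']; linarith)
      have h5 : s' = s := hΘi (h4.trans hs')
      rw [h5] at hs'
      rw [hs'] at h
      linarith
    · intro h
      by_contra hcon
      push Not at hcon
      rw [hΘH s (by linarith)] at h
      linarith
  -- extension of `Θ`
  obtain ⟨R, hR⟩ : ∃ R : ℝ, ∀ s, ‖H s‖ ≤ 3 / 2 → ‖s‖ ≤ R := by
    have h3 : IsCompact (H ⁻¹' closedBall 0 (3 / 2)) := by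
      refine hHe.isInducing.isCompact_preimage' (isCompact_closedBall _ _) ?_
      rw [hHr]
      exact closedBall_subset_ball (by norm_num)
    obtain ⟨R, hR⟩ := h3.isBounded.exists_norm_le
    exact ⟨R, fun s hs => hR s (by
      rw [mem_preimage, mem_closedBall_zero_iff]
      exact hs)⟩
  obtain ⟨τ, hτc, hτ⟩ := hEXT 2 k M j hje.injective hjc hjd Θ hΘc R
  -- the cutoff function
  set r₂ : ℝ := (r₁ + 1) / 2 with hr₂
  have hr₂1 : r₂ < 1 := by rw [hr₂]; linarith
  have hr₁₂ : r₁ < r₂ := by rw [hr₂]; linarith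
  set r₃ : ℝ := (r₂ + 1) / 2 with hr₃
  have hr₃1 : r₃ < 1 := by rw [hr₃]; linarith
  have hr₂₃ : r₂ < r₃ := by rw [hr₃]; linarith
  let φ : ContDiffBump (0 : E 2) := ⟨r₁, r₂, by linarith, hr₁₂⟩
  have hφc : ContDiff ℝ ∞ φ := φ.contDiff
  have hφ1 : ∀ w : E 2, ‖w‖ ≤ r₁ → φ w = 1 := fun w hw =>
    φ.one_of_mem_closedBall (by rw [mem_closedBall_zero_iff]; exact hw)
  have hφ0 : ∀ w : E 2, r₂ ≤ ‖w‖ → φ w = 0 := fun w hw =>
    φ.zero_of_le_dist (by rw [dist_zero_right]; exact hw)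
  -- the formula
  set T : M → E 2 := fun x => φ (up 2 k (F x)) • τ x + (1 - φ (up 2 k (F x))) • up 2 k (F x)
    with hTdef
  have hTj : ∀ s, ‖H s‖ ≤ 3 / 2 → T (j s) = Θ s := by
    intro s hs
    have h3 : T (j s) = φ (H s) • Θ s + (1 - φ (H s)) • H s := by
      rw [hTdef, ← hτ s (hR s hs)]
    rw [h3]
    by_cases h4 : r₁ ≤ ‖H s‖
    · rw [hΘH s h4, ← add_smul]
      simp
    · push Not at h4
      rw [hφ1 _ h4.le]
      simp
  set G : M → E (2 + k) := fun x => jn 2 k (T x) (vp 2 k (F x)) with hG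
  have hGF : ∀ x, r₂ ≤ ‖up 2 k (F x)‖ → G x = F x := by
    intro x hx
    rw [hG, hTdef]
    simp only
    rw [hφ0 _ hx]
    simp
  set C : Set M := F.symm '' {z : E (2 + k) | ‖up 2 k z‖ ≤ r₃ ∧ ‖vp 2 k z‖ ≤ 1} with hC
  have hCmem : ∀ x ∈ F.source, ‖up 2 k (F x)‖ ≤ r₃ → ‖vp 2 k (F x)‖ ≤ 1 → x ∈ C :=
    fun x hx hu hv => ⟨F x, ⟨hu, hv⟩, F.left_inv hx⟩
  have hCF : ∀ x ∈ C, x ∈ F.source ∧ ‖up 2 k (F x)‖ ≤ r₃ ∧ ‖vp 2 k (F x)‖ ≤ 1 := by
    rintro _ ⟨z, ⟨hz1, hz2⟩, rfl⟩
    have h3 : F (F.symm z) = z := F.right_inv (by rw [hT]; trivial)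
    rw [h3]
    exact ⟨F.map_target (by rw [hT]; trivial), hz1, hz2⟩
  set F' : M → E (2 + k) := fun x => if x ∈ C then G x else F x with hF'
  have hF'in : ∀ x ∈ C, F' x = G x := fun x hx => by
    rw [hF']
    simp only [hx, if_true]
  have hF'out : ∀ x, x ∉ C → F' x = F x := fun x hx => by
    rw [hF']
    simp only [hx, if_false]
  -- the values on the disc
  have hF'j : ∀ s, ‖H s‖ ≤ 1 → F' (j s) = jn 2 k (Θ s) 0 := by
    intro s hs
    by_cases hc : j s ∈ C
    · rw [hF'in _ hc, hG]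
      simp only
      rw [hTj s (by linarith), (hjs s).2.1]
    · rw [hF'out _ hc, hFH]
      have h3 : r₃ < ‖H s‖ := by
        by_contra hcon
        push Not at hcon
        exact hc (hCmem _ (hjs s).1 hcon (by rw [(hjs s).2.1, norm_zero]; exact zero_le_one))
      rw [hΘH s (by linarith)]
  have hS1 : ∀ x, x ∈ F.source → vp 2 k (F x) = 0 → ‖up 2 k (F x)‖ ≤ 1 →
      ∃ s, j s = x ∧ ‖H s‖ ≤ 1 := by
    intro x hx hv hu
    have h3 : x ∈ range j := by
      rw [hjr]
      exact ⟨hx, hv, by linarith⟩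
    obtain ⟨s, rfl⟩ := h3
    exact ⟨s, rfl, hu⟩
  refine ⟨F', C, (isCompact_Q 2 k r₃ 1).image hsc, fun x hx => (hCF x hx).1,
    fun x hx => (hCF x hx).2.1.trans_lt hr₃1, hF'out, ?_, ?_, ?_⟩
  · -- local diffeomorphism
    intro x hx hv hu
    obtain ⟨s, rfl, hs⟩ := hS1 x hx hv hu
    have hFc : ContinuousAt F (j s) := F.continuousAt hx
    by_cases h3 : ‖H s‖ < r₃
    · have h4 : F' =ᶠ[𝓝 (j s)] G := by
        have h5 : ∀ᶠ y in 𝓝 (j s), ‖up 2 k (F y)‖ < r₃ :=
          ((up 2 k).continuous.norm.continuousAt.comp hFc).eventually_lt continuousAt_const h3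
        have h6 : ∀ᶠ y in 𝓝 (j s), ‖vp 2 k (F y)‖ < 1 :=
          ((vp 2 k).continuous.norm.continuousAt.comp hFc).eventually_lt continuousAt_const
            (by
              change ‖vp 2 k (F (j s))‖ < 1
              rw [hv, norm_zero]
              exact zero_lt_one)
        filter_upwards [h5, h6, F.open_source.mem_nhds hx] with y hy1 hy2 hy3
        exact hF'in y (hCmem y hy3 hy1.le hy2.le)
      refine LD.congr ?_ h4
      have hsm := (h1 (j s) hx hv (hjs s).2.2).1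
      refine hJN 2 k M j s T (fun x => vp 2 k (F x)) Θ hjc.contMDiffAt ?_ ?_
        (h1 (j s) hx hv (hjs s).2.2).2 (Eventually.of_forall fun t => (hjs t).2.1) ?_ (hΘd s)
      · filter_upwards [hsm] with y hy
        have hy1 : ContMDiffAt (𝓡 (2 + k)) (𝓡 2) ∞ (fun y => up 2 k (F y)) y :=
          (up 2 k).contMDiff.contMDiffAt.comp y hy
        have hy2 : ContMDiffAt (𝓡 (2 + k)) 𝓘(ℝ, ℝ) ∞ (fun y => φ (up 2 k (F y))) y :=
          hφc.contMDiff.contMDiffAt.comp y hy1
        exact (hy2.smul hτc.contMDiffAt).add ((contMDiffAt_const.sub hy2).smul hy1)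
      · filter_upwards [hsm] with y hy
        exact (vp 2 k).contMDiff.contMDiffAt.comp y hy
      · have h5 : ∀ᶠ t in 𝓝 s, ‖H t‖ < 3 / 2 :=
          hHc.norm.continuousAt.eventually_lt continuousAt_const (by
            change ‖H s‖ < 3 / 2
            linarith)
        filter_upwards [h5] with t ht
        exact hTj t ht.le
    · push Not at h3
      have h4 : F' =ᶠ[𝓝 (j s)] F := by
        have h5 : ∀ᶠ y in 𝓝 (j s), r₂ < ‖up 2 k (F y)‖ :=
          continuousAt_const.eventually_lt ((up 2 k).continuous.norm.continuousAt.comp hFc) (by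
            change r₂ < ‖H s‖
            linarith)
        filter_upwards [h5] with y hy
        by_cases hc : y ∈ C
        · rw [hF'in y hc, hGF y hy.le]
        · exact hF'out y hc
      refine LD.congr (hr _ hx hv ?_) h4
      change r₀ < ‖H s‖
      linarith
  · -- injectivity
    rintro x ⟨hx, hxv, hxu⟩ y ⟨hy, hyv, hyu⟩ hxy
    obtain ⟨s, rfl, hs⟩ := hS1 x hx hxv hxu
    obtain ⟨t, rfl, ht⟩ := hS1 y hy hyv hyu
    rw [hF'j s hs, hF'j t ht] at hxy
    have h3 := congrArg (up 2 k) hxy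
    rw [up_jn, up_jn] at h3
    rw [hΘi h3]
  · -- the image
    ext z
    constructor
    · rintro ⟨x, ⟨hx, hxv, hxu⟩, rfl⟩
      obtain ⟨s, rfl, hs⟩ := hS1 x hx hxv hxu
      rw [hF'j s hs]
      refine ⟨vp_jn _ _ _ _, ?_⟩
      rw [up_jn]
      exact (hiff s).1 hs
    · rintro ⟨hz1, hz2⟩
      have h3 : up 2 k z ∈ range Θ := by
        rw [hΘr, mem_ball_zero_iff]
        linarith
      obtain ⟨s, hs⟩ := h3
      have h4 : ‖H s‖ ≤ 1 := (hiff s).2 (by rw [hs]; exact hz2)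
      refine ⟨j s, ⟨(hjs s).1, (hjs s).2.1, h4⟩, ?_⟩
      rw [hF'j s h4, hs, ← hz1, jn_up_vp]

end Pool.Agent.N550.KH.Hnd
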