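import Pool.Agent.N550.KH.Stm

/-!
# Make an embedding holomorphic near a circle
-/

set_option autoImplicit false

open Set Filter Topology Metric Function

noncomputable section

namespace Pool.Agent.N550.KH.Hol

open Pool.Agent.N550.KH

theorem main : S_MOD → S_RAT → S_HOL := by
  intro hMod hRat e s η hη hηs he hinj hdet
  obtain ⟨c, C, hc, hrat⟩ := hRat e s η hη hηs he hinj hdet
  obtain ⟨ε, hε, hmod⟩ := hMod s c C η (by linarith) hc hη hηs
  obtain ⟨h, ℓ, δ, hδ, hh, hℓ, hx, hb⟩ := hrat ε hε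
  obtain ⟨Φ, hΦb, hΦc, hΦd, hΦo, ρ, hρ, hρδ, hΦ⟩ := hmod ℓ δ hδ hℓ hb
  refine ⟨Φ, hΦb, hΦc, hΦd, hΦo, min ρ (η / 2), lt_min hρ (by linarith),
    (min_le_right _ _).trans_lt (by linarith), ?_⟩
  have h1 : An s (min ρ (η / 2)) ⊆ An s ρ := by
    rintro x ⟨hx1, hx2⟩
    have := min_le_left ρ (η / 2)
    exact ⟨by linarith, by linarith⟩
  have h2 : An s ρ ⊆ An s δ := by
    rintro x ⟨hx1, hx2⟩
    exact ⟨by linarith, by linarith⟩
  refine (hh.mono (h1.trans h2)).congr ?_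
  intro x hxx
  rw [hΦ x (h1 hxx)]
  exact (hx x (h2 (h1 hxx))).2

end Pool.Agent.N550.KH.Hol
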