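import Pool.Agent.N550.KH.Stm

/-!
# A criterion for local diffeomorphisms
-/

set_option autoImplicit false

open Set Filter Topology Metric Function
open scoped Manifold ContDiff

noncomputable section

namespace Pool.Agent.N550.KH.Jn

open Pool.Agent.Y522 Pool.Agent.N550.KH

/-- the preferred chart as a partial diffeomorphism -/
def chPD {n : ℕ} {M : Type} [TopologicalSpace M] [ChartedSpace (E n) M] [IsManifold (𝓡 n) ∞ M]
    (x₀ : M) : PartialDiffeomorph (𝓡 n) (𝓡 n) M (E n) ∞ where
  toPartialEquiv := (chartAt (E n) x₀).toPartialEquiv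
  open_source := (chartAt (E n) x₀).open_source
  open_target := (chartAt (E n) x₀).open_target
  contMDiffOn_toFun := contMDiffOn_chart
  contMDiffOn_invFun := contMDiffOn_chart_symm

theorem ld_chart {n : ℕ} {M : Type} [TopologicalSpace M] [ChartedSpace (E n) M]
    [IsManifold (𝓡 n) ∞ M] (x₀ x : M) (hx : x ∈ (chartAt (E n) x₀).source) :
    LD n (chartAt (E n) x₀) x := ⟨chPD x₀, hx, fun _ _ => rfl⟩

/-- `jn` as a continuous linear map -/
def jnL (m k : ℕ) : (E m × E k) →L[ℝ] E (m + k) :=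
  LinearMap.toContinuousLinearMap
    { toFun := fun z => jn m k z.1 z.2
      map_add' := fun x y => by
        ext i
        refine Fin.addCases (fun i => ?_) (fun i => ?_) i <;> simp [jn]
      map_smul' := fun c x => by
        ext i
        refine Fin.addCases (fun i => ?_) (fun i => ?_) i <;> simp [jn] }

theorem jnL_apply (m k : ℕ) (z : E m × E k) : jnL m k z = jn m k z.1 z.2 := rfl

theorem main : S_JN := by
  intro m k M _ _ _ j s τ v θ hj hτ hv hvs hv0 hτθ hθ
  have hinf : (∞ : WithTop ℕ∞) ≠ 0 := by simp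
  set x0 := j s with hx0
  set φ := chartAt (E (m + k)) x0 with hφ
  have hx0s : x0 ∈ φ.source := mem_chart_source _ x0
  set z0 := φ x0 with hz0
  have hz0t : z0 ∈ φ.target := φ.map_source hx0s
  have hsymm0 : φ.symm z0 = x0 := φ.left_inv hx0s
  have hφs : ∀ z ∈ φ.target, ContMDiffAt (𝓡 (m + k)) (𝓡 (m + k)) ∞ φ.symm z := fun z hz =>
    (contMDiffOn_chart_symm (I := 𝓡 (m + k)) (n := ∞) (x := x0)).contMDiffAt
      (φ.open_target.mem_nhds hz)
  have hφc : ContMDiffAt (𝓡 (m + k)) (𝓡 (m + k)) ∞ φ x0 :=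
    (contMDiffOn_chart (I := 𝓡 (m + k)) (n := ∞) (x := x0)).contMDiffAt
      (φ.open_source.mem_nhds hx0s)
  have htend : Tendsto φ.symm (𝓝 z0) (𝓝 x0) := by
    have := φ.continuousAt_symm hz0t
    unfold ContinuousAt at this
    rwa [hsymm0] at this
  have hT : ∀ᶠ z in 𝓝 z0, ContDiffAt ℝ ∞ (fun z => τ (φ.symm z)) z := by
    filter_upwards [htend.eventually hτ, φ.open_target.mem_nhds hz0t] with z hz1 hz2
    exact contMDiffAt_iff_contDiffAt.1 (hz1.comp z (hφs z hz2))
  have hW : ∀ᶠ z in 𝓝 z0, ContDiffAt ℝ ∞ (fun z => v (φ.symm z)) z := by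
    filter_upwards [htend.eventually hv, φ.open_target.mem_nhds hz0t] with z hz1 hz2
    exact contMDiffAt_iff_contDiffAt.1 (hz1.comp z (hφs z hz2))
  have hJ : ContDiffAt ℝ ∞ (fun t => φ (j t)) s :=
    contMDiffAt_iff_contDiffAt.1 (ContMDiffAt.comp s hφc hj)
  -- derivatives
  have dT := (hT.self_of_nhds.differentiableAt hinf).hasFDerivAt
  have dW := (hW.self_of_nhds.differentiableAt hinf).hasFDerivAt
  have dJ := (hJ.differentiableAt hinf).hasFDerivAt
  set T := fderiv ℝ (fun z => τ (φ.symm z)) z0 with hTdef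
  set W := fderiv ℝ (fun z => v (φ.symm z)) z0 with hWdef
  set J := fderiv ℝ (fun t => φ (j t)) s with hJdef
  obtain ⟨A, hA⟩ := hθ.exists_equiv
  have hjs : ∀ᶠ t in 𝓝 s, j t ∈ φ.source :=
    hj.continuousAt.eventually (φ.open_source.mem_nhds hx0s)
  have hTJ : T.comp J = (A : E m →L[ℝ] E m) := by
    have h0 : HasFDerivAt (fun z => τ (φ.symm z)) T ((fun t => φ (j t)) s) := dT
    have h1 := HasFDerivAt.comp s h0 dJ
    have h2 : HasFDerivAt (fun t => τ (φ.symm (φ (j t)))) (A : E m →L[ℝ] E m) s := by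
      refine hA.congr_of_eventuallyEq ?_
      filter_upwards [hjs, hτθ] with t ht1 ht2
      rw [φ.left_inv ht1, ht2]
    exact h1.unique h2
  have hWJ : W.comp J = 0 := by
    have h0 : HasFDerivAt (fun z => v (φ.symm z)) W ((fun t => φ (j t)) s) := dW
    have h1 := HasFDerivAt.comp s h0 dJ
    have h2 : HasFDerivAt (fun t => v (φ.symm (φ (j t)))) (0 : E m →L[ℝ] E k) s := by
      refine (hasFDerivAt_const (0 : E k) s).congr_of_eventuallyEq ?_
      filter_upwards [hjs, hv0] with t ht1 ht2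
      rw [φ.left_inv ht1, ht2]
    exact h1.unique h2
  have hTJ' : ∀ b, T (J b) = A b := fun b => congrArg (fun L => L b) hTJ
  have hWJ' : ∀ b, W (J b) = 0 := fun b => congrArg (fun L => L b) hWJ
  have hJinj : Function.Injective J := by
    intro a b hab
    apply A.injective
    rw [← hTJ', ← hTJ', hab]
  have hWsurj : Function.Surjective W := by
    have h1 : MDifferentiableAt (𝓡 (m + k)) (𝓡 k) v x0 :=
      hv.self_of_nhds.mdifferentiableAt hinf
    have h2 := h1.mfderiv
    simp only [writtenInExtChartAt, extChartAt, mfld_simps] at h2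
    rw [fderivWithin_univ] at h2
    intro b
    obtain ⟨a, ha⟩ := hvs b
    exact ⟨a, (congrArg (fun L : E (m + k) →L[ℝ] E k => L a) h2).symm.trans ha⟩
  -- the kernel of `W`
  have hker : ∀ a, W a = 0 → ∃ b, J b = a := by
    have h1 := LinearMap.finrank_range_add_finrank_ker (W : E (m + k) →ₗ[ℝ] E k)
    have h2 : LinearMap.range (W : E (m + k) →ₗ[ℝ] E k) = ⊤ := LinearMap.range_eq_top.2 hWsurj
    rw [h2, finrank_top, finrank_euclideanSpace_fin, finrank_euclideanSpace_fin] at h1
    have h3 : Module.finrank ℝ (LinearMap.range (J : E m →ₗ[ℝ] E (m + k))) = m := by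
      rw [LinearMap.finrank_range_of_inj hJinj, finrank_euclideanSpace_fin]
    have h4 : LinearMap.range (J : E m →ₗ[ℝ] E (m + k)) ≤
        LinearMap.ker (W : E (m + k) →ₗ[ℝ] E k) := by
      rintro _ ⟨b, rfl⟩
      exact hWJ' b
    have h5 := Submodule.eq_of_le_of_finrank_eq h4 (by omega)
    intro a ha
    have h6 : a ∈ LinearMap.ker (W : E (m + k) →ₗ[ℝ] E k) := ha
    rw [← h5] at h6
    exact h6
  -- the map in the chart
  have hF : ∀ᶠ z in 𝓝 z0, ContDiffAt ℝ ∞ (fun z => jn m k (τ (φ.symm z)) (v (φ.symm z))) z := by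
    filter_upwards [hT, hW] with z hz1 hz2
    have : ContDiffAt ℝ ∞ (fun z => jnL m k (τ (φ.symm z), v (φ.symm z))) z :=
      (jnL m k).contDiff.contDiffAt.comp z (hz1.prodMk hz2)
    exact this
  have dF : HasFDerivAt (fun z => jn m k (τ (φ.symm z)) (v (φ.symm z)))
      ((jnL m k).comp (T.prod W)) z0 := by
    have : HasFDerivAt (fun z => jnL m k (τ (φ.symm z), v (φ.symm z)))
        ((jnL m k).comp (T.prod W)) z0 :=
      (jnL m k).hasFDerivAt.comp z0 (dT.prodMk dW)
    exact this
  have hinj : Function.Injective ((jnL m k).comp (T.prod W)) := by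
    rw [injective_iff_map_eq_zero]
    intro a ha
    have h1 : jn m k (T a) (W a) = 0 := ha
    have h2 : T a = 0 := by
      have := congrArg (up m k) h1
      rwa [up_jn, map_zero] at this
    have h3 : W a = 0 := by
      have := congrArg (vp m k) h1
      rwa [vp_jn, map_zero] at this
    obtain ⟨b, rfl⟩ := hker a h3
    rw [hTJ'] at h2
    have h4 : b = 0 := by
      apply A.injective
      rw [h2, map_zero]
    rw [h4, map_zero]
  let A' : E (m + k) ≃L[ℝ] E (m + k) := (LinearEquiv.ofInjectiveEndo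
    (((jnL m k).comp (T.prod W) : E (m + k) →L[ℝ] E (m + k)) :
      E (m + k) →ₗ[ℝ] E (m + k)) hinj).toContinuousLinearEquiv
  have hA' : (A' : E (m + k) →L[ℝ] E (m + k)) = (jnL m k).comp (T.prod W) := by
    ext a
    rfl
  rw [← hA'] at dF
  have hLD := LD_of_contDiffAt hF A' dF
  have hch : LD (m + k) φ x0 := ld_chart x0 x0 hx0s
  refine (LD.comp_fun (g := fun z => jn m k (τ (φ.symm z)) (v (φ.symm z))) hLD hch).congr ?_
  filter_upwards [φ.open_source.mem_nhds hx0s] with y hy
  change jn m k (τ y) (v y) = jn m k (τ (φ.symm (φ y))) (v (φ.symm (φ y)))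
  rw [φ.left_inv hy]

end Pool.Agent.N550.KH.Jn
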