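import Pool.Agent.N550.KH.Stm

/-!
# Project KH: modification of a germ of a diffeomorphism along a circle (helper222)
-/

set_option autoImplicit false

open Set Filter Topology Metric Function MeasureTheory
open scoped ContDiff Interval ComplexConjugate

noncomputable section

namespace Pool.Agent.N550.KH.Mod

open Pool.Agent.N550.KH Complex

/-! ### Linear algebra -/

theorem det_eq (A : ℂ →L[ℝ] ℂ) : A.det = (A 1).re * (A I).im - (A I).re * (A 1).im := by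
  rw [ContinuousLinearMap.det, ← LinearMap.det_toMatrix Complex.basisOneI, Matrix.det_fin_two]
  simp [LinearMap.toMatrix_apply]

theorem det_mul_one (w : ℂ) : (w • (1 : ℂ →L[ℝ] ℂ)).det = ‖w‖ ^ 2 := by
  rw [det_eq, Complex.sq_norm, Complex.normSq_apply]
  simp

theorem apply_eq (A : ℂ →L[ℝ] ℂ) (v : ℂ) : A v = v.re • A 1 + v.im • A I := by
  conv_lhs => rw [show v = v.re • (1 : ℂ) + v.im • I by simp]
  rw [map_add, map_smul, map_smul]

/-! ### Perturbations of the identity in logarithmic coordinates -/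

theorem P_inj {Λ : ℂ → ℂ} (hΛ : Differentiable ℝ Λ) {c C e : ℝ} (he : e ≤ 1 / 2)
    (heC : 2 * e * C < c) (h1 : ∀ ζ, c ≤ 1 + (fderiv ℝ Λ ζ 1).re)
    (h2 : ∀ ζ, ‖fderiv ℝ Λ ζ 1‖ ≤ C) (h3 : ∀ ζ, ‖fderiv ℝ Λ ζ I‖ ≤ e) :
    Injective (fun ζ => ζ + Λ ζ) := by
  intro p q h
  simp only at h
  have he0 : 0 ≤ e := (norm_nonneg _).trans (h3 0)
  have hC0 : 0 ≤ C := (norm_nonneg _).trans (h2 0)
  have hc0 : 0 < c := lt_of_le_of_lt (by positivity) heC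
  set v := p - q with hv
  have hd : ∀ u : ℝ, HasDerivAt (fun u : ℝ => (q + (u : ℂ) * v) + Λ (q + (u : ℂ) * v))
      (v + fderiv ℝ Λ (q + (u : ℂ) * v) v) u := by
    intro u
    have e1 : HasDerivAt (fun u : ℝ => q + (u : ℂ) * v) v u := by
      have := (Complex.ofRealCLM.hasDerivAt (x := u)).mul_const v
      have := this.const_add q
      simpa using this
    exact e1.add ((hΛ _).hasFDerivAt.comp_hasDerivAt u e1)
  have hg0 : (q + ((0 : ℝ) : ℂ) * v) + Λ (q + ((0 : ℝ) : ℂ) * v) =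
      (q + ((1 : ℝ) : ℂ) * v) + Λ (q + ((1 : ℝ) : ℂ) * v) := by
    simp only [Complex.ofReal_zero, zero_mul, add_zero, Complex.ofReal_one, one_mul]
    rw [show q + v = p by rw [hv]; ring]
    exact h.symm
  have hre : ∀ u : ℝ, HasDerivAt (fun u : ℝ => ((q + (u : ℂ) * v) + Λ (q + (u : ℂ) * v)).re)
      (v + fderiv ℝ Λ (q + (u : ℂ) * v) v).re u := fun u =>
    (Complex.reCLM.hasFDerivAt.comp_hasDerivAt u (hd u))
  have him : ∀ u : ℝ, HasDerivAt (fun u : ℝ => ((q + (u : ℂ) * v) + Λ (q + (u : ℂ) * v)).im)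
      (v + fderiv ℝ Λ (q + (u : ℂ) * v) v).im u := fun u =>
    (Complex.imCLM.hasFDerivAt.comp_hasDerivAt u (hd u))
  obtain ⟨u1, _, hu1⟩ := exists_hasDerivAt_eq_zero (f := fun u : ℝ =>
    ((q + (u : ℂ) * v) + Λ (q + (u : ℂ) * v)).re) one_pos
    (fun u _ => (hre u).continuousAt.continuousWithinAt) (by simp only [hg0])
    (fun u _ => hre u)
  obtain ⟨u2, _, hu2⟩ := exists_hasDerivAt_eq_zero (f := fun u : ℝ =>
    ((q + (u : ℂ) * v) + Λ (q + (u : ℂ) * v)).im) one_pos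
    (fun u _ => (him u).continuousAt.continuousWithinAt) (by simp only [hg0])
    (fun u _ => him u)
  rw [apply_eq] at hu1 hu2
  simp only [Complex.add_re, Complex.add_im, Complex.real_smul, Complex.re_ofReal_mul,
    Complex.im_ofReal_mul] at hu1 hu2
  set A1 := fderiv ℝ Λ (q + (u1 : ℂ) * v) with hA1
  set A2 := fderiv ℝ Λ (q + (u2 : ℂ) * v) with hA2
  have b1 := h1 (q + (u1 : ℂ) * v)
  have b2 := (Complex.abs_re_le_norm _).trans (h3 (q + (u1 : ℂ) * v))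
  have b3 := (Complex.abs_im_le_norm _).trans (h2 (q + (u2 : ℂ) * v))
  have b4 := (Complex.abs_im_le_norm _).trans (h3 (q + (u2 : ℂ) * v))
  rw [← hA1] at b1 b2
  rw [← hA2] at b3 b4
  have k1 : |v.re| * c ≤ |v.im| * e := by
    have e1 : v.re * (1 + (A1 1).re) = -(v.im * (A1 I).re) := by linarith
    calc |v.re| * c ≤ |v.re| * |1 + (A1 1).re| :=
          mul_le_mul_of_nonneg_left (b1.trans (le_abs_self _)) (abs_nonneg _)
      _ = |v.im| * |(A1 I).re| := by rw [← abs_mul, e1, abs_neg, abs_mul]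
      _ ≤ |v.im| * e := mul_le_mul_of_nonneg_left b2 (abs_nonneg _)
  have k2 : |v.im| * (1 / 2) ≤ |v.re| * C := by
    have e1 : v.im * (1 + (A2 I).im) = -(v.re * (A2 1).im) := by linarith
    have e2 : (1 : ℝ) / 2 ≤ |1 + (A2 I).im| := by
      refine le_trans ?_ (le_abs_self _)
      have := (abs_le.1 b4).1
      linarith
    calc |v.im| * (1 / 2) ≤ |v.im| * |1 + (A2 I).im| :=
          mul_le_mul_of_nonneg_left e2 (abs_nonneg _)
      _ = |v.re| * |(A2 1).im| := by rw [← abs_mul, e1, abs_neg, abs_mul]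
      _ ≤ |v.re| * C := mul_le_mul_of_nonneg_left b3 (abs_nonneg _)
  have hre0 : |v.re| = 0 := by
    have h5 := abs_nonneg v.re
    have : |v.re| * (c - 2 * e * C) ≤ 0 := by nlinarith
    by_contra hne
    have : 0 < |v.re| := lt_of_le_of_ne h5 (Ne.symm hne)
    nlinarith
  have him0 : |v.im| = 0 := by
    rw [hre0] at k2
    have := abs_nonneg v.im
    linarith
  have hv0 : v = 0 := Complex.ext (abs_eq_zero.1 hre0) (abs_eq_zero.1 him0)
  exact sub_eq_zero.1 hv0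

theorem P_det {A : ℂ →L[ℝ] ℂ} {c C e : ℝ} (he : e ≤ 1 / 2)
    (heC : 2 * e * C < c) (h1 : c ≤ 1 + (A 1).re)
    (h2 : ‖A 1‖ ≤ C) (h3 : ‖A I‖ ≤ e) : 0 < ((1 : ℂ →L[ℝ] ℂ) + A).det := by
  have he0 : 0 ≤ e := (norm_nonneg _).trans h3
  have hC0 : 0 ≤ C := (norm_nonneg _).trans h2
  have hc0 : 0 < c := lt_of_le_of_lt (by positivity) heC
  rw [det_eq]
  simp only [_root_.add_apply, one_apply_eq_self, Complex.add_re,
    Complex.add_im, Complex.one_re, Complex.one_im, Complex.I_re, Complex.I_im, zero_add]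
  have b2 := (Complex.abs_re_le_norm _).trans h3
  have b3 := (Complex.abs_im_le_norm _).trans h2
  have b4 := (Complex.abs_im_le_norm _).trans h3
  have e1 : (A I).re * (A 1).im ≤ e * C :=
    (le_abs_self _).trans (by rw [abs_mul]; exact mul_le_mul b2 b3 (abs_nonneg _) he0)
  have e2 : (1 : ℝ) / 2 ≤ 1 + (A I).im := by
    have := (abs_le.1 b4).1
    linarith
  have e3 : c * (1 / 2) ≤ (1 + (A 1).re) * (1 + (A I).im) :=
    mul_le_mul h1 e2 (by norm_num) (hc0.le.trans h1)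
  linarith

/-! ### Descent to the plane -/

/-- the covering map -/
def Em (s : ℝ) (ζ : ℂ) : ℂ := (s : ℂ) * exp ζ

theorem norm_Em {s : ℝ} (hs : 0 < s) (ζ : ℂ) : ‖Em s ζ‖ = s * Real.exp ζ.re := by
  rw [Em, norm_mul, Complex.norm_real, Real.norm_eq_abs, abs_of_pos hs, Complex.norm_exp]

theorem Em_ne {s : ℝ} (hs : 0 < s) (ζ : ℂ) : Em s ζ ≠ 0 :=
  mul_ne_zero (by exact_mod_cast hs.ne') (exp_ne_zero _)

theorem Em_log {s : ℝ} (hs : 0 < s) {x : ℂ} (hx : x ≠ 0) : Em s (log (x / s)) = x := by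
  have h1 : (s : ℂ) ≠ 0 := by exact_mod_cast hs.ne'
  rw [Em, exp_log (div_ne_zero hx h1)]
  field_simp

theorem Em_der (s : ℝ) (ζ : ℂ) : HasFDerivAt (Em s) (Em s ζ • (1 : ℂ →L[ℝ] ℂ)) ζ := by
  have : HasDerivAt (Em s) (Em s ζ) ζ := (Complex.hasDerivAt_exp ζ).const_mul _
  exact this.complexToReal_fderiv

theorem descend {s η : ℝ} (hs : 0 < s) (hηs : η < s) {lt : ℂ → ℂ}
    (hsm : ∀ x, x ≠ 0 → ContDiffAt ℝ ∞ lt x)
    (hz : ∀ x, x ∉ An s η → x ≠ 0 → lt x = 0) {c C e : ℝ} (he : e ≤ 1 / 2)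
    (heC : 2 * e * C < c) (h1 : ∀ ζ, c ≤ 1 + (fderiv ℝ (fun ζ => lt (Em s ζ)) ζ 1).re)
    (h2 : ∀ ζ, ‖fderiv ℝ (fun ζ => lt (Em s ζ)) ζ 1‖ ≤ C)
    (h3 : ∀ ζ, ‖fderiv ℝ (fun ζ => lt (Em s ζ)) ζ I‖ ≤ e) :
    Bijective (fun x => x * exp (lt x)) ∧ ContDiff ℝ ∞ (fun x => x * exp (lt x)) ∧
      (∀ x, 0 < (fderiv ℝ (fun x => x * exp (lt x)) x).det) ∧
      ∀ x, x ∉ An s η → x * exp (lt x) = x := by
  have hid : ∀ x, x ∉ An s η → x * exp (lt x) = x := by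
    intro x hx
    by_cases h0 : x = 0
    · rw [h0]; simp
    · rw [hz x hx h0]; simp
  have hnear : (fun x => x * exp (lt x)) =ᶠ[𝓝 0] id := by
    have : ball (0 : ℂ) (s - η) ∈ 𝓝 (0 : ℂ) := ball_mem_nhds _ (by linarith)
    filter_upwards [this] with x hx
    have hx' : ‖x‖ < s - η := by simpa using hx
    exact hid x fun h => by linarith [h.1]
  have hcd : ContDiff ℝ ∞ (fun x => x * exp (lt x)) := by
    rw [contDiff_iff_contDiffAt]
    intro x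
    by_cases h0 : x = 0
    · subst h0
      exact contDiffAt_id.congr_of_eventuallyEq hnear
    · exact contDiffAt_id.mul ((hsm x h0).cexp)
  have hdiff : ∀ x, DifferentiableAt ℝ (fun x => x * exp (lt x)) x := fun x =>
    hcd.differentiable (by simp) x
  -- the lifted map
  have hEc : ∀ ζ, ContDiffAt ℝ ∞ (Em s) ζ := by
    intro ζ
    unfold Em
    exact contDiffAt_const.mul contDiffAt_id.cexp
  have hΛc : ∀ ζ, ContDiffAt ℝ ∞ (fun ζ => lt (Em s ζ)) ζ := fun ζ =>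
    ContDiffAt.comp ζ (hsm _ (Em_ne hs ζ)) (hEc ζ)
  have hΛ : Differentiable ℝ (fun ζ => lt (Em s ζ)) := fun ζ =>
    (hΛc ζ).differentiableAt (by simp)
  have hcomm : ∀ ζ, Em s ζ * exp (lt (Em s ζ)) = Em s (ζ + lt (Em s ζ)) := by
    intro ζ
    rw [Em, Em, exp_add]; ring
  have hper : ∀ (ζ : ℂ) (n : ℤ), Em s (ζ + n * (2 * Real.pi * I)) = Em s ζ := by
    intro ζ n
    rw [Em, Em, exp_add, Complex.exp_int_mul_two_pi_mul_I, mul_one]
  have hPinj := P_inj hΛ he heC h1 h2 h3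
  have hdet : ∀ x, 0 < (fderiv ℝ (fun x => x * exp (lt x)) x).det := by
    intro x
    by_cases h0 : x = 0
    · subst h0
      rw [hnear.fderiv_eq, fderiv_id, det_eq]
      simp
    · obtain ⟨ζ, rfl⟩ : ∃ ζ, Em s ζ = x := ⟨_, Em_log hs h0⟩
      set A := fderiv ℝ (fun x => x * exp (lt x)) (Em s ζ) with hA
      set B := fderiv ℝ (fun ζ => lt (Em s ζ)) ζ with hB
      have l1 : HasFDerivAt (fun ζ => Em s ζ * exp (lt (Em s ζ)))
          (A.comp (Em s ζ • (1 : ℂ →L[ℝ] ℂ))) ζ :=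
        HasFDerivAt.comp ζ (hdiff (Em s ζ)).hasFDerivAt (Em_der s ζ)
      have l2 : HasFDerivAt (fun ζ => ζ + lt (Em s ζ)) ((1 : ℂ →L[ℝ] ℂ) + B) ζ :=
        (hasFDerivAt_id ζ).add (hΛ ζ).hasFDerivAt
      have l3 : HasFDerivAt (fun ζ => Em s (ζ + lt (Em s ζ)))
          ((Em s (ζ + lt (Em s ζ)) • (1 : ℂ →L[ℝ] ℂ)).comp ((1 : ℂ →L[ℝ] ℂ) + B)) ζ :=
        HasFDerivAt.comp (g := Em s) (f := fun ζ => ζ + lt (Em s ζ)) ζ (Em_der s _) l2
      have l4 : (fun ζ => Em s ζ * exp (lt (Em s ζ))) = (fun ζ => Em s (ζ + lt (Em s ζ))) :=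
        funext hcomm
      rw [l4] at l1
      have l5 := l1.unique l3
      have l6 := congrArg ContinuousLinearMap.det l5
      have dc : ∀ X Y : ℂ →L[ℝ] ℂ, (X.comp Y).det = X.det * Y.det := by
        intro X Y
        exact LinearMap.det_comp _ _
      rw [dc, dc, det_mul_one, det_mul_one] at l6
      have l7 := P_det he heC (h1 ζ) (h2 ζ) (h3 ζ)
      rw [← hB] at l7
      have l8 : 0 < ‖Em s ζ‖ ^ 2 := by
        have := norm_pos_iff.2 (Em_ne hs ζ); positivity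
      have l9 : 0 < ‖Em s (ζ + lt (Em s ζ))‖ ^ 2 := by
        have := norm_pos_iff.2 (Em_ne hs (ζ + lt (Em s ζ))); positivity
      have l10 : 0 < A.det * ‖Em s ζ‖ ^ 2 := by rw [l6]; exact mul_pos l9 l7
      exact (pos_iff_pos_of_mul_pos l10).2 l8
  refine ⟨⟨?_, ?_⟩, hcd, hdet, hid⟩
  · -- injectivity
    intro x y hxy
    simp only at hxy
    by_cases hx : x = 0
    · rw [hx, zero_mul] at hxy
      rw [hx]
      rcases mul_eq_zero.1 hxy.symm with h | h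
      · exact h.symm
      · exact absurd h (exp_ne_zero _)
    by_cases hy : y = 0
    · rw [hy, zero_mul] at hxy
      rcases mul_eq_zero.1 hxy with h | h
      · exact absurd h hx
      · exact absurd h (exp_ne_zero _)
    obtain ⟨ζ, rfl⟩ : ∃ ζ, Em s ζ = x := ⟨_, Em_log hs hx⟩
    obtain ⟨w, rfl⟩ : ∃ w, Em s w = y := ⟨_, Em_log hs hy⟩
    rw [hcomm, hcomm] at hxy
    have hs0 : (s : ℂ) ≠ 0 := by exact_mod_cast hs.ne'
    have h5 := mul_left_cancel₀ hs0 hxy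
    obtain ⟨n, hn⟩ := Complex.exp_eq_exp_iff_exists_int.1 h5
    have h6 : ζ + lt (Em s ζ) =
        (w + n * (2 * Real.pi * I)) + lt (Em s (w + n * (2 * Real.pi * I))) := by
      rw [hper, hn]; ring
    have h7 : ζ = w + n * (2 * Real.pi * I) := hPinj h6
    rw [h7, hper]
  · -- surjectivity
    have hopen : IsOpen (range (fun x => x * exp (lt x))) := by
      rw [isOpen_iff_mem_nhds]
      rintro _ ⟨x, rfl⟩
      have hst : HasStrictFDerivAt (fun x => x * exp (lt x))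
          (fderiv ℝ (fun x => x * exp (lt x)) x) x :=
        hcd.contDiffAt.hasStrictFDerivAt (by simp)
      have hsurj : (fderiv ℝ (fun x => x * exp (lt x)) x).range = ⊤ := by
        have hu : IsUnit (LinearMap.det (fderiv ℝ (fun x => x * exp (lt x)) x : ℂ →ₗ[ℝ] ℂ)) :=
          isUnit_iff_ne_zero.2 (hdet x).ne'
        have hb := (LinearMap.isUnit_iff_isUnit_det _).2 hu
        exact LinearMap.range_eq_top.2 ((Module.End.isUnit_iff _).1 hb).2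
      rw [← hst.map_nhds_eq_of_surj hsurj]
      exact Filter.mem_map.2 (Filter.univ_mem' fun y => mem_range_self y)
    have hclosed : IsClosed (range (fun x => x * exp (lt x))) := by
      have : range (fun x => x * exp (lt x)) =
          (fun x => x * exp (lt x)) '' closedBall (0 : ℂ) (s + η) ∪ {y : ℂ | s + η ≤ ‖y‖} := by
        ext y
        constructor
        · rintro ⟨x, rfl⟩
          by_cases hx : ‖x‖ ≤ s + η
          · exact Or.inl ⟨x, by simpa using hx, rfl⟩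
          · right
            simp only [Set.mem_ofPred_eq]
            rw [hid x fun h => hx h.2.le]
            exact (not_le.1 hx).le
        · rintro (⟨x, _, rfl⟩ | hy)
          · exact ⟨x, rfl⟩
          · exact ⟨y, hid y fun h => absurd h.2 (not_lt.2 hy)⟩
      rw [this]
      exact ((isCompact_closedBall _ _).image hcd.continuous).isClosed.union
        (isClosed_le continuous_const continuous_norm)
    have : range (fun x => x * exp (lt x)) = univ :=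
      IsClopen.eq_univ ⟨hclosed, hopen⟩ ⟨0, 0, by simp⟩
    exact range_eq_univ.1 this

/-! ### The cutoff construction -/

/-- projection to the circle -/
def pr (s : ℝ) (x : ℂ) : ℂ := ((s / ‖x‖ : ℝ) : ℂ) * x

/-- logarithmic radius -/
def lr (s : ℝ) (x : ℂ) : ℝ := Real.log (‖x‖ / s)

/-- the modified exponent -/
def lt (χ₁ χ₂ : ℝ → ℝ) (ℓ : ℂ → ℂ) (s : ℝ) (x : ℂ) : ℂ :=
  (χ₁ (lr s x) : ℂ) * (ℓ x - ℓ (pr s x)) + (χ₂ (lr s x) : ℂ) * ℓ (pr s x)

theorem norm_pr {s : ℝ} (hs : 0 < s) {x : ℂ} (hx : x ≠ 0) : ‖pr s x‖ = s := by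
  have h : 0 < ‖x‖ := norm_pos_iff.2 hx
  rw [pr, norm_mul, Complex.norm_real, Real.norm_eq_abs, abs_of_pos (by positivity)]
  field_simp

theorem pr_self {s : ℝ} (hs : 0 < s) {x : ℂ} (hx : ‖x‖ = s) : pr s x = x := by
  rw [pr, hx, div_self hs.ne']; simp

theorem lr_Em {s : ℝ} (hs : 0 < s) (ζ : ℂ) : lr s (Em s ζ) = ζ.re := by
  rw [lr, norm_Em hs, mul_div_cancel_left₀ _ hs.ne', Real.log_exp]

theorem pr_Em {s : ℝ} (hs : 0 < s) (ζ : ℂ) : pr s (Em s ζ) = Em s (ζ.im * I) := by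
  have h1 : (s : ℂ) ≠ 0 := by exact_mod_cast hs.ne'
  have h2 : Complex.exp (ζ.re : ℂ) ≠ 0 := exp_ne_zero _
  have h3 : exp ζ = exp (ζ.re : ℂ) * exp (ζ.im * I) := by
    rw [← exp_add, Complex.re_add_im]
  rw [pr, norm_Em hs, Em, Em, h3]
  push_cast
  field_simp

theorem exp_near {s δ : ℝ} (hs : 0 < s) (hδ : 0 < δ) :
    ∃ δ' : ℝ, 0 < δ' ∧ ∀ x : ℂ, x ≠ 0 → |lr s x| < δ' → x ∈ An s δ := by
  have hc : ContinuousAt (fun t : ℝ => s * Real.exp t) 0 := by fun_prop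
  obtain ⟨δ', h0, h1⟩ := Metric.continuousAt_iff.1 hc δ hδ
  refine ⟨δ', h0, fun x hx ht => ?_⟩
  have h2 := h1 (x := lr s x) (by simpa [Real.dist_eq] using ht)
  have h3 : 0 < ‖x‖ := norm_pos_iff.2 hx
  have h4 : s * Real.exp (lr s x) = ‖x‖ := by
    rw [lr, Real.exp_log (by positivity)]; field_simp
  rw [h4, Real.exp_zero, mul_one, Real.dist_eq, abs_lt] at h2
  exact ⟨by linarith [h2.1], by linarith [h2.2]⟩

theorem log_near {s δ : ℝ} (hs : 0 < s) (hδ : 0 < δ) :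
    ∃ δ' : ℝ, 0 < δ' ∧ ∀ x : ℂ, x ∈ An s δ' → |lr s x| < δ := by
  have hc : ContinuousAt (fun t : ℝ => Real.log (t / s)) s := by
    refine ContinuousAt.log (by fun_prop) ?_
    rw [div_self hs.ne']; exact one_ne_zero
  obtain ⟨δ', h0, h1⟩ := Metric.continuousAt_iff.1 hc δ hδ
  refine ⟨δ', h0, fun x hx => ?_⟩
  have h2 := h1 (x := ‖x‖) (by
    rw [Real.dist_eq, abs_lt]; exact ⟨by linarith [hx.1], by linarith [hx.2]⟩)
  rw [div_self hs.ne', Real.log_one, Real.dist_eq, sub_zero] at h2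
  exact h2

theorem near_circle {s : ℝ} (hs : 0 < s) {P : ℂ → Prop}
    (h : ∀ x : ℂ, ‖x‖ = s → ∀ᶠ y in 𝓝 x, P y) : ∃ δ : ℝ, 0 < δ ∧ ∀ y ∈ An s δ, P y := by
  have hsub : sphere (0 : ℂ) s ⊆ interior {y | P y} := by
    intro x hx
    rw [mem_interior_iff_mem_nhds]
    exact h x (by simpa using hx)
  obtain ⟨δ, h0, h1⟩ := (isCompact_sphere (0 : ℂ) s).exists_thickening_subset_open
    isOpen_interior hsub
  refine ⟨min δ s, lt_min h0 hs, fun y hy => ?_⟩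
  have hy0 : y ≠ 0 := by
    rintro rfl
    have := hy.1
    rw [norm_zero] at this
    have := min_le_right δ s
    linarith
  have h2 : 0 < ‖y‖ := norm_pos_iff.2 hy0
  have hmem : y ∈ thickening δ (sphere (0 : ℂ) s) := by
    rw [mem_thickening_iff]
    refine ⟨pr s y, by simpa using norm_pr hs hy0, ?_⟩
    have e : y - pr s y = (((‖y‖ - s) / ‖y‖ : ℝ) : ℂ) * y := by
      have : (‖y‖ : ℂ) ≠ 0 := by exact_mod_cast h2.ne'
      rw [pr]; push_cast; field_simp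
    rw [dist_eq_norm, e, norm_mul, Complex.norm_real, Real.norm_eq_abs, abs_div,
      abs_of_pos h2, div_mul_cancel₀ _ h2.ne', abs_lt]
    have := min_le_left δ s
    exact ⟨by linarith [hy.1], by linarith [hy.2]⟩
  exact interior_subset (h1 hmem)

theorem isOpen_An (s δ : ℝ) : IsOpen (An s δ) :=
  (isOpen_lt continuous_const continuous_norm).inter
    (isOpen_lt continuous_norm continuous_const)

theorem lr_cd {s : ℝ} (hs : 0 < s) {x : ℂ} (hx : x ≠ 0) : ContDiffAt ℝ ∞ (lr s) x := by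
  have h1 : ContDiffAt ℝ ∞ (fun x : ℂ => ‖x‖) x := contDiffAt_norm ℝ hx
  have h2 : 0 < ‖x‖ := norm_pos_iff.2 hx
  exact (h1.div_const s).log (by positivity)

theorem pr_cd {s : ℝ} {x : ℂ} (hx : x ≠ 0) : ContDiffAt ℝ ∞ (pr s) x := by
  have h1 : ContDiffAt ℝ ∞ (fun x : ℂ => ‖x‖) x := contDiffAt_norm ℝ hx
  have h2 : 0 < ‖x‖ := norm_pos_iff.2 hx
  have h3 : ContDiffAt ℝ ∞ (fun x : ℂ => s / ‖x‖) x := contDiffAt_const.div h1 h2.ne'
  have h4 : ContDiffAt ℝ ∞ (fun x : ℂ => ((s / ‖x‖ : ℝ) : ℂ)) x :=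
    Complex.ofRealCLM.contDiff.contDiffAt.comp x h3
  exact h4.mul contDiffAt_id

theorem Em_path (s : ℝ) (ζ v : ℂ) :
    HasDerivAt (fun u : ℝ => Em s (ζ + (u : ℂ) * v)) (Em s ζ * v) 0 := by
  have e1 : HasDerivAt (fun u : ℝ => ζ + (u : ℂ) * v) v 0 := by
    have := (Complex.ofRealCLM.hasDerivAt (x := (0 : ℝ))).mul_const v
    have := this.const_add ζ
    simpa using this
  have h0 : ζ + ((0 : ℝ) : ℂ) * v = ζ := by simp
  have e2 : HasFDerivAt (Em s) (Em s ζ • (1 : ℂ →L[ℝ] ℂ)) (ζ + ((0 : ℝ) : ℂ) * v) := by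
    rw [h0]; exact Em_der s ζ
  have e3 := e2.comp_hasDerivAt (0 : ℝ) e1
  refine HasDerivAt.congr_deriv (f' := (Em s ζ • (1 : ℂ →L[ℝ] ℂ)) v) ?_ (by simp)
  exact e3

theorem l_path {ℓ : ℂ → ℂ} {s : ℝ} {ζ : ℂ} (h : DifferentiableAt ℝ ℓ (Em s ζ)) (v : ℂ) :
    HasDerivAt (fun u : ℝ => ℓ (Em s (ζ + (u : ℂ) * v))) (fderiv ℝ ℓ (Em s ζ) (Em s ζ * v)) 0 := by
  have h0 : Em s (ζ + ((0 : ℝ) : ℂ) * v) = Em s ζ := by simp
  have h1 : HasFDerivAt ℓ (fderiv ℝ ℓ (Em s ζ)) (Em s (ζ + ((0 : ℝ) : ℂ) * v)) := by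
    rw [h0]; exact h.hasFDerivAt
  exact h1.comp_hasDerivAt (0 : ℝ) (Em_path s ζ v)

theorem chi_path {χ : ℝ → ℝ} (hχ : ContDiff ℝ ∞ χ) (t : ℝ) :
    HasDerivAt (fun u : ℝ => ((χ (t + u) : ℝ) : ℂ)) ((deriv χ t : ℝ) : ℂ) 0 := by
  have h1 : HasDerivAt χ (deriv χ t) (t + 0) := by
    rw [add_zero]
    exact (hχ.differentiable (by simp) t).hasDerivAt
  have h2 : HasDerivAt (fun u : ℝ => χ (t + u)) (deriv χ t) 0 := h1.comp_const_add t 0
  exact Complex.ofRealCLM.hasFDerivAt.comp_hasDerivAt (0 : ℝ) h2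

theorem cont_H {ℓ : ℂ → ℂ} {s δ : ℝ} (hℓ : ContDiffOn ℝ ∞ ℓ (An s δ)) {x : ℂ} (hx : x ∈ An s δ)
    (v : ℂ) : ContinuousAt (fun y => fderiv ℝ ℓ y (y * v)) x := by
  have h1 : ContDiffAt ℝ ∞ ℓ x := hℓ.contDiffAt ((isOpen_An s δ).mem_nhds hx)
  have h2 : ContinuousAt (fun y => fderiv ℝ ℓ y) x :=
    (h1.fderiv_right (m := 0) (by simp)).continuousAt
  exact h2.clm_apply (by fun_prop)

theorem circle_small {ℓ : ℂ → ℂ} {s δ κ : ℝ} (hs : 0 < s) (hδ : 0 < δ)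
    (hℓ : ContDiffOn ℝ ∞ ℓ (An s δ)) (hκ : 0 < κ) :
    ∃ δ₃ : ℝ, 0 < δ₃ ∧ ∀ x ∈ An s δ₃, x ∈ An s δ ∧
      ‖fderiv ℝ ℓ x x - fderiv ℝ ℓ (pr s x) (pr s x)‖ < κ ∧
      ‖fderiv ℝ ℓ x (x * I) - fderiv ℝ ℓ (pr s x) (pr s x * I)‖ < κ := by
  apply near_circle hs
  intro x hx
  have hxA : x ∈ An s δ := ⟨by linarith, by linarith⟩
  have hx0 : x ≠ 0 := by
    intro h; rw [h, norm_zero] at hx; linarith
  have hpc : ContinuousAt (pr s) x := (pr_cd hx0).continuousAt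
  have hp : pr s x = x := pr_self hs hx
  have hH : ∀ v : ℂ, ∀ᶠ y in 𝓝 x,
      ‖fderiv ℝ ℓ y (y * v) - fderiv ℝ ℓ (pr s y) (pr s y * v)‖ < κ := by
    intro v
    have h1 := cont_H hℓ hxA v
    have h2 : ContinuousAt (fun y => fderiv ℝ ℓ (pr s y) (pr s y * v)) x := by
      have h3 : ContinuousAt (fun y => fderiv ℝ ℓ y (y * v)) (pr s x) := by rw [hp]; exact h1
      exact ContinuousAt.comp (f := pr s) h3 hpc
    have h4 := (h1.sub h2).norm
    refine ContinuousAt.eventually_lt h4 continuousAt_const ?_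
    change ‖fderiv ℝ ℓ x (x * v) - fderiv ℝ ℓ (pr s x) (pr s x * v)‖ < κ
    rw [hp, sub_self, norm_zero]
    exact hκ
  filter_upwards [(isOpen_An s δ).mem_nhds hxA, hH 1, hH I] with y h1 h2 h3
  simp only [mul_one] at h2
  exact ⟨h1, h2, h3⟩

theorem main : S_CUT → S_MOD := by
  intro hcut s c C η hs hc hη hηs
  -- constants
  obtain ⟨η', hη', hη1⟩ := exp_near hs hη
  obtain ⟨χ₂, ρ₂, hχ₂, hρ₂, hρη, hχ₂1, hχ₂0, hχ₂b, hχ₂d⟩ := hcut 1 η' one_pos hη'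
  set C₀ := |C| with hC₀
  have hC₀0 : 0 ≤ C₀ := abs_nonneg _
  set m := min 1 c with hm
  have hm0 : 0 < m := lt_min one_pos hc
  have hm1 : m ≤ 1 := min_le_left _ _
  have hmc : m ≤ c := min_le_right _ _
  set ε := min (1 / 8) (min (m / (32 * (C₀ + 2))) (ρ₂ / 2)) with hε
  have hε0 : 0 < ε := lt_min (by norm_num) (lt_min (by positivity) (by positivity))
  have hε1 : ε ≤ 1 / 8 := min_le_left _ _
  have hε2 : ε ≤ m / (32 * (C₀ + 2)) := (min_le_right _ _).trans (min_le_left _ _)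
  have hε3 : ε ≤ ρ₂ / 2 := (min_le_right _ _).trans (min_le_right _ _)
  refine ⟨ε, hε0, ?_⟩
  intro ℓ δ hδ hℓ hbd
  set κ := min ε (min (c / 4) 1) with hκ
  have hκ0 : 0 < κ := lt_min hε0 (lt_min (by positivity) one_pos)
  have hκ1 : κ ≤ ε := min_le_left _ _
  have hκ2 : κ ≤ c / 4 := (min_le_right _ _).trans (min_le_left _ _)
  have hκ3 : κ ≤ 1 := (min_le_right _ _).trans (min_le_right _ _)
  obtain ⟨δ₃, hδ₃, hδ₃'⟩ := circle_small hs hδ hℓ hκ0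
  obtain ⟨δ₄, hδ₄, hδ₄'⟩ := exp_near hs hδ₃
  set δ₂ := min δ₄ (min ρ₂ η') with hδ₂
  have hδ₂0 : 0 < δ₂ := lt_min hδ₄ (lt_min hρ₂ hη')
  have hδ₂a : δ₂ ≤ δ₄ := min_le_left _ _
  have hδ₂b : δ₂ ≤ ρ₂ := (min_le_right _ _).trans (min_le_left _ _)
  have hδ₂c : δ₂ ≤ η' := (min_le_right _ _).trans (min_le_right _ _)
  set ε₁ := m / (4 * (C₀ + 2)) with hε₁
  have hε₁0 : 0 < ε₁ := by positivity
  have hε₁1 : ε₁ * (C₀ + 1) ≤ m / 4 := by
    have : ε₁ * (C₀ + 2) = m / 4 := by rw [hε₁]; field_simp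
    nlinarith
  obtain ⟨χ₁, ρ₁, hχ₁, hρ₁, hρδ, hχ₁1, hχ₁0, hχ₁b, hχ₁d⟩ :=
    hcut ε₁ (δ₂ / 2) hε₁0 (by positivity)
  -- derivative of the second cutoff
  have hχ₂z : ∀ t, |t| < ρ₂ → deriv χ₂ t = 0 := by
    intro t ht
    have : χ₂ =ᶠ[𝓝 t] fun _ => 1 := by
      have h1 : ∀ᶠ u in 𝓝 t, |u| < ρ₂ :=
        ContinuousAt.eventually_lt (by fun_prop) continuousAt_const ht
      filter_upwards [h1] with u hu
      exact hχ₂1 u hu.le
    rw [this.deriv_eq, deriv_const]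
  have hχ₂k : ∀ t, |deriv χ₂ t| * ρ₂ ≤ 1 := by
    intro t
    rcases lt_or_ge |t| ρ₂ with h | h
    · rw [hχ₂z t h]; simp
    · have h1 := hχ₂d t
      have h2 := abs_nonneg (deriv χ₂ t)
      nlinarith
  -- the good annulus
  have hgood : ∀ ζ : ℂ, |ζ.re| < δ₂ → Em s ζ ∈ An s δ ∧
      ‖fderiv ℝ ℓ (Em s ζ) (Em s ζ) - fderiv ℝ ℓ (Em s (ζ.im * I)) (Em s (ζ.im * I))‖ < κ ∧
      ‖fderiv ℝ ℓ (Em s ζ) (Em s ζ * I) -
        fderiv ℝ ℓ (Em s (ζ.im * I)) (Em s (ζ.im * I) * I)‖ < κ := by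
    intro ζ hζ
    have h1 := hδ₄' (Em s ζ) (Em_ne hs ζ) (by rw [lr_Em hs]; exact hζ.trans_le hδ₂a)
    have h2 := hδ₃' _ h1
    rw [pr_Em hs] at h2
    exact h2
  have hdif : ∀ x ∈ An s δ, DifferentiableAt ℝ ℓ x := fun x hx =>
    (hℓ.contDiffAt ((isOpen_An s δ).mem_nhds hx)).differentiableAt (by simp)
  have hcirc : ∀ θ : ℝ, ‖Em s (θ * I)‖ = s := by
    intro θ
    rw [norm_Em hs]; simp
  have hcircA : ∀ θ : ℝ, Em s (θ * I) ∈ An s δ := by
    intro θ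
    have := hcirc θ
    exact ⟨by linarith, by linarith⟩
  have hb1 : ∀ θ : ℝ, ‖ℓ (Em s (θ * I))‖ ≤ ε := fun θ => (hbd _ (hcirc θ)).1
  have hb2 : ∀ θ : ℝ, ‖fderiv ℝ ℓ (Em s (θ * I)) (Em s (θ * I) * I)‖ ≤ ε := fun θ => by
    have h := (hbd _ (hcirc θ)).2.1
    rw [mul_comm I] at h
    exact h
  have hb3 : ∀ θ : ℝ, ‖fderiv ℝ ℓ (Em s (θ * I)) (Em s (θ * I))‖ ≤ C₀ := fun θ =>
    ((hbd _ (hcirc θ)).2.2.1).trans (le_abs_self _)
  have hb4 : ∀ θ : ℝ, c ≤ 1 + (fderiv ℝ ℓ (Em s (θ * I)) (Em s (θ * I))).re := fun θ =>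
    (hbd _ (hcirc θ)).2.2.2
  -- the radial increment
  have hinc : ∀ ζ : ℂ, |ζ.re| < δ₂ →
      ‖ℓ (Em s ζ) - ℓ (Em s (ζ.im * I))‖ ≤ (C₀ + 1) * |ζ.re| := by
    intro ζ hζ
    have hd : ∀ u ∈ Ioo (-δ₂) δ₂, HasDerivWithinAt
        (fun u : ℝ => ℓ (Em s ((ζ.im * I : ℂ) + (u : ℂ) * 1)))
        (fderiv ℝ ℓ (Em s ((u : ℂ) + ζ.im * I)) (Em s ((u : ℂ) + ζ.im * I))) (Ioo (-δ₂) δ₂) u := by
      intro u hu
      have hm1 : |((u : ℂ) + ζ.im * I).re| < δ₂ := by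
        simp only [Complex.add_re, Complex.ofReal_re, Complex.mul_re, Complex.I_re, mul_zero,
          Complex.ofReal_im, Complex.I_im, mul_one, sub_self, add_zero]
        exact abs_lt.2 hu
      have h1 := l_path (hdif _ (hgood _ hm1).1) 1
      rw [mul_one] at h1
      have h2 : HasDerivAt (fun v : ℝ => ℓ (Em s (((u : ℂ) + ζ.im * I) + ((v - u : ℝ) : ℂ) * 1)))
          (fderiv ℝ ℓ (Em s ((u : ℂ) + ζ.im * I)) (Em s ((u : ℂ) + ζ.im * I))) u := by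
        have h3 : HasDerivAt (fun v : ℝ => ℓ (Em s (((u : ℂ) + ζ.im * I) + ((v : ℝ) : ℂ) * 1)))
          (fderiv ℝ ℓ (Em s ((u : ℂ) + ζ.im * I)) (Em s ((u : ℂ) + ζ.im * I))) (u - u) := by
          rw [sub_self]; exact h1
        exact h3.comp_sub_const u u
      have h4 : (fun v : ℝ => ℓ (Em s (((u : ℂ) + ζ.im * I) + ((v - u : ℝ) : ℂ) * 1))) =
          (fun u : ℝ => ℓ (Em s ((ζ.im * I : ℂ) + (u : ℂ) * 1))) := by
        ext v
        congr 2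
        push_cast
        ring
      rw [h4] at h2
      exact h2.hasDerivWithinAt
    have hbnd : ∀ u ∈ Ioo (-δ₂) δ₂,
        ‖fderiv ℝ ℓ (Em s ((u : ℂ) + ζ.im * I)) (Em s ((u : ℂ) + ζ.im * I))‖ ≤ C₀ + 1 := by
      intro u hu
      have hm1 : |((u : ℂ) + ζ.im * I).re| < δ₂ := by
        simp only [Complex.add_re, Complex.ofReal_re, Complex.mul_re, Complex.I_re, mul_zero,
          Complex.ofReal_im, Complex.I_im, mul_one, sub_self, add_zero]
        exact abs_lt.2 hu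
      have h1 := (hgood _ hm1).2.1
      have h2 := hb3 (((u : ℂ) + ζ.im * I).im)
      have h3 := norm_sub_norm_le (fderiv ℝ ℓ (Em s ((u : ℂ) + ζ.im * I))
        (Em s ((u : ℂ) + ζ.im * I))) (fderiv ℝ ℓ (Em s (((u : ℂ) + ζ.im * I).im * I))
        (Em s (((u : ℂ) + ζ.im * I).im * I)))
      linarith
    have h0 : (0 : ℝ) ∈ Ioo (-δ₂) δ₂ := ⟨by linarith, hδ₂0⟩
    have := (convex_Ioo (-δ₂) δ₂).norm_image_sub_le_of_norm_hasDerivWithin_le hd hbnd h0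
      (abs_lt.1 hζ : ζ.re ∈ Ioo (-δ₂) δ₂)
    simp only [Complex.ofReal_zero, zero_mul, add_zero, mul_one, sub_zero, Real.norm_eq_abs]
      at this
    have e0 : (ζ.im * I : ℂ) + ζ.re = ζ := by
      rw [add_comm, Complex.re_add_im]
    rw [e0] at this
    exact this
  -- smoothness of `lt`
  have hsm : ∀ x : ℂ, x ≠ 0 → ContDiffAt ℝ ∞ (lt χ₁ χ₂ ℓ s) x := by
    intro x hx
    have hprA : pr s x ∈ An s δ := by
      have := norm_pr hs hx
      exact ⟨by linarith, by linarith⟩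
    have e1 : ContDiffAt ℝ ∞ (fun x => ℓ (pr s x)) x :=
      ContDiffAt.comp x (hℓ.contDiffAt ((isOpen_An s δ).mem_nhds hprA)) (pr_cd hx)
    have e2 : ContDiffAt ℝ ∞ (fun x => ((χ₂ (lr s x) : ℝ) : ℂ)) x :=
      Complex.ofRealCLM.contDiff.contDiffAt.comp x
        (ContDiffAt.comp x hχ₂.contDiffAt (lr_cd hs hx))
    have e3 : ContDiffAt ℝ ∞ (fun x => ((χ₁ (lr s x) : ℝ) : ℂ)) x :=
      Complex.ofRealCLM.contDiff.contDiffAt.comp x
        (ContDiffAt.comp x hχ₁.contDiffAt (lr_cd hs hx))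
    rcases lt_or_ge |lr s x| δ₂ with h | h
    · have hxA : x ∈ An s δ := (hδ₃' x (hδ₄' x hx (h.trans_le hδ₂a))).1
      have e4 : ContDiffAt ℝ ∞ ℓ x := hℓ.contDiffAt ((isOpen_An s δ).mem_nhds hxA)
      exact (e3.mul (e4.sub e1)).add (e2.mul e1)
    · have h5 : ∀ᶠ y in 𝓝 x, δ₂ / 2 < |lr s y| :=
        ContinuousAt.eventually_lt continuousAt_const (lr_cd hs hx).continuousAt.abs
          (by linarith)
      have h6 : lt χ₁ χ₂ ℓ s =ᶠ[𝓝 x] fun x => ((χ₂ (lr s x) : ℝ) : ℂ) * ℓ (pr s x) := by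
        filter_upwards [h5] with y hy
        rw [lt, hχ₁0 _ hy.le]
        simp
      exact (e2.mul e1).congr_of_eventuallyEq h6
  have hzero : ∀ x : ℂ, x ∉ An s η → x ≠ 0 → lt χ₁ χ₂ ℓ s x = 0 := by
    intro x hx hx0
    have h1 : η' ≤ |lr s x| := by
      by_contra h
      exact hx (hη1 x hx0 (not_le.1 h))
    rw [lt, hχ₂0 _ h1, hχ₁0 _ (by linarith)]
    simp
  -- the function in logarithmic coordinates
  have hval : ∀ ζ : ℂ, lt χ₁ χ₂ ℓ s (Em s ζ) =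
      (χ₁ ζ.re : ℂ) * (ℓ (Em s ζ) - ℓ (Em s (ζ.im * I))) + (χ₂ ζ.re : ℂ) * ℓ (Em s (ζ.im * I)) := by
    intro ζ
    rw [lt, lr_Em hs, pr_Em hs]
  have hΛ : ∀ ζ, DifferentiableAt ℝ (fun ζ => lt χ₁ χ₂ ℓ s (Em s ζ)) ζ := by
    intro ζ
    have hEc : ContDiffAt ℝ ∞ (Em s) ζ := by
      unfold Em
      exact contDiffAt_const.mul contDiffAt_id.cexp
    exact (ContDiffAt.comp ζ (hsm _ (Em_ne hs ζ)) hEc).differentiableAt (by simp)
  have hΛv : ∀ ζ v, HasDerivAt (fun u : ℝ => lt χ₁ χ₂ ℓ s (Em s (ζ + (u : ℂ) * v)))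
      (fderiv ℝ (fun ζ => lt χ₁ χ₂ ℓ s (Em s ζ)) ζ v) 0 := by
    intro ζ v
    have e1 : HasDerivAt (fun u : ℝ => ζ + (u : ℂ) * v) v 0 := by
      have := (Complex.ofRealCLM.hasDerivAt (x := (0 : ℝ))).mul_const v
      have := this.const_add ζ
      simpa using this
    have h0 : ζ + ((0 : ℝ) : ℂ) * v = ζ := by simp
    have e2 : HasFDerivAt (fun ζ => lt χ₁ χ₂ ℓ s (Em s ζ))
        (fderiv ℝ (fun ζ => lt χ₁ χ₂ ℓ s (Em s ζ)) ζ) (ζ + ((0 : ℝ) : ℂ) * v) := by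
      rw [h0]; exact (hΛ ζ).hasFDerivAt
    exact e2.comp_hasDerivAt (0 : ℝ) e1
  -- radial derivative
  have hR : ∀ ζ, m / 2 ≤ 1 + (fderiv ℝ (fun ζ => lt χ₁ χ₂ ℓ s (Em s ζ)) ζ 1).re ∧
      ‖fderiv ℝ (fun ζ => lt χ₁ χ₂ ℓ s (Em s ζ)) ζ 1‖ ≤ C₀ + 2 := by
    intro ζ
    have hre : ∀ u : ℝ, (ζ + (u : ℂ) * 1).re = ζ.re + u := by intro u; simp
    have him : ∀ u : ℝ, (ζ + (u : ℂ) * 1).im = ζ.im := by intro u; simp
    rcases lt_or_ge |ζ.re| δ₂ with h | h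
    · obtain ⟨g1, g2, g3⟩ := hgood ζ h
      have d1 := l_path (hdif _ g1) 1
      rw [mul_one] at d1
      have d2 := (chi_path hχ₁ ζ.re).mul (d1.sub_const (ℓ (Em s (ζ.im * I))))
      have d3 := (chi_path hχ₂ ζ.re).mul_const (ℓ (Em s (ζ.im * I)))
      have d4 := d2.add d3
      have e : (fun u : ℝ => lt χ₁ χ₂ ℓ s (Em s (ζ + (u : ℂ) * 1))) =
          fun u : ℝ => ((χ₁ (ζ.re + u) : ℝ) : ℂ) * (ℓ (Em s (ζ + (u : ℂ) * 1)) -
            ℓ (Em s (ζ.im * I))) + ((χ₂ (ζ.re + u) : ℝ) : ℂ) * ℓ (Em s (ζ.im * I)) := by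
        ext u
        rw [hval, hre, him]
      have d5 := hΛv ζ 1
      rw [e] at d5
      have d6 := d5.unique d4
      rw [d6]
      have hx2 : deriv χ₂ ζ.re = 0 := hχ₂z _ (h.trans_le hδ₂b)
      simp only [add_zero, Complex.ofReal_zero, zero_mul, hx2]
      set X := fderiv ℝ ℓ (Em s ζ) (Em s ζ) with hX
      set Y := fderiv ℝ ℓ (Em s (ζ.im * I)) (Em s (ζ.im * I)) with hY
      set D := ℓ (Em s ζ) - ℓ (Em s (ζ.im * I)) with hD
      have k1 : ‖((deriv χ₁ ζ.re : ℝ) : ℂ) * D‖ ≤ m / 4 := by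
        rw [norm_mul, Complex.norm_real, Real.norm_eq_abs]
        calc |deriv χ₁ ζ.re| * ‖D‖ ≤ |deriv χ₁ ζ.re| * ((C₀ + 1) * |ζ.re|) :=
              mul_le_mul_of_nonneg_left (hinc ζ h) (abs_nonneg _)
          _ = (|ζ.re| * |deriv χ₁ ζ.re|) * (C₀ + 1) := by ring
          _ ≤ ε₁ * (C₀ + 1) := mul_le_mul_of_nonneg_right (hχ₁d _) (by linarith)
          _ ≤ m / 4 := hε₁1
      have k2 : -κ ≤ X.re - Y.re := by
        have := (abs_le.1 ((Complex.abs_re_le_norm (X - Y)).trans g2.le)).1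
        simpa using this
      have k3 := hb4 ζ.im
      rw [← hY] at k3
      have k4 := hχ₁b ζ.re
      have k5 : ‖X‖ ≤ C₀ + 1 := by
        have h1 := norm_sub_norm_le X Y
        have h2 := hb3 ζ.im
        rw [← hY] at h2
        linarith
      constructor
      · rw [Complex.add_re, Complex.re_ofReal_mul (χ₁ ζ.re) X]
        have k6 := (abs_le.1 ((Complex.abs_re_le_norm _).trans k1)).1
        have k7 : 3 * m / 4 ≤ 1 + χ₁ ζ.re * X.re := by nlinarith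
        linarith
      · refine (norm_add_le _ _).trans ?_
        have k8 : ‖((χ₁ ζ.re : ℝ) : ℂ) * X‖ ≤ C₀ + 1 := by
          rw [norm_mul, Complex.norm_real, Real.norm_eq_abs, abs_of_nonneg k4.1]
          have := norm_nonneg X
          nlinarith
        linarith
    · have d3 := (chi_path hχ₂ ζ.re).mul_const (ℓ (Em s (ζ.im * I)))
      have e : (fun u : ℝ => lt χ₁ χ₂ ℓ s (Em s (ζ + (u : ℂ) * 1))) =ᶠ[𝓝 0]
          fun u : ℝ => ((χ₂ (ζ.re + u) : ℝ) : ℂ) * ℓ (Em s (ζ.im * I)) := by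
        have h5 : ∀ᶠ u : ℝ in 𝓝 0, δ₂ / 2 < |ζ.re + u| :=
          ContinuousAt.eventually_lt continuousAt_const (by fun_prop) (by simpa using by linarith)
        filter_upwards [h5] with u hu
        rw [hval, hre, him, hχ₁0 _ hu.le]
        simp
      have d5 := (hΛv ζ 1).congr_of_eventuallyEq e.symm
      have d6 := d5.unique d3
      rw [d6]
      have k1 : ‖((deriv χ₂ ζ.re : ℝ) : ℂ) * ℓ (Em s (ζ.im * I))‖ ≤ 1 / 2 := by
        rw [norm_mul, Complex.norm_real, Real.norm_eq_abs]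
        calc |deriv χ₂ ζ.re| * ‖ℓ (Em s (ζ.im * I))‖ ≤ |deriv χ₂ ζ.re| * (ρ₂ / 2) :=
              mul_le_mul_of_nonneg_left ((hb1 _).trans hε3) (abs_nonneg _)
          _ ≤ 1 / 2 := by have := hχ₂k ζ.re; linarith
      constructor
      · have k6 := (abs_le.1 ((Complex.abs_re_le_norm _).trans k1)).1
        linarith
      · linarith
  -- angular derivative
  have hA : ∀ ζ, ‖fderiv ℝ (fun ζ => lt χ₁ χ₂ ℓ s (Em s ζ)) ζ I‖ ≤ 2 * ε := by
    intro ζ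
    have hre : ∀ u : ℝ, (ζ + (u : ℂ) * I).re = ζ.re := by intro u; simp
    have him : ∀ u : ℝ, ((ζ + (u : ℂ) * I).im : ℂ) * I = ζ.im * I + (u : ℂ) * I := by
      intro u; simp; ring
    have d2 := l_path (hdif _ (hcircA ζ.im)) I
    have b2 := hb2 ζ.im
    rcases lt_or_ge |ζ.re| δ₂ with h | h
    · obtain ⟨g1, g2, g3⟩ := hgood ζ h
      have d1 := l_path (hdif _ g1) I
      have d4 := ((d1.sub d2).const_mul ((χ₁ ζ.re : ℝ) : ℂ)).add
        (d2.const_mul ((χ₂ ζ.re : ℝ) : ℂ))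
      have e : (fun u : ℝ => lt χ₁ χ₂ ℓ s (Em s (ζ + (u : ℂ) * I))) =
          fun u : ℝ => ((χ₁ ζ.re : ℝ) : ℂ) * (ℓ (Em s (ζ + (u : ℂ) * I)) -
            ℓ (Em s (ζ.im * I + (u : ℂ) * I))) +
            ((χ₂ ζ.re : ℝ) : ℂ) * ℓ (Em s (ζ.im * I + (u : ℂ) * I)) := by
        ext u
        rw [hval, hre, him]
      have d5 := hΛv ζ I
      rw [e] at d5
      have d6 := d5.unique d4
      rw [d6]
      have k4 := hχ₁b ζ.re
      have k5 := hχ₂b ζ.re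
      refine (norm_add_le _ _).trans ?_
      rw [norm_mul, norm_mul, Complex.norm_real, Complex.norm_real, Real.norm_eq_abs,
        Real.norm_eq_abs, abs_of_nonneg k4.1, abs_of_nonneg k5.1]
      have n1 := norm_nonneg (fderiv ℝ ℓ (Em s ζ) (Em s ζ * I) -
        fderiv ℝ ℓ (Em s (ζ.im * I)) (Em s (ζ.im * I) * I))
      have n2 := norm_nonneg (fderiv ℝ ℓ (Em s (ζ.im * I)) (Em s (ζ.im * I) * I))
      nlinarith
    · have d3 := d2.const_mul ((χ₂ ζ.re : ℝ) : ℂ)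
      have e : (fun u : ℝ => lt χ₁ χ₂ ℓ s (Em s (ζ + (u : ℂ) * I))) =
          fun u : ℝ => ((χ₂ ζ.re : ℝ) : ℂ) * ℓ (Em s (ζ.im * I + (u : ℂ) * I)) := by
        ext u
        rw [hval, hre, him, hχ₁0 _ (by linarith)]
        simp
      have d5 := hΛv ζ I
      rw [e] at d5
      have d6 := d5.unique d3
      rw [d6]
      have k5 := hχ₂b ζ.re
      rw [norm_mul, Complex.norm_real, Real.norm_eq_abs, abs_of_nonneg k5.1]
      have n2 := norm_nonneg (fderiv ℝ ℓ (Em s (ζ.im * I)) (Em s (ζ.im * I) * I))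
      nlinarith
  have hfin : 2 * (2 * ε) * (C₀ + 2) < m / 2 := by
    have h1 : ε * (32 * (C₀ + 2)) ≤ m := by
      rw [le_div_iff₀ (by positivity)] at hε2
      exact hε2
    linarith
  obtain ⟨f1, f2, f3, f4⟩ := descend hs hηs hsm hzero (c := m / 2) (C := C₀ + 2) (e := 2 * ε)
    (by linarith) hfin (fun ζ => (hR ζ).1) (fun ζ => (hR ζ).2) hA
  obtain ⟨ρ, hρ, hρ'⟩ := log_near hs (lt_min hρ₁ hρ₂)
  refine ⟨fun x => x * exp (lt χ₁ χ₂ ℓ s x), f1, f2, f3, f4, min ρ (δ / 2),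
    lt_min hρ (by positivity), (min_le_right _ _).trans_lt (by linarith), ?_⟩
  intro x hx
  have h1 := hρ' x ⟨by have := hx.1; have := min_le_left ρ (δ / 2); linarith,
    by have := hx.2; have := min_le_left ρ (δ / 2); linarith⟩
  have h2 : lt χ₁ χ₂ ℓ s x = ℓ x := by
    rw [lt, hχ₁1 _ (h1.le.trans (min_le_left _ _)), hχ₂1 _ (h1.le.trans (min_le_right _ _))]
    simp
  simp only [h2]

end Pool.Agent.N550.KH.Mod
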