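import Pool.Agent.N550.KH.Stm
import Pool.Agent.Y522.Tools

/-!
# Project KH, step 1: one 1-handle
-/

set_option autoImplicit false
set_option linter.unusedSectionVars false

open Set Filter Topology Metric Function MeasureTheory
open scoped Manifold ContDiff

noncomputable section

namespace Pool.Agent.N550.KH.One

open Pool.Agent.Y522 Pool.Agent.N550.KH

section tools

variable {n : ℕ} {M N : Type} [TopologicalSpace M] [ChartedSpace (E n) M]
  [TopologicalSpace N] [ChartedSpace (E n) N]

/-- the inverse of an open embedding `E n → N` -/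
def linv (l : E n → N) : N → E n := invFun l

theorem linv_l {l : E n → N} (hl : Injective l) (z : E n) : linv l (l z) = z :=
  leftInverse_invFun hl z

theorem linv_ld {l : E n → N} (hl : Injective l) (hld : ∀ z, LD n l z) (z : E n) :
    LD n (linv l) (l z) :=
  LD.inverse isOpen_univ (fun x _ => hld x) (fun x _ => linv_l hl x) (mem_univ z)

theorem open_range {l : E n → N} (hld : ∀ z, LD n l z) : IsOpen (range l) := by
  rw [← image_univ]; exact isOpen_image_of_LD isOpen_univ (fun x _ => hld x)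

/-- a homeomorphism followed by the inverse of an open embedding `E n → N` -/
def mkF (g : M ≃ₜ N) (l : E n → N) (hl : Injective l) (hld : ∀ z, LD n l z) :
    OpenPartialHomeomorph M (E n) where
  toFun x := linv l (g x)
  invFun z := g.symm (l z)
  source := g ⁻¹' range l
  target := univ
  map_source' _ _ := mem_univ _
  map_target' z _ := by
    show g (g.symm (l z)) ∈ range l
    rw [g.apply_symm_apply]; exact ⟨z, rfl⟩
  left_inv' := by
    rintro x ⟨z, hz⟩
    rw [← hz, linv_l hl, hz, g.symm_apply_apply]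
  right_inv' := by
    intro z _
    rw [g.apply_symm_apply, linv_l hl]
  open_source := (open_range hld).preimage g.continuous
  open_target := isOpen_univ
  continuousOn_toFun := by
    rintro x ⟨z, hz⟩
    apply ContinuousAt.continuousWithinAt
    refine ContinuousAt.comp (f := g) (g := linv l) ?_ g.continuous.continuousAt
    rw [← hz]
    exact (linv_ld hl hld z).continuousAt
  continuousOn_invFun := by
    refine Continuous.continuousOn ?_
    exact g.symm.continuous.comp (continuous_iff_continuousAt.2 fun z => (hld z).continuousAt)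

theorem mkF_apply (g : M ≃ₜ N) (l : E n → N) (hl : Injective l) (hld : ∀ z, LD n l z) (x : M) :
    mkF g l hl hld x = linv l (g x) := rfl

theorem mkF_source (g : M ≃ₜ N) (l : E n → N) (hl : Injective l) (hld : ∀ z, LD n l z) :
    (mkF g l hl hld).source = g ⁻¹' range l := rfl

theorem mkF_target (g : M ≃ₜ N) (l : E n → N) (hl : Injective l) (hld : ∀ z, LD n l z) :
    (mkF g l hl hld).target = univ := rfl

theorem mkF_l (g : M ≃ₜ N) (l : E n → N) (hl : Injective l) (hld : ∀ z, LD n l z) {x : M}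
    (hx : x ∈ (mkF g l hl hld).source) : l (mkF g l hl hld x) = g x := by
  obtain ⟨z, hz⟩ := hx
  rw [mkF_apply, ← hz, linv_l hl]

theorem nullH_mono {B B' : Set N} (h : B ⊆ B') (hB : NullH n B') : NullH n B := by
  intro l hl hld
  exact measure_mono_null (preimage_mono h) (hB l hl hld)

/-- the inverse of a diffeomorphism -/
theorem IsDf_inv {K : N → N} (hK : IsDf n K) : ∃ K' : N → N, (∀ x, K' (K x) = x) ∧
    (∀ x, K (K' x) = x) ∧ ∀ x, LD n K' x := by
  let e := Equiv.ofBijective K hK.1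
  refine ⟨e.symm, fun x => e.symm_apply_apply x, fun x => e.apply_symm_apply x, fun x => ?_⟩
  exact LD.inverse_bij hK.1 hK.2 (fun x => e.symm_apply_apply x) x

theorem nullH_image {B : Set N} (hB : NullH n B) {K : N → N} (hK : IsDf n K) :
    NullH n (K '' B) := by
  intro l hl hld
  obtain ⟨K', h1, h2, h3⟩ := IsDf_inv hK
  have h4 := hB (fun z => K' (l z)) (fun a b hab => hl (by
    have := congrArg K hab
    simpa only [h2] using this)) (fun z => LD.comp_fun (h3 _) (hld z))
  have h5 : l ⁻¹' (K '' B) = (fun z => K' (l z)) ⁻¹' B := by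
    ext z
    constructor
    · rintro ⟨b, hb, hbz⟩
      show K' (l z) ∈ B
      rw [← hbz, h1]; exact hb
    · intro hz
      exact ⟨K' (l z), hz, h2 _⟩
  rw [h5]; exact h4

theorem coord_null {l : E n → N} (hl : Injective l) (hld : ∀ z, LD n l z) {B : Set N}
    (hB : NullH n B) (i : Fin n) : volume ((fun z : E n => z i) '' (l ⁻¹' B)) = 0 := by
  have hlip : LipschitzWith 1 (fun z : E n => z i) := by
    refine LipschitzWith.of_dist_le_mul fun u v => ?_
    rw [NNReal.coe_one, one_mul, Real.dist_eq, dist_eq_norm]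
    exact PiLp.norm_apply_le (u - v) i
  have h2 := hlip.hausdorffMeasure_image_le (d := 1) zero_le_one (l ⁻¹' B)
  rw [hB l hl hld, mul_zero, hausdorffMeasure_real] at h2
  exact le_antisymm h2 bot_le

theorem sm_comp {P : Type} [TopologicalSpace P] [ChartedSpace (E n) P] {f : M → N} {g : N → P}
    {x : M} (hf : Sm n f x) (hg : ∀ᶠ y in 𝓝 (f x), ContMDiffAt (𝓡 n) (𝓡 n) ∞ g y) :
    Sm n (fun y => g (f y)) x := by
  have hc : ContinuousAt f x := hf.self_of_nhds.continuousAt
  filter_upwards [hf, hc.eventually hg] with y h1 h2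
  exact h2.comp y h1

theorem sm_congr {f g : M → N} {x : M} (hf : Sm n f x) (h : g =ᶠ[𝓝 x] f) : Sm n g x := by
  filter_upwards [hf, h.eventuallyEq_nhds] with y h1 h2
  exact h1.congr_of_eventuallyEq h2

theorem ld_sm {f : M → N} {x : M} (hf : LD n f x) : Sm n f x := by
  filter_upwards [hf.eventually] with y hy
  exact hy.contMDiffAt

theorem isOpen_compl_Bad (f : M → N) : IsOpen (Bad n f)ᶜ := by
  rw [isOpen_iff_mem_nhds]
  intro x hx
  have h1 : ∀ᶠ y in 𝓝 x, ContMDiffAt (𝓡 n) (𝓡 n) ∞ f y := not_not.1 hx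
  filter_upwards [h1.eventually_nhds] with y hy
  exact not_not.2 hy

theorem not_bad {f : M → N} {x : M} : x ∉ Bad n f ↔ Sm n f x := not_not

end tools

/-- Steps (1)-(3): the position of the 1-handle is improved by a vertical shift. -/
theorem position (hVS : S_VS) (hSU : S_SUPP) (hRG : S_REG) (k : ℕ) (M N : Type)
    [TopologicalSpace M] [CompactSpace M] [T2Space M]
    [ChartedSpace (E (1 + k)) M] [IsManifold (𝓡 (1 + k)) ∞ M] [TopologicalSpace N]
    [CompactSpace N] [T2Space N] [ChartedSpace (E (1 + k)) N] [IsManifold (𝓡 (1 + k)) ∞ N]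
    (f : M ≃ₜ N) (l : E (1 + k) → N) (Y : Set N) (hk : 0 < k)
    (hB : NullH (1 + k) (f '' Bad (1 + k) f)) (hl : Injective l) (hld : ∀ z, LD (1 + k) l z)
    (hY : ∀ z, l z ∈ Y ↔ 1 ≤ ‖up 1 k z‖) (hfY : ∀ x, f x ∈ Y → LD (1 + k) f x) :
    ∃ (f1 : M ≃ₜ N) (K : N → N), IsDf (1 + k) K ∧ (∀ x, f1 x = K (f x)) ∧
      (∀ x, f1 x ∈ Y → LD (1 + k) f1 x) ∧
      ∀ x ∈ (mkF f1 l hl hld).source, vp 1 k (mkF f1 l hl hld x) = 0 →
        ‖up 1 k (mkF f1 l hl hld x)‖ < 2 → Sm (1 + k) (mkF f1 l hl hld) x ∧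
        Surjective (mfderiv (𝓡 (1 + k)) (𝓡 k) (fun y => vp 1 k (mkF f1 l hl hld y)) x) := by
  classical
  have hsc : SecondCountableTopology M :=
    ChartedSpace.secondCountable_of_sigmaCompact (E (1 + k)) M
  set F0 := mkF f l hl hld with hF0
  let p : M → E k := fun x => if x ∈ F0.source then vp 1 k (F0 x) else 0
  have hpin : ∀ x ∈ F0.source, p x = vp 1 k (F0 x) := fun x hx => if_pos hx
  have hpout : ∀ x, x ∉ F0.source → p x = 0 := fun x hx => if_neg hx
  let G : Set M := F0.source ∩ (Bad (1 + k) f)ᶜ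
  have hG : IsOpen G := F0.open_source.inter (isOpen_compl_Bad _)
  have hp0 : ∀ x ∈ F0.source, p =ᶠ[𝓝 x] fun y => vp 1 k (F0 y) := by
    intro x hx
    filter_upwards [F0.open_source.mem_nhds hx] with y hy
    exact hpin y hy
  have hsm0 : ∀ x ∈ F0.source, Sm (1 + k) f x → Sm (1 + k) F0 x := by
    rintro x ⟨z, hz⟩ hf
    refine sm_comp (f := f) (g := linv l) hf ?_
    rw [← hz]
    exact ld_sm (linv_ld hl hld z)
  have hpG : ∀ x ∈ G, ContMDiffAt (𝓡 (1 + k)) (𝓡 k) ∞ p x := by
    intro x hx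
    have h1 : Sm (1 + k) F0 x := hsm0 x hx.1 (not_not.1 hx.2)
    have h2 : ContMDiffAt (𝓡 (1 + k)) (𝓡 k) ∞ (fun y => vp 1 k (F0 y)) x :=
      (vp 1 k).contMDiff.contMDiffAt.comp x h1.self_of_nhds
    exact h2.congr_of_eventuallyEq (hp0 x hx.1)
  have hnull : ∀ j : Fin k, volume ((fun x => p x j) '' Gᶜ) = 0 := by
    intro j
    refine measure_mono_null ?_ (measure_union_null (measure_singleton (0 : ℝ))
      (coord_null hl hld hB (Fin.natAdd 1 j)))
    rintro _ ⟨x, hx, rfl⟩
    by_cases hxs : x ∈ F0.source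
    · right
      have hbad : x ∈ Bad (1 + k) f := by
        by_contra h
        exact hx ⟨hxs, h⟩
      refine ⟨F0 x, ?_, ?_⟩
      · show l (F0 x) ∈ f '' Bad (1 + k) f
        rw [hF0, mkF_l f l hl hld hxs]
        exact ⟨x, hbad, rfl⟩
      · show (F0 x) (Fin.natAdd 1 j) = p x j
        rw [hpin x hxs, vp_apply]
    · left
      show p x j = 0
      rw [hpout x hxs]
      rfl
  obtain ⟨ρ, hρ, hVS'⟩ := hVS 1 k
  obtain ⟨y0, hy0, hreg⟩ := hRG 1 k M p G hk hG hpG hnull (ball 0 (min ρ 1)) isOpen_ball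
    ⟨0, mem_ball_self (lt_min hρ one_pos)⟩
  rw [mem_ball_zero_iff, lt_min_iff] at hy0
  obtain ⟨hyρ, hy1⟩ := hy0
  obtain ⟨κ, hκ, hκR, hκu, hκv⟩ := hVS' (-y0) (by rwa [norm_neg])
  obtain ⟨K, hK, hKl, hKo⟩ := hSU (1 + k) N l hl hld κ hκ hκR
  have hKc : Continuous K := continuous_iff_continuousAt.2 fun x => (hK.2 x).continuousAt
  let Kh : N ≃ₜ N := Continuous.homeoOfEquivCompactToT2 (f := Equiv.ofBijective K hK.1) hKc
  have hKh : ∀ x, Kh x = K x := fun x => rfl
  have hr : ∀ w, K w ∈ range l ↔ w ∈ range l := by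
    intro w
    constructor
    · rintro ⟨z, hz⟩
      by_contra hw
      rw [hKo w hw] at hz
      exact hw ⟨z, hz⟩
    · rintro ⟨z, rfl⟩
      rw [hKl]
      exact ⟨_, rfl⟩
  set f1 : M ≃ₜ N := f.trans Kh with hf1def
  have hf1 : ∀ x, f1 x = K (f x) := fun x => rfl
  have hF1 : ∀ x, x ∈ F0.source → mkF f1 l hl hld x = κ (F0 x) := by
    intro x hx
    rw [mkF_apply, hf1, ← mkF_l f l hl hld hx, hKl, linv_l hl]
  refine ⟨f1, K, hK, hf1, ?_, ?_⟩
  · intro x hx
    rw [hf1] at hx
    have h1 : f x ∈ Y := by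
      by_cases h2 : f x ∈ range l
      · obtain ⟨z, hz⟩ := h2
        rw [← hz, hKl, hY, hκu] at hx
        rw [← hz, hY]
        exact hx
      · rwa [hKo _ h2] at hx
    exact LD.comp_fun (g := K) (f := f) (hK.2 _) (hfY x h1)
  · intro x hx h0 h2
    have hxs : x ∈ F0.source := (hr _).1 hx
    rw [hF1 x hxs] at h0 h2
    rw [hκu] at h2
    have e3 : vp 1 k (κ (jn 1 k (up 1 k (F0 x)) y0)) = 0 := by
      rw [hκv _ (by rw [up_jn]; exact h2.le) (by rw [vp_jn]; exact hy1.le), vp_jn]
      exact add_neg_cancel y0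
    have e2 : F0 x = jn 1 k (up 1 k (F0 x)) y0 := by
      apply hκ.1.1
      rw [← jn_up_vp 1 k (κ (F0 x)), ← jn_up_vp 1 k (κ (jn 1 k (up 1 k (F0 x)) y0)), e3, h0, hκu,
        hκu, up_jn]
    have e4 : vp 1 k (F0 x) = y0 := by rw [e2, vp_jn]
    obtain ⟨hxG, hsurj⟩ := hreg x (by rw [hpin x hxs, e4])
    have hSm : Sm (1 + k) f x := not_not.1 hxG.2
    constructor
    · have h3 : Sm (1 + k) f1 x :=
        sm_comp (f := f) (g := K) hSm (Eventually.of_forall fun y => (hK.2 y).contMDiffAt)
      obtain ⟨z, hz⟩ := hx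
      refine sm_comp (f := f1) (g := linv l) h3 ?_
      rw [← hz]
      exact ld_sm (linv_ld hl hld z)
    · have hev : (fun y => vp 1 k (mkF f1 l hl hld y)) =ᶠ[𝓝 x] (fun z : E k => z + -y0) ∘ p := by
        have hcu : ContinuousAt (fun y => ‖up 1 k (F0 y)‖) x :=
          (ContinuousAt.comp (g := up 1 k) (f := F0) (up 1 k).continuous.continuousAt
            (F0.continuousAt hxs)).norm
        have hcv : ContinuousAt (fun y => ‖vp 1 k (F0 y)‖) x :=
          (ContinuousAt.comp (g := vp 1 k) (f := F0) (vp 1 k).continuous.continuousAt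
            (F0.continuousAt hxs)).norm
        have h5 : ‖vp 1 k (F0 x)‖ < 1 := by rw [e4]; exact hy1
        filter_upwards [F0.open_source.mem_nhds hxs, hcu.eventually (gt_mem_nhds h2),
          hcv.eventually (gt_mem_nhds h5)] with y hy3 hy4 hy5
        show vp 1 k (mkF f1 l hl hld y) = p y + -y0
        rw [hF1 y hy3, hκv _ hy4.le hy5.le, hpin y hy3]
      rw [hev.mfderiv_eq]
      have hpd : MDifferentiableAt (𝓡 (1 + k)) (𝓡 k) p x :=
        (hpG x hxG).mdifferentiableAt (by simp)
      have hgd : MDifferentiableAt (𝓡 k) (𝓡 k) (fun z : E k => z + -y0) (p x) :=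
        mdifferentiableAt_iff_differentiableAt.2 (by fun_prop)
      rw [mfderiv_comp x hgd hpd]
      have h6 : mfderiv (𝓡 k) (𝓡 k) (fun z : E k => z + -y0) (p x) =
          ContinuousLinearMap.id ℝ (E k) := by
        rw [mfderiv_eq_fderiv, fderiv_add_const]
        exact fderiv_fun_id
      rw [h6]
      exact hsurj

/-- Step 1: one 1-handle. -/
theorem main : S_VS → S_SUPP → S_REG → S_ARC → S_ONE := by
  intro hVS hSU hRG hARC k M N _ _ _ _ _ _ _ _ _ _ f l Y hk hB hl hld hY hfY
  classical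
  obtain ⟨f1, K, hK, hf1, hf1Y, hpos⟩ :=
    position hVS hSU hRG k M N f l Y hk hB hl hld hY hfY
  set F := mkF f1 l hl hld with hF
  have hFl : ∀ x ∈ F.source, l (F x) = f1 x := fun x hx => mkF_l f1 l hl hld hx
  have hFsrc : ∀ x, x ∈ F.source ↔ f1 x ∈ range l := fun x => Iff.rfl
  have hld1 : ∀ x ∈ F.source, LD (1 + k) f1 x → LD (1 + k) F x := by
    rintro x ⟨z, hz⟩ h
    refine LD.comp_fun (g := linv l) (f := f1) ?_ h
    rw [← hz]
    exact linv_ld hl hld z
  have hld2 : ∀ x ∈ F.source, 1 ≤ ‖up 1 k (F x)‖ → LD (1 + k) f1 x := by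
    intro x hx h
    apply hf1Y
    rw [← hFl x hx, hY]
    exact h
  obtain ⟨F', C, hs, ht, hC, hCs, hCsm, hFC, hF1, hsm, hldF, hcore⟩ :=
    hARC k M F rfl hpos (fun x hx _ h => hld1 x hx (hld2 x hx h))
  let g : M → N := fun x => if x ∈ F.source then l (F' x) else f1 x
  have hgin : ∀ x ∈ F.source, g x = l (F' x) := fun x hx => if_pos hx
  have hgout : ∀ x, x ∉ F.source → g x = f1 x := fun x hx => if_neg hx
  have hgC : ∀ x, x ∉ C → g x = f1 x := by
    intro x hx
    by_cases h : x ∈ F.source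
    · rw [hgin x h, hFC x hx, hFl x h]
    · exact hgout x h
  have hCo : IsOpen Cᶜ := hC.isClosed.isOpen_compl
  have hgCev : ∀ x, x ∉ C → g =ᶠ[𝓝 x] f1 := by
    intro x hx
    filter_upwards [hCo.mem_nhds hx] with y hy
    exact hgC y hy
  have hgsev : ∀ x ∈ F.source, g =ᶠ[𝓝 x] fun y => l (F' y) := by
    intro x hx
    filter_upwards [F.open_source.mem_nhds hx] with y hy
    exact hgin y hy
  have hgc : Continuous g := by
    rw [continuous_iff_continuousAt]
    intro x
    by_cases h : x ∈ F.source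
    · have h1 : ContinuousAt F' x := F'.continuousAt (by rw [hs]; exact h)
      exact ContinuousAt.congr (ContinuousAt.comp (g := l) (f := F') (hld _).continuousAt h1)
        (hgsev x h).symm
    · exact ContinuousAt.congr f1.continuous.continuousAt (hgCev x (fun hx => h (hCs hx))).symm
  have hF'inj : InjOn F' F.source := by rw [← hs]; exact F'.injOn
  have hginj : Injective g := by
    intro x y hxy
    by_cases hx : x ∈ F.source <;> by_cases hy : y ∈ F.source
    · rw [hgin x hx, hgin y hy] at hxy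
      exact hF'inj hx hy (hl hxy)
    · rw [hgin x hx, hgout y hy] at hxy
      exact absurd ((hFsrc y).2 ⟨_, hxy⟩) hy
    · rw [hgout x hx, hgin y hy] at hxy
      exact absurd ((hFsrc x).2 ⟨_, hxy.symm⟩) hx
    · rw [hgout x hx, hgout y hy] at hxy
      exact f1.injective hxy
  have hgsurj : Surjective g := by
    intro w
    by_cases hw : w ∈ range l
    · obtain ⟨z, rfl⟩ := hw
      have hz : z ∈ F'.target := by rw [ht]; trivial
      refine ⟨F'.symm z, ?_⟩
      have h1 : F'.symm z ∈ F.source := by rw [← hs]; exact F'.map_target hz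
      rw [hgin _ h1, F'.right_inv hz]
    · refine ⟨f1.symm w, ?_⟩
      have h1 : f1.symm w ∉ F.source := by
        rw [hFsrc, f1.apply_symm_apply]; exact hw
      rw [hgout _ h1, f1.apply_symm_apply]
  let f' : M ≃ₜ N :=
    Continuous.homeoOfEquivCompactToT2 (f := Equiv.ofBijective g ⟨hginj, hgsurj⟩) hgc
  have hf' : (f' : M → N) = g := rfl
  have hlsm : ∀ x, Sm (1 + k) F' x → Sm (1 + k) (fun y => l (F' y)) x := fun x h =>
    sm_comp (f := F') (g := l) h (Eventually.of_forall fun z => (hld z).contMDiffAt)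
  have hlld : ∀ x ∈ F.source, LD (1 + k) F' x → LD (1 + k) g x := fun x hx h =>
    LD.congr (LD.comp_fun (g := l) (f := F') (hld _) h) (hgsev x hx)
  refine ⟨f', ?_, ?_⟩
  · refine nullH_mono ?_ (nullH_image hB hK)
    rintro _ ⟨x, hx, rfl⟩
    rw [hf'] at hx ⊢
    have hxC : x ∉ C := fun h => hx (sm_congr (hlsm x (hsm x (hCs h) (hCsm x h))) (hgsev x (hCs h)))
    have hx1 : x ∈ Bad (1 + k) f := by
      intro hsf
      have h1 : Sm (1 + k) f1 x :=
        sm_congr (sm_comp (f := f) (g := K) hsf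
          (Eventually.of_forall fun y => (hK.2 y).contMDiffAt)) (Eventually.of_forall hf1)
      by_cases h : x ∈ F.source
      · have h2 : Sm (1 + k) F x := by
          refine sm_comp (f := f1) (g := linv l) h1 ?_
          rw [← hFl x h]
          exact ld_sm (linv_ld hl hld _)
        exact hx (sm_congr (hlsm x (hsm x h h2)) (hgsev x h))
      · exact hx (sm_congr h1 (hgCev x hxC))
    exact ⟨f x, ⟨x, hx1, rfl⟩, by rw [hgC x hxC, hf1]⟩
  · intro x hx
    rw [hf'] at hx ⊢
    rcases hx with hx | ⟨z, ⟨hz1, hz2⟩, hz⟩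
    · by_cases h : x ∈ F.source
      · rw [hgin x h, hY] at hx
        have hz : F' x ∈ F.target := mem_univ _
        have h1 : F.symm (F' x) ∈ F.source := F.map_target hz
        have h2 : F (F.symm (F' x)) = F' x := F.right_inv hz
        have h3 : F' (F.symm (F' x)) = F (F.symm (F' x)) := hF1 _ h1 (by rw [h2]; exact hx)
        have h4 : F.symm (F' x) = x := hF'inj h1 h (by rw [h3, h2])
        rw [h4] at h2
        have h5 : 1 ≤ ‖up 1 k (F x)‖ := by rw [h2]; exact hx
        exact hlld x h (hldF x h (hld1 x h (hld2 x h h5)))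
      · rw [hgout x h] at hx
        exact LD.congr (hf1Y x hx) (hgCev x (fun hxC => h (hCs hxC)))
    · have h : x ∈ F.source := by
        by_contra h
        rw [hgout x h] at hz
        exact h ((hFsrc x).2 ⟨z, hz⟩)
      rw [hgin x h] at hz
      have h1 : F' x = z := (hl hz).symm
      exact hlld x h (hcore x h (by rw [h1]; exact hz1) (by rw [h1]; exact hz2))

end Pool.Agent.N550.KH.One
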