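import Pool.Agent.N550.KH.Stm

/-!
# Project KH: Schwarz reflection across a circle for injective holomorphic functions (helper222)
-/

set_option autoImplicit false

open Set Filter Topology Metric Function MeasureTheory
open scoped ContDiff Interval ComplexConjugate

noncomputable section

namespace Pool.Agent.N550.KH.Refl

open Pool.Agent.N550.KH Complex

/-! ### Cauchy's formula in an annulus -/

theorem sub_ne {ρ : ℝ} {z w : ℂ} (hz : ‖z‖ ≠ ρ) (hw : w ∈ sphere (0 : ℂ) ρ) : w - z ≠ 0 := by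
  intro h
  apply hz
  rw [sub_eq_zero] at h
  rw [← h]
  simpa using hw

theorem cont_inv {ρ : ℝ} {z : ℂ} (hz : ‖z‖ ≠ ρ) :
    ContinuousOn (fun w : ℂ => (w - z)⁻¹) (sphere 0 ρ) :=
  ContinuousOn.inv₀ (by fun_prop) fun _ hw => sub_ne hz hw

theorem int_dslope {f : ℂ → ℂ} {ρ : ℝ} (hρ : 0 < ρ) {z : ℂ} (hz : ‖z‖ ≠ ρ)
    (hf : ContinuousOn f (sphere 0 ρ)) :
    (∮ w in C(0, ρ), dslope f z w) =
      (∮ w in C(0, ρ), (w - z)⁻¹ • f w) - (∮ w in C(0, ρ), (w - z)⁻¹) • f z := by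
  rw [← circleIntegral.integral_smul_const, ← circleIntegral.integral_sub]
  · refine circleIntegral.integral_congr hρ.le fun w hw => ?_
    have h : w ≠ z := fun h => sub_ne hz hw (by rw [h, sub_self])
    simp only [dslope_of_ne f h, slope, vsub_eq_sub, smul_sub]
  · exact ((cont_inv hz).smul hf).circleIntegrable hρ.le
  · exact ((cont_inv hz).smul continuousOn_const).circleIntegrable hρ.le

theorem int_inv_zero {ρ : ℝ} (hρ : 0 < ρ) {z : ℂ} (hz : ρ < ‖z‖) :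
    (∮ w in C(0, ρ), (w - z)⁻¹) = 0 := by
  have h : ∀ w ∈ closedBall (0 : ℂ) ρ, w - z ≠ 0 := by
    intro w hw h
    rw [sub_eq_zero] at h
    rw [h] at hw
    have : ‖z‖ ≤ ρ := by simpa using hw
    linarith
  refine circleIntegral_eq_zero_of_differentiable_on_off_countable hρ.le countable_empty ?_ ?_
  · exact ContinuousOn.inv₀ (by fun_prop) h
  · intro w hw
    exact DifferentiableAt.inv (by fun_prop) (h w (ball_subset_closedBall hw.1))

theorem cauchy_annulus {f : ℂ → ℂ} {U : Set ℂ} (hU : IsOpen U) (hf : DifferentiableOn ℂ f U)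
    {r R : ℝ} (hr : 0 < r) (hsub : closedBall 0 R \ ball 0 r ⊆ U) {z : ℂ} (h1 : r < ‖z‖)
    (h2 : ‖z‖ < R) :
    (∮ w in C(0, R), (w - z)⁻¹ • f w) - (∮ w in C(0, r), (w - z)⁻¹ • f w) =
      (2 * Real.pi * I) • f z := by
  have hrR : r < R := h1.trans h2
  have hzU : z ∈ U := hsub ⟨by simpa using h2.le, by simpa using h1.le⟩
  have hg : DifferentiableOn ℂ (dslope f z) U :=
    (differentiableOn_dslope (hU.mem_nhds hzU)).2 hf
  have hs1 : sphere (0 : ℂ) R ⊆ U := fun w hw => hsub ⟨sphere_subset_closedBall hw, by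
    simp only [mem_sphere_iff_norm, sub_zero] at hw
    simp [hw, hrR.le]⟩
  have hs2 : sphere (0 : ℂ) r ⊆ U := fun w hw => hsub ⟨by
    simp only [mem_sphere_iff_norm, sub_zero] at hw
    simp [hw, hrR.le], by
    simp only [mem_sphere_iff_norm, sub_zero] at hw
    simp [hw]⟩
  have e := circleIntegral_eq_of_differentiable_on_annulus_off_countable hr hrR.le
    countable_empty (f := dslope f z) (hg.continuousOn.mono hsub) (fun w hw => by
      have hw' : w ∈ U := hsub ⟨ball_subset_closedBall hw.1.1,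
        fun h => hw.1.2 (ball_subset_closedBall h)⟩
      exact (hg w hw').differentiableAt (hU.mem_nhds hw'))
  rw [int_dslope (hr.trans hrR) h2.ne (hf.continuousOn.mono hs1),
    int_dslope hr h1.ne' (hf.continuousOn.mono hs2), int_inv_zero hr h1,
    circleIntegral.integral_sub_inv_of_mem_ball (by simpa using h2), zero_smul, sub_zero] at e
  rw [← e]
  ring

theorem cauchy_out {f : ℂ → ℂ} {U : Set ℂ} (hU : IsOpen U) (hf : DifferentiableOn ℂ f U)
    {r R : ℝ} (hr : 0 < r) (hrR : r ≤ R) (hsub : closedBall 0 R \ ball 0 r ⊆ U) {z : ℂ}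
    (h : ‖z‖ < r ∨ R < ‖z‖) :
    (∮ w in C(0, R), (w - z)⁻¹ • f w) = (∮ w in C(0, r), (w - z)⁻¹ • f w) := by
  have hne : ∀ w ∈ closedBall (0 : ℂ) R \ ball 0 r, w - z ≠ 0 := by
    intro w hw h0
    rw [sub_eq_zero] at h0
    rw [h0] at hw
    simp only [Set.mem_sdiff, mem_closedBall, dist_zero_right, mem_ball, not_lt] at hw
    rcases h with h | h <;> linarith [hw.1, hw.2]
  refine circleIntegral_eq_of_differentiable_on_annulus_off_countable hr hrR
    countable_empty ?_ ?_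
  · exact (ContinuousOn.inv₀ (by fun_prop) hne).smul (hf.continuousOn.mono hsub)
  · intro w hw
    have hw1 : w ∈ closedBall (0 : ℂ) R \ ball 0 r := ⟨ball_subset_closedBall hw.1.1,
        fun h => hw.1.2 (ball_subset_closedBall h)⟩
    have e1 : DifferentiableAt ℂ (fun w : ℂ => (w - z)⁻¹) w :=
      (differentiableAt_id.sub_const z).inv (hne w hw1)
    exact e1.smul ((hf w (hsub hw1)).differentiableAt (hU.mem_nhds (hsub hw1)))

/-! ### Cauchy type integrals -/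

theorem diff_K {f : ℂ → ℂ} {ρ : ℝ} (hρ : 0 < ρ) (hf : ContinuousOn f (sphere 0 ρ)) {z₀ : ℂ}
    (hz : ‖z₀‖ ≠ ρ) :
    DifferentiableAt ℂ (fun z => ∮ w in C(0, ρ), (w - z)⁻¹ • f w) z₀ := by
  set d := |‖z₀‖ - ρ| / 2 with hd
  have hd0 : 0 < d := by
    have : 0 < |‖z₀‖ - ρ| := abs_pos.2 (sub_ne_zero.2 hz)
    positivity
  have hw : ∀ z ∈ ball z₀ d, ∀ θ : ℝ, d ≤ ‖circleMap 0 ρ θ - z‖ := by
    intro z hz1 θ
    have h1 : ‖circleMap 0 ρ θ‖ = ρ := by simp [abs_of_pos hρ]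
    have h2 : ‖z - z₀‖ < d := by simpa [dist_eq_norm] using hz1
    have h3 : |‖circleMap 0 ρ θ‖ - ‖z₀‖| ≤ ‖circleMap 0 ρ θ - z₀‖ := abs_norm_sub_norm_le _ _
    rw [h1, abs_sub_comm] at h3
    have h4 : ‖circleMap 0 ρ θ - z₀‖ ≤ ‖circleMap 0 ρ θ - z‖ + ‖z - z₀‖ := by
      have := norm_add_le (circleMap 0 ρ θ - z) (z - z₀)
      simpa using this
    have h5 : |‖z₀‖ - ρ| = 2 * d := by rw [hd]; ring
    linarith
  have hne : ∀ z ∈ ball z₀ d, ∀ θ : ℝ, circleMap 0 ρ θ - z ≠ 0 := fun z hz1 θ h => by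
    have := hw z hz1 θ
    rw [h, norm_zero] at this
    linarith
  obtain ⟨B, hB⟩ : ∃ B, ∀ w ∈ sphere (0 : ℂ) ρ, ‖f w‖ ≤ B :=
    (isCompact_sphere 0 ρ).exists_bound_of_continuousOn hf
  have hms : ∀ θ : ℝ, circleMap 0 ρ θ ∈ sphere (0 : ℂ) ρ := fun θ => circleMap_mem_sphere 0 hρ.le θ
  have hfc : Continuous fun θ : ℝ => f (circleMap 0 ρ θ) :=
    hf.comp_continuous (continuous_circleMap 0 ρ) hms
  have hdc : Continuous fun θ : ℝ => deriv (circleMap (0 : ℂ) ρ) θ := by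
    have : (fun θ : ℝ => deriv (circleMap (0 : ℂ) ρ) θ) = fun θ => circleMap 0 ρ θ * I := by
      ext θ; simp
    rw [this]
    exact (continuous_circleMap 0 ρ).mul continuous_const
  have hc1 : ∀ z ∈ ball z₀ d, Continuous fun θ : ℝ =>
      deriv (circleMap (0 : ℂ) ρ) θ • ((circleMap 0 ρ θ - z)⁻¹ • f (circleMap 0 ρ θ)) := by
    intro z hz1
    exact hdc.smul ((((continuous_circleMap 0 ρ).sub continuous_const).inv₀ (hne z hz1)).smul hfc)
  have hc2 : Continuous fun θ : ℝ =>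
      deriv (circleMap (0 : ℂ) ρ) θ • (((circleMap 0 ρ θ - z₀) ^ 2)⁻¹ • f (circleMap 0 ρ θ)) := by
    refine hdc.smul (((((continuous_circleMap 0 ρ).sub continuous_const).pow 2).inv₀ ?_).smul hfc)
    intro θ
    exact pow_ne_zero 2 (hne z₀ (mem_ball_self hd0) θ)
  have key := intervalIntegral.hasDerivAt_integral_of_dominated_loc_of_deriv_le
    (μ := volume) (a := 0) (b := 2 * Real.pi)
    (F := fun z θ => deriv (circleMap (0 : ℂ) ρ) θ • ((circleMap 0 ρ θ - z)⁻¹ •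
      f (circleMap 0 ρ θ)))
    (F' := fun z θ => deriv (circleMap (0 : ℂ) ρ) θ • (((circleMap 0 ρ θ - z) ^ 2)⁻¹ •
      f (circleMap 0 ρ θ)))
    (x₀ := z₀) (s := ball z₀ d) (bound := fun _ => ρ * ((d ^ 2)⁻¹ * B))
    (ball_mem_nhds z₀ hd0)
    (Filter.eventually_of_mem (ball_mem_nhds z₀ hd0)
      fun z hz1 => (hc1 z hz1).aestronglyMeasurable)
    ((hc1 z₀ (mem_ball_self hd0)).intervalIntegrable _ _)
    hc2.aestronglyMeasurable
    (Filter.Eventually.of_forall fun θ _ z hz1 => by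
      have h1 : ‖deriv (circleMap (0 : ℂ) ρ) θ‖ = ρ := by simp [abs_of_pos hρ]
      rw [norm_smul, norm_smul, h1, norm_inv, norm_pow]
      have h2 := hw z hz1 θ
      have h3 : (‖circleMap 0 ρ θ - z‖ ^ 2)⁻¹ ≤ (d ^ 2)⁻¹ := by
        apply inv_anti₀ (by positivity)
        exact pow_le_pow_left₀ hd0.le h2 2
      exact mul_le_mul_of_nonneg_left
        (mul_le_mul h3 (hB _ (hms θ)) (norm_nonneg _) (by positivity)) hρ.le)
    (by simp)
    (Filter.Eventually.of_forall fun θ _ z hz1 => by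
      have h1 : HasDerivAt (fun z : ℂ => circleMap 0 ρ θ - z) (-1) z := by
        simpa using (hasDerivAt_id z).const_sub (circleMap 0 ρ θ)
      have h2 := h1.inv (hne z hz1 θ)
      have h3 : HasDerivAt (fun z : ℂ => (circleMap 0 ρ θ - z)⁻¹)
          (((circleMap 0 ρ θ - z) ^ 2)⁻¹) z :=
        h2.congr_deriv (by rw [neg_neg, one_div])
      exact (h3.smul_const _).fun_const_smul _)
  exact key.2.differentiableAt

/-! ### The two boundary integrals -/

theorem bracket {a b : ℂ → ℂ} {z : ℂ} {ρ ρ' s d ε : ℝ} (hρ : 0 < ρ) (hρ' : 0 < ρ') (hd : 0 < d)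
    (hs : ρ ≤ s) (hε : 0 < ε)
    (ha : ContinuousOn a (sphere 0 ρ)) (hb : ContinuousOn b (sphere 0 ρ'))
    (h1 : ∀ w ∈ sphere (0 : ℂ) ρ, d ≤ ‖w - z‖) (h2 : ∀ w ∈ sphere (0 : ℂ) ρ', d ≤ ‖w - z‖)
    (h3 : |ρ' - ρ| ≤ ε) (hb2 : ∀ w ∈ sphere (0 : ℂ) ρ', ‖b w‖ ≤ 2)
    (hab : ∀ θ : ℝ, ‖b (circleMap 0 ρ' θ) - a (circleMap 0 ρ θ)‖ ≤ 4 * ε) :
    ‖(∮ w in C(0, ρ'), (w - z)⁻¹ • b w) - (∮ w in C(0, ρ), (w - z)⁻¹ • a w)‖ ≤
      (2 * ‖z‖ * (d⁻¹) ^ 2 + 4 * s * d⁻¹) * (2 * Real.pi) * ε := by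
  have hz1 : ‖z‖ ≠ ρ := fun h => by
    have hz' : z ∈ sphere (0 : ℂ) ρ := by simpa using h
    have := h1 z hz'
    rw [sub_self, norm_zero] at this
    linarith
  have hz2 : ‖z‖ ≠ ρ' := fun h => by
    have hz' : z ∈ sphere (0 : ℂ) ρ' := by simpa using h
    have := h2 z hz'
    rw [sub_self, norm_zero] at this
    linarith
  have i1 : CircleIntegrable (fun w => (w - z)⁻¹ • b w) 0 ρ' :=
    ((cont_inv hz2).smul hb).circleIntegrable hρ'.le
  have i2 : CircleIntegrable (fun w => (w - z)⁻¹ • a w) 0 ρ :=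
    ((cont_inv hz1).smul ha).circleIntegrable hρ.le
  have e : (∮ w in C(0, ρ'), (w - z)⁻¹ • b w) - (∮ w in C(0, ρ), (w - z)⁻¹ • a w) =
      ∫ θ in (0 : ℝ)..2 * Real.pi,
        (deriv (circleMap 0 ρ') θ • ((circleMap 0 ρ' θ - z)⁻¹ • b (circleMap 0 ρ' θ)) -
        deriv (circleMap 0 ρ) θ • ((circleMap 0 ρ θ - z)⁻¹ • a (circleMap 0 ρ θ))) := by
    rw [intervalIntegral.integral_sub i1.out i2.out]
    rfl
  rw [e]
  have hbd : ∀ θ ∈ Ι (0 : ℝ) (2 * Real.pi),
      ‖deriv (circleMap 0 ρ') θ • ((circleMap 0 ρ' θ - z)⁻¹ • b (circleMap 0 ρ' θ)) -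
        deriv (circleMap 0 ρ) θ • ((circleMap 0 ρ θ - z)⁻¹ • a (circleMap 0 ρ θ))‖ ≤
      (2 * ‖z‖ * (d⁻¹) ^ 2 + 4 * s * d⁻¹) * ε := by
    intro θ _
    have m1 : circleMap 0 ρ θ ∈ sphere (0 : ℂ) ρ := circleMap_mem_sphere 0 hρ.le θ
    have m2 : circleMap 0 ρ' θ ∈ sphere (0 : ℂ) ρ' := circleMap_mem_sphere 0 hρ'.le θ
    set w := circleMap 0 ρ θ with hw
    set w' := circleMap 0 ρ' θ with hw'
    have n1 : ‖w‖ = ρ := by simpa using m1
    have d1 := h1 w m1
    have d2 := h2 w' m2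
    have ne1 : w - z ≠ 0 := sub_ne hz1 m1
    have ne2 : w' - z ≠ 0 := sub_ne hz2 m2
    have hww : ‖w - w'‖ ≤ ε := by
      have : w - w' = ((ρ - ρ' : ℝ) : ℂ) * exp (θ * I) := by
        rw [hw, hw']; simp only [circleMap_zero]; push_cast; ring
      rw [this, norm_mul, Complex.norm_exp_ofReal_mul_I, mul_one, Complex.norm_real,
        Real.norm_eq_abs, abs_sub_comm]
      exact h3
    have key : deriv (circleMap 0 ρ') θ • ((w' - z)⁻¹ • b w') -
        deriv (circleMap 0 ρ) θ • ((w - z)⁻¹ • a w) =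
        I * (z * (w - w') * ((w' - z)⁻¹ * (w - z)⁻¹) * b w' +
          w * (w - z)⁻¹ * (b w' - a w)) := by
      simp only [deriv_circleMap, smul_eq_mul]
      rw [← hw, ← hw']
      field_simp
      ring
    rw [key, norm_mul, Complex.norm_I, one_mul]
    have inv1 : ‖(w - z)⁻¹‖ ≤ d⁻¹ := by rw [norm_inv]; exact inv_anti₀ hd d1
    have inv2 : ‖(w' - z)⁻¹‖ ≤ d⁻¹ := by rw [norm_inv]; exact inv_anti₀ hd d2
    have t1 : ‖z * (w - w') * ((w' - z)⁻¹ * (w - z)⁻¹) * b w'‖ ≤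
        ‖z‖ * ε * (d⁻¹ * d⁻¹) * 2 := by
      rw [norm_mul, norm_mul, norm_mul, norm_mul]
      have := hb2 w' m2
      gcongr
    have t2 : ‖w * (w - z)⁻¹ * (b w' - a w)‖ ≤ s * d⁻¹ * (4 * ε) := by
      rw [norm_mul, norm_mul, n1]
      have := hab θ
      have hs0 : 0 ≤ s := hρ.le.trans hs
      gcongr
    refine (norm_add_le _ _).trans ((add_le_add t1 t2).trans (le_of_eq ?_))
    ring
  have := intervalIntegral.norm_integral_le_of_norm_le_const hbd
  refine this.trans (le_of_eq ?_)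
  rw [sub_zero, abs_of_pos (by positivity)]
  ring

/-! ### The reflected function -/

/-- reflection in the circle of radius `s` -/
def tau (s : ℝ) (x : ℂ) : ℂ := (s : ℂ) ^ 2 / conj x

theorem norm_tau {s : ℝ} (hs : 0 < s) (x : ℂ) : ‖tau s x‖ = s ^ 2 / ‖x‖ := by
  unfold tau
  rw [norm_div, norm_pow, Complex.norm_real, RCLike.norm_conj, Real.norm_eq_abs, abs_of_pos hs]

theorem tau_circle {s ρ : ℝ} (hs : 0 < s) (hρ : 0 < ρ) (θ : ℝ) :
    tau s (circleMap 0 (s ^ 2 / ρ) θ) = circleMap 0 ρ θ := by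
  unfold tau
  simp only [circleMap_zero, map_mul, Complex.conj_ofReal, ← Complex.exp_conj, Complex.conj_I]
  have h1 : (s : ℂ) ≠ 0 := by exact_mod_cast hs.ne'
  have h2 : (ρ : ℂ) ≠ 0 := by exact_mod_cast hρ.ne'
  rw [mul_neg, Complex.exp_neg]
  have h3 := Complex.exp_ne_zero (θ * I)
  push_cast
  field_simp

theorem tau_inj {s : ℝ} (hs : 0 < s) {x y : ℂ} (hx : x ≠ 0) (hy : y ≠ 0)
    (h : tau s x = tau s y) : x = y := by
  unfold tau at h
  have h1 : (s : ℂ) ^ 2 ≠ 0 := pow_ne_zero 2 (by exact_mod_cast hs.ne')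
  have hx' : conj x ≠ 0 := (map_ne_zero _).2 hx
  have hy' : conj y ≠ 0 := (map_ne_zero _).2 hy
  rw [div_eq_div_iff hx' hy'] at h
  have := mul_left_cancel₀ h1 h
  exact ((starRingEnd ℂ).injective this).symm

/-- the reflected function -/
def star' (a : ℂ → ℂ) (s : ℝ) (x : ℂ) : ℂ := (conj (a (tau s x)))⁻¹

theorem diff_star {a : ℂ → ℂ} {s : ℝ} {x : ℂ} (hx : x ≠ 0)
    (h : DifferentiableAt ℂ a (tau s x)) (h0 : a (tau s x) ≠ 0) :
    DifferentiableAt ℂ (star' a s) x := by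
  have e : star' a s = fun x => ((conj ∘ a ∘ conj) ((s : ℂ) ^ 2 / x))⁻¹ := by
    ext x
    simp [star', tau]
  have h1 : conj ((s : ℂ) ^ 2 / x) = tau s x := by simp [tau]
  have h2 : DifferentiableAt ℂ (conj ∘ a ∘ conj) ((s : ℂ) ^ 2 / x) := by
    have := (h1 ▸ h : DifferentiableAt ℂ a (conj ((s : ℂ) ^ 2 / x))).conj_conj
    simpa using this
  have h3 : DifferentiableAt ℂ (fun x : ℂ => (s : ℂ) ^ 2 / x) x := by
    exact DifferentiableAt.div (differentiableAt_const _) differentiableAt_id hx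
  rw [e]
  have h4 : DifferentiableAt ℂ (fun x => (conj ∘ a ∘ conj) ((s : ℂ) ^ 2 / x)) x :=
    DifferentiableAt.comp (g := (conj ∘ a ∘ conj)) (f := fun x : ℂ => (s : ℂ) ^ 2 / x) x h2 h3
  refine h4.inv ?_
  simp only [Function.comp_apply, h1]
  exact (map_ne_zero _).2 h0

theorem star_sub {u : ℂ} {ε : ℝ} (h1 : 1 / 2 < ‖u‖) (h2 : ‖u‖ < 1) (h3 : 1 - ε < ‖u‖) :
    ‖(conj u)⁻¹ - u‖ ≤ 4 * ε := by
  have hu : u ≠ 0 := by
    intro h; rw [h, norm_zero] at h1; linarith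
  have hc : conj u ≠ 0 := (map_ne_zero _).2 hu
  have e : (conj u)⁻¹ - u = (conj u)⁻¹ * (((1 - ‖u‖ ^ 2 : ℝ)) : ℂ) := by
    have h := Complex.mul_conj' u
    push_cast
    rw [← h]
    field_simp
  rw [e, norm_mul, norm_inv, RCLike.norm_conj, Complex.norm_real, Real.norm_eq_abs,
    abs_of_pos (by nlinarith)]
  rw [inv_mul_le_iff₀ (by linarith)]
  nlinarith

theorem core {a : ℂ → ℂ} {s r : ℝ} (hr0 : 0 < r) (hrs : r < s)
    (hc : ∀ x : ℂ, r < ‖x‖ → ‖x‖ < s → ContinuousAt a x)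
    (h1 : ∀ x : ℂ, r < ‖x‖ → ‖x‖ < s → 1 / 2 < ‖a x‖ ∧ ‖a x‖ < 1)
    (hcb : ∀ x : ℂ, s < ‖x‖ → ‖x‖ < s ^ 2 / r → ContinuousAt (star' a s) x)
    (hlim : ∀ ε : ℝ, 0 < ε → ∃ ρ : ℝ, 0 < ρ ∧ ∀ x, s - ρ < ‖x‖ → ‖x‖ < s → 1 - ε < ‖a x‖)
    {z : ℂ} (hz : ‖z‖ ≠ s) {c : ℂ} {q : ℝ} (hq : q < s)
    (hcc : ∀ ρ, q < ρ → r < ρ → ρ < s → c = (∮ w in C(0, s ^ 2 / ρ), (w - z)⁻¹ • star' a s w) -
      ∮ w in C(0, ρ), (w - z)⁻¹ • a w) : c = 0 := by
  have hs : 0 < s := hr0.trans hrs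
  set d := |‖z‖ - s| / 2 with hd
  have hd0 : 0 < d := by
    have : 0 < |‖z‖ - s| := abs_pos.2 (sub_ne_zero.2 hz)
    positivity
  set K := (2 * ‖z‖ * (d⁻¹) ^ 2 + 4 * s * d⁻¹) * (2 * Real.pi) with hK
  have hK0 : 0 < K := by
    have : 0 ≤ 2 * ‖z‖ * (d⁻¹) ^ 2 := by positivity
    have h2 : 0 < 4 * s * d⁻¹ := by positivity
    have h3 : 0 < 2 * Real.pi := by positivity
    exact mul_pos (by linarith) h3
  have key : ∀ ε : ℝ, 0 < ε → ‖c‖ ≤ K * ε := by
    intro ε hε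
    obtain ⟨ρ₁, hρ₁, hρ₁'⟩ := hlim ε hε
    have c1 : ContinuousAt (fun ρ : ℝ => s ^ 2 / ρ) s :=
      continuousAt_const.div continuousAt_id hs.ne'
    have v1 : s ^ 2 / s = s := by field_simp
    have e1 : ∀ᶠ ρ in 𝓝 s, |ρ - s| < d :=
      ContinuousAt.eventually_lt (by fun_prop) continuousAt_const (by simpa using hd0)
    have e2 : ∀ᶠ ρ in 𝓝 s, |s ^ 2 / ρ - s| < d :=
      ContinuousAt.eventually_lt ((c1.sub continuousAt_const).abs) continuousAt_const
        (by rw [v1]; simpa using hd0)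
    have e3 : ∀ᶠ ρ in 𝓝 s, |s ^ 2 / ρ - ρ| < ε :=
      ContinuousAt.eventually_lt ((c1.sub continuousAt_id).abs) continuousAt_const
        (by
          change |s ^ 2 / s - s| < ε
          rw [v1]; simpa using hε)
    have e4 : ∀ᶠ ρ in 𝓝 s, max q (max r (s - ρ₁)) < ρ :=
      lt_mem_nhds (by simp [hq, hrs, hρ₁])
    have e5 : ∀ᶠ ρ in 𝓝[<] s, ρ < s := eventually_mem_nhdsWithin
    obtain ⟨ρ, ⟨⟨⟨⟨f1, f2⟩, f3⟩, f4⟩, f5⟩⟩ :=
      ((((e1.and e2).and e3).and e4).filter_mono nhdsWithin_le_nhds |>.and e5).exists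
    obtain ⟨g1, g2, g3⟩ : q < ρ ∧ r < ρ ∧ s - ρ₁ < ρ := by
      simpa [max_lt_iff] using f4
    have hρ0 : 0 < ρ := hr0.trans g2
    have hsρ : s < s ^ 2 / ρ := by
      rw [lt_div_iff₀ hρ0]; nlinarith
    have hsr : s ^ 2 / ρ < s ^ 2 / r := by
      apply div_lt_div_of_pos_left (by positivity) hr0 g2
    have hdist : ∀ t : ℝ, |t - s| < d → ∀ w ∈ sphere (0 : ℂ) t, d ≤ ‖w - z‖ := by
      intro t ht w hw
      have n1 : ‖w‖ = t := by simpa using hw
      have h3 : |‖w‖ - ‖z‖| ≤ ‖w - z‖ := abs_norm_sub_norm_le _ _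
      have h4 : |‖z‖ - s| = 2 * d := by rw [hd]; ring
      have h5 : |‖z‖ - s| ≤ |‖w‖ - ‖z‖| + |t - s| := by
        rw [n1]
        calc |‖z‖ - s| = |(t - s) - (t - ‖z‖)| := by ring_nf
          _ ≤ |t - s| + |t - ‖z‖| := abs_sub _ _
          _ = |t - ‖z‖| + |t - s| := by ring
      linarith
    rw [hcc ρ g1 g2 f5]
    have hb := bracket (a := a) (b := star' a s) (z := z) hρ0 (ρ' := s ^ 2 / ρ) (by positivity)
      hd0 f5.le hε
      (fun x hx => by
        have : ‖x‖ = ρ := by simpa using hx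
        exact (hc x (by rw [this]; exact g2) (by rw [this]; exact f5)).continuousWithinAt)
      (fun x hx => by
        have : ‖x‖ = s ^ 2 / ρ := by simpa using hx
        exact (hcb x (by rw [this]; exact hsρ) (by rw [this]; exact hsr)).continuousWithinAt)
      (hdist ρ f1) (hdist _ f2) f3.le
      (fun w hw => by
        have n1 : ‖w‖ = s ^ 2 / ρ := by simpa using hw
        have n2 : ‖tau s w‖ = ρ := by
          rw [norm_tau hs, n1]; field_simp
        have := (h1 (tau s w) (by rw [n2]; exact g2) (by rw [n2]; exact f5)).1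
        unfold star'
        rw [norm_inv, RCLike.norm_conj]
        rw [inv_le_comm₀ (by linarith) (by norm_num)]
        linarith)
      (fun θ => by
        have n1 : ‖circleMap 0 ρ θ‖ = ρ := by simp [abs_of_pos hρ0]
        unfold star'
        rw [tau_circle hs hρ0]
        have := h1 (circleMap 0 ρ θ) (by rw [n1]; exact g2) (by rw [n1]; exact f5)
        exact star_sub this.1 this.2 (hρ₁' _ (by rw [n1]; exact g3) (by rw [n1]; exact f5)))
    exact hb
  by_contra hne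
  have hc0 : 0 < ‖c‖ := norm_pos_iff.2 hne
  have := key (‖c‖ / (2 * K)) (by positivity)
  have e : K * (‖c‖ / (2 * K)) = ‖c‖ / 2 := by field_simp
  rw [e] at this
  linarith

theorem main : S_REFL := by
  intro a s η hη hηs hd hinj hlt hlim
  have hs : 0 < s := hη.trans hηs
  obtain ⟨ρ₀, hρ₀, hρ₀'⟩ := hlim (1 / 2) (by norm_num)
  set σ := min ρ₀ η with hσ
  have hσ0 : 0 < σ := lt_min hρ₀ hη
  have hσ1 : σ ≤ ρ₀ := min_le_left _ _
  have hσ2 : σ ≤ η := min_le_right _ _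
  set t := s - σ with ht
  have ht0 : 0 < t := by rw [ht]; linarith
  have hts : t < s := by rw [ht]; linarith
  set r := s - σ / 2 with hr
  have htr : t < r := by rw [ht, hr]; linarith
  have hr0 : 0 < r := ht0.trans htr
  have hrs : r < s := by rw [hr]; linarith
  set R := s ^ 2 / r with hR
  have hsR : s < R := by rw [hR, lt_div_iff₀ hr0]; nlinarith
  have hR0 : 0 < R := hs.trans hsR
  have hRt : R < s ^ 2 / t := div_lt_div_of_pos_left (by positivity) ht0 htr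
  -- the function `a`
  have hopen : IsOpen {x : ℂ | s - η < ‖x‖ ∧ ‖x‖ < s} :=
    (isOpen_lt continuous_const continuous_norm).inter
      (isOpen_lt continuous_norm continuous_const)
  have hda : ∀ x : ℂ, t < ‖x‖ → ‖x‖ < s → DifferentiableAt ℂ a x := fun x h1 h2 =>
    (hd x ⟨by rw [ht] at h1; linarith, h2⟩).differentiableAt
      (hopen.mem_nhds ⟨by rw [ht] at h1; linarith, h2⟩)
  have hab : ∀ x : ℂ, t < ‖x‖ → ‖x‖ < s → 1 / 2 < ‖a x‖ ∧ ‖a x‖ < 1 := by
    intro x h1 h2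
    refine ⟨?_, hlt x (by rw [ht] at h1; linarith) h2⟩
    have := hρ₀' x (by rw [ht] at h1; linarith) h2
    linarith
  -- the function `star' a s`
  have htau : ∀ x : ℂ, s < ‖x‖ → ‖x‖ < s ^ 2 / t → t < ‖tau s x‖ ∧ ‖tau s x‖ < s := by
    intro x h1 h2
    have hx0 : 0 < ‖x‖ := hs.trans h1
    rw [norm_tau hs]
    constructor
    · rw [lt_div_iff₀ hx0]
      rw [lt_div_iff₀ ht0] at h2
      linarith
    · rw [div_lt_iff₀ hx0]
      nlinarith
  have hdb : ∀ x : ℂ, s < ‖x‖ → ‖x‖ < s ^ 2 / t → DifferentiableAt ℂ (star' a s) x := by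
    intro x h1 h2
    have h3 := htau x h1 h2
    refine diff_star (norm_pos_iff.1 (hs.trans h1)) (hda _ h3.1 h3.2) ?_
    intro h4
    have := (hab _ h3.1 h3.2).1
    rw [h4, norm_zero] at this
    linarith
  have hbn : ∀ x : ℂ, s < ‖x‖ → ‖x‖ < s ^ 2 / t → 1 < ‖star' a s x‖ := by
    intro x h1 h2
    have h3 := htau x h1 h2
    have h4 := hab _ h3.1 h3.2
    unfold star'
    rw [norm_inv, RCLike.norm_conj]
    exact (one_lt_inv₀ (by linarith)).2 h4.2
  have hoA : IsOpen {x : ℂ | t < ‖x‖ ∧ ‖x‖ < s} :=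
    (isOpen_lt continuous_const continuous_norm).inter
      (isOpen_lt continuous_norm continuous_const)
  have hoB : IsOpen {x : ℂ | s < ‖x‖ ∧ ‖x‖ < s ^ 2 / t} :=
    (isOpen_lt continuous_const continuous_norm).inter
      (isOpen_lt continuous_norm continuous_const)
  have hdA : DifferentiableOn ℂ a {x : ℂ | t < ‖x‖ ∧ ‖x‖ < s} := fun x hx =>
    (hda x hx.1 hx.2).differentiableWithinAt
  have hdB : DifferentiableOn ℂ (star' a s) {x : ℂ | s < ‖x‖ ∧ ‖x‖ < s ^ 2 / t} := fun x hx =>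
    (hdb x hx.1 hx.2).differentiableWithinAt
  -- the function `F`
  set F : ℂ → ℂ := fun z => (2 * Real.pi * I)⁻¹ *
    ((∮ w in C(0, R), (w - z)⁻¹ • star' a s w) - ∮ w in C(0, r), (w - z)⁻¹ • a w) with hF
  have h2pi : (2 * Real.pi * I : ℂ) ≠ 0 := Complex.two_pi_I_ne_zero
  have hsubA : ∀ ρ : ℝ, ρ < s → ∀ r' : ℝ, t < r' →
      closedBall (0 : ℂ) ρ \ ball 0 r' ⊆ {x : ℂ | t < ‖x‖ ∧ ‖x‖ < s} := by
    intro ρ hρ r' hr' w hw
    simp only [Set.mem_sdiff, mem_closedBall, dist_zero_right, mem_ball, not_lt] at hw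
    exact ⟨hr'.trans_le hw.2, hw.1.trans_lt hρ⟩
  have hsubB : ∀ ρ' : ℝ, s < ρ' → closedBall (0 : ℂ) R \ ball 0 ρ' ⊆
      {x : ℂ | s < ‖x‖ ∧ ‖x‖ < s ^ 2 / t} := by
    intro ρ hρ w hw
    simp only [Set.mem_sdiff, mem_closedBall, dist_zero_right, mem_ball, not_lt] at hw
    exact ⟨hρ.trans_le hw.2, hw.1.trans_lt hRt⟩
  have hρ' : ∀ ρ : ℝ, r < ρ → ρ < s → s < s ^ 2 / ρ ∧ s ^ 2 / ρ < R := by
    intro ρ h1 h2
    have h0 : 0 < ρ := hr0.trans h1
    refine ⟨?_, div_lt_div_of_pos_left (by positivity) hr0 h1⟩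
    rw [lt_div_iff₀ h0]; nlinarith
  have hFa : ∀ z : ℂ, r < ‖z‖ → ‖z‖ < s → F z = a z := by
    intro z h1 h2
    have hc : 2 * Real.pi * I * F z - 2 * Real.pi * I * a z = 0 := by
      refine core (a := a) hr0 hrs
        (fun x h1 h2 => (hda x (htr.trans h1) h2).continuousAt)
        (fun x h1 h2 => hab x (htr.trans h1) h2)
        (fun x h1 h2 => (hdb x h1 (h2.trans hRt)).continuousAt) hlim h2.ne h2 ?_
      intro ρ hρ1 hρ2 hρ3
      have hq := hρ' ρ hρ2 hρ3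
      have e1 := cauchy_annulus hoA hdA hr0 (hsubA ρ hρ3 r htr) h1 hρ1
      have e2 := cauchy_out hoB hdB (hs.trans hq.1) hq.2.le (hsubB _ hq.1)
        (Or.inl (h2.trans hq.1) : ‖z‖ < s ^ 2 / ρ ∨ R < ‖z‖)
      simp only [hF]
      rw [mul_inv_cancel_left₀ h2pi, e2]
      rw [smul_eq_mul] at e1
      rw [← e1]
      ring
    have := sub_eq_zero.1 hc
    exact mul_left_cancel₀ h2pi this
  have hFb : ∀ z : ℂ, s < ‖z‖ → ‖z‖ < R → F z = star' a s z := by
    intro z h1 h2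
    have hz0 : 0 < ‖z‖ := hs.trans h1
    have hc : 2 * Real.pi * I * F z - 2 * Real.pi * I * star' a s z = 0 := by
      refine core (a := a) (q := s ^ 2 / ‖z‖) hr0 hrs
        (fun x h1 h2 => (hda x (htr.trans h1) h2).continuousAt)
        (fun x h1 h2 => hab x (htr.trans h1) h2)
        (fun x h1 h2 => (hdb x h1 (h2.trans hRt)).continuousAt) hlim h1.ne'
        (by rw [div_lt_iff₀ hz0]; nlinarith) ?_
      intro ρ hρ1 hρ2 hρ3
      have hq := hρ' ρ hρ2 hρ3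
      have hρ0 : 0 < ρ := hr0.trans hρ2
      have h3 : s ^ 2 / ρ < ‖z‖ := by
        rw [div_lt_iff₀ hz0] at hρ1
        rw [div_lt_iff₀ hρ0]
        linarith
      have e1 := cauchy_annulus hoB hdB (hs.trans hq.1) (hsubB _ hq.1) h3 h2
      have e2 := cauchy_out hoA hdA hr0 hρ2.le (hsubA ρ hρ3 r htr)
        (Or.inr (hρ3.trans h1) : ‖z‖ < r ∨ ρ < ‖z‖)
      simp only [hF]
      rw [mul_inv_cancel_left₀ h2pi, ← e2]
      rw [smul_eq_mul] at e1
      rw [← e1]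
      ring
    have := sub_eq_zero.1 hc
    exact mul_left_cancel₀ h2pi this
  have hFd : ∀ z : ℂ, r < ‖z‖ → ‖z‖ < R → DifferentiableAt ℂ F z := by
    intro z h1 h2
    refine DifferentiableAt.const_mul (DifferentiableAt.sub ?_ ?_) _
    · refine diff_K hR0 (fun x hx => ?_) h2.ne
      have hx' : ‖x‖ = R := by simpa using hx
      exact (hdb x (by rw [hx']; exact hsR)
        (by rw [hx']; exact hRt)).continuousAt.continuousWithinAt
    · refine diff_K hr0 (fun x hx => ?_) h1.ne'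
      have hx' : ‖x‖ = r := by simpa using hx
      exact (hda x (by rw [hx']; exact htr)
        (by rw [hx']; exact hrs)).continuousAt.continuousWithinAt
  -- the values on the circle
  have hFc : ∀ x : ℂ, ‖x‖ = s → ‖F x‖ = 1 := by
    intro x hx
    have hcont : ContinuousAt F x := (hFd x (by rw [hx]; exact hrs) (by rw [hx]; exact hsR)).continuousAt
    have h1 : ContinuousAt (fun τ : ℝ => ‖F ((τ : ℂ) * x)‖) 1 := by
      have h2 : ContinuousAt (fun τ : ℝ => ((τ : ℂ) * x)) 1 := by fun_prop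
      have h3 : ContinuousAt F ((fun τ : ℝ => ((τ : ℂ) * x)) 1) := by simpa using hcont
      exact (ContinuousAt.comp (f := fun τ : ℝ => ((τ : ℂ) * x)) h3 h2).norm
    have h2 : Tendsto (fun τ : ℝ => ‖F ((τ : ℂ) * x)‖) (𝓝[<] 1) (𝓝 ‖F x‖) := by
      have := h1.tendsto.mono_left (nhdsWithin_le_nhds (s := Iio (1 : ℝ)))
      simpa using this
    have hin : ∀ u : ℝ, u < s → ∀ᶠ τ : ℝ in 𝓝[<] 1, u < ‖(τ : ℂ) * x‖ ∧ ‖(τ : ℂ) * x‖ < s := by
      intro u hu
      have k1 : ∀ᶠ τ : ℝ in 𝓝 (1 : ℝ), u < ‖(τ : ℂ) * x‖ :=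
        ContinuousAt.eventually_lt continuousAt_const (by fun_prop) (by simpa [hx] using hu)
      have k2 : ∀ᶠ τ : ℝ in 𝓝 (1 : ℝ), 0 < τ := lt_mem_nhds one_pos
      have k3 : ∀ᶠ τ : ℝ in 𝓝[<] (1 : ℝ), τ < 1 := eventually_mem_nhdsWithin
      filter_upwards [k1.filter_mono nhdsWithin_le_nhds, k2.filter_mono nhdsWithin_le_nhds, k3]
        with τ m1 m2 m3
      refine ⟨m1, ?_⟩
      rw [norm_mul, Complex.norm_real, Real.norm_eq_abs, abs_of_pos m2, hx]
      nlinarith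
    apply le_antisymm
    · refine le_of_tendsto h2 ?_
      filter_upwards [hin r hrs] with τ hτ
      rw [hFa _ hτ.1 hτ.2]
      exact (hab _ (htr.trans hτ.1) hτ.2).2.le
    · refine le_of_forall_pos_le_add fun ε hε => ?_
      obtain ⟨ρ₁, hρ₁, hρ₁'⟩ := hlim ε hε
      have : 1 - ε ≤ ‖F x‖ := by
        refine ge_of_tendsto h2 ?_
        filter_upwards [hin (max r (s - ρ₁)) (max_lt hrs (by linarith))] with τ hτ
        rw [hFa _ ((le_max_left _ _).trans_lt hτ.1) hτ.2]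
        exact (hρ₁' _ ((le_max_right _ _).trans_lt hτ.1) hτ.2).le
      linarith
  set ρf := min (s - r) (R - s) with hρf
  have hρf0 : 0 < ρf := lt_min (by linarith) (by linarith)
  have hf1 : ρf ≤ s - r := min_le_left _ _
  have hf2 : ρf ≤ R - s := min_le_right _ _
  have hAn : ∀ x ∈ An s ρf, r < ‖x‖ ∧ ‖x‖ < R := fun x hx =>
    ⟨by have := hx.1; linarith, by have := hx.2; linarith⟩
  refine ⟨F, ρf, hρf0, ?_, ?_, ?_, ?_, hFc⟩
  · have : s - r = σ / 2 := by rw [hr]; ring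
    linarith
  · intro x hx
    exact (hFd x (hAn x hx).1 (hAn x hx).2).differentiableWithinAt
  · -- injectivity
    have hin : ∀ x ∈ An s ρf, (‖x‖ < s ↔ ‖F x‖ < 1) ∧ (s < ‖x‖ ↔ 1 < ‖F x‖) := by
      intro x hx
      rcases lt_trichotomy ‖x‖ s with h | h | h
      · have h1 : ‖F x‖ < 1 := by
          rw [hFa x (hAn x hx).1 h]; exact (hab x (htr.trans (hAn x hx).1) h).2
        exact ⟨⟨fun _ => h1, fun _ => h⟩, ⟨fun h2 => by linarith, fun h2 => by linarith⟩⟩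
      · have h1 := hFc x h
        exact ⟨⟨fun h2 => by linarith, fun h2 => by linarith⟩,
          ⟨fun h2 => by linarith, fun h2 => by linarith⟩⟩
      · have h1 : 1 < ‖F x‖ := by
          rw [hFb x h (hAn x hx).2]; exact hbn x h ((hAn x hx).2.trans hRt)
        exact ⟨⟨fun h2 => by linarith, fun h2 => by linarith⟩, ⟨fun _ => h1, fun _ => h⟩⟩
    have hInside : ∀ x ∈ An s ρf, ∀ y ∈ An s ρf, ‖F x‖ < 1 → F x = F y → x = y := by
      intro x hx y hy h1 h2
      have hxs : ‖x‖ < s := ((hin x hx).1).2 h1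
      have hys : ‖y‖ < s := ((hin y hy).1).2 (by rw [← h2]; exact h1)
      have hx1 := (hAn x hx).1
      have hy1 := (hAn y hy).1
      rw [hFa x hx1 hxs, hFa y hy1 hys] at h2
      exact hinj ⟨by have := htr.trans hx1; rw [ht] at this; linarith, hxs⟩
        ⟨by have := htr.trans hy1; rw [ht] at this; linarith, hys⟩ h2
    have hoAn : IsOpen (An s ρf) :=
      (isOpen_lt continuous_const continuous_norm).inter
        (isOpen_lt continuous_norm continuous_const)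
    intro x hx y hy hxy
    rcases lt_trichotomy ‖F x‖ 1 with h | h | h
    · exact hInside x hx y hy h hxy
    · -- both on the circle
      by_contra hne
      have hopenmap : ∀ z ∈ An s ρf, ‖F z‖ = 1 → 𝓝 (F z) ≤ map F (𝓝 z) := by
        intro z hz hz1
        have hzs : ‖z‖ = s := by
          rcases lt_trichotomy ‖z‖ s with h' | h' | h'
          · have := ((hin z hz).1).1 h'; linarith
          · exact h'
          · have := ((hin z hz).2).1 h'; linarith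
        have han : AnalyticAt ℂ F z := by
          refine DifferentiableOn.analyticAt (s := An s ρf) ?_ (hoAn.mem_nhds hz)
          intro w hw
          exact (hFd w (hAn w hw).1 (hAn w hw).2).differentiableWithinAt
        refine han.eventually_constant_or_nhds_le_map_nhds.resolve_left ?_
        intro hcst
        have h1 : Tendsto (fun τ : ℝ => (τ : ℂ) * z) (𝓝[<] 1) (𝓝 z) := by
          have : ContinuousAt (fun τ : ℝ => ((τ : ℂ) * z)) 1 := by fun_prop
          have := this.tendsto.mono_left (nhdsWithin_le_nhds (s := Iio (1 : ℝ)))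
          simpa using this
        have k2 : ∀ᶠ τ : ℝ in 𝓝[<] (1 : ℝ), 0 < τ :=
          (lt_mem_nhds one_pos).filter_mono nhdsWithin_le_nhds
        have k3 : ∀ᶠ τ : ℝ in 𝓝[<] (1 : ℝ), τ < 1 := eventually_mem_nhdsWithin
        obtain ⟨τ, ⟨⟨⟨m1, m2⟩, m3⟩, m4⟩⟩ := ((((h1.eventually hcst).and
          (h1.eventually (hoAn.mem_nhds hz))).and k2).and k3).exists
        have m5 : ‖(τ : ℂ) * z‖ < s := by
          rw [norm_mul, Complex.norm_real, Real.norm_eq_abs, abs_of_pos m3, hzs]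
          nlinarith
        have m6 := ((hin _ m2).1).1 m5
        rw [m1] at m6
        linarith
      obtain ⟨N₁, N₂, hN₁, hN₂, hx1, hy1, hdis⟩ := t2_separation hne
      have p1 : F '' (N₁ ∩ An s ρf) ∈ 𝓝 (F x) :=
        hopenmap x hx h (image_mem_map ((hN₁.inter hoAn).mem_nhds ⟨hx1, hx⟩))
      have p2 : F '' (N₂ ∩ An s ρf) ∈ 𝓝 (F x) := by
        rw [hxy]
        exact hopenmap y hy (by rw [← hxy]; exact h)
          (image_mem_map ((hN₂.inter hoAn).mem_nhds ⟨hy1, hy⟩))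
      have p3 : F x ∈ closure (ball (0 : ℂ) 1) := by
        rw [closure_ball _ one_ne_zero]
        simp [h]
      obtain ⟨v, ⟨hv1, hv2⟩, hv3⟩ := mem_closure_iff_nhds.1 p3 _ (inter_mem p1 p2)
      obtain ⟨w₁, hw₁, rfl⟩ := hv1
      obtain ⟨w₂, hw₂, hw⟩ := hv2
      have hv : ‖F w₁‖ < 1 := by simpa using hv3
      have := hInside w₁ hw₁.2 w₂ hw₂.2 hv hw.symm
      rw [this] at hw₁
      exact disjoint_left.1 hdis hw₁.1 hw₂.1
    · have hxs : s < ‖x‖ := ((hin x hx).2).2 h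
      have hys : s < ‖y‖ := ((hin y hy).2).2 (by rw [← hxy]; exact h)
      have hx1 := (hAn x hx).2
      have hy1 := (hAn y hy).2
      rw [hFb x hxs hx1, hFb y hys hy1] at hxy
      unfold star' at hxy
      have e1 := (starRingEnd ℂ).injective (inv_injective hxy)
      have q1 := htau x hxs (hx1.trans hRt)
      have q2 := htau y hys (hy1.trans hRt)
      have e2 := hinj ⟨by have := q1.1; rw [ht] at this; linarith, q1.2⟩
        ⟨by have := q2.1; rw [ht] at this; linarith, q2.2⟩ e1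
      exact tau_inj hs (norm_pos_iff.1 (hs.trans hxs)) (norm_pos_iff.1 (hs.trans hys)) e2
  · intro x h1 h2
    exact hFa x (by linarith) h2

end Pool.Agent.N550.KH.Refl
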