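import Pool.Agent.N550.KH.Stm
import Pool.Agent.N550.SH.Sub

/-!
# Project KH: regular values of maps to `E k`, with an exceptional set
-/

set_option autoImplicit false

open Set Filter Topology Metric Function MeasureTheory
open scoped Manifold ContDiff

noncomputable section

namespace Pool.Agent.N550.KH.Reg

open Pool.Agent.Y522 Pool.Agent.N550.KH

/-- the differential of a function, as a linear form on the model space -/
def dm (n : ℕ) {X : Type} [TopologicalSpace X] [ChartedSpace (E n) X] (f : X → ℝ) (x : X) :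
    E n →L[ℝ] ℝ := mfderiv (𝓡 n) 𝓘(ℝ, ℝ) f x

theorem slice {n : ℕ} {X : Type} [TopologicalSpace X] [SecondCountableTopology X]
    [ChartedSpace (E (n + 1)) X] [IsManifold (𝓡 (n + 1)) ∞ X] (φ : X → ℝ)
    (G : Set X) (hG : IsOpen G) (hφ : ∀ x ∈ G, ContMDiffAt (𝓡 (n + 1)) 𝓘(ℝ, ℝ) ∞ φ x)
    (hnull : volume (φ '' Gᶜ) = 0) {a b : ℝ} (hab : a < b) :
    ∃ c : ℝ, a < c ∧ c < b ∧ (∀ x, φ x = c → x ∈ G) ∧
      ∃ (_ : ChartedSpace (E n) ({x | φ x = c} : Set X)),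
        IsManifold (𝓡 n) ∞ ({x | φ x = c} : Set X) ∧
        ContMDiff (𝓡 n) (𝓡 (n + 1)) ∞ (Subtype.val : ({x | φ x = c} : Set X) → X) ∧
        ∀ s : ({x | φ x = c} : Set X), (∃ v, dm (n + 1) φ s v ≠ 0) ∧
          ∃ V : E n →L[ℝ] E (n + 1), (∀ u, dm (n + 1) φ s (V u) = 0) ∧
            ∀ ψ : X → ℝ, MDifferentiableAt (𝓡 (n + 1)) 𝓘(ℝ, ℝ) ψ (s : X) →
              ∀ u, dm n (fun s : ({x | φ x = c} : Set X) => ψ s) s u =
                dm (n + 1) ψ s (V u) := by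
  obtain ⟨c, hc, hc', hreg⟩ := Pool.Agent.N550.SH.exists_regular_exc φ G hG hφ hnull hab
  have hflat : LocFlat n {x | φ x = c} := by
    intro x hx
    have hx' : φ x = c := hx
    obtain ⟨hxG, hdx⟩ := hreg x hx'
    obtain ⟨e, he, -, he2⟩ := Pool.Agent.Y641.SH.stAdapt n X φ x
      (by filter_upwards [hG.mem_nhds hxG] with y hy using hφ y hy) hdx
    refine ⟨e, he, ?_⟩
    filter_upwards [he2] with y hy
    rw [hy, hx', sub_eq_zero]
  obtain ⟨cs, hmf, hv1, hv2⟩ := Pool.Agent.Y641.SH.stLevel n X {x | φ x = c} hflat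
  refine ⟨c, hc, hc', fun x hx => (hreg x hx).1, cs, hmf, hv1, fun s => ⟨?_, ?_⟩⟩
  · obtain ⟨-, hdx⟩ := hreg s s.2
    by_contra hcon
    push Not at hcon
    exact hdx (ContinuousLinearMap.ext hcon)
  · have hval : MDifferentiableAt (𝓡 n) (𝓡 (n + 1))
        (Subtype.val : ({x | φ x = c} : Set X) → X) s :=
      (hv1 _).mdifferentiableAt (by simp)
    refine ⟨mfderiv (𝓡 n) (𝓡 (n + 1)) (Subtype.val : ({x | φ x = c} : Set X) → X) s,
      fun u => ?_, fun ψ hψ u => ?_⟩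
    · have h1 : mfderiv (𝓡 n) 𝓘(ℝ, ℝ) (φ ∘ (Subtype.val : ({x | φ x = c} : Set X) → X)) s =
          (mfderiv (𝓡 (n + 1)) 𝓘(ℝ, ℝ) φ s).comp
            (mfderiv (𝓡 n) (𝓡 (n + 1)) (Subtype.val : ({x | φ x = c} : Set X) → X) s) :=
        mfderiv_comp (g := φ) s ((hφ s (hreg s s.2).1).mdifferentiableAt (by simp)) hval
      have h2 : φ ∘ (Subtype.val : ({x | φ x = c} : Set X) → X) = fun _ => c :=
        funext fun s => s.2
      rw [h2, mfderiv_const] at h1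
      exact (DFunLike.congr_fun h1 u).symm
    · have h1 : mfderiv (𝓡 n) 𝓘(ℝ, ℝ) (ψ ∘ (Subtype.val : ({x | φ x = c} : Set X) → X)) s =
          (mfderiv (𝓡 (n + 1)) 𝓘(ℝ, ℝ) ψ s).comp
            (mfderiv (𝓡 n) (𝓡 (n + 1)) (Subtype.val : ({x | φ x = c} : Set X) → X) s) :=
        mfderiv_comp (g := ψ) s hψ hval
      exact DFunLike.congr_fun h1 u

/-- the extension step -/
theorem combine {n k : ℕ} {X : Type} [TopologicalSpace X] [ChartedSpace (E (n + 1)) X]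
    (φ : X → ℝ) (x : X) (hφ : ∃ v, dm (n + 1) φ x v ≠ 0) (V : E n →L[ℝ] E (n + 1))
    (hV : ∀ u, dm (n + 1) φ x (V u) = 0) (ψ : Fin k → X → ℝ)
    (hs : ∀ w : Fin k → ℝ, ∃ u : E n, ∀ j, dm (n + 1) (ψ j) x (V u) = w j)
    (t : ℝ) (w : Fin k → ℝ) :
    ∃ v : E (n + 1), dm (n + 1) φ x v = t ∧ ∀ j, dm (n + 1) (ψ j) x v = w j := by
  obtain ⟨v, hv⟩ := hφ
  set v₀ : E (n + 1) := (t / dm (n + 1) φ x v) • v with hv₀
  have h0 : dm (n + 1) φ x v₀ = t := by
    rw [hv₀, map_smul, smul_eq_mul]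
    field_simp
  obtain ⟨u, hu⟩ := hs (fun j => w j - dm (n + 1) (ψ j) x v₀)
  refine ⟨v₀ + V u, ?_, fun j => ?_⟩
  · rw [map_add, hV, h0, add_zero]
  · rw [map_add, hu]
    ring

theorem regA (k : ℕ) : ∀ (m : ℕ) (X : Type) [TopologicalSpace X] [SecondCountableTopology X]
    [ChartedSpace (E (m + k)) X] [IsManifold (𝓡 (m + k)) ∞ X] (p : Fin k → X → ℝ),
    (∀ j, ContMDiff (𝓡 (m + k)) 𝓘(ℝ, ℝ) ∞ (p j)) → ∀ (a : Fin k → ℝ) (δ : ℝ), 0 < δ →
    ∃ c : Fin k → ℝ, (∀ j, |c j - a j| < δ) ∧ ∀ x, (∀ j, p j x = c j) →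
      ∀ w : Fin k → ℝ, ∃ v : E (m + k), ∀ j, dm (m + k) (p j) x v = w j := by
  induction k with
  | zero =>
    intro m X _ _ _ _ p _ a δ _
    exact ⟨fun _ => 0, fun j => j.elim0, fun x _ w => ⟨0, fun j => j.elim0⟩⟩
  | succ k ih =>
    intro m X _ _ _ _ p hp a δ hδ
    obtain ⟨c, hc, hc', -, cs, hmf, hval, hs⟩ := slice (n := m + k) (p 0) univ isOpen_univ
      (fun x _ => hp 0 x) (by simp) (a := a 0 - δ) (b := a 0 + δ) (by linarith)
    obtain ⟨c', hc1, hc2⟩ := ih m ({x | p 0 x = c} : Set X)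
      (fun j s => p j.succ s) (fun j => (hp j.succ).comp hval) (fun j => a j.succ) δ hδ
    refine ⟨Fin.cons c c', fun j => ?_, fun x hx w => ?_⟩
    · refine Fin.cases ?_ (fun j => ?_) j
      · simp only [Fin.cons_zero]
        rw [abs_lt]; constructor <;> linarith
      · simpa using hc1 j
    · have hx0 : p 0 x = c := by simpa using hx 0
      obtain ⟨hd, V, hV, hV'⟩ := hs ⟨x, hx0⟩
      have h2 := hc2 ⟨x, hx0⟩ (fun j => by simpa using hx j.succ)
      obtain ⟨v, hv0, hv1⟩ := combine (p 0) x hd V hV (fun j => p j.succ) (fun w' => by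
        obtain ⟨u, hu⟩ := h2 w'
        refine ⟨u, fun j => ?_⟩
        rw [← hu j]
        exact (hV' (p j.succ) ((hp j.succ x).mdifferentiableAt (by simp)) u).symm)
        (w 0) (fun j => w j.succ)
      refine ⟨v, fun j => ?_⟩
      refine Fin.cases hv0 (fun j => ?_) j
      exact hv1 j

theorem main : S_REG := by
  intro m k X _ _ _ _ p G hk hG hp hnull O hO hne
  obtain ⟨k, rfl⟩ : ∃ k', k = k' + 1 := ⟨k - 1, by omega⟩
  obtain ⟨a, ha⟩ := hne
  -- the box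
  obtain ⟨δ, hδ, hbox⟩ : ∃ δ : ℝ, 0 < δ ∧ ∀ b : E (k + 1), (∀ j, |b j - a j| < δ) → b ∈ O := by
    have hcont : Continuous fun c : Fin (k + 1) → ℝ => (WithLp.toLp 2 c : E (k + 1)) :=
      PiLp.continuous_toLp 2 _
    have h1 : ∀ᶠ c in 𝓝 (fun j => a j : Fin (k + 1) → ℝ), (WithLp.toLp 2 c : E (k + 1)) ∈ O := by
      apply hcont.continuousAt.eventually
      exact hO.mem_nhds ha
    obtain ⟨δ, hδ, h2⟩ := Metric.eventually_nhds_iff.1 h1
    refine ⟨δ, hδ, fun b hb => ?_⟩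
    have h3 : dist (fun j => b j : Fin (k + 1) → ℝ) (fun j => a j) < δ :=
      (dist_pi_lt_iff hδ).2 fun t => by
        rw [Real.dist_eq]
        exact hb t
    exact h2 h3
  have hco : ∀ x ∈ G, ∀ j, ContMDiffAt (𝓡 (m + (k + 1))) 𝓘(ℝ, ℝ) ∞ (fun x => p x j) x := by
    intro x hx j
    have h3 : ContDiff ℝ ∞ (fun v : E (k + 1) => v j) := by fun_prop
    exact h3.contMDiff.contMDiffAt.comp x (hp x hx)
  obtain ⟨c, hc, hc', hcG, cs, hmf, hval, hs⟩ := slice (n := m + k) (fun x => p x 0) G hG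
    (fun x hx => hco x hx 0) (hnull 0) (a := a 0 - δ) (b := a 0 + δ) (by linarith)
  obtain ⟨c', hc1, hc2⟩ := regA k m ({x | p x 0 = c} : Set X)
    (fun j s => p s j.succ) (fun j s =>
      ContMDiffAt.comp (g := fun x => p x j.succ) s (hco _ (hcG s s.2) j.succ) (hval s))
    (fun j => a j.succ) δ hδ
  refine ⟨WithLp.toLp 2 (Fin.cons c c' : Fin (k + 1) → ℝ), hbox _ fun j => ?_, fun x hx => ?_⟩
  · refine Fin.cases ?_ (fun j => ?_) j
    · simp only [Fin.cons_zero]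
      rw [abs_lt]; constructor <;> linarith
    · simpa using hc1 j
  · have hx0 : p x 0 = c := by rw [hx]; simp
    have hxG := hcG x hx0
    refine ⟨hxG, ?_⟩
    obtain ⟨hd, V, hV, hV'⟩ := hs ⟨x, hx0⟩
    have h2 := hc2 ⟨x, hx0⟩ (fun j => by simp [hx])
    have hpx : MDifferentiableAt (𝓡 (m + (k + 1))) (𝓡 (k + 1)) p x :=
      (hp x hxG).mdifferentiableAt (by simp)
    intro y
    obtain ⟨v, hv0, hv1⟩ := combine (fun x => p x 0) x hd V hV (fun j x => p x j.succ)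
      (fun w' => by
        obtain ⟨u, hu⟩ := h2 w'
        refine ⟨u, fun j => ?_⟩
        rw [← hu j]
        exact (hV' (fun x => p x j.succ)
          ((hco x hxG j.succ).mdifferentiableAt (by simp)) u).symm)
      ((show E (k + 1) from y) 0) (fun j => (show E (k + 1) from y) j.succ)
    refine ⟨v, ?_⟩
    have key : ∀ j, (show E (k + 1) from mfderiv (𝓡 (m + (k + 1))) (𝓡 (k + 1)) p x v) j =
        dm (m + (k + 1)) (fun x => p x j) x v := by
      intro j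
      have h3 : ContDiff ℝ ∞ (fun v : E (k + 1) => v j) := by fun_prop
      have h4 : MDifferentiableAt (𝓡 (k + 1)) 𝓘(ℝ, ℝ) (fun v : E (k + 1) => v j) (p x) :=
        h3.contMDiff.contMDiffAt.mdifferentiableAt (by simp)
      have h5 : mfderiv (𝓡 (m + (k + 1))) 𝓘(ℝ, ℝ) ((fun v : E (k + 1) => v j) ∘ p) x =
          (mfderiv (𝓡 (k + 1)) 𝓘(ℝ, ℝ) (fun v : E (k + 1) => v j) (p x)).comp
            (mfderiv (𝓡 (m + (k + 1))) (𝓡 (k + 1)) p x) := mfderiv_comp x h4 hpx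
      have h6 := DFunLike.congr_fun h5 v
      have h7 : mfderiv (𝓡 (k + 1)) 𝓘(ℝ, ℝ) (fun v : E (k + 1) => v j) (p x) =
          (EuclideanSpace.proj j : E (k + 1) →L[ℝ] ℝ) := by
        rw [mfderiv_eq_fderiv]
        exact (EuclideanSpace.proj j : E (k + 1) →L[ℝ] ℝ).fderiv
      rw [h7] at h6
      exact h6.symm
    show (show E (k + 1) from mfderiv (𝓡 (m + (k + 1))) (𝓡 (k + 1)) p x v) =
      (show E (k + 1) from y)
    ext j
    rw [key j]
    refine Fin.cases hv0 (fun j => ?_) j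
    exact hv1 j

end Pool.Agent.N550.KH.Reg
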