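import Pool.Agent.N550.KH.Stm

/-! `S_TRIG`: closed smooth curves are approximated in `C¹` by Laurent polynomials on the circle. -/

open Set Complex
open scoped ContDiff Topology

namespace Pool.Agent.N550.KH.Trig

theorem approx (g : ℝ → ℂ) (hg : Continuous g) (hp : ∀ θ, g (θ + 2 * Real.pi) = g θ) (ε : ℝ)
    (hε : 0 < ε) : ∃ c : ℤ →₀ ℂ, ∀ θ : ℝ,
      ‖c.sum (fun k a => a * Complex.exp (θ * I) ^ k) - g θ‖ ≤ ε := by
  have : Fact (0 < 2 * Real.pi) := ⟨by positivity⟩
  have hper : Function.Periodic g (2 * Real.pi) := hp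
  let G : C(AddCircle (2 * Real.pi), ℂ) := ⟨hper.lift, continuous_coinduced_dom.mpr hg⟩
  have hG : ∀ θ : ℝ, G (θ : AddCircle (2 * Real.pi)) = g θ := fun θ => hper.lift_coe θ
  have hd : G ∈ (Submodule.span ℂ (Set.range (@fourier (2 * Real.pi)))).topologicalClosure := by
    rw [span_fourier_closure_eq_top]; trivial
  rw [← SetLike.mem_coe, Submodule.topologicalClosure_coe, Metric.mem_closure_iff] at hd
  obtain ⟨p, hpm, hpd⟩ := hd ε hε
  rw [SetLike.mem_coe, Finsupp.mem_span_range_iff_exists_finsupp] at hpm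
  obtain ⟨c, rfl⟩ := hpm
  refine ⟨c, fun θ => ?_⟩
  have h1 := (ContinuousMap.dist_apply_le_dist (f := G)
    (g := c.sum fun i a => a • fourier i) (θ : AddCircle (2 * Real.pi))).trans hpd.le
  rw [dist_comm, dist_eq_norm, hG] at h1
  have h2 : (c.sum fun i a => a • (fourier i : C(AddCircle (2 * Real.pi), ℂ)))
      (θ : AddCircle (2 * Real.pi)) = c.sum (fun k a => a * Complex.exp (θ * I) ^ k) := by
    simp only [Finsupp.sum, ContinuousMap.coe_sum, Finset.sum_apply, ContinuousMap.coe_smul,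
      Pi.smul_apply, smul_eq_mul]
    refine Finset.sum_congr rfl fun k _ => ?_
    rw [fourier_coe_apply, ← Complex.exp_int_mul]
    congr 2
    have : (Real.pi : ℂ) ≠ 0 := by exact_mod_cast Real.pi_ne_zero
    push_cast
    field_simp
  rw [h2] at h1
  exact h1

theorem main : S_TRIG := by
  intro γ hγ hp ε hε
  have hdiff : Differentiable ℝ γ := hγ.differentiable (by simp)
  have hcd : Continuous (deriv γ) := hγ.continuous_deriv (by simp)
  have hpd : ∀ θ, deriv γ (θ + 2 * Real.pi) = deriv γ θ := by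
    intro θ
    rw [← deriv_comp_add_const]
    congr 1
    funext t
    exact hp t
  set e1 : ℝ := ε / (4 * Real.pi + 2) with he1
  have hpi := Real.pi_pos
  have he1p : 0 < e1 := by positivity
  obtain ⟨c, hc⟩ := approx (deriv γ) hcd hpd e1 he1p
  let w : ℤ → ℂ := fun k => c k / (I * k)
  let h0 : ℂ → ℂ := fun z => ∑ k ∈ c.support.erase 0, w k * z ^ k
  let C : ℂ := γ 0 - h0 1
  let h : ℂ → ℂ := fun z => C + h0 z
  have hh : ∀ z : ℂ, z ≠ 0 → HasDerivAt h (∑ k ∈ c.support.erase 0, w k * (k * z ^ (k - 1))) z := by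
    intro z hz
    have : HasDerivAt h0 (∑ k ∈ c.support.erase 0, w k * (k * z ^ (k - 1))) z := by
      have := HasDerivAt.fun_sum (u := c.support.erase 0) (A := fun k z => w k * z ^ k)
        (A' := fun k => w k * (k * z ^ (k - 1))) (x := z)
        (fun k _ => (hasDerivAt_zpow k z (Or.inl hz)).const_mul (w k))
      exact this
    exact this.const_add C
  have hE : ∀ θ : ℝ, HasDerivAt (fun t : ℝ => Complex.exp (t * I)) (Complex.exp (θ * I) * I) θ := by
    intro θ
    have h1 : HasDerivAt (fun t : ℝ => (t : ℂ) * I) I θ := by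
      have := (Complex.ofRealCLM.hasDerivAt (x := θ)).mul_const I
      simpa using this
    exact h1.cexp
  have hq : ∀ θ : ℝ, I * Complex.exp (θ * I) * deriv h (Complex.exp (θ * I)) =
      c.sum (fun k a => a * Complex.exp (θ * I) ^ k) - c 0 := by
    intro θ
    have hz : Complex.exp (θ * I) ≠ 0 := Complex.exp_ne_zero _
    rw [(hh _ hz).deriv, Finsupp.sum]
    have h1 : ∑ k ∈ c.support, c k * Complex.exp (θ * I) ^ k =
        ∑ k ∈ c.support.erase 0, c k * Complex.exp (θ * I) ^ k + c 0 := by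
      by_cases h0 : (0 : ℤ) ∈ c.support
      · rw [← Finset.sum_erase_add _ _ h0]; simp
      · rw [Finset.erase_eq_of_notMem h0, Finsupp.notMem_support_iff.mp h0, add_zero]
    rw [h1, add_sub_cancel_right, Finset.mul_sum]
    refine Finset.sum_congr rfl fun k hk => ?_
    have hk0 : (k : ℂ) ≠ 0 := by exact_mod_cast (Finset.mem_erase.mp hk).1
    simp only [w]
    rw [zpow_sub_one₀ hz]
    field_simp
  have hH : ∀ θ : ℝ, HasDerivAt (fun t : ℝ => h (Complex.exp (t * I)))
      (c.sum (fun k a => a * Complex.exp (θ * I) ^ k) - c 0) θ := by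
    intro θ
    have hz : Complex.exp (θ * I) ≠ 0 := Complex.exp_ne_zero _
    have h1 := (hh _ hz).differentiableAt.hasDerivAt
    have h2 := HasDerivAt.scomp θ h1 (hE θ)
    have h3 : (Complex.exp (θ * I) * I) • deriv h (Complex.exp (θ * I)) =
        c.sum (fun k a => a * Complex.exp (θ * I) ^ k) - c 0 := by
      rw [← hq θ, smul_eq_mul]; ring
    rw [← h3]
    exact h2
  have hper2 : ∀ θ : ℝ, Complex.exp ((θ + 2 * Real.pi : ℝ) * I) = Complex.exp (θ * I) := by
    intro θ
    push_cast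
    rw [add_mul, Complex.exp_add, Complex.exp_two_pi_mul_I, mul_one]
  have hγd : ∀ θ : ℝ, HasDerivAt γ (deriv γ θ) θ := fun θ => (hdiff θ).hasDerivAt
  -- bound on `c 0`
  have hc0 : ‖c 0‖ ≤ e1 := by
    have hD : ∀ θ : ℝ, HasDerivAt (fun t : ℝ => h (Complex.exp (t * I)) - γ t + (t : ℂ) * c 0)
        (c.sum (fun k a => a * Complex.exp (θ * I) ^ k) - deriv γ θ) θ := by
      intro θ
      have h1 : HasDerivAt (fun t : ℝ => (t : ℂ) * c 0) (c 0) θ := by
        have := (Complex.ofRealCLM.hasDerivAt (x := θ)).mul_const (c 0)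
        simpa using this
      have h2 := ((hH θ).sub (hγd θ)).add h1
      refine h2.congr_deriv ?_
      ring
    have h3 := Convex.norm_image_sub_le_of_norm_hasDerivWithin_le (s := Set.univ) (C := e1)
      (fun θ _ => (hD θ).hasDerivWithinAt) (fun θ _ => hc θ) convex_univ (Set.mem_univ (0 : ℝ))
      (Set.mem_univ (2 * Real.pi))
    have h4 : Complex.exp ((2 * Real.pi : ℝ) * I) = Complex.exp ((0 : ℝ) * I) := by
      have := hper2 0
      rwa [zero_add] at this
    have h5 : γ (2 * Real.pi) = γ 0 := by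
      have := hp 0
      rwa [zero_add] at this
    rw [h4, h5] at h3
    have h6 : h (Complex.exp ((0 : ℝ) * I)) - γ 0 + ((2 * Real.pi : ℝ) : ℂ) * c 0 -
        (h (Complex.exp ((0 : ℝ) * I)) - γ 0 + ((0 : ℝ) : ℂ) * c 0) =
        ((2 * Real.pi : ℝ) : ℂ) * c 0 := by push_cast; ring
    rw [h6, norm_mul, sub_zero, Complex.norm_real] at h3
    have h7 : ‖(2 * Real.pi : ℝ)‖ = 2 * Real.pi := by
      rw [Real.norm_eq_abs, abs_of_pos (by positivity)]
    rw [h7] at h3
    nlinarith [h3, hpi]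
  have hb : ∀ θ : ℝ, ‖(c.sum (fun k a => a * Complex.exp (θ * I) ^ k) - c 0) - deriv γ θ‖ ≤
      2 * e1 := by
    intro θ
    have h1 : (c.sum (fun k a => a * Complex.exp (θ * I) ^ k) - c 0) - deriv γ θ =
        (c.sum (fun k a => a * Complex.exp (θ * I) ^ k) - deriv γ θ) - c 0 := by ring
    rw [h1]
    calc _ ≤ ‖c.sum (fun k a => a * Complex.exp (θ * I) ^ k) - deriv γ θ‖ + ‖c 0‖ := norm_sub_le _ _
      _ ≤ e1 + e1 := add_le_add (hc θ) hc0
      _ = 2 * e1 := by ring
  have heq : (4 * Real.pi + 2) * e1 = ε := by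
    rw [he1]; field_simp
  refine ⟨h, fun z hz => (hh z hz).differentiableAt, fun θ => ⟨?_, ?_⟩⟩
  · have hper3 : Function.Periodic (fun t : ℝ => h (Complex.exp (t * I)) - γ t) (2 * Real.pi) := by
      intro t
      simp only
      rw [hper2, hp]
    obtain ⟨t, ht, hte⟩ := hper3.exists_mem_Ico₀ (by positivity) θ
    rw [hte]
    have h3 := Convex.norm_image_sub_le_of_norm_hasDerivWithin_le (s := Set.univ) (C := 2 * e1)
      (f := fun t : ℝ => h (Complex.exp (t * I)) - γ t)
      (fun θ _ => ((hH θ).sub (hγd θ)).hasDerivWithinAt) (fun θ _ => hb θ) convex_univ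
      (Set.mem_univ (0 : ℝ)) (Set.mem_univ t)
    have h4 : h (Complex.exp ((0 : ℝ) * I)) - γ 0 = 0 := by
      simp [h, C]
    rw [h4, sub_zero, sub_zero, Real.norm_eq_abs, abs_of_nonneg ht.1] at h3
    have : 2 * e1 * t ≤ 2 * e1 * (2 * Real.pi) :=
      mul_le_mul_of_nonneg_left ht.2.le (by positivity)
    nlinarith
  · rw [hq θ]
    refine (hb θ).trans ?_
    nlinarith

end Pool.Agent.N550.KH.Trig

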