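import Pool.Agent.N550.KH.Stm

/-!
# Project KH: the 2-handles
-/

set_option autoImplicit false

open Set Filter Topology Metric Function MeasureTheory
open scoped Manifold ContDiff

noncomputable section

namespace Pool.Agent.N550.KH.Two

open Pool.Agent.Y522 Pool.Agent.N550.KH

section

variable {n : ℕ} {M N P : Type} [TopologicalSpace M] [ChartedSpace (E n) M]
    [TopologicalSpace N] [ChartedSpace (E n) N] [TopologicalSpace P] [ChartedSpace (E n) P]

/-! ### Generalities -/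

set_option linter.unusedSectionVars false

theorem ld_inv {H : E n → N} (hi : Injective H) (hl : ∀ z, LD n H z) (z : E n) :
    LD n (invFun H) (H z) :=
  LD.inverse isOpen_univ (fun x _ => hl x) (fun x _ => leftInverse_invFun hi x) (mem_univ z)

theorem inv_app {H : E n → N} (hi : Injective H) (z : E n) : invFun H (H z) = z :=
  leftInverse_invFun hi z

theorem app_inv {H : E n → N} {y : N} (hy : y ∈ range H) : H (invFun H y) = y :=
  invFun_eq hy

theorem cont_of_ld {f : M → N} (hf : ∀ x, LD n f x) : Continuous f :=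
  continuous_iff_continuousAt.2 fun x => (hf x).continuousAt

theorem open_range {H : E n → N} (hl : ∀ z, LD n H z) : IsOpen (range H) := by
  rw [← image_univ]
  exact isOpen_image_of_LD isOpen_univ fun x _ => hl x

/-- the handle coordinates of a homeomorphism -/
def Fp (f : M ≃ₜ N) (H : E n → N) (hi : Injective H) (hl : ∀ z, LD n H z) :
    OpenPartialHomeomorph M (E n) where
  toFun := fun x => invFun H (f x)
  invFun := fun z => f.symm (H z)
  source := f ⁻¹' range H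
  target := univ
  map_source' := fun _ _ => mem_univ _
  map_target' := fun z _ => ⟨z, (f.apply_symm_apply _).symm⟩
  left_inv' := fun x hx => by
    rw [app_inv hx, f.symm_apply_apply]
  right_inv' := fun z _ => by
    rw [f.apply_symm_apply, inv_app hi]
  open_source := (open_range hl).preimage f.continuous
  open_target := isOpen_univ
  continuousOn_toFun := fun x hx => by
    obtain ⟨z, hz⟩ := hx
    have h1 : ContinuousAt (invFun H) (f x) := hz ▸ (ld_inv hi hl z).continuousAt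
    exact (ContinuousAt.comp (g := invFun H) h1 f.continuous.continuousAt).continuousWithinAt
  continuousOn_invFun := (f.symm.continuous.comp (cont_of_ld hl)).continuousOn

theorem Sm.comp_ld {f : M → N} {g : N → P} {x : M} (hf : Sm n f x) (hg : LD n g (f x)) :
    Sm n (fun y => g (f y)) x := by
  have h1 : ContinuousAt f x := hf.self_of_nhds.continuousAt
  have h2 : ∀ᶠ y in 𝓝 x, LD n g (f y) := h1.eventually hg.eventually
  unfold Sm at hf ⊢
  filter_upwards [hf, h2] with y h3 h4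
  exact ContMDiffAt.comp (g := g) y h4.contMDiffAt h3

theorem NullH.mono {B B' : Set N} (h : NullH n B') (hB : B ⊆ B') : NullH n B := by
  intro h' hi hl
  exact measure_mono_null (preimage_mono hB) (h h' hi hl)

theorem NullH.image {B : Set N} (h : NullH n B) {κ : N → N} (hκ : IsDf n κ) :
    NullH n (κ '' B) := by
  intro h' hi hl
  obtain ⟨hb, hκl⟩ := hκ
  let e := Equiv.ofBijective κ hb
  have he : ∀ x, e.symm (κ x) = x := fun x => e.symm_apply_apply x
  have he' : ∀ x, κ (e.symm x) = x := fun x => e.apply_symm_apply x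
  have h1 := h (fun z => e.symm (h' z)) (e.symm.injective.comp hi) (fun z =>
    LD.comp_fun (LD.inverse_bij hb hκl he (h' z)) (hl z))
  have h2 : h' ⁻¹' (κ '' B) = (fun z => e.symm (h' z)) ⁻¹' B := by
    ext z
    constructor
    · rintro ⟨y, hy, hyz⟩
      show e.symm (h' z) ∈ B
      rw [← hyz, he]
      exact hy
    · intro hz
      exact ⟨_, hz, he' _⟩
  rw [h2]
  exact h1

/-- a diffeomorphism as a homeomorphism -/
def toH {κ : N → N} (hκ : IsDf n κ) : N ≃ₜ N where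
  toEquiv := Equiv.ofBijective κ hκ.1
  continuous_toFun := cont_of_ld hκ.2
  continuous_invFun := by
    have h1 : ∀ y, LD n (Equiv.ofBijective κ hκ.1).symm y := fun y =>
      LD.inverse_bij hκ.1 hκ.2 (fun x => (Equiv.ofBijective κ hκ.1).symm_apply_apply x) y
    exact cont_of_ld h1

theorem toH_apply {κ : N → N} (hκ : IsDf n κ) (x : N) : toH hκ x = κ x := rfl

theorem Sm.congr' {f g : M → N} {x : M} (hf : Sm n f x) (h : g =ᶠ[𝓝 x] f) : Sm n g x := by
  unfold Sm at hf ⊢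
  filter_upwards [hf, eventually_eventually_nhds.2 h] with y h1 h2
  exact h1.congr_of_eventuallyEq h2

end

/-- the handle `H` is in good position -/
def Pr (k : ℕ) {M N : Type} [TopologicalSpace M] [ChartedSpace (E (2 + k)) M]
    [TopologicalSpace N] [ChartedSpace (E (2 + k)) N] (f : M → N) (H : E (2 + k) → N) : Prop :=
  ∀ x, f x ∈ range H → vp 2 k (invFun H (f x)) = 0 → ‖up 2 k (invFun H (f x))‖ < 2 →
    Sm (2 + k) (fun y => invFun H (f y)) x ∧
    Surjective (mfderiv (𝓡 (2 + k)) (𝓡 k) (fun y => vp 2 k (invFun H (f y))) x)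

theorem norm_up_jn {k : ℕ} (z w : E (2 + k)) (h : up 2 k z = up 2 k w) (h' : vp 2 k z = vp 2 k w) :
    z = w := by
  rw [← jn_up_vp 2 k z, ← jn_up_vp 2 k w, h, h']

/-- regular position of one handle -/
theorem one (hVS : S_VS) (hSU : S_SUPP) (hRG : S_REG) {k : ℕ} (hk : 0 < k) {M N : Type}
    [TopologicalSpace M] [CompactSpace M] [ChartedSpace (E (2 + k)) M]
    [IsManifold (𝓡 (2 + k)) ∞ M] [TopologicalSpace N] [T2Space N] [ChartedSpace (E (2 + k)) N]
    (f : M ≃ₜ N) {H : E (2 + k) → N} (hi : Injective H) (hl : ∀ z, LD (2 + k) H z)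
    (hN : NullH (2 + k) (f '' Bad (2 + k) f)) :
    ∃ κ : N → N, IsDf (2 + k) κ ∧ (∀ x, x ∉ range H → κ x = x) ∧
      (∀ z, ∃ w, κ (H z) = H w ∧ up 2 k w = up 2 k z) ∧ Pr k (fun x => κ (f x)) H := by
  have hsc : SecondCountableTopology M :=
    ChartedSpace.secondCountable_of_sigmaCompact (E (2 + k)) M
  obtain ⟨ρ, hρ, hκ⟩ := hVS 2 k
  obtain ⟨U, hU⟩ : ∃ U : TopologicalSpace.Opens M, ∀ x, x ∈ U ↔ f x ∈ range H :=
    ⟨⟨f ⁻¹' range H, (open_range hl).preimage f.continuous⟩, fun _ => Iff.rfl⟩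
  have hsmF : ∀ x, f x ∈ range H → Sm (2 + k) f x → Sm (2 + k) (fun y => invFun H (f y)) x := by
    intro x hx hs
    obtain ⟨z, hz⟩ := hx
    exact Sm.comp_ld hs (hz ▸ ld_inv hi hl z)
  have hvs : ∀ (g : M → E (2 + k)) (x : M), ContMDiffAt (𝓡 (2 + k)) (𝓡 (2 + k)) ∞ g x →
      ContMDiffAt (𝓡 (2 + k)) (𝓡 k) ∞ (fun y => vp 2 k (g y)) x := by
    intro g x hg
    exact ContMDiffAt.comp (g := vp 2 k) x (vp 2 k).contDiff.contMDiff.contMDiffAt hg
  obtain ⟨y₀, hy₀, hreg⟩ := hRG 2 k U (fun x => vp 2 k (invFun H (f x.1)))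
    {x : U | Sm (2 + k) f x.1} hk (by
      have h1 : IsOpen {x : M | Sm (2 + k) f x} := isOpen_setOfPred_eventually_nhds
      exact h1.preimage continuous_subtype_val) (fun x hx => by
      have h2 := hvs _ x.1 (hsmF x.1 ((hU _).mp x.2) hx).self_of_nhds
      exact ContMDiffAt.comp (g := fun y => vp 2 k (invFun H (f y))) x h2
        contMDiff_subtype_val.contMDiffAt) (fun j => by
      have hL : LipschitzWith 1 (fun z : E (2 + k) => z (Fin.natAdd 2 j)) := by
        refine LipschitzWith.of_dist_le_mul fun u v => ?_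
        rw [NNReal.coe_one, one_mul, Real.dist_eq, dist_eq_norm]
        exact PiLp.norm_apply_le (u - v) _
      have h2 := hL.hausdorffMeasure_image_le (d := 1) zero_le_one (H ⁻¹' (f '' Bad (2 + k) f))
      rw [hN H hi hl, mul_zero, hausdorffMeasure_real] at h2
      refine measure_mono_null ?_ (le_antisymm h2 bot_le)
      rintro _ ⟨x, hx, rfl⟩
      refine ⟨invFun H (f x.1), ?_, rfl⟩
      show H (invFun H (f x.1)) ∈ f '' Bad (2 + k) f
      rw [app_inv ((hU _).mp x.2)]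
      exact ⟨x.1, hx, rfl⟩) (ball 0 (min ρ 1)) isOpen_ball
    ⟨0, mem_ball_self (lt_min hρ one_pos)⟩
  rw [mem_ball_zero_iff] at hy₀
  have hy1 : ‖y₀‖ < ρ := lt_of_lt_of_le hy₀ (min_le_left _ _)
  have hy2 : ‖y₀‖ < 1 := lt_of_lt_of_le hy₀ (min_le_right _ _)
  obtain ⟨κ, hκ1, hκ2, hκ3, hκ4⟩ := hκ (-y₀) (by rw [norm_neg]; exact hy1)
  obtain ⟨K, hK1, hK2, hK3⟩ := hSU (2 + k) N H hi hl κ hκ1 hκ2
  refine ⟨K, hK1, hK3, fun z => ⟨κ z, hK2 z, hκ3 z⟩, fun x hx h1 h2 => ?_⟩
  simp only at hx h1 h2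
  -- the point lies in the handle
  have hfx : f x ∈ range H := by
    by_contra hcon
    rw [hK3 _ hcon] at hx
    exact hcon hx
  have hop : IsOpen (f ⁻¹' range H) := (open_range hl).preimage f.continuous
  have hform : ∀ y, f y ∈ range H → invFun H (K (f y)) = κ (invFun H (f y)) := by
    intro y hy
    obtain ⟨z, hz⟩ := hy
    rw [← hz, hK2, inv_app hi, inv_app hi]
  rw [hform x hfx] at h1 h2
  rw [hκ3] at h2
  have hz : vp 2 k (invFun H (f x)) = y₀ := by
    have h3 : κ (invFun H (f x)) = κ (jn 2 k (up 2 k (invFun H (f x))) y₀) := by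
      refine norm_up_jn _ _ ?_ ?_
      · rw [hκ3, hκ3, up_jn]
      · rw [h1, hκ4 _ (by rw [up_jn]; exact h2.le) (by rw [vp_jn]; exact hy2.le), vp_jn,
          add_neg_cancel]
    have h4 := hκ1.1.1 h3
    rw [h4, vp_jn]
  obtain ⟨r1, r2⟩ := hreg ⟨x, (hU x).mpr hfx⟩ hz
  have hsF := hsmF x hfx r1
  have hev : (fun y => invFun H (K (f y))) =ᶠ[𝓝 x] fun y => κ (invFun H (f y)) := by
    filter_upwards [hop.mem_nhds hfx] with y hy
    exact hform y hy
  refine ⟨Sm.congr' (Sm.comp_ld hsF (hκ1.2 _)) hev, ?_⟩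
  have hcF : ContinuousAt (fun y => invFun H (f y)) x := hsF.self_of_nhds.continuousAt
  have hev2 : (fun y => vp 2 k (invFun H (K (f y)))) =ᶠ[𝓝 x]
      fun y => vp 2 k (invFun H (f y)) + -y₀ := by
    have e1 : ∀ᶠ y in 𝓝 x, ‖up 2 k (invFun H (f y))‖ < 2 :=
      ((up 2 k).continuous.continuousAt.comp (f := fun y => invFun H (f y)) hcF).norm.eventually_lt
        continuousAt_const h2
    have e2 : ∀ᶠ y in 𝓝 x, ‖vp 2 k (invFun H (f y))‖ < 1 :=
      ((vp 2 k).continuous.continuousAt.comp (f := fun y => invFun H (f y)) hcF).norm.eventually_lt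
        continuousAt_const (by rw [Function.comp_apply, hz]; exact hy2)
    filter_upwards [hev, e1, e2] with y h3 h4 h5
    rw [h3, hκ4 _ h4.le h5.le]
  have hd : MDifferentiableAt (𝓡 (2 + k)) (𝓡 k) (fun y => vp 2 k (invFun H (f y))) x :=
    (hvs _ x hsF.self_of_nhds).mdifferentiableAt (by simp)
  rw [hev2.mfderiv_eq]
  have e3 : mfderiv (𝓡 (2 + k)) (𝓡 k) (fun y => vp 2 k (invFun H (f y)) + -y₀) x =
      mfderiv (𝓡 (2 + k)) (𝓡 k) (fun y => vp 2 k (invFun H (f y))) x := by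
    have h6 := hd.hasMFDerivAt.add (hasMFDerivAt_const (I := 𝓡 (2 + k)) (I' := 𝓡 k) (-y₀) x)
    exact h6.mfderiv.trans (add_zero _)
  rw [e3]
  have e4 : mfderiv (𝓡 (2 + k)) (𝓡 k) (fun x : U => vp 2 k (invFun H (f x.1)))
      ⟨x, (hU x).mpr hfx⟩ = (mfderiv (𝓡 (2 + k)) (𝓡 k) (fun y => vp 2 k (invFun H (f y))) x).comp
        (mfderiv (𝓡 (2 + k)) (𝓡 (2 + k)) (Subtype.val : U → M) ⟨x, (hU x).mpr hfx⟩) :=
    mfderiv_comp (I := 𝓡 (2 + k)) (I' := 𝓡 (2 + k)) (I'' := 𝓡 k)
      (g := fun y => vp 2 k (invFun H (f y))) ⟨x, (hU x).mpr hfx⟩ hd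
      (contMDiff_subtype_val.contMDiffAt.mdifferentiableAt (n := ∞) (by simp))
  rw [e4] at r2
  exact Surjective.of_comp r2

/-- the other handles stay in good position -/
theorem Pr.other {k : ℕ} {M N : Type} [TopologicalSpace M] [ChartedSpace (E (2 + k)) M]
    [TopologicalSpace N] [ChartedSpace (E (2 + k)) N] {f : M ≃ₜ N} {H H' : E (2 + k) → N}
    (hl' : ∀ z, LD (2 + k) H' z) (hd : ∀ z w, H z ≠ H' w) {κ : N → N}
    (h1 : ∀ x, x ∉ range H → κ x = x) (h2 : ∀ z, ∃ w, κ (H z) = H w ∧ up 2 k w = up 2 k z)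
    (h : Pr k f H') : Pr k (fun x => κ (f x)) H' := by
  intro x hx hx1 hx2
  simp only at hx hx1 hx2
  have key : ∀ y, f y ∈ range H' → κ (f y) = f y := by
    intro y hy
    apply h1
    rintro ⟨z, hz⟩
    obtain ⟨w, hw⟩ := hy
    exact hd z w (hz.trans hw.symm)
  have hfx : f x ∈ range H' := by
    by_cases hc : f x ∈ range H
    · exfalso
      obtain ⟨z, hz⟩ := hc
      obtain ⟨w, hw, -⟩ := h2 z
      rw [← hz, hw] at hx
      obtain ⟨v, hv⟩ := hx
      exact hd w v hv.symm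
    · rwa [h1 _ hc] at hx
  have hop : IsOpen (f ⁻¹' range H') := (open_range hl').preimage f.continuous
  rw [key x hfx] at hx1 hx2
  obtain ⟨r1, r2⟩ := h x hfx hx1 hx2
  have hev : (fun y => invFun H' (κ (f y))) =ᶠ[𝓝 x] fun y => invFun H' (f y) := by
    filter_upwards [hop.mem_nhds hfx] with y hy
    rw [key y hy]
  have hev2 : (fun y => vp 2 k (invFun H' (κ (f y)))) =ᶠ[𝓝 x]
      fun y => vp 2 k (invFun H' (f y)) := by
    filter_upwards [hev] with y hy
    rw [hy]
  refine ⟨Sm.congr' r1 hev, ?_⟩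
  rw [hev2.mfderiv_eq]
  exact r2

/-- regular position of all handles -/
theorem all (hVS : S_VS) (hSU : S_SUPP) (hRG : S_REG) {k a : ℕ} (hk : 0 < k) {M N : Type}
    [TopologicalSpace M] [CompactSpace M] [ChartedSpace (E (2 + k)) M]
    [IsManifold (𝓡 (2 + k)) ∞ M] [TopologicalSpace N] [T2Space N] [ChartedSpace (E (2 + k)) N]
    (f : M ≃ₜ N) (h : Fin a → E (2 + k) → N) (K : Set N)
    (hN : NullH (2 + k) (f '' Bad (2 + k) f)) (hi : ∀ i, Injective (h i))
    (hl : ∀ i z, LD (2 + k) (h i) z) (hK : ∀ i z, h i z ∈ K ↔ 1 ≤ ‖up 2 k z‖)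
    (hd : ∀ i j z w, i ≠ j → h i z ≠ h j w) (hf : ∀ x, f x ∈ K → LD (2 + k) f x)
    (s : Finset (Fin a)) :
    ∃ f' : M ≃ₜ N, NullH (2 + k) (f' '' Bad (2 + k) f') ∧
      (∀ x, f' x ∈ K → LD (2 + k) f' x) ∧ ∀ i ∈ s, Pr k f' (h i) := by
  induction s using Finset.induction_on with
  | empty => exact ⟨f, hN, hf, fun i hi => absurd hi (Finset.notMem_empty i)⟩
  | insert i s his ih =>
    obtain ⟨f', g1, g2, g3⟩ := ih
    obtain ⟨κ, k1, k2, k3, k4⟩ := one hVS hSU hRG hk f' (hi i) (hl i) g1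
    have hco : ∀ x, (f'.trans (toH k1)) x = κ (f' x) := fun x => rfl
    have hco' : ((f'.trans (toH k1) : M ≃ₜ N) : M → N) = fun x => κ (f' x) := rfl
    refine ⟨f'.trans (toH k1), ?_, ?_, ?_⟩
    · refine NullH.mono (NullH.image g1 k1) ?_
      rintro _ ⟨x, hx, rfl⟩
      refine ⟨f' x, ⟨x, ?_, rfl⟩, rfl⟩
      intro hs
      apply hx
      rw [hco']
      exact Sm.comp_ld hs (k1.2 _)
    · intro x hx
      rw [hco] at hx
      have hx' : f' x ∈ K := by
        by_cases hc : f' x ∈ range (h i)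
        · obtain ⟨z, hz⟩ := hc
          obtain ⟨w, hw, hw'⟩ := k3 z
          rw [← hz, hw, hK, hw', ← hK, hz] at hx
          exact hx
        · rwa [k2 _ hc] at hx
      rw [hco']
      exact LD.comp_fun (k1.2 _) (g2 x hx')
    · intro j hj
      rw [hco']
      by_cases hji : j = i
      · rw [hji]
        exact k4
      · have hjs : j ∈ s := Finset.mem_of_mem_insert_of_ne hj hji
        exact Pr.other (hl j) (fun z w => hd i j z w (Ne.symm hji)) k2 k3 (g3 j hjs)

/-- **The 2-handles.** -/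
theorem main : S_VS → S_SUPP → S_REG → S_HND → S_TWO := by
  intro hVS hSU hRG hHN k a M N _ _ _ _ _ _ _ _ _ _ f₀ h K hk hN₀ hi hl hK hd hf₀ hKc
  classical
  obtain ⟨f, hN, hf, hP⟩ := all hVS hSU hRG hk f₀ h K hN₀ hi hl hK hd hf₀ Finset.univ
  -- the handle coordinates
  obtain ⟨F, hF⟩ : ∃ F : ∀ i : Fin a, OpenPartialHomeomorph M (E (2 + k)),
      ∀ i, F i = Fp f (h i) (hi i) (hl i) := ⟨_, fun _ => rfl⟩
  have hFa : ∀ i x, F i x = invFun (h i) (f x) := fun i x => by rw [hF]; rfl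
  have hFs : ∀ i x, x ∈ (F i).source ↔ f x ∈ range (h i) := fun i x => by rw [hF]; exact Iff.rfl
  have hFt : ∀ i, (F i).target = univ := fun i => by rw [hF]; rfl
  have hFc : ∀ i, ((F i : OpenPartialHomeomorph M (E (2 + k))) : M → E (2 + k)) =
      fun x => invFun (h i) (f x) := fun i => funext fun x => hFa i x
  have hFh : ∀ i x, x ∈ (F i).source → h i (F i x) = f x := by
    intro i x hx
    rw [hFa]
    exact app_inv ((hFs i x).mp hx)
  have hdis : ∀ i j x, x ∈ (F i).source → x ∈ (F j).source → i = j := by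
    intro i j x hx hy
    by_contra hij
    obtain ⟨z, hz⟩ := (hFs i x).mp hx
    obtain ⟨w, hw⟩ := (hFs j x).mp hy
    exact hd i j z w hij (hz.trans hw.symm)
  -- the modification of the cores
  have hnd : ∀ i, ∃ (F' : M → E (2 + k)) (C : Set M), IsCompact C ∧ C ⊆ (F i).source ∧
      (∀ x ∈ C, ‖up 2 k (F i x)‖ < 1) ∧ (∀ x, x ∉ C → F' x = F i x) ∧
      (∀ x ∈ (F i).source, vp 2 k (F i x) = 0 → ‖up 2 k (F i x)‖ ≤ 1 → LD (2 + k) F' x) ∧
      InjOn F' {x | x ∈ (F i).source ∧ vp 2 k (F i x) = 0 ∧ ‖up 2 k (F i x)‖ ≤ 1} ∧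
      F' '' {x | x ∈ (F i).source ∧ vp 2 k (F i x) = 0 ∧ ‖up 2 k (F i x)‖ ≤ 1} =
        {z | vp 2 k z = 0 ∧ ‖up 2 k z‖ ≤ 1} := by
    intro i
    refine hHN k M (F i) (hFt i) (fun x hx h1 h2 => ?_) (fun x hx h1 h2 => ?_)
    · have hx' := (hFs i x).mp hx
      rw [hFa] at h1 h2
      have := hP i (Finset.mem_univ i) x hx' h1 h2
      rw [hFc]
      exact this
    · have h3 : f x ∈ K := by
        rw [← hFh i x hx, hK]
        exact h2
      rw [hFc]
      obtain ⟨z, hz⟩ := (hFs i x).mp hx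
      exact LD.comp_fun (g := invFun (h i)) (hz ▸ ld_inv (hi i) (hl i) z) (hf x h3)
  choose F' C c1 c2 c3 c4 c5 c6 c7 using hnd
  -- the map
  obtain ⟨g, hg1, hg2⟩ : ∃ g : M → N, (∀ i x, x ∈ C i → g x = h i (F' i x)) ∧
      ∀ x, (∀ i, x ∉ C i) → g x = f x := by
    refine ⟨fun x => if hx : ∃ i, x ∈ C i then h hx.choose (F' hx.choose x) else f x, ?_, ?_⟩
    · intro i x hx
      have hex : ∃ i, x ∈ C i := ⟨i, hx⟩
      simp only
      rw [dif_pos hex]
      have h1 : hex.choose = i := hdis _ _ x (c2 _ hex.choose_spec) (c2 _ hx)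
      rw [h1]
    · intro x hx
      simp only
      rw [dif_neg (fun ⟨i, hi⟩ => hx i hi)]
  have hgs : ∀ i x, x ∈ (F i).source → g x = h i (F' i x) := by
    intro i x hx
    by_cases hxC : x ∈ C i
    · exact hg1 i x hxC
    · rw [hg2 x (fun j hj => by
        have := hdis i j x hx (c2 j hj)
        rw [← this] at hj
        exact hxC hj), c4 i x hxC, hFh i x hx]
  have hCK : ∀ x, f x ∈ K → ∀ i, x ∉ C i := by
    intro x hx i hxC
    have h1 := c3 i x hxC
    rw [← hFh i x (c2 i hxC), hK] at hx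
    linarith
  have hgK : ∀ x, f x ∈ K → g x = f x := fun x hx => hg2 x (hCK x hx)
  -- the cores
  obtain ⟨S, hS⟩ : ∃ S : Fin a → Set M, ∀ i x, x ∈ S i ↔
      (x ∈ (F i).source ∧ vp 2 k (F i x) = 0 ∧ ‖up 2 k (F i x)‖ ≤ 1) :=
    ⟨fun i => {x | x ∈ (F i).source ∧ vp 2 k (F i x) = 0 ∧ ‖up 2 k (F i x)‖ ≤ 1},
      fun _ _ => Iff.rfl⟩
  have hSe : ∀ i, {x | x ∈ (F i).source ∧ vp 2 k (F i x) = 0 ∧ ‖up 2 k (F i x)‖ ≤ 1} = S i :=
    fun i => Set.ext fun x => (hS i x).symm
  have hX : ∀ x, f x ∈ K ∪ ⋃ i, h i '' {z | vp 2 k z = 0 ∧ ‖up 2 k z‖ ≤ 1} ↔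
      (f x ∈ K ∨ ∃ i, x ∈ S i) := by
    intro x
    rw [mem_union, mem_iUnion]
    refine or_congr_right (exists_congr fun i => ?_)
    rw [hS]
    constructor
    · rintro ⟨z, hz, hzx⟩
      have h1 : x ∈ (F i).source := (hFs i x).mpr ⟨z, hzx⟩
      have h2 : F i x = z := by rw [hFa, ← hzx, inv_app (hi i)]
      rw [h2]
      exact ⟨h1, hz⟩
    · rintro ⟨h1, h2⟩
      exact ⟨F i x, h2, hFh i x h1⟩
  have hSg : ∀ i x, x ∈ S i → vp 2 k (F' i x) = 0 ∧ ‖up 2 k (F' i x)‖ ≤ 1 := by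
    intro i x hx
    have h1 : F' i x ∈ F' i '' S i := ⟨x, hx, rfl⟩
    rw [← hSe, c7] at h1
    exact h1
  have hSK : ∀ i x, x ∈ S i → f x ∉ K → g x ∉ K := by
    intro i x hx hxK hgx
    obtain ⟨h1, h2, h3⟩ := (hS i x).mp hx
    rw [hgs i x h1, hK] at hgx
    obtain ⟨h4, h5⟩ := hSg i x hx
    obtain ⟨x₁, hx₁, hFx₁⟩ : ∃ x₁ ∈ (F i).source, F i x₁ = F' i x := by
      have h6 : F' i x ∈ (F i).target := by rw [hFt]; exact mem_univ _
      exact ⟨(F i).symm (F' i x), (F i).map_target h6, (F i).right_inv h6⟩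
    have h7 : x₁ ∉ C i := by
      intro h8
      have h9 := c3 i x₁ h8
      rw [hFx₁] at h9
      linarith
    have h8 : x₁ ∈ S i := by
      rw [hS, hFx₁]
      exact ⟨hx₁, h4, h5⟩
    have h9 : F' i x₁ = F' i x := by rw [c4 i x₁ h7, hFx₁]
    have h10 : x₁ = x := c6 i (by rw [hSe]; exact h8) (by rw [hSe]; exact hx) h9
    apply hxK
    rw [← hFh i x h1, hK, ← h10, hFx₁]
    exact hgx
  refine ⟨f, g, hN, ?_, ?_, ?_⟩
  · -- local diffeomorphism
    intro x hx
    rcases (hX x).mp hx with hx | ⟨i, hx⟩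
    · have h1 : IsClosed (⋃ i, C i) := isClosed_iUnion_of_finite fun i => (c1 i).isClosed
      have h2 : x ∈ (⋃ i, C i)ᶜ := by
        rw [mem_compl_iff, mem_iUnion]
        rintro ⟨i, hi⟩
        exact hCK x hx i hi
      refine (hf x hx).congr ?_
      filter_upwards [h1.isOpen_compl.mem_nhds h2] with y hy
      refine hg2 y fun i hi => hy (mem_iUnion.mpr ⟨i, hi⟩)
    · obtain ⟨h1, h2, h3⟩ := (hS i x).mp hx
      have h4 := c5 i x h1 h2 h3
      refine (LD.comp_fun (hl i _) h4).congr ?_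
      filter_upwards [(F i).open_source.mem_nhds h1] with y hy
      exact hgs i y hy
  · -- injectivity
    intro x hx y hy hxy
    rw [mem_preimage, hX] at hx hy
    have mix : ∀ x y, f x ∈ K → f y ∉ K → (∃ i, y ∈ S i) → g x ≠ g y := by
      rintro x y hx hy ⟨i, hi⟩ hxy
      apply hSK i y hi hy
      rw [← hxy, hgK x hx]
      exact hx
    by_cases h1 : f x ∈ K
    · by_cases h2 : f y ∈ K
      · rw [hgK x h1, hgK y h2] at hxy
        exact f.injective hxy
      · exact absurd hxy (mix x y h1 h2 (hy.resolve_left h2))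
    · by_cases h2 : f y ∈ K
      · exact absurd hxy.symm (mix y x h2 h1 (hx.resolve_left h1))
      · obtain ⟨i, hxi⟩ := hx.resolve_left h1
        obtain ⟨j, hyj⟩ := hy.resolve_left h2
        have h3 := ((hS i x).mp hxi).1
        have h4 := ((hS j y).mp hyj).1
        rw [hgs i x h3, hgs j y h4] at hxy
        by_cases hij : i = j
        · subst hij
          exact c6 i (by rw [hSe]; exact hxi) (by rw [hSe]; exact hyj) (hi i hxy)
        · exact absurd hxy (hd i j _ _ hij)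
  · -- the image
    ext y
    constructor
    · rintro ⟨x, hx, rfl⟩
      rw [mem_preimage, hX] at hx
      rcases hx with hx | ⟨i, hx⟩
      · left
        rw [hgK x hx]
        exact hx
      · right
        rw [mem_iUnion]
        refine ⟨i, F' i x, hSg i x hx, (hgs i x ((hS i x).mp hx).1).symm⟩
    · rintro (hy | hy)
      · refine ⟨f.symm y, ?_, ?_⟩
        · rw [mem_preimage, f.apply_symm_apply]
          exact Or.inl hy
        · rw [hgK _ (by rw [f.apply_symm_apply]; exact hy), f.apply_symm_apply]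
      · rw [mem_iUnion] at hy
        obtain ⟨i, z, hz, rfl⟩ := hy
        have h1 : z ∈ F' i '' S i := by
          rw [← hSe, c7]
          exact hz
        obtain ⟨x, hx, rfl⟩ := h1
        refine ⟨x, ?_, hgs i x ((hS i x).mp hx).1⟩
        rw [mem_preimage, hX]
        exact Or.inr ⟨i, hx⟩

end Pool.Agent.N550.KH.Two

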