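import Pool.Agent.N550.KH.Stm
import Pool.Agent.N550.SH.Two

/-!
# Project KH: good position over a ball (helper756)
-/

set_option autoImplicit false

open Set Filter Topology Metric Function MeasureTheory
open scoped Manifold ContDiff

noncomputable section

namespace Pool.Agent.N550.KH.Zero

open Pool.Agent.Y522 Pool.Agent.N550.KH

/-- the unit ball is not contained in a set with one-dimensional Hausdorff measure zero -/
theorem exists_notMem {n : ℕ} (hn : 0 < n) {A : Set (E n)}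
    (hA : Measure.hausdorffMeasure 1 A = 0) : ∃ z ∈ ball (0 : E n) 1, z ∉ A := by
  by_contra hcon
  push Not at hcon
  set v : E n := EuclideanSpace.single ⟨0, hn⟩ (1 / 2 : ℝ) with hv
  have hv2 : ‖v‖ = 1 / 2 := by
    rw [hv, PiLp.norm_single]
    norm_num
  have h1 : segment ℝ (0 : E n) v ⊆ A := by
    refine Subset.trans ?_ hcon
    refine (convex_ball (0 : E n) 1).segment_subset (mem_ball_self one_pos) ?_
    rw [mem_ball_zero_iff, hv2]
    norm_num
  have h2 := measure_mono_null h1 hA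
  rw [hausdorffMeasure_segment, edist_eq_zero] at h2
  rw [← h2, norm_zero] at hv2
  norm_num at hv2

section

variable {n : ℕ} {M N : Type} [TopologicalSpace M] [ChartedSpace (E n) M] [IsManifold (𝓡 n) ∞ M]
  [TopologicalSpace N] [ChartedSpace (E n) N] [IsManifold (𝓡 n) ∞ N]

/-- somewhere over the ball the homeomorphism is a local diffeomorphism -/
theorem exists_pt (f : M ≃ₜ N) (b : E n → N) (hn : 0 < n) (hnull : NullH n (f '' Bad n f))
    (hb : Injective b) (hbl : ∀ z, LD n b z) :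
    ∃ (z₀ : E n) (ε : ℝ), 0 < ε ∧ ∀ x w, w ∈ ball z₀ ε → f x = b w → LD n f x := by
  obtain ⟨z, hz, hzA⟩ := exists_notMem hn (hnull b hb hbl)
  set x₀ : M := f.symm (b z) with hx₀
  have hfx₀ : f x₀ = b z := f.apply_symm_apply _
  have hx₀B : ∀ᶠ y in 𝓝 x₀, ContMDiffAt (𝓡 n) (𝓡 n) ∞ f y := by
    by_contra h
    exact hzA ⟨x₀, h, hfx₀⟩
  have hball : IsOpen (b '' ball (0 : E n) 1) := isOpen_image_of_LD isOpen_ball fun x _ => hbl x
  have h2 : ∀ᶠ y in 𝓝 x₀, f y ∈ b '' ball (0 : E n) 1 := by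
    apply f.continuous.continuousAt
    rw [hfx₀]
    exact hball.mem_nhds ⟨z, hz, rfl⟩
  obtain ⟨W, hW, hWo, hxW⟩ := eventually_nhds_iff.1 (hx₀B.and h2)
  have hinv : ∀ w, invFun b (b w) = w := leftInverse_invFun hb
  have hinvl : ∀ w, LD n (invFun b) (b w) := fun w =>
    LD.inverse isOpen_univ (fun z _ => hbl z) (fun z _ => hinv z) (mem_univ w)
  obtain ⟨x₁, hx₁, hld⟩ := Pool.Agent.N550.SH.exists_ld (fun x => invFun b (f x)) W hWo x₀ hxW
    (by
      intro x hx
      obtain ⟨h3, w, -, hw⟩ := hW x hx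
      refine ContMDiffAt.comp (g := invFun b) x ?_ h3
      rw [← hw]
      exact (hinvl w).contMDiffAt)
    (by
      intro V hV hVo
      have h3 : (fun x => invFun b (f x)) '' V = invFun b '' (f '' V) := by
        rw [image_image]
      rw [h3]
      refine isOpen_image_of_LD (n := n) (f.isOpenMap V hVo) ?_
      rintro _ ⟨x, hx, rfl⟩
      obtain ⟨-, w, -, hw⟩ := hW x (hV hx)
      rw [← hw]
      exact hinvl w)
  obtain ⟨-, z₀, -, hz₀⟩ := hW x₁ hx₁
  have hldf : LD n f x₁ := by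
    have h3 : LD n (fun x => b (invFun b (f x))) x₁ :=
      LD.comp_fun (g := b) (f := fun x => invFun b (f x)) (hbl _) hld
    refine LD.congr h3 ?_
    filter_upwards [hWo.mem_nhds hx₁] with y hy
    obtain ⟨-, w, -, hw⟩ := hW y hy
    rw [← hw, hinv]
  have h4 : {x | LD n f x} ∈ 𝓝 x₁ := hldf.eventually
  have h5 : f '' {x | LD n f x} ∈ 𝓝 (b z₀) := by
    rw [hz₀]
    exact f.isOpenMap.image_mem_nhds h4
  have h6 : b ⁻¹' (f '' {x | LD n f x}) ∈ 𝓝 z₀ := (hbl z₀).continuousAt h5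
  obtain ⟨ε, hε, hεb⟩ := Metric.mem_nhds_iff.1 h6
  refine ⟨z₀, ε, hε, fun x w hw hxw => ?_⟩
  obtain ⟨x', hx', hx'w⟩ := hεb hw
  have : x' = x := f.injective (hx'w.trans hxw.symm)
  rw [← this]
  exact hx'

omit [IsManifold (𝓡 n) ∞ N] in
/-- null sets are invariant under diffeomorphisms -/
theorem nullH_image {A : Set N} (hA : NullH n A) {K : N → N} (hK : IsDf n K) :
    NullH n (K '' A) := by
  intro h hh hhl
  have hne : Nonempty N := ⟨h 0⟩
  have hinv : ∀ x, invFun K (K x) = x := leftInverse_invFun hK.1.1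
  have hinvl : ∀ y, LD n (invFun K) y := LD.inverse_bij hK.1 hK.2 hinv
  have hinvr : ∀ y, K (invFun K y) = y := rightInverse_invFun hK.1.2
  have h1 := hA (fun z => invFun K (h z))
    (by
      intro z z' hzz
      apply hh
      rw [← hinvr (h z), ← hinvr (h z')]
      exact congrArg K hzz)
    (fun z => LD.comp_fun (hinvl _) (hhl z))
  refine measure_mono_null ?_ h1
  rintro z ⟨x, hx, hxz⟩
  change invFun K (h z) ∈ A
  rw [← hxz, hinv]
  exact hx

end

theorem main : S_BS → S_SUPP → S_ZERO := by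
  intro hBS hSUPP n M N _ _ _ _ _ _ _ _ _ _ f b hn hnull hb hbl
  obtain ⟨z₀, ε, hε, hgood⟩ := exists_pt f b hn hnull hb hbl
  obtain ⟨κ, hκ, hκs, hκb⟩ := hBS n z₀ ε 1 hε
  obtain ⟨K, hK, hKb, -⟩ := hSUPP n N b hb hbl κ hκ hκs
  have hKc : Continuous K := continuous_iff_continuousAt.2 fun x => (hK.2 x).continuousAt
  have hKo : IsOpenMap K := fun s hs => isOpen_image_of_LD hs fun x _ => hK.2 x
  let Kh : N ≃ₜ N := (Equiv.ofBijective K hK.1).toHomeomorphOfContinuousOpen hKc hKo
  have hKh : ∀ x, Kh x = K x := fun x => rfl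
  refine ⟨f.trans Kh, ?_, ?_⟩
  · have h1 := nullH_image hnull hK
    intro h hh hhl
    refine measure_mono_null (preimage_mono ?_) (h1 h hh hhl)
    rintro _ ⟨x, hx, rfl⟩
    refine ⟨f x, ⟨x, ?_, rfl⟩, rfl⟩
    intro hcon
    apply hx
    filter_upwards [hcon] with y hy
    exact ContMDiffAt.comp (g := K) y (hK.2 _).contMDiffAt hy
  · intro x z hx hz
    obtain ⟨w, hw, rfl⟩ := hκb (mem_closedBall_zero_iff.2 hz)
    have h1 : K (f x) = K (b w) := by
      rw [hKb]
      exact hx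
    have h2 : LD n f x := hgood x w hw (hK.1.1 h1)
    have h3 : LD n (fun y => K (f y)) x := LD.comp_fun (g := K) (f := f) (hK.2 _) h2
    exact h3

end Pool.Agent.N550.KH.Zero
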