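import Pool.Agent.N550.KH.Fin
import Pool.Agent.N550.KH.Cell
import Pool.Agent.N550.KH.A2
import Pool.Agent.N550.KH.A2C
import Pool.Agent.N550.KH.Arc
import Pool.Agent.N550.KH.Asm
import Pool.Agent.N550.KH.Core
import Pool.Agent.N550.KH.Cut
import Pool.Agent.N550.KH.Disc
import Pool.Agent.N550.KH.End
import Pool.Agent.N550.KH.Ext
import Pool.Agent.N550.KH.Hnd
import Pool.Agent.N550.KH.Hol
import Pool.Agent.N550.KH.Jn
import Pool.Agent.N550.KH.Mod
import Pool.Agent.N550.KH.Null
import Pool.Agent.N550.KH.One
import Pool.Agent.N550.KH.Rat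
import Pool.Agent.N550.KH.Refl
import Pool.Agent.N550.KH.Reg
import Pool.Agent.N550.KH.Shift
import Pool.Agent.N550.KH.Supp
import Pool.Agent.N550.KH.Trig
import Pool.Agent.N550.KH.Two
import Pool.Agent.N550.KH.Zero

/-!
# Project KH: all the lemmas together
-/

set_option autoImplicit false

open Set Filter Topology Metric Function MeasureTheory
open scoped Manifold ContDiff

noncomputable section

namespace Pool.Agent.N550.KH

open Pool.Agent.Y522

theorem mod : S_MOD := Mod.main Cut.main

theorem a2 : S_A2 :=
  A2.main (A2C.main (Hol.main mod (Rat.main Trig.main)) Refl.main (Disc.main mod))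

theorem hnd : S_HND := Hnd.main Core.main a2 Ext.main Jn.main

theorem arc : S_ARC := Arc.main Core.main Ext.main Jn.main

theorem asm : S_ASM := Asm.main End.main

theorem zero : S_ZERO := Zero.main Shift.main.2.2 Supp.main

theorem one : S_ONE := One.main Shift.main.2.1 Supp.main Reg.main arc

theorem two : S_TWO := Two.main Shift.main.2.1 Supp.main Reg.main hnd

/-- **The theorem.** -/
theorem fin : S_FIN := Fin'.main Null.main zero one two Cell.main asm

end Pool.Agent.N550.KH
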