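import Pool.Agent.N550.KH.Stm

/-!
# Project KH: the proof of the theorem from the steps
-/

set_option autoImplicit false

open Set Filter Topology Metric Function MeasureTheory
open scoped Manifold ContDiff

noncomputable section

namespace Pool.Agent.N550.KH.Fin'

open Pool.Agent.Y522 Pool.Agent.N550.KH

section

variable {n : ℕ} {M N P : Type} [TopologicalSpace M] [ChartedSpace (E n) M]
  [TopologicalSpace N] [ChartedSpace (E n) N] [TopologicalSpace P] [ChartedSpace (E n) P]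

/-- a diffeomorphism as a homeomorphism, with its inverse -/
theorem exists_homeo {κ : M → N} (hκ : IsDf n κ) :
    ∃ K : M ≃ₜ N, (∀ x, K x = κ x) ∧ (∀ x, LD n K x) ∧ ∀ y, LD n K.symm y := by
  have hc : Continuous κ := continuous_iff_continuousAt.2 fun x => (hκ.2 x).continuousAt
  have ho : IsOpenMap κ := fun s hs => isOpen_image_of_LD (n := n) hs fun x _ => hκ.2 x
  let e : M ≃ N := Equiv.ofBijective κ hκ.1
  let K : M ≃ₜ N := e.toHomeomorphOfContinuousOpen hc ho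
  have hK : ∀ x, K x = κ x := fun _ => rfl
  refine ⟨K, hK, fun x => hκ.2 x, fun y => ?_⟩
  exact LD.inverse_bij (k := κ) hκ.1 hκ.2 (fun x => K.symm_apply_apply x) y

theorem nullH_mono {A B : Set N} (h : A ⊆ B) (hB : NullH n B) : NullH n A :=
  fun c hc hl => measure_mono_null (preimage_mono h) (hB c hc hl)

theorem nullH_image {A : Set M} (K : M ≃ₜ N) (hK : ∀ y, LD n K.symm y) (hA : NullH n A) :
    NullH n (K '' A) := by
  intro h hi hl
  have h1 := hA (fun z => K.symm (h z)) (K.symm.injective.comp hi)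
    (fun z => (hK (h z)).comp_fun (hl z))
  refine measure_mono_null ?_ h1
  rintro z ⟨x, hx, hxz⟩
  show K.symm (h z) ∈ A
  rw [← hxz, K.symm_apply_apply]
  exact hx

theorem bad_comp (f : M → N) (K : N ≃ₜ P) (hK : ∀ x, LD n K x) :
    Bad n (fun x => K (f x)) ⊆ Bad n f := by
  intro x hx hcon
  apply hx
  filter_upwards [hcon] with y hy
  exact ContMDiffAt.comp (g := K) y (hK (f y)).contMDiffAt hy

theorem isOpen_ld (f : M → N) : IsOpen {x | LD n f x} := by
  rw [isOpen_iff_mem_nhds]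
  exact fun x hx => hx.eventually

end

theorem main (hNULL : S_NULL) (hZERO : S_ZERO) (hONE : S_ONE) (hTWO : S_TWO) (hCELL : S_CELL)
    (hASM : S_ASM) : S_FIN := by
  intro M N _ _ _ _ _ _ _ _ _ _ a d b l K h c H f hf
  have hf0 : NullH 4 (f '' Bad 4 f) := hNULL 4 N _ hf
  obtain ⟨f1, hn1, hl1⟩ := hZERO 4 M N f b (by norm_num) hf0 H.b_inj H.b_ld
  -- the 1-handles
  have step : ∀ j : ℕ, j ≤ a → ∃ f2 : M ≃ₜ N, NullH 4 (f2 '' Bad 4 f2) ∧
      ∀ x, f2 x ∈ b '' closedBall 0 1 ∪ (⋃ (i : Fin a) (_ : (i : ℕ) < j),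
        l i '' {z | vp 1 3 z = 0 ∧ ‖up 1 3 z‖ ≤ 1}) → LD 4 f2 x := by
    intro j
    induction j with
    | zero =>
      intro _
      refine ⟨f1, hn1, fun x hx => ?_⟩
      rcases hx with ⟨z, hz, hzx⟩ | hx
      · exact hl1 x z hzx.symm (by simpa using hz)
      · simp at hx
    | succ j ih =>
      intro hj
      obtain ⟨f2, hn2, hl2⟩ := ih (by omega)
      obtain ⟨f3, hn3, hl3⟩ := hONE 3 M N f2 (l ⟨j, by omega⟩) _ (by norm_num) hn2
        (H.l_inj _) (H.l_ld _) (fun z => by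
          rw [← H.l_att ⟨j, by omega⟩ z]
          constructor
          · rintro (hz | hz)
            · exact hz
            · obtain ⟨i, hi, w, -, hw⟩ := mem_iUnion₂.1 hz
              refine absurd hw.symm (H.l_dis _ _ z w ?_)
              intro hcon
              rw [← hcon] at hi
              exact absurd hi (by simp)
          · exact fun hz => Or.inl hz) hl2
      refine ⟨f3, hn3, fun x hx => hl3 x ?_⟩
      rcases hx with hx | hx
      · exact Or.inl (Or.inl hx)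
      · obtain ⟨i, hi, w, hw, hwx⟩ := mem_iUnion₂.1 hx
        rcases Nat.lt_succ_iff_lt_or_eq.1 hi with h1 | h1
        · exact Or.inl (Or.inr (mem_iUnion₂.2 ⟨i, h1, w, hw, hwx⟩))
        · refine Or.inr ⟨w, hw, ?_⟩
          have : i = ⟨j, by omega⟩ := Fin.ext h1
          rw [← this]
          exact hwx
  obtain ⟨f2, hn2, hl2⟩ := step a le_rfl
  have hl2' : ∀ x, f2 x ∈ b '' closedBall 0 1 ∪
      (⋃ i, l i '' {z | vp 1 3 z = 0 ∧ ‖up 1 3 z‖ ≤ 1}) → LD 4 f2 x := by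
    intro x hx
    refine hl2 x ?_
    rcases hx with hx | hx
    · exact Or.inl hx
    · obtain ⟨i, hi⟩ := mem_iUnion.1 hx
      exact Or.inr (mem_iUnion₂.2 ⟨i, i.2, hi⟩)
  -- the compression
  have hO : IsOpen {y | LD 4 f2 (f2.symm y)} := (isOpen_ld (n := 4) f2).preimage f2.symm.continuous
  obtain ⟨κ, hκ, hKκ⟩ := H.K_cmp _ hO (fun y hy => by
    show LD 4 f2 (f2.symm y)
    exact hl2' _ (by rw [f2.apply_symm_apply]; exact hy))
  obtain ⟨κ', hκ', hκl, hκs⟩ := exists_homeo hκ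
  set f3 : M ≃ₜ N := f2.trans κ' with hf3
  have hf3x : ∀ x, f3 x = κ' (f2 x) := fun _ => rfl
  have hn3 : NullH 4 (f3 '' Bad 4 f3) := by
    refine nullH_mono ?_ (nullH_image κ' hκs hn2)
    rintro _ ⟨x, hx, rfl⟩
    exact ⟨f2 x, ⟨x, bad_comp f2 κ' hκl hx, rfl⟩, rfl⟩
  have hl3 : ∀ x, f3 x ∈ K → LD 4 f3 x := by
    intro x hx
    obtain ⟨y, hy, hyx⟩ := hKκ hx
    rw [hf3x, ← hκ'] at hyx
    have h1 : y = f2 x := κ'.injective hyx
    have h2 : LD 4 f2 (f2.symm y) := hy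
    rw [h1, f2.symm_apply_apply] at h2
    exact (hκl (f2 x)).comp_fun h2
  obtain ⟨f4, g, hn4, hg1, hg2, hg3⟩ := hTWO 2 d M N f3 h K (by norm_num) hn3 H.h_inj H.h_ld
    H.h_att H.h_dis hl3 H.K_cpt.isClosed
  set X : Set N := K ∪ ⋃ i, h i '' {z | vp 2 2 z = 0 ∧ ‖up 2 2 z‖ ≤ 1} with hX
  obtain ⟨c', hci, hcl, hcr⟩ := hCELL 4 M N f4 c hn4 H.c_inj H.c_ld
  refine hASM 4 M N (f4 ⁻¹' X) X c' c g (by norm_num) ?_ hci hcl ?_ H.c_inj H.c_ld H.c_range
    hg1 hg2 hg3
  · refine ⟨f4.symm (b 0), ?_⟩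
    show f4 (f4.symm (b 0)) ∈ X
    rw [f4.apply_symm_apply]
    exact Or.inl (H.K_sub (Or.inl ⟨0, by simp, rfl⟩))
  · rw [hcr, H.c_range]
    rfl

end Pool.Agent.N550.KH.Fin'
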