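import Pool.Agent.N550.KH.Stm

/-!
# Project KH, subtask KH/RAT (helper647): an embedded annulus is almost holomorphic near a circle
-/

set_option autoImplicit false

open Set Filter Topology Metric Function
open scoped ContDiff ComplexConjugate

noncomputable section

namespace Pool.Agent.N550.KH.Rat

open Pool.Agent.N550.KH

lemma isOpen_An (s η : ℝ) : IsOpen (An s η) :=
  (isOpen_lt continuous_const continuous_norm).inter (isOpen_lt continuous_norm continuous_const)

lemma det_eq (L : ℂ →L[ℝ] ℂ) :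
    L.det = (L 1).re * (L Complex.I).im - (L 1).im * (L Complex.I).re := by
  have h : L.det = LinearMap.det (L : ℂ →ₗ[ℝ] ℂ) := rfl
  rw [h, ← LinearMap.det_toMatrix Complex.basisOneI, Matrix.det_fin_two]
  simp [LinearMap.toMatrix_apply]
  ring

lemma lin_eq (L : ℂ →L[ℝ] ℂ) (z : ℂ) : L z = z.re * L 1 + z.im * L Complex.I := by
  conv_lhs => rw [← Complex.re_add_im z]
  rw [map_add]
  have h1 : ((z.re : ℝ) : ℂ) = z.re • (1 : ℂ) := by simp
  have h2 : ((z.im : ℝ) : ℂ) * Complex.I = z.im • Complex.I := by simp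
  rw [h1, h2, map_smul, map_smul]
  simp

/-- the orientation form is multiplied by the determinant -/
lemma det_form (L : ℂ →L[ℝ] ℂ) (u v : ℂ) :
    (conj (L u) * L v).im = L.det * (conj u * v).im := by
  rw [lin_eq L u, lin_eq L v, det_eq]
  simp
  ring

/-- smooth inverse of an injective map with invertible derivative -/
lemma inv_smooth (e : ℂ → ℂ) (U : Set ℂ) (hU : IsOpen U) (he : ContDiffOn ℝ ∞ e U)
    (hi : InjOn e U) (hd : ∀ x ∈ U, 0 < (fderiv ℝ e x).det) :
    ∃ g : ℂ → ℂ, IsOpen (e '' U) ∧ ContDiffOn ℝ ∞ g (e '' U) ∧ (∀ x ∈ U, g (e x) = x) := by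
  have hg : ∀ x ∈ U, invFunOn e U (e x) = x := fun x hx => hi.leftInvOn_invFunOn hx
  have hne : (∞ : WithTop ℕ∞) ≠ 0 := by simp
  have key : ∀ x ∈ U, e '' U ∈ 𝓝 (e x) ∧ ContDiffAt ℝ ∞ (invFunOn e U) (e x) := by
    intro x hx
    have hc : ContDiffAt ℝ ∞ e x := he.contDiffAt (hU.mem_nhds hx)
    set L := (fderiv ℝ e x).toContinuousLinearEquivOfDetNeZero (hd x hx).ne' with hL
    have hL' : (L : ℂ →L[ℝ] ℂ) = fderiv ℝ e x :=
      ContinuousLinearMap.coe_toContinuousLinearEquivOfDetNeZero _ _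
    have hf' : HasFDerivAt e (L : ℂ →L[ℝ] ℂ) x := by
      rw [hL']
      exact (hc.differentiableAt hne).hasFDerivAt
    have hs := hc.hasStrictFDerivAt' hf' hne
    have hmap := hs.map_nhds_eq_of_equiv
    refine ⟨?_, ?_⟩
    · rw [← hmap]
      exact image_mem_map (hU.mem_nhds hx)
    · have h1 := hc.to_localInverse hf' hne
      refine h1.congr_of_eventuallyEq ?_
      have h2 : ∀ᶠ y in 𝓝 (e x), e (hc.localInverse hf' hne y) = y :=
        hs.eventually_right_inverse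
      have h3 : ∀ᶠ y in 𝓝 (e x), hc.localInverse hf' hne y ∈ U := by
        have := h1.continuousAt
        apply this.eventually
        rw [hc.localInverse_apply_image hf' hne]
        exact hU.mem_nhds hx
      filter_upwards [h2, h3] with y hy1 hy2
      have := hg _ hy2
      rw [hy1] at this
      exact this
  refine ⟨invFunOn e U, ?_, ?_, hg⟩
  · rw [isOpen_iff_mem_nhds]
    rintro _ ⟨x, hx, rfl⟩
    exact (key x hx).1
  · rintro _ ⟨x, hx, rfl⟩
    exact (key x hx).2.contDiffWithinAt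

/-- approximation on the circle of radius `s` -/
lemma circle_approx (hT : S_TRIG) (e : ℂ → ℂ) (s : ℝ) (hs : 0 < s) (U : Set ℂ) (hU : IsOpen U)
    (he : ContDiffOn ℝ ∞ e U) (hsU : ∀ x : ℂ, ‖x‖ = s → x ∈ U) (ε : ℝ) (hε : 0 < ε) :
    ∃ h : ℂ → ℂ, (∀ z, z ≠ 0 → DifferentiableAt ℂ h z) ∧
      ∀ x : ℂ, ‖x‖ = s → ‖h x - e x‖ ≤ ε ∧
        ‖Complex.I * x * deriv h x - fderiv ℝ e x (Complex.I * x)‖ ≤ ε := by
  have hne : (∞ : WithTop ℕ∞) ≠ 0 := by simp
  have hs' : (s : ℂ) ≠ 0 := by exact_mod_cast hs.ne'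
  set c : ℝ → ℂ := fun θ => s * Complex.exp (θ * Complex.I) with hc
  have hcn : ∀ θ, ‖c θ‖ = s := by
    intro θ
    change ‖(s : ℂ) * Complex.exp (θ * Complex.I)‖ = s
    rw [norm_mul, Complex.norm_exp_ofReal_mul_I, mul_one, Complex.norm_real]
    exact abs_of_pos hs
  have hcd : ∀ θ, HasDerivAt c (Complex.I * c θ) θ := by
    intro θ
    have h1 : HasDerivAt (fun θ : ℝ => (θ : ℂ) * Complex.I) (1 * Complex.I) θ :=
      (Complex.ofRealCLM.hasDerivAt (x := θ)).mul_const Complex.I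
    have h2 : HasDerivAt (fun θ : ℝ => (s : ℂ) * Complex.exp ((θ : ℂ) * Complex.I))
        (s * (Complex.exp ((θ : ℂ) * Complex.I) * (1 * Complex.I))) θ :=
      (h1.cexp).const_mul (s : ℂ)
    refine h2.congr_deriv ?_
    change _ = Complex.I * (s * Complex.exp (θ * Complex.I))
    ring
  have hcc : ContDiff ℝ ∞ c := by
    have h1 : ContDiff ℝ ∞ (fun θ : ℝ => (θ : ℂ) * Complex.I) :=
      Complex.ofRealCLM.contDiff.mul contDiff_const
    exact contDiff_const.mul (Complex.contDiff_exp.comp h1)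
  have hec : ∀ x : ℂ, ‖x‖ = s → ContDiffAt ℝ ∞ e x :=
    fun x hx => he.contDiffAt (hU.mem_nhds (hsU x hx))
  have g1 : ContDiff ℝ ∞ (fun θ => e (c θ)) := by
    rw [contDiff_iff_contDiffAt]
    intro θ
    exact ContDiffAt.comp θ (hec _ (hcn θ)) hcc.contDiffAt
  have g2 : ∀ θ, (fun θ => e (c θ)) (θ + 2 * Real.pi) = (fun θ => e (c θ)) θ := by
    intro θ
    have : c (θ + 2 * Real.pi) = c θ := by
      change (s : ℂ) * Complex.exp (((θ + 2 * Real.pi : ℝ) : ℂ) * Complex.I) =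
        s * Complex.exp (θ * Complex.I)
      push_cast
      rw [add_mul, Complex.exp_add, Complex.exp_two_pi_mul_I, mul_one]
    simp only [this]
  obtain ⟨h0, hh0, hh1⟩ := hT (fun θ => e (c θ)) g1 g2 ε hε
  · refine ⟨fun x => h0 (x / s), ?_, ?_⟩
    · intro z hz
      have h1 : DifferentiableAt ℂ (fun x : ℂ => x / (s : ℂ)) z := by fun_prop
      exact DifferentiableAt.comp z (hh0 (z / s) (div_ne_zero hz hs')) h1
    · intro x hx
      have hx0 : x ≠ 0 := by
        rintro rfl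
        simp at hx
        exact hs.ne hx
      have hxc : c x.arg = x := by
        simp only [hc]
        rw [← hx]
        exact Complex.norm_mul_exp_arg_mul_I x
      have hxe : Complex.exp (x.arg * Complex.I) = x / s := by
        rw [eq_div_iff hs', mul_comm]
        exact hxc
      obtain ⟨h1, h2⟩ := hh1 x.arg
      rw [hxe] at h1 h2
      rw [hxc] at h1
      have hd1 : HasDerivAt (fun x : ℂ => h0 (x / s)) (deriv h0 (x / s) * (1 / s)) x := by
        have h3 : HasDerivAt (fun x : ℂ => x / (s : ℂ)) (1 / s) x := (hasDerivAt_id x).div_const _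
        exact HasDerivAt.comp x (hh0 (x / s) (div_ne_zero hx0 hs')).hasDerivAt h3
      have hd2 : deriv (fun θ => e (c θ)) x.arg = fderiv ℝ e x (Complex.I * x) := by
        have h4 : HasFDerivAt e (fderiv ℝ e (c x.arg)) (c x.arg) :=
          ((hec _ (hcn _)).differentiableAt hne).hasFDerivAt
        have h5 := h4.comp_hasDerivAt x.arg (hcd x.arg)
        rw [hxc] at h5
        exact h5.deriv
      refine ⟨h1, ?_⟩
      rw [hd1.deriv]
      rw [hd2] at h2
      convert h2 using 3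
      field_simp

lemma fderiv_log_div (ψ : ℂ → ℂ) (x : ℂ) (L : ℂ →L[ℝ] ℂ) (hψ : HasFDerivAt ψ L x) (hx : x ≠ 0)
    (hz : ψ x * x⁻¹ ∈ Complex.slitPlane) (v : ℂ) :
    fderiv ℝ (fun y => Complex.log (ψ y * y⁻¹)) x v = L v / ψ x - v / x := by
  have h1 : HasFDerivAt (fun y : ℂ => y⁻¹)
      ((ContinuousLinearMap.toSpanSingleton ℂ (-(x ^ 2)⁻¹) : ℂ →L[ℂ] ℂ).restrictScalars ℝ) x :=
    (hasDerivAt_inv hx).hasFDerivAt.restrictScalars ℝ
  have h2 := hψ.mul h1
  have h3 : HasFDerivAt Complex.log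
      ((ContinuousLinearMap.toSpanSingleton ℂ (ψ x * x⁻¹)⁻¹ : ℂ →L[ℂ] ℂ).restrictScalars ℝ)
      (ψ x * x⁻¹) :=
    (Complex.hasDerivAt_log hz).hasFDerivAt.restrictScalars ℝ
  have h4 := HasFDerivAt.comp x (g := Complex.log) (f := fun y => ψ y * y⁻¹) h3 h2
  have hψ0 : ψ x ≠ 0 := by
    intro h
    rw [h, zero_mul] at hz
    exact Complex.slitPlane_ne_zero hz rfl
  have h5 := h4.fderiv
  change fderiv ℝ (fun y => Complex.log (ψ y * y⁻¹)) x = _ at h5
  rw [h5]
  simp
  field_simp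
  ring

/-- the derivatives are inverse to each other -/
lemma inv_deriv (e g : ℂ → ℂ) (U : Set ℂ) (hU : IsOpen U) (he : ContDiffOn ℝ ∞ e U)
    (hgo : IsOpen (e '' U)) (hg : ContDiffOn ℝ ∞ g (e '' U)) (hge : ∀ x ∈ U, g (e x) = x)
    (x : ℂ) (hx : x ∈ U) (v : ℂ) : fderiv ℝ g (e x) (fderiv ℝ e x v) = v := by
  have hne : (∞ : WithTop ℕ∞) ≠ 0 := by simp
  have h1 : HasFDerivAt e (fderiv ℝ e x) x :=
    ((he.contDiffAt (hU.mem_nhds hx)).differentiableAt hne).hasFDerivAt
  have h2 : HasFDerivAt g (fderiv ℝ g (e x)) (e x) :=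
    ((hg.contDiffAt (hgo.mem_nhds ⟨x, hx, rfl⟩)).differentiableAt hne).hasFDerivAt
  have h3 := h2.comp x h1
  have h4 : HasFDerivAt (g ∘ e) (ContinuousLinearMap.id ℝ ℂ) x := by
    refine (hasFDerivAt_id x).congr_of_eventuallyEq ?_
    filter_upwards [hU.mem_nhds hx] with y hy
    exact hge y hy
  have h5 := h3.unique h4
  have h6 := DFunLike.congr_fun h5 v
  simpa using h6

/-- positivity -/
lemma re_pos (e g : ℂ → ℂ) (U : Set ℂ) (hU : IsOpen U) (he : ContDiffOn ℝ ∞ e U)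
    (hd : ∀ x ∈ U, 0 < (fderiv ℝ e x).det)
    (hgo : IsOpen (e '' U)) (hg : ContDiffOn ℝ ∞ g (e '' U)) (hge : ∀ x ∈ U, g (e x) = x)
    (x : ℂ) (hx : x ∈ U) (hx0 : x ≠ 0) :
    0 < (fderiv ℝ g (e x) (-(Complex.I * fderiv ℝ e x (Complex.I * x))) / x).re := by
  set L := fderiv ℝ g (e x) with hL
  set b := fderiv ℝ e x (Complex.I * x) with hb
  have i1 : L b = Complex.I * x := inv_deriv e g U hU he hgo hg hge x hx _
  have i2 : L (fderiv ℝ e x x) = x := inv_deriv e g U hU he hgo hg hge x hx _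
  have hxn : 0 < Complex.normSq x := Complex.normSq_pos.mpr hx0
  have f0 : (conj x * (Complex.I * x)).im = Complex.normSq x := by
    simp [Complex.normSq_apply]
  have f1 := det_form L (fderiv ℝ e x x) b
  rw [i1, i2, f0] at f1
  have f2 := det_form (fderiv ℝ e x) x (Complex.I * x)
  rw [f0, ← hb] at f2
  rw [f2] at f1
  have hdL : 0 < L.det := by
    have h1 : 0 < (fderiv ℝ e x).det := hd x hx
    have h2 : 0 < (fderiv ℝ e x).det * Complex.normSq x := mul_pos h1 hxn
    by_contra h3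
    have h4 : L.det * ((fderiv ℝ e x).det * Complex.normSq x) ≤ 0 :=
      mul_nonpos_of_nonpos_of_nonneg (not_lt.mp h3) h2.le
    linarith
  have hb0 : b ≠ 0 := by
    intro h
    rw [h, map_zero] at i1
    exact mul_ne_zero Complex.I_ne_zero hx0 i1.symm
  have hbn : 0 < Complex.normSq b := Complex.normSq_pos.mpr hb0
  set ζ := L (-(Complex.I * b)) / x with hζ
  have i3 : L (-(Complex.I * b)) = ζ * x := by
    rw [hζ, div_mul_cancel₀ _ hx0]
  have f3 := det_form L (-(Complex.I * b)) b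
  rw [i1, i3] at f3
  have f4 : (conj (ζ * x) * (Complex.I * x)).im = ζ.re * Complex.normSq x := by
    simp [Complex.normSq_apply]
    ring
  have f5 : (conj (-(Complex.I * b)) * b).im = Complex.normSq b := by
    simp [Complex.normSq_apply]
    ring
  rw [f4, f5] at f3
  have h5 : 0 < ζ.re * Complex.normSq x := by
    rw [f3]
    exact mul_pos hdL hbn
  exact (pos_iff_pos_of_mul_pos h5).mpr hxn

theorem main : S_TRIG → S_RAT := by
  intro hT e s η hη hηs he hi hd
  have hne : (∞ : WithTop ℕ∞) ≠ 0 := by simp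
  have hs : 0 < s := hη.trans hηs
  have hUo := isOpen_An s η
  set U := An s η with hUdef
  have hKU : ∀ x : ℂ, ‖x‖ = s → x ∈ U := by
    intro x hx
    exact ⟨by rw [hx]; linarith, by rw [hx]; linarith⟩
  have hK0 : ∀ x : ℂ, ‖x‖ = s → x ≠ 0 := by
    rintro x hx rfl
    simp at hx
    exact hs.ne hx
  obtain ⟨g, hVo, hg, hge⟩ := inv_smooth e U hUo he hi hd
  set V := e '' U with hVdef
  have hKc : IsCompact (sphere (0 : ℂ) s) := isCompact_sphere 0 s
  have hKm : ∀ x : ℂ, x ∈ sphere (0 : ℂ) s ↔ ‖x‖ = s := fun x => mem_sphere_zero_iff_norm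
  have hKsub : sphere (0 : ℂ) s ⊆ U := fun x hx => hKU x ((hKm x).1 hx)
  have heK : ContinuousOn e (sphere (0 : ℂ) s) := he.continuousOn.mono hKsub
  have hdeU : ContinuousOn (fderiv ℝ e) U := he.continuousOn_fderiv_of_isOpen hUo (by simp)
  have hdgV : ContinuousOn (fderiv ℝ g) V := hg.continuousOn_fderiv_of_isOpen hVo (by simp)
  set b : ℂ → ℂ := fun x => fderiv ℝ e x (Complex.I * x) with hb
  have hbK : ContinuousOn b (sphere (0 : ℂ) s) :=
    (hdeU.mono hKsub).clm_apply (by fun_prop)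
  set q : ℂ → ℂ × ℂ × ℂ := fun x => (x, e x, b x) with hq
  have hqK : ContinuousOn q (sphere (0 : ℂ) s) :=
    continuousOn_id.prodMk (heK.prodMk hbK)
  have hQc : IsCompact (q '' sphere (0 : ℂ) s) := hKc.image_of_continuousOn hqK
  set f : ℂ × ℂ × ℂ → ℂ × ℂ × ℂ := fun p =>
    (g p.2.1 * p.1⁻¹, fderiv ℝ g p.2.1 p.2.2 / g p.2.1,
      fderiv ℝ g p.2.1 (-(Complex.I * p.2.2)) / g p.2.1) with hf
  have hge' : ∀ x : ℂ, ‖x‖ = s → g (e x) = x := fun x hx => hge x (hKU x hx)
  have heV : ∀ x : ℂ, ‖x‖ = s → e x ∈ V := fun x hx => ⟨x, hKU x hx, rfl⟩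
  have hfq : ∀ x : ℂ, ‖x‖ = s → ContinuousAt f (q x) := by
    intro x hx
    have c1 : ContinuousAt g (e x) := hg.continuousOn.continuousAt (hVo.mem_nhds (heV x hx))
    have c2 : ContinuousAt (fderiv ℝ g) (e x) := hdgV.continuousAt (hVo.mem_nhds (heV x hx))
    have p1 : ContinuousAt (fun p : ℂ × ℂ × ℂ => p.1) (q x) := continuousAt_fst
    have p2 : ContinuousAt (fun p : ℂ × ℂ × ℂ => p.2.1) (q x) := by fun_prop
    have p3 : ContinuousAt (fun p : ℂ × ℂ × ℂ => p.2.2) (q x) := by fun_prop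
    have g1 : ContinuousAt (fun p : ℂ × ℂ × ℂ => g p.2.1) (q x) :=
      ContinuousAt.comp (f := fun p : ℂ × ℂ × ℂ => p.2.1) c1 p2
    have g2 : ContinuousAt (fun p : ℂ × ℂ × ℂ => fderiv ℝ g p.2.1) (q x) :=
      ContinuousAt.comp (f := fun p : ℂ × ℂ × ℂ => p.2.1) c2 p2
    have n0 : g (q x).2.1 ≠ 0 := by
      change g (e x) ≠ 0
      rw [hge' x hx]
      exact hK0 x hx
    refine ContinuousAt.prodMk (g1.mul (p1.inv₀ (hK0 x hx))) (ContinuousAt.prodMk ?_ ?_)
    · exact (g2.clm_apply p3).div g1 n0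
    · exact (g2.clm_apply ((continuousAt_const.mul p3).neg)).div g1 n0
  set P : ℂ → ℂ := fun x => (f (q x)).2.2 with hP
  have hPK : ContinuousOn P (sphere (0 : ℂ) s) := by
    intro x hx
    have h1 : ContinuousWithinAt (f ∘ q) (sphere (0 : ℂ) s) x :=
      ContinuousAt.comp_continuousWithinAt (hfq x ((hKm x).1 hx)) (hqK x hx)
    exact h1.snd.snd
  have hPpos : ∀ x : ℂ, ‖x‖ = s → 0 < (P x).re := by
    intro x hx
    have h1 := re_pos e g U hUo he hd hVo hg hge x (hKU x hx) (hK0 x hx)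
    change 0 < (fderiv ℝ g (e x) (-(Complex.I * fderiv ℝ e x (Complex.I * x))) / g (e x)).re
    rw [hge' x hx]
    exact h1
  have hKne : (sphere (0 : ℂ) s).Nonempty := ⟨(s : ℂ), by
    rw [hKm, Complex.norm_real]
    exact abs_of_pos hs⟩
  obtain ⟨x0, hx0, hmin⟩ := hKc.exists_isMinOn hKne
    (Complex.continuous_re.comp_continuousOn hPK)
  obtain ⟨C0, hC0⟩ := hKc.exists_bound_of_continuousOn (hPK.sub continuousOn_const : ContinuousOn
    (fun x => P x - 1) (sphere (0 : ℂ) s))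
  have hc0 : 0 < (P x0).re := hPpos x0 ((hKm x0).1 hx0)
  refine ⟨(P x0).re / 2, C0 + 1, by linarith, ?_⟩
  intro ε hε
  set c := (P x0).re / 2 with hc
  have hcpos : 0 < c := by rw [hc]; linarith
  set ε2 := min (min (ε / 2) c) (1 / 2) with hε2
  have e2pos : 0 < ε2 := lt_min (lt_min (by linarith) hcpos) (by norm_num)
  have e2a : ε2 ≤ ε / 2 := (min_le_left _ _).trans (min_le_left _ _)
  have e2b : ε2 ≤ c := (min_le_left _ _).trans (min_le_right _ _)
  have e2c : ε2 ≤ 1 / 2 := min_le_right _ _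
  have hunif := hQc.uniformContinuousAt_of_continuousAt f
    (by rintro _ ⟨x, hx, rfl⟩; exact hfq x ((hKm x).1 hx)) (dist_mem_uniformity e2pos)
  obtain ⟨δ1, hδ1, hu⟩ := Metric.mem_uniformity_dist.1 hunif
  have heKc : IsCompact (e '' sphere (0 : ℂ) s) := hKc.image_of_continuousOn heK
  obtain ⟨δ2, hδ2, hth⟩ := heKc.exists_thickening_subset_open hVo (by
    rintro _ ⟨x, hx, rfl⟩
    exact heV x ((hKm x).1 hx))
  set ε1 := min δ1 δ2 / 2 with hε1
  have hm12 : 0 < min δ1 δ2 := lt_min hδ1 hδ2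
  have e1pos : 0 < ε1 := by rw [hε1]; linarith
  have e1a : ε1 < δ1 := by have := min_le_left δ1 δ2; rw [hε1]; linarith
  have e1b : ε1 < δ2 := by have := min_le_right δ1 δ2; rw [hε1]; linarith
  obtain ⟨h, hh, hh1⟩ := circle_approx hT e s hs U hUo he hKU ε1 e1pos
  -- facts on the circle
  have hhV : ∀ x : ℂ, ‖x‖ = s → h x ∈ V := by
    intro x hx
    apply hth
    rw [mem_thickening_iff]
    refine ⟨e x, ⟨x, (hKm x).2 hx, rfl⟩, ?_⟩
    rw [dist_eq_norm]
    exact (hh1 x hx).1.trans_lt e1b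
  have hcl : ∀ x : ℂ, ‖x‖ = s →
      dist (f (q x)) (f (x, h x, Complex.I * x * deriv h x)) < ε2 := by
    intro x hx
    refine hu (a := q x) (b := (x, h x, Complex.I * x * deriv h x)) ?_ ⟨x, (hKm x).2 hx, rfl⟩
    rw [Prod.dist_eq, Prod.dist_eq]
    refine max_lt (by simpa [hq] using hδ1) (max_lt ?_ ?_)
    · rw [dist_comm, dist_eq_norm]
      exact (hh1 x hx).1.trans_lt e1a
    · rw [dist_comm, dist_eq_norm]
      exact (hh1 x hx).2.trans_lt e1a
  -- the open set
  have hhc : ContinuousOn h {x | x ≠ 0} :=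
    fun x hx => (hh x hx).continuousAt.continuousWithinAt
  have hA : IsOpen ({x : ℂ | x ≠ 0} ∩ h ⁻¹' V) := hhc.isOpen_inter_preimage isOpen_ne hVo
  have hFc : ContinuousOn (fun x => g (h x) * x⁻¹) ({x : ℂ | x ≠ 0} ∩ h ⁻¹' V) := by
    refine ContinuousOn.mul (hg.continuousOn.comp (hhc.mono inter_subset_left) ?_) ?_
    · intro x hx
      exact hx.2
    · exact continuousOn_id.inv₀ fun x hx => hx.1
  have hO := hFc.isOpen_inter_preimage hA (isOpen_ball (x := (1 : ℂ)) (ε := 1 / 2))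
  set O := ({x : ℂ | x ≠ 0} ∩ h ⁻¹' V) ∩ (fun x => g (h x) * x⁻¹) ⁻¹' ball (1 : ℂ) (1 / 2) with hOdef
  have hbase : ∀ x : ℂ, ‖x‖ = s → (f (q x)).1 = 1 ∧ (f (q x)).2.1 = Complex.I := by
    intro x hx
    constructor
    · change g (e x) * x⁻¹ = 1
      rw [hge' x hx]
      exact mul_inv_cancel₀ (hK0 x hx)
    · change fderiv ℝ g (e x) (fderiv ℝ e x (Complex.I * x)) / g (e x) = Complex.I
      rw [hge' x hx, inv_deriv e g U hUo he hVo hg hge x (hKU x hx)]
      exact mul_div_cancel_right₀ _ (hK0 x hx)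
  have hcl' : ∀ x : ℂ, ‖x‖ = s → ‖g (h x) * x⁻¹ - 1‖ < ε2 ∧
      ‖fderiv ℝ g (h x) (Complex.I * x * deriv h x) / g (h x) - Complex.I‖ < ε2 ∧
      ‖fderiv ℝ g (h x) (-(Complex.I * (Complex.I * x * deriv h x))) / g (h x) - P x‖ < ε2 := by
    intro x hx
    have h1 := hcl x hx
    rw [Prod.dist_eq, Prod.dist_eq, max_lt_iff, max_lt_iff, (hbase x hx).1, (hbase x hx).2] at h1
    obtain ⟨h2, h3, h4⟩ := h1
    rw [dist_comm, dist_eq_norm] at h2 h3 h4
    exact ⟨h2, h3, h4⟩
  have hKO : sphere (0 : ℂ) s ⊆ O := by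
    intro x hx
    have hx' := (hKm x).1 hx
    refine ⟨⟨hK0 x hx', hhV x hx'⟩, ?_⟩
    change g (h x) * x⁻¹ ∈ ball (1 : ℂ) (1 / 2)
    rw [mem_ball, dist_eq_norm]
    exact (hcl' x hx').1.trans_le e2c
  obtain ⟨δ3, hδ3, hth3⟩ := hKc.exists_thickening_subset_open hO hKO
  set δ := min δ3 s with hδdef
  have hδ : 0 < δ := lt_min hδ3 hs
  have hAnO : An s δ ⊆ O := by
    intro x hx
    apply hth3
    rw [mem_thickening_iff]
    have hx0 : 0 < ‖x‖ := by
      have h1 := hx.1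
      have h2 : δ ≤ s := min_le_right _ _
      linarith
    have hd1 : |‖x‖ - s| < δ := by
      rw [abs_lt]
      exact ⟨by have := hx.1; linarith, by have := hx.2; linarith⟩
    refine ⟨((s / ‖x‖ : ℝ) : ℂ) * x, ?_, ?_⟩
    · rw [hKm, norm_mul, Complex.norm_real, norm_div, norm_norm, div_mul_cancel₀ _ hx0.ne']
      exact abs_of_pos hs
    · rw [dist_eq_norm]
      have h1 : x - ((s / ‖x‖ : ℝ) : ℂ) * x = (((‖x‖ - s) / ‖x‖ : ℝ) : ℂ) * x := by
        have h2 : (((‖x‖ - s) / ‖x‖ : ℝ) : ℂ) = 1 - ((s / ‖x‖ : ℝ) : ℂ) := by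
          rw [sub_div, div_self hx0.ne']
          push_cast
          ring
        rw [h2]
        ring
      rw [h1, norm_mul, Complex.norm_real, norm_div, norm_norm, div_mul_cancel₀ _ hx0.ne']
      exact hd1.trans_le (min_le_left _ _)
  have hslit : ∀ x ∈ O, g (h x) * x⁻¹ ∈ Complex.slitPlane := by
    intro x hx
    have h1 : g (h x) * x⁻¹ ∈ ball (1 : ℂ) (1 / 2) := hx.2
    rw [mem_ball, dist_eq_norm] at h1
    have h2 := Complex.mem_slitPlane_of_norm_lt_one (z := g (h x) * x⁻¹ - 1) (by linarith)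
    simpa using h2
  have hexp : ∀ x ∈ O, x * Complex.exp (Complex.log (g (h x) * x⁻¹)) = g (h x) := by
    intro x hx
    have hx0 : x ≠ 0 := hx.1.1
    rw [Complex.exp_log (Complex.slitPlane_ne_zero (hslit x hx))]
    field_simp
  refine ⟨h, fun y => Complex.log (g (h y) * y⁻¹), δ, hδ, ?_, ?_, ?_, ?_⟩
  · intro x hx
    exact (hh x (hAnO hx).1.1).differentiableWithinAt
  · intro x hx
    have hxO := hAnO hx
    have hx0 : x ≠ 0 := hxO.1.1
    have hhs : ContDiffAt ℝ ∞ h x := by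
      have h1 : DifferentiableOn ℂ h {x | x ≠ 0} := fun x hx => (hh x hx).differentiableWithinAt
      have h2 : ContDiffOn ℂ ∞ h {x | x ≠ 0} := h1.contDiffOn isOpen_ne
      exact (h2.contDiffAt (isOpen_ne.mem_nhds hx0)).restrict_scalars ℝ
    have hgs : ContDiffAt ℝ ∞ g (h x) := hg.contDiffAt (hVo.mem_nhds hxO.1.2)
    have h3 : ContDiffAt ℝ ∞ (fun y => g (h y)) x := hgs.comp x hhs
    have h4 : ContDiffAt ℝ ∞ (fun y : ℂ => y⁻¹) x := contDiffAt_inv ℝ hx0
    have h5 : ContDiffAt ℝ ∞ (fun y => g (h y) * y⁻¹) x := h3.mul h4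
    have h6 : ContDiffAt ℝ ∞ Complex.log (g (h x) * x⁻¹) :=
      (Complex.contDiffAt_log (hslit x hxO)).restrict_scalars ℝ
    exact (ContDiffAt.comp x (g := Complex.log) (f := fun y => g (h y) * y⁻¹) h6
      h5).contDiffWithinAt
  · intro x hx
    have hxO := hAnO hx
    have hxV : h x ∈ V := hxO.1.2
    obtain ⟨y, hyU, hy⟩ := hxV
    rw [hexp x hxO, ← hy, hge y hyU]
    exact ⟨hyU, rfl⟩
  · intro x hx
    have hxO : x ∈ O := hKO ((hKm x).2 hx)
    have hx0 : x ≠ 0 := hK0 x hx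
    obtain ⟨k1, k2, k3⟩ := hcl' x hx
    have hhd : HasFDerivAt h
        ((ContinuousLinearMap.toSpanSingleton ℂ (deriv h x) : ℂ →L[ℂ] ℂ).restrictScalars ℝ) x :=
      (hh x hx0).hasDerivAt.hasFDerivAt.restrictScalars ℝ
    have hgd : HasFDerivAt g (fderiv ℝ g (h x)) (h x) :=
      ((hg.contDiffAt (hVo.mem_nhds (hhV x hx))).differentiableAt hne).hasFDerivAt
    have hψ := HasFDerivAt.comp x (g := g) (f := h) hgd hhd
    have hform := fun v => fderiv_log_div (g ∘ h) x _ hψ hx0 (hslit x hxO) v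
    have hg0 : g (h x) ≠ 0 := by
      have h1 := hslit x hxO
      intro h2
      rw [h2, zero_mul] at h1
      exact Complex.slitPlane_ne_zero h1 rfl
    have m1 : fderiv ℝ (fun y => Complex.log (g (h y) * y⁻¹)) x (Complex.I * x) =
        fderiv ℝ g (h x) (Complex.I * x * deriv h x) / g (h x) - Complex.I := by
      have h1 := hform (Complex.I * x)
      simp only [comp_apply] at h1
      rw [h1, mul_div_cancel_right₀ _ hx0]
      simp
    have m2 : fderiv ℝ (fun y => Complex.log (g (h y) * y⁻¹)) x x =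
        fderiv ℝ g (h x) (-(Complex.I * (Complex.I * x * deriv h x))) / g (h x) - 1 := by
      have h1 := hform x
      simp only [comp_apply] at h1
      rw [h1, div_self hx0]
      have h2 : -(Complex.I * (Complex.I * x * deriv h x)) = x * deriv h x := by
        linear_combination (-(x * deriv h x)) * Complex.I_mul_I
      rw [h2]
      simp
    refine ⟨?_, ?_, ?_, ?_⟩
    · have h1 := Complex.norm_log_one_add_half_le_self (z := g (h x) * x⁻¹ - 1) (by linarith)
      have h2 : 1 + (g (h x) * x⁻¹ - 1) = g (h x) * x⁻¹ := by ring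
      rw [h2] at h1
      change ‖Complex.log (g (h x) * x⁻¹)‖ ≤ ε
      linarith
    · rw [m1]
      linarith
    · rw [m2]
      have h1 : ‖P x - 1‖ ≤ C0 := hC0 x ((hKm x).2 hx)
      have h2 : fderiv ℝ g (h x) (-(Complex.I * (Complex.I * x * deriv h x))) / g (h x) - 1 =
        (fderiv ℝ g (h x) (-(Complex.I * (Complex.I * x * deriv h x))) / g (h x) - P x) +
          (P x - 1) := by ring
      rw [h2]
      have h3 := norm_add_le
        (fderiv ℝ g (h x) (-(Complex.I * (Complex.I * x * deriv h x))) / g (h x) - P x) (P x - 1)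
      linarith
    · rw [m2]
      have h1 : (P x0).re ≤ (P x).re := hmin ((hKm x).2 hx)
      have h2 := Complex.abs_re_le_norm
        (fderiv ℝ g (h x) (-(Complex.I * (Complex.I * x * deriv h x))) / g (h x) - P x)
      have h3 := (abs_lt.1 (h2.trans_lt k3)).1
      simp only [Complex.sub_re, Complex.one_re] at h3 ⊢
      linarith

end Pool.Agent.N550.KH.Rat
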