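import Pool.Agent.Y522.Basic

/-!
# Project KH: statements

Smooth homeomorphisms onto closed 4-manifolds which have a handle decomposition without 3-handles.
`E n` is the Euclidean space of dimension `n`, `LD n f x` says that `f` is a local diffeomorphism
at `x` (both spaces are manifolds modelled on `E n`).
-/

set_option autoImplicit false

open Set Filter Topology Metric Function MeasureTheory
open scoped Manifold ContDiff

noncomputable section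

namespace Pool.Agent.N550.KH

open Pool.Agent.Y522

/-! ### Definitions -/

/-- the first `m` coordinates of a point of `E (m + k)` -/
def up (m k : ℕ) : E (m + k) →L[ℝ] E m :=
  LinearMap.toContinuousLinearMap
    { toFun := fun z => WithLp.toLp 2 (fun i : Fin m => z (Fin.castAdd k i))
      map_add' := fun x y => by ext i; simp
      map_smul' := fun c x => by ext i; simp }

/-- the last `k` coordinates of a point of `E (m + k)` -/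
def vp (m k : ℕ) : E (m + k) →L[ℝ] E k :=
  LinearMap.toContinuousLinearMap
    { toFun := fun z => WithLp.toLp 2 (fun i : Fin k => z (Fin.natAdd m i))
      map_add' := fun x y => by ext i; simp
      map_smul' := fun c x => by ext i; simp }

/-- the point of `E (m + k)` with first coordinates `u` and last coordinates `v` -/
def jn (m k : ℕ) (u : E m) (v : E k) : E (m + k) :=
  WithLp.toLp 2 (Fin.append (fun i => u i) (fun i => v i))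

@[simp] theorem up_apply (m k : ℕ) (z : E (m + k)) (i : Fin m) :
    up m k z i = z (Fin.castAdd k i) := rfl

@[simp] theorem vp_apply (m k : ℕ) (z : E (m + k)) (i : Fin k) :
    vp m k z i = z (Fin.natAdd m i) := rfl

@[simp] theorem up_jn (m k : ℕ) (u : E m) (v : E k) : up m k (jn m k u v) = u := by
  ext i; simp [jn]

@[simp] theorem vp_jn (m k : ℕ) (u : E m) (v : E k) : vp m k (jn m k u v) = v := by
  ext i; simp [jn]

@[simp] theorem jn_up_vp (m k : ℕ) (z : E (m + k)) : jn m k (up m k z) (vp m k z) = z := by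
  ext i
  refine Fin.addCases (fun i => ?_) (fun i => ?_) i <;> simp [jn]

/-- `κ` is a diffeomorphism: a bijective local diffeomorphism -/
def IsDf (n : ℕ) {M N : Type} [TopologicalSpace M] [ChartedSpace (E n) M]
    [TopologicalSpace N] [ChartedSpace (E n) N] (κ : M → N) : Prop :=
  Bijective κ ∧ ∀ x, LD n κ x

/-- the set of the points near which `f` is not smooth -/
def Bad (n : ℕ) {M N : Type} [TopologicalSpace M] [ChartedSpace (E n) M]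
    [TopologicalSpace N] [ChartedSpace (E n) N] (f : M → N) : Set M :=
  {x | ¬ ∀ᶠ y in 𝓝 x, ContMDiffAt (𝓡 n) (𝓡 n) ∞ f y}

/-- `f` is smooth near `x` -/
def Sm (n : ℕ) {M N : Type} [TopologicalSpace M] [ChartedSpace (E n) M]
    [TopologicalSpace N] [ChartedSpace (E n) N] (f : M → N) (x : M) : Prop :=
  ∀ᶠ y in 𝓝 x, ContMDiffAt (𝓡 n) (𝓡 n) ∞ f y

/-- a subset of a manifold with one-dimensional Hausdorff measure zero, in the preferred charts -/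
def NullC (n : ℕ) {N : Type} [TopologicalSpace N] [ChartedSpace (E n) N] (B : Set N) : Prop :=
  ∀ x₀ : N, Measure.hausdorffMeasure 1
    (chartAt (E n) x₀ '' ((chartAt (E n) x₀).source ∩ B) : Set (E n)) = 0

/-- a subset of a manifold with one-dimensional Hausdorff measure zero, in all the open
parametrizations by `E n` -/
def NullH (n : ℕ) {N : Type} [TopologicalSpace N] [ChartedSpace (E n) N] (B : Set N) : Prop :=
  ∀ h : E n → N, Injective h → (∀ z, LD n h z) →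
    Measure.hausdorffMeasure 1 (h ⁻¹' B : Set (E n)) = 0

/-! ### Part 1: complex analysis and dimension two -/

/-- the open annulus about the circle of radius `s` -/
def An (s η : ℝ) : Set ℂ := {x | s - η < ‖x‖ ∧ ‖x‖ < s + η}

/-- logarithmic cutoff functions -/
def S_CUT : Prop :=
  ∀ ε δ : ℝ, 0 < ε → 0 < δ → ∃ (χ : ℝ → ℝ) (ρ : ℝ), ContDiff ℝ ∞ χ ∧ 0 < ρ ∧ ρ < δ ∧
    (∀ t, |t| ≤ ρ → χ t = 1) ∧ (∀ t, δ ≤ |t| → χ t = 0) ∧ (∀ t, 0 ≤ χ t ∧ χ t ≤ 1) ∧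
    ∀ t, |t| * |deriv χ t| ≤ ε

/-- Modification near a circle: a germ `x ↦ x exp (ℓ x)` along the circle of radius `s`, which is
`C^0`-close to the identity with small angular derivative of `ℓ`, extends to a diffeomorphism of the
plane with support in a given annulus. -/
def S_MOD : Prop :=
  ∀ s c C η : ℝ, 0 < s → 0 < c → 0 < η → η < s → ∃ ε : ℝ, 0 < ε ∧
    ∀ (ℓ : ℂ → ℂ) (δ : ℝ), 0 < δ → ContDiffOn ℝ ∞ ℓ (An s δ) →
      (∀ x : ℂ, ‖x‖ = s → ‖ℓ x‖ ≤ ε ∧ ‖fderiv ℝ ℓ x (Complex.I * x)‖ ≤ ε ∧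
        ‖fderiv ℝ ℓ x x‖ ≤ C ∧ c ≤ 1 + (fderiv ℝ ℓ x x).re) →
      ∃ Φ : ℂ → ℂ, Bijective Φ ∧ ContDiff ℝ ∞ Φ ∧ (∀ x, 0 < (fderiv ℝ Φ x).det) ∧
        (∀ x, x ∉ An s η → Φ x = x) ∧
        ∃ ρ : ℝ, 0 < ρ ∧ ρ < δ ∧ ∀ x ∈ An s ρ, Φ x = x * Complex.exp (ℓ x)

/-- trigonometric approximation of closed curves in the `C^1` norm -/
def S_TRIG : Prop :=
  ∀ γ : ℝ → ℂ, ContDiff ℝ ∞ γ → (∀ θ, γ (θ + 2 * Real.pi) = γ θ) → ∀ ε : ℝ, 0 < ε →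
    ∃ h : ℂ → ℂ, (∀ z, z ≠ 0 → DifferentiableAt ℂ h z) ∧
      ∀ θ : ℝ, ‖h (Complex.exp (θ * Complex.I)) - γ θ‖ ≤ ε ∧
        ‖Complex.I * Complex.exp (θ * Complex.I) * deriv h (Complex.exp (θ * Complex.I)) -
          deriv γ θ‖ ≤ ε

/-- An orientation preserving embedding `e` of an annulus can be made holomorphic near the circle of
radius `s` by composition with a germ `x ↦ x exp (ℓ x)` as in `S_MOD`, with arbitrarily small `ε`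
and fixed `c`, `C`. -/
def S_RAT : Prop :=
  ∀ (e : ℂ → ℂ) (s η : ℝ), 0 < η → η < s → ContDiffOn ℝ ∞ e (An s η) → InjOn e (An s η) →
    (∀ x ∈ An s η, 0 < (fderiv ℝ e x).det) → ∃ c C : ℝ, 0 < c ∧ ∀ ε : ℝ, 0 < ε →
      ∃ (h ℓ : ℂ → ℂ) (δ : ℝ), 0 < δ ∧ DifferentiableOn ℂ h (An s δ) ∧
        ContDiffOn ℝ ∞ ℓ (An s δ) ∧
        (∀ x ∈ An s δ, x * Complex.exp (ℓ x) ∈ An s η ∧ e (x * Complex.exp (ℓ x)) = h x) ∧
        ∀ x : ℂ, ‖x‖ = s → ‖ℓ x‖ ≤ ε ∧ ‖fderiv ℝ ℓ x (Complex.I * x)‖ ≤ ε ∧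
          ‖fderiv ℝ ℓ x x‖ ≤ C ∧ c ≤ 1 + (fderiv ℝ ℓ x x).re

/-- A diffeomorphism of the plane with support in an annulus which makes `e` holomorphic near the
circle of radius `s`. -/
def S_HOL : Prop :=
  ∀ (e : ℂ → ℂ) (s η : ℝ), 0 < η → η < s → ContDiffOn ℝ ∞ e (An s η) → InjOn e (An s η) →
    (∀ x ∈ An s η, 0 < (fderiv ℝ e x).det) →
      ∃ Φ : ℂ → ℂ, Bijective Φ ∧ ContDiff ℝ ∞ Φ ∧ (∀ x, 0 < (fderiv ℝ Φ x).det) ∧
        (∀ x, x ∉ An s η → Φ x = x) ∧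
        ∃ ρ : ℝ, 0 < ρ ∧ ρ < η ∧ DifferentiableOn ℂ (fun x => e (Φ x)) (An s ρ)

/-- Schwarz reflection for injective holomorphic functions -/
def S_REFL : Prop :=
  ∀ (a : ℂ → ℂ) (s η : ℝ), 0 < η → η < s →
    DifferentiableOn ℂ a {x | s - η < ‖x‖ ∧ ‖x‖ < s} → InjOn a {x | s - η < ‖x‖ ∧ ‖x‖ < s} →
    (∀ x, s - η < ‖x‖ → ‖x‖ < s → ‖a x‖ < 1) →
    (∀ ε : ℝ, 0 < ε → ∃ ρ : ℝ, 0 < ρ ∧ ∀ x, s - ρ < ‖x‖ → ‖x‖ < s → 1 - ε < ‖a x‖) →
    ∃ (F : ℂ → ℂ) (ρ : ℝ), 0 < ρ ∧ ρ < η ∧ DifferentiableOn ℂ F (An s ρ) ∧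
      InjOn F (An s ρ) ∧ (∀ x, s - ρ < ‖x‖ → ‖x‖ < s → F x = a x) ∧
      ∀ x, ‖x‖ = s → ‖F x‖ = 1

/-- A holomorphic embedding of an annulus which maps the circle of radius `s` to the unit circle and
its inside to the inside extends to a diffeomorphism of the discs. -/
def S_DISC : Prop :=
  ∀ (F : ℂ → ℂ) (s η : ℝ), 0 < η → η < s → DifferentiableOn ℂ F (An s η) → InjOn F (An s η) →
    (∀ x, ‖x‖ = s → ‖F x‖ = 1) → (∀ x, s - η < ‖x‖ → ‖x‖ < s → ‖F x‖ < 1) →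
    ∃ (A : ℂ → ℂ) (ρ : ℝ), 0 < ρ ∧ ρ < η ∧ BijOn A (ball 0 s) (ball 0 1) ∧
      ContDiffOn ℝ ∞ A (ball 0 s) ∧ (∀ x ∈ ball (0 : ℂ) s, 0 < (fderiv ℝ A x).det) ∧
      ∀ x, s - ρ < ‖x‖ → ‖x‖ < s → A x = F x

/-- The plane case, orientation preserving. -/
def S_A2C : Prop :=
  ∀ (e : OpenPartialHomeomorph ℂ ℂ) (r₀ r₁ : ℝ), 0 < r₀ → r₀ < r₁ → r₁ < 2 →
    e.source = ball 0 2 → e.target = univ →
    ContDiffOn ℝ ∞ e {x | r₀ < ‖x‖ ∧ ‖x‖ < 2} →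
    (∀ x, r₀ < ‖x‖ → ‖x‖ < 2 → 0 < (fderiv ℝ e x).det) →
    ∃ e' : ℂ → ℂ, BijOn e' (ball 0 2) univ ∧ ContDiffOn ℝ ∞ e' (ball 0 2) ∧
      (∀ x ∈ ball (0 : ℂ) 2, 0 < (fderiv ℝ e' x).det) ∧
      ∀ x, r₁ ≤ ‖x‖ → ‖x‖ < 2 → e' x = e x

/-- The plane case. -/
def S_A2 : Prop :=
  ∀ (H : E 2 → E 2) (r₀ r₁ : ℝ), 0 < r₀ → r₀ < r₁ → r₁ < 2 → IsOpenEmbedding H →
    range H = ball 0 2 → (∀ z, r₀ < ‖H z‖ → LD 2 H z) →
    ∃ Θ : E 2 → E 2, Injective Θ ∧ (∀ z, LD 2 Θ z) ∧ range Θ = ball 0 2 ∧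
      ∀ z, r₁ ≤ ‖H z‖ → Θ z = H z

/-! ### Part 2: tools on manifolds -/

/-- The two notions of null sets. -/
def S_NULL : Prop :=
  ∀ (n : ℕ) (N : Type) [TopologicalSpace N] [ChartedSpace (E n) N] [IsManifold (𝓡 n) ∞ N]
    (B : Set N), NullC n B → NullH n B

/-- Small perturbations of the identity. -/
def S_PERT : Prop :=
  ∀ (n : ℕ) (χ : E n → ℝ) (w : E n) (q : ℝ), ContDiff ℝ ∞ χ → q < 1 →
    (∀ z, ‖fderiv ℝ χ z‖ * ‖w‖ ≤ q) → IsDf n (fun z => z + χ z • w)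

/-- Vertical shifts. -/
def S_VS : Prop :=
  ∀ m k : ℕ, ∃ ρ : ℝ, 0 < ρ ∧ ∀ y : E k, ‖y‖ < ρ → ∃ κ : E (m + k) → E (m + k),
    IsDf (m + k) κ ∧ (∃ R : ℝ, ∀ z, R ≤ ‖z‖ → κ z = z) ∧
    (∀ z, up m k (κ z) = up m k z) ∧
    ∀ z, ‖up m k z‖ ≤ 2 → ‖vp m k z‖ ≤ 1 → vp m k (κ z) = vp m k z + y

/-- Small balls are expanded to large balls. -/
def S_BS : Prop :=
  ∀ (n : ℕ) (z₀ : E n) (ε R : ℝ), 0 < ε → ∃ κ : E n → E n, IsDf n κ ∧
    (∃ R' : ℝ, ∀ z, R' ≤ ‖z‖ → κ z = z) ∧ closedBall 0 R ⊆ κ '' ball z₀ ε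

/-- Compactly supported diffeomorphisms of `E n` act on the manifolds. -/
def S_SUPP : Prop :=
  ∀ (n : ℕ) (N : Type) [TopologicalSpace N] [T2Space N] [ChartedSpace (E n) N]
    (h : E n → N), Injective h → (∀ z, LD n h z) → ∀ κ : E n → E n, IsDf n κ →
    (∃ R : ℝ, ∀ z, R ≤ ‖z‖ → κ z = z) →
    ∃ K : N → N, IsDf n K ∧ (∀ z, K (h z) = h (κ z)) ∧ ∀ x, x ∉ range h → K x = x

/-- Regular values. -/
def S_REG : Prop :=
  ∀ (m k : ℕ) (X : Type) [TopologicalSpace X] [SecondCountableTopology X]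
    [ChartedSpace (E (m + k)) X] [IsManifold (𝓡 (m + k)) ∞ X] (p : X → E k) (G : Set X),
    0 < k → IsOpen G → (∀ x ∈ G, ContMDiffAt (𝓡 (m + k)) (𝓡 k) ∞ p x) →
    (∀ j : Fin k, volume ((fun x => p x j) '' Gᶜ) = 0) →
    ∀ O : Set (E k), IsOpen O → O.Nonempty →
      ∃ a ∈ O, ∀ x, p x = a → x ∈ G ∧ Surjective (mfderiv (𝓡 (m + k)) (𝓡 k) p x)

/-- The preimage of the core disc of a handle is an embedded open disc. -/
def S_CORE : Prop :=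
  ∀ (m k : ℕ) (M : Type) [TopologicalSpace M] [T2Space M] [ChartedSpace (E (m + k)) M]
    [IsManifold (𝓡 (m + k)) ∞ M] (F : OpenPartialHomeomorph M (E (m + k))),
    F.target = univ →
    (∀ x ∈ F.source, vp m k (F x) = 0 → ‖up m k (F x)‖ < 2 → Sm (m + k) F x ∧
      Surjective (mfderiv (𝓡 (m + k)) (𝓡 k) (fun y => vp m k (F y)) x)) →
    ∃ j : E m → M, IsEmbedding j ∧ ContMDiff (𝓡 m) (𝓡 (m + k)) ∞ j ∧
      (∀ s, Injective (mfderiv (𝓡 m) (𝓡 (m + k)) j s)) ∧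
      range j = {x | x ∈ F.source ∧ vp m k (F x) = 0 ∧ ‖up m k (F x)‖ < 2}

/-- Smooth extension of functions from compact pieces of embedded discs. -/
def S_EXT : Prop :=
  ∀ (m k : ℕ) (M : Type) [TopologicalSpace M] [CompactSpace M] [T2Space M]
    [ChartedSpace (E (m + k)) M] [IsManifold (𝓡 (m + k)) ∞ M] (j : E m → M), Injective j →
    ContMDiff (𝓡 m) (𝓡 (m + k)) ∞ j →
    (∀ s, Injective (mfderiv (𝓡 m) (𝓡 (m + k)) j s)) →
    ∀ θ : E m → E m, ContDiff ℝ ∞ θ → ∀ R : ℝ,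
      ∃ τ : M → E m, ContMDiff (𝓡 (m + k)) (𝓡 m) ∞ τ ∧ ∀ s, ‖s‖ ≤ R → τ (j s) = θ s

/-- A criterion for local diffeomorphisms. -/
def S_JN : Prop :=
  ∀ (m k : ℕ) (M : Type) [TopologicalSpace M] [ChartedSpace (E (m + k)) M]
    [IsManifold (𝓡 (m + k)) ∞ M] (j : E m → M) (s : E m) (τ : M → E m) (v : M → E k)
    (θ : E m → E m), ContMDiffAt (𝓡 m) (𝓡 (m + k)) ∞ j s →
    (∀ᶠ x in 𝓝 (j s), ContMDiffAt (𝓡 (m + k)) (𝓡 m) ∞ τ x) →
    (∀ᶠ x in 𝓝 (j s), ContMDiffAt (𝓡 (m + k)) (𝓡 k) ∞ v x) →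
    Surjective (mfderiv (𝓡 (m + k)) (𝓡 k) v (j s)) →
    (∀ᶠ t in 𝓝 s, v (j t) = 0) → (∀ᶠ t in 𝓝 s, τ (j t) = θ t) → LD m θ s →
    LD (m + k) (fun x => jn m k (τ x) (v x)) (j s)

/-- The core arc of a 1-handle. -/
def S_ARC : Prop :=
  ∀ (k : ℕ) (M : Type) [TopologicalSpace M] [CompactSpace M] [T2Space M]
    [ChartedSpace (E (1 + k)) M] [IsManifold (𝓡 (1 + k)) ∞ M]
    (F : OpenPartialHomeomorph M (E (1 + k))), F.target = univ →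
    (∀ x ∈ F.source, vp 1 k (F x) = 0 → ‖up 1 k (F x)‖ < 2 → Sm (1 + k) F x ∧
      Surjective (mfderiv (𝓡 (1 + k)) (𝓡 k) (fun y => vp 1 k (F y)) x)) →
    (∀ x ∈ F.source, vp 1 k (F x) = 0 → 1 ≤ ‖up 1 k (F x)‖ → LD (1 + k) F x) →
    ∃ (F' : OpenPartialHomeomorph M (E (1 + k))) (C : Set M), F'.source = F.source ∧
      F'.target = univ ∧ IsCompact C ∧ C ⊆ F.source ∧ (∀ x ∈ C, Sm (1 + k) F x) ∧
      (∀ x, x ∉ C → F' x = F x) ∧ (∀ x ∈ F.source, 1 ≤ ‖up 1 k (F x)‖ → F' x = F x) ∧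
      (∀ x ∈ F.source, Sm (1 + k) F x → Sm (1 + k) F' x) ∧
      (∀ x ∈ F.source, LD (1 + k) F x → LD (1 + k) F' x) ∧
      ∀ x ∈ F.source, vp 1 k (F' x) = 0 → ‖up 1 k (F' x)‖ ≤ 1 → LD (1 + k) F' x

/-- The core disc of a 2-handle. -/
def S_HND : Prop :=
  ∀ (k : ℕ) (M : Type) [TopologicalSpace M] [CompactSpace M] [T2Space M]
    [ChartedSpace (E (2 + k)) M] [IsManifold (𝓡 (2 + k)) ∞ M]
    (F : OpenPartialHomeomorph M (E (2 + k))), F.target = univ →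
    (∀ x ∈ F.source, vp 2 k (F x) = 0 → ‖up 2 k (F x)‖ < 2 → Sm (2 + k) F x ∧
      Surjective (mfderiv (𝓡 (2 + k)) (𝓡 k) (fun y => vp 2 k (F y)) x)) →
    (∀ x ∈ F.source, vp 2 k (F x) = 0 → 1 ≤ ‖up 2 k (F x)‖ → LD (2 + k) F x) →
    ∃ (F' : M → E (2 + k)) (C : Set M), IsCompact C ∧ C ⊆ F.source ∧
      (∀ x ∈ C, ‖up 2 k (F x)‖ < 1) ∧ (∀ x, x ∉ C → F' x = F x) ∧
      (∀ x ∈ F.source, vp 2 k (F x) = 0 → ‖up 2 k (F x)‖ ≤ 1 → LD (2 + k) F' x) ∧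
      InjOn F' {x | x ∈ F.source ∧ vp 2 k (F x) = 0 ∧ ‖up 2 k (F x)‖ ≤ 1} ∧
      F' '' {x | x ∈ F.source ∧ vp 2 k (F x) = 0 ∧ ‖up 2 k (F x)‖ ≤ 1} =
        {z | vp 2 k z = 0 ∧ ‖up 2 k z‖ ≤ 1}

/-- Extension of an embedding of a neighbourhood of infinity, with one exceptional point. -/
def S_END : Prop :=
  ∀ (n : ℕ) (e : E n → E n) (R : ℝ), 0 < n → InjOn e {z | R < ‖z‖} →
    (∀ z, R < ‖z‖ → LD n e z) → Tendsto e (cocompact (E n)) (cocompact (E n)) →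
    (∀ R₁ : ℝ, ∃ A : ℝ, ∀ w : E n, A < ‖w‖ → ∃ z, R₁ < ‖z‖ ∧ e z = w) →
    ∃ G : E n ≃ₜ E n, (∀ z, z ≠ 0 → LD n G z) ∧ ∃ A : ℝ, ∀ z, A < ‖z‖ → G z = e z

/-- Assembly: a map near `X'` extends over the complementary cells, with one exceptional point. -/
def S_ASM : Prop :=
  ∀ (n : ℕ) (M N : Type) [TopologicalSpace M] [CompactSpace M] [T2Space M]
    [ChartedSpace (E n) M] [TopologicalSpace N] [CompactSpace N] [T2Space N]
    [ChartedSpace (E n) N] (X' : Set M) (X : Set N) (c' : E n → M) (c : E n → N)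
    (g : M → N), 0 < n → X'.Nonempty → Injective c' → (∀ z, LD n c' z) → range c' = X'ᶜ →
    Injective c → (∀ z, LD n c z) → range c = Xᶜ → (∀ x ∈ X', LD n g x) → InjOn g X' →
    g '' X' = X → ∃ G : M ≃ₜ N, ∃ x₀ : M, ∀ x, x ≠ x₀ → LD n G x

/-! ### Part 3: the steps of the proof -/

/-- Step 0: the homeomorphism can be made a local diffeomorphism over a given closed ball. -/
def S_ZERO : Prop :=
  ∀ (n : ℕ) (M N : Type) [TopologicalSpace M] [CompactSpace M] [T2Space M]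
    [ChartedSpace (E n) M] [IsManifold (𝓡 n) ∞ M] [TopologicalSpace N] [CompactSpace N]
    [T2Space N] [ChartedSpace (E n) N] [IsManifold (𝓡 n) ∞ N] (f : M ≃ₜ N) (b : E n → N),
    0 < n → NullH n (f '' Bad n f) → Injective b → (∀ z, LD n b z) →
    ∃ f' : M ≃ₜ N, NullH n (f' '' Bad n f') ∧ ∀ x z, f' x = b z → ‖z‖ ≤ 1 → LD n f' x

/-- Step 1: one 1-handle, with core arc `l '' {vp z = 0, ‖up z‖ ≤ 1}`, attached to `Y`. -/
def S_ONE : Prop :=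
  ∀ (k : ℕ) (M N : Type) [TopologicalSpace M] [CompactSpace M] [T2Space M]
    [ChartedSpace (E (1 + k)) M] [IsManifold (𝓡 (1 + k)) ∞ M] [TopologicalSpace N]
    [CompactSpace N] [T2Space N] [ChartedSpace (E (1 + k)) N] [IsManifold (𝓡 (1 + k)) ∞ N]
    (f : M ≃ₜ N) (l : E (1 + k) → N) (Y : Set N), 0 < k →
    NullH (1 + k) (f '' Bad (1 + k) f) → Injective l → (∀ z, LD (1 + k) l z) →
    (∀ z, l z ∈ Y ↔ 1 ≤ ‖up 1 k z‖) → (∀ x, f x ∈ Y → LD (1 + k) f x) →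
    ∃ f' : M ≃ₜ N, NullH (1 + k) (f' '' Bad (1 + k) f') ∧
      ∀ x, f' x ∈ Y ∪ l '' {z | vp 1 k z = 0 ∧ ‖up 1 k z‖ ≤ 1} → LD (1 + k) f' x

/-- Step 2: the 2-handles, attached to `K`. -/
def S_TWO : Prop :=
  ∀ (k a : ℕ) (M N : Type) [TopologicalSpace M] [CompactSpace M] [T2Space M]
    [ChartedSpace (E (2 + k)) M] [IsManifold (𝓡 (2 + k)) ∞ M] [TopologicalSpace N]
    [CompactSpace N] [T2Space N] [ChartedSpace (E (2 + k)) N] [IsManifold (𝓡 (2 + k)) ∞ N]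
    (f : M ≃ₜ N) (h : Fin a → E (2 + k) → N) (K : Set N), 0 < k →
    NullH (2 + k) (f '' Bad (2 + k) f) → (∀ i, Injective (h i)) →
    (∀ i z, LD (2 + k) (h i) z) → (∀ i z, h i z ∈ K ↔ 1 ≤ ‖up 2 k z‖) →
    (∀ i j z w, i ≠ j → h i z ≠ h j w) → (∀ x, f x ∈ K → LD (2 + k) f x) → IsClosed K →
    ∃ (f' : M ≃ₜ N) (g : M → N), NullH (2 + k) (f' '' Bad (2 + k) f') ∧
      (∀ x, f' x ∈ K ∪ ⋃ i, h i '' {z | vp 2 k z = 0 ∧ ‖up 2 k z‖ ≤ 1} → LD (2 + k) g x) ∧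
      InjOn g (f' ⁻¹' (K ∪ ⋃ i, h i '' {z | vp 2 k z = 0 ∧ ‖up 2 k z‖ ≤ 1})) ∧
      g '' (f' ⁻¹' (K ∪ ⋃ i, h i '' {z | vp 2 k z = 0 ∧ ‖up 2 k z‖ ≤ 1})) =
        K ∪ ⋃ i, h i '' {z | vp 2 k z = 0 ∧ ‖up 2 k z‖ ≤ 1}

/-- The preimage of an open cell is an open cell. -/
def S_CELL : Prop :=
  ∀ (n : ℕ) (M N : Type) [TopologicalSpace M] [T2Space M] [ChartedSpace (E n) M]
    [IsManifold (𝓡 n) ∞ M] [TopologicalSpace N] [ChartedSpace (E n) N] [IsManifold (𝓡 n) ∞ N]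
    (f : M ≃ₜ N) (c : E n → N), NullH n (f '' Bad n f) → Injective c → (∀ z, LD n c z) →
    ∃ c' : E n → M, Injective c' ∧ (∀ z, LD n c' z) ∧ range c' = f ⁻¹' range c

/-- A handle decomposition without 3-handles of a closed 4-manifold: one 0-handle `b`, the core arcs
of the 1-handles `l i`, a compact set `K` (the union of the handles of index at most one) which
can be compressed into every neighbourhood of the 0-handle and of the core arcs, the 2-handles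
`h i`, attached to `K`, and one open 4-handle `c`, the complement of `K` and the core discs. -/
structure Handles (N : Type) [TopologicalSpace N] [ChartedSpace (E 4) N] (a d : ℕ)
    (b : E 4 → N) (l : Fin a → E (1 + 3) → N) (K : Set N) (h : Fin d → E (2 + 2) → N)
    (c : E 4 → N) : Prop where
  b_inj : Injective b
  b_ld : ∀ z, LD 4 b z
  l_inj : ∀ i, Injective (l i)
  l_ld : ∀ i z, LD 4 (l i) z
  l_att : ∀ i z, l i z ∈ b '' closedBall 0 1 ↔ 1 ≤ ‖up 1 3 z‖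
  l_dis : ∀ i j z w, i ≠ j → l i z ≠ l j w
  K_cpt : IsCompact K
  K_sub : b '' closedBall 0 1 ∪ (⋃ i, l i '' {z | vp 1 3 z = 0 ∧ ‖up 1 3 z‖ ≤ 1}) ⊆ K
  K_cmp : ∀ O : Set N, IsOpen O →
    b '' closedBall 0 1 ∪ (⋃ i, l i '' {z | vp 1 3 z = 0 ∧ ‖up 1 3 z‖ ≤ 1}) ⊆ O →
    ∃ κ : N → N, IsDf 4 κ ∧ K ⊆ κ '' O
  h_inj : ∀ i, Injective (h i)
  h_ld : ∀ i z, LD 4 (h i) z
  h_att : ∀ i z, h i z ∈ K ↔ 1 ≤ ‖up 2 2 z‖
  h_dis : ∀ i j z w, i ≠ j → h i z ≠ h j w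
  c_inj : Injective c
  c_ld : ∀ z, LD 4 c z
  c_range : range c = (K ∪ ⋃ i, h i '' {z | vp 2 2 z = 0 ∧ ‖up 2 2 z‖ ≤ 1})ᶜ

/-- The theorem. -/
def S_FIN : Prop :=
  ∀ (M N : Type) [TopologicalSpace M] [CompactSpace M] [T2Space M] [ChartedSpace (E 4) M]
    [IsManifold (𝓡 4) ∞ M] [TopologicalSpace N] [CompactSpace N] [T2Space N]
    [ChartedSpace (E 4) N] [IsManifold (𝓡 4) ∞ N] (a d : ℕ) (b : E 4 → N)
    (l : Fin a → E (1 + 3) → N) (K : Set N) (h : Fin d → E (2 + 2) → N) (c : E 4 → N),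
    Handles N a d b l K h c → ∀ f : M ≃ₜ N, NullC 4 (f '' Bad 4 f) →
    ∃ G : M ≃ₜ N, ∃ x₀ : M, ∀ x, x ≠ x₀ → LD 4 G x

end Pool.Agent.N550.KH
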